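import Pool.Agent.H7.MAdd.Defs

/-!
# A4R: a meager set is eventually different, classical version, measurable in the parameter

Input: `s (i, τ)` means that the `i`-th nowhere dense set is disjoint from the basic open set of `τ`.

Construction.  For `n` let `t n` be the string with least code (`Encodable.encode`, or `Nat.find` over
`ℕ` with `Encodable.decode`) such that `t n ≠ []` and for all strings `σ` of length `n` and all
`i ≤ n` some initial segment `τ` of `σ ++ t n` has `s (i, τ)`; if there is none put `t n = [false]`.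
Put `u 0 = []`, `u (k+1) = u k ++ t (u k).length`, so `k ≤ (u k).length`.
`z` is the union of the `u k` (`Z s n := (u (n+1)).getD n false = true`) and
`F s (j, v) := (u (j+1)).length ≤ v` (that is `f j = (u (j+1)).length > j`).
If `∀ i, ∀ σ, ∃ τ, σ <+: τ ∧ s (i, τ)` then the `t n` are found: treat the finitely many pairs
`(σ, i)` one after another, extending the string each time.  For `j ≥ i` the window `[j, f j)` contains
`[(u j).length, (u (j+1)).length)`; if `r = z` there, then an initial segment `τ` of `σ ++ t`,
`σ` = first `(u j).length` bits of `r`, is an initial segment of `r` with `s (i, τ)`.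
Measurability: prove that `s ↦ u k` is measurable into `List Bool` with the σ-algebra `⊤`
(countable type): `t n` is a measurable function of `s` (`measurable_find`, or: the set where
`t n = w` is a countable Boolean combination of the sets `{s | s (i, τ)}`); composition over
countable types by `measurable_from_...`/ splitting into countably many cases
(`MeasurableSet.iUnion` over the value of `u k`).
-/

set_option autoImplicit false

namespace MAdd

/-- the parameter space -/
abbrev A4rS : Type := (ℕ × List Bool) → Prop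

/-- the string `w` works for all `σ` of length `n` and all `i ≤ n` -/
def a4rGood (n : ℕ) (w : List Bool) (s : A4rS) : Prop :=
  w ≠ [] ∧ ∀ σ : List Bool, σ.length = n → ∀ i, i ≤ n → ∃ τ, τ <+: σ ++ w ∧ s (i, τ)

/-- enumeration of the strings -/
def a4rW (k : ℕ) : List Bool := ((Encodable.decode k : Option (List Bool))).getD []

open Classical in
/-- the string chosen at length `n` -/
noncomputable def a4rT (n : ℕ) (s : A4rS) : List Bool :=
  if h : ∃ k, a4rGood n (a4rW k) s then a4rW (Nat.find h) else [false]

/-- the initial segments of the real -/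
noncomputable def a4rU (s : A4rS) : ℕ → List Bool
  | 0 => []
  | k + 1 => a4rU s k ++ a4rT (a4rU s k).length s

theorem a4r_meas_good (n : ℕ) (w : List Bool) : MeasurableSet {s | a4rGood n w s} := by
  have h : Measurable (fun s : A4rS => a4rGood n w s) := by
    unfold a4rGood
    refine Measurable.and measurable_const ?_
    refine Measurable.forall fun σ => Measurable.imp measurable_const ?_
    refine Measurable.forall fun i => Measurable.imp measurable_const ?_
    refine Measurable.exists fun τ => Measurable.and measurable_const ?_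
    exact measurable_pi_apply (i, τ)
  exact measurableSet_setOfPred.2 h

theorem a4r_comp {f : A4rS → List Bool} (hf : ∀ x, MeasurableSet {s | f s = x})
    {Q : List Bool → A4rS → Prop} (hQ : ∀ y, MeasurableSet {s | Q y s}) : MeasurableSet {s | Q (f s) s} := by
  have h : {s | Q (f s) s} = ⋃ y : List Bool, {s | f s = y} ∩ {s | Q y s} := by
    ext s
    simp
  rw [h]
  exact MeasurableSet.iUnion fun y => (hf y).inter (hQ y)

theorem a4r_meas_T (n : ℕ) (x : List Bool) : MeasurableSet {s | a4rT n s = x} := by
  classical
  have h : {s | a4rT n s = x} = (⋃ k : {k : ℕ // a4rW k = x}, ({s | a4rGood n (a4rW k.1) s} ∩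
      ⋂ l : {l : ℕ // l < k.1}, {s | a4rGood n (a4rW l.1) s}ᶜ)) ∪
      ({s | x = [false]} ∩ ⋂ k : ℕ, {s | a4rGood n (a4rW k) s}ᶜ) := by
    ext s
    simp only [Set.mem_ofPred_eq, Set.mem_union, Set.mem_iUnion, Set.mem_inter_iff, Set.mem_iInter,
      Set.mem_compl_iff]
    constructor
    · intro hx
      unfold a4rT at hx
      split_ifs at hx with h
      · left
        exact ⟨⟨Nat.find h, hx⟩, Nat.find_spec h, fun l => Nat.find_min h l.2⟩
      · right
        exact ⟨hx.symm, fun k hk => h ⟨k, hk⟩⟩
    · rintro (⟨⟨k, hk⟩, h1, h2⟩ | ⟨h1, h2⟩)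
      · have h : ∃ k, a4rGood n (a4rW k) s := ⟨k, h1⟩
        unfold a4rT
        rw [dif_pos h]
        have hf : Nat.find h = k := by
          rw [Nat.find_eq_iff]
          exact ⟨h1, fun l hl => h2 ⟨l, hl⟩⟩
        rw [hf]
        exact hk
      · unfold a4rT
        rw [dif_neg (fun ⟨k, hk⟩ => h2 k hk)]
        exact h1.symm
  rw [h]
  refine MeasurableSet.union (MeasurableSet.iUnion fun k => (a4r_meas_good _ _).inter
    (MeasurableSet.iInter fun l => (a4r_meas_good _ _).compl)) ?_
  exact MeasurableSet.inter (MeasurableSet.const _) (MeasurableSet.iInter fun k => (a4r_meas_good _ _).compl)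

theorem a4r_meas_U (k : ℕ) : ∀ x : List Bool, MeasurableSet {s | a4rU s k = x} := by
  induction k with
  | zero =>
    intro x
    exact MeasurableSet.const (([] : List Bool) = x)
  | succ k ih =>
    intro x
    have h : {s | a4rU s (k + 1) = x} = {s | (fun (y : List Bool) (s : A4rS) => y ++ a4rT y.length s = x) (a4rU s k) s} := rfl
    rw [h]
    refine a4r_comp (f := fun s => a4rU s k) ih (Q := fun (y : List Bool) (s : A4rS) => y ++ a4rT y.length s = x) (fun y => ?_)
    exact a4r_comp (f := fun s => a4rT y.length s) (a4r_meas_T y.length)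
      (Q := fun (z : List Bool) (_ : A4rS) => y ++ z = x) (fun z => MeasurableSet.const _)

theorem a4r_T_ne (n : ℕ) (s : A4rS) : a4rT n s ≠ [] := by
  classical
  unfold a4rT
  split_ifs with h
  · exact (Nat.find_spec h).1
  · simp

theorem a4r_len_lt (s : A4rS) (k : ℕ) : (a4rU s k).length < (a4rU s (k + 1)).length := by
  have : a4rU s (k + 1) = a4rU s k ++ a4rT (a4rU s k).length s := rfl
  rw [this, List.length_append]
  have h2 : 0 < (a4rT (a4rU s k).length s).length := List.length_pos_iff.2 (a4r_T_ne _ s)
  omega

theorem a4r_len (s : A4rS) (k : ℕ) : k ≤ (a4rU s k).length := by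
  induction k with
  | zero => exact Nat.zero_le _
  | succ k ih => exact Nat.succ_le_of_lt (lt_of_le_of_lt ih (a4r_len_lt s k))

theorem a4r_prefix (s : A4rS) {k l : ℕ} (h : k ≤ l) : a4rU s k <+: a4rU s l := by
  induction l with
  | zero =>
    obtain rfl : k = 0 := by omega
    exact List.prefix_rfl
  | succ l ih =>
    rcases Nat.lt_or_ge l k with h1 | h1
    · obtain rfl : k = l + 1 := by omega
      exact List.prefix_rfl
    · exact (ih h1).trans (List.prefix_append _ _)

theorem a4r_getD {x y : List Bool} (h : x <+: y) {m : ℕ} (hm : m < x.length) : y.getD m false = x.getD m false := by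
  obtain ⟨t, rfl⟩ := h
  exact List.getD_append _ _ _ _ hm

/-- the strings exist -/
theorem a4r_exists {s : A4rS} (hs : ∀ i σ, ∃ τ, σ <+: τ ∧ s (i, τ)) (P : Finset (List Bool × ℕ)) :
    ∃ w : List Bool, w ≠ [] ∧ ∀ p ∈ P, ∃ τ, τ <+: p.1 ++ w ∧ s (p.2, τ) := by
  classical
  induction P using Finset.induction_on with
  | empty => exact ⟨[false], by simp, by simp⟩
  | insert p P hp ih =>
    obtain ⟨w1, hw1, h1⟩ := ih
    obtain ⟨τ, ⟨r, hr⟩, hτ⟩ := hs p.2 (p.1 ++ w1)
    refine ⟨w1 ++ r, by simp [hw1], fun q hq => ?_⟩
    rcases Finset.mem_insert.1 hq with rfl | hq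
    · refine ⟨τ, ?_, hτ⟩
      rw [← List.append_assoc, hr]
    · obtain ⟨τ', h2, h3⟩ := h1 q hq
      refine ⟨τ', h2.trans ?_, h3⟩
      rw [← List.append_assoc]
      exact List.prefix_append _ _

theorem a4r_good {s : A4rS} (hs : ∀ i σ, ∃ τ, σ <+: τ ∧ s (i, τ)) (n : ℕ) : a4rGood n (a4rT n s) s := by
  classical
  have hfin : {σ : List Bool | σ.length = n}.Finite := List.finite_length_eq Bool n
  obtain ⟨w, hw, h1⟩ := a4r_exists hs (hfin.toFinset ×ˢ Finset.range (n + 1))
  have hgood : a4rGood n w s := by
    refine ⟨hw, fun σ hσ i hi => ?_⟩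
    exact h1 (σ, i) (Finset.mem_product.2 ⟨hfin.mem_toFinset.2 hσ, Finset.mem_range.2 (by omega)⟩)
  have h : ∃ k, a4rGood n (a4rW k) s := by
    refine ⟨Encodable.encode w, ?_⟩
    have : a4rW (Encodable.encode w) = w := by
      unfold a4rW
      rw [Encodable.encodek]
      rfl
    rw [this]
    exact hgood
  unfold a4rT
  rw [dif_pos h]
  exact Nat.find_spec h

theorem a4r : ∃ (F : ((ℕ × List Bool) → Prop) → (ℕ × ℕ → Prop)) (Z : ((ℕ × List Bool) → Prop) → (ℕ → Prop)),
    Measurable F ∧ Measurable Z ∧
    ∀ s : (ℕ × List Bool) → Prop,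
      IsFnP (fun i v => F s (i, v)) ∧ AdvP (fun i v => F s (i, v)) ∧
      ((∀ i σ, ∃ τ, σ <+: τ ∧ s (i, τ)) →
        ∀ i, ∀ r : ℕ → Prop, (∀ τ, cylP τ r → ¬ s (i, τ)) →
          evdP (fun i v => F s (i, v)) (Z s) r) := by
  classical
  refine ⟨fun s p => (a4rU s (p.1 + 1)).length ≤ p.2, fun s n => (a4rU s (n + 1)).getD n false = true, ?_, ?_, ?_⟩
  · refine measurable_pi_iff.2 (fun p => measurableSet_setOfPred.1 ?_)
    exact a4r_comp (f := fun s => a4rU s (p.1 + 1)) (a4r_meas_U (p.1 + 1))
      (Q := fun (z : List Bool) (_ : A4rS) => z.length ≤ p.2) (fun z => MeasurableSet.const _)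
  · refine measurable_pi_iff.2 (fun n => measurableSet_setOfPred.1 ?_)
    exact a4r_comp (f := fun s => a4rU s (n + 1)) (a4r_meas_U (n + 1))
      (Q := fun (z : List Bool) (_ : A4rS) => z.getD n false = true) (fun z => MeasurableSet.const _)
  · intro s
    refine ⟨⟨fun i v w hvw h => le_trans h hvw, fun i => ⟨(a4rU s (i + 1)).length, le_refl (a4rU s (i + 1)).length⟩⟩, ?_, ?_⟩
    · intro i v hvi h
      have h1 := a4r_len s (i + 1)
      have h2 : (a4rU s (i + 1)).length ≤ v := h
      omega
    · intro hs i r hr
      refine ⟨i, fun j hj v hv hmat => ?_⟩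
      have hv' : (a4rU s (j + 1)).length ≤ v := hv
      set n := (a4rU s j).length with hn
      have hjn : j ≤ n := a4r_len s j
      set σ : List Bool := List.ofFn (fun m : Fin n => decide (r m)) with hσ
      have hσl : σ.length = n := by rw [hσ, List.length_ofFn]
      obtain ⟨τ, hτ1, hτ2⟩ := (a4r_good hs n).2 σ hσl i (le_trans hj hjn)
      refine hr τ (fun m hm => ?_) hτ2
      have hu : a4rU s (j + 1) = a4rU s j ++ a4rT n s := rfl
      rw [← a4r_getD hτ1 hm]
      have hm2 : m < (σ ++ a4rT n s).length := lt_of_lt_of_le hm hτ1.length_le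
      rw [List.length_append, hσl] at hm2
      rcases Nat.lt_or_ge m n with h1 | h1
      · rw [List.getD_append _ _ _ _ (by rw [hσl]; exact h1)]
        have h2 : σ.getD m false = decide (r m) := by
          rw [List.getD_eq_getElem _ _ (by rw [hσl]; exact h1)]
          simp [hσ]
        rw [h2]
        simp
      · rw [List.getD_append_right _ _ _ _ (by rw [hσl]; exact h1), hσl]
        have h3 : m < (a4rU s (j + 1)).length := by
          rw [hu, List.length_append]
          exact hm2
        have h4 := hmat m (hjn.trans h1) (lt_of_lt_of_le h3 hv')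
        rw [h4]
        show (a4rU s (m + 1)).getD m false = true ↔ _
        rw [a4r_getD (a4r_prefix s (show j + 1 ≤ m + 1 by omega)) h3, hu,
          List.getD_append_right _ _ _ _ (by rw [← hn]; exact h1), ← hn]

end MAdd
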