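import Pool.Agent.H7.MAdd.GEN

/-!
# FC: Borel functional calculus (measurable functions of Boolean valued reals)

The σ-algebra `ms A` on `UF B`: the sets which are generically equal to `{U | b ∈ U}` for some
`b ∈ A`; see `CSA.ms` in `Pool/Agent/Lead/CM/Def.lean` for the proof that it is a σ-algebra.

* `exists_fc`: let `s : UF B → ι → Prop`, `s U i = (v i ∈ U)`.  It is measurable from `ms A` to the
  product σ-algebra (`measurable_pi_iff`; a map to `Prop` is measurable iff the set where it is true
  is measurable, `measurableSet_setOf`).  So `U ↦ ψ (s U) k` is measurable for every `k`, and the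
  set `{U | ψ (s U) k}` is generically equal to `{U | w k ∈ U}` with `w k ∈ A`.
  (`κ` countable to get all `k` at the same time.)
* Take `A = ⊤` (`topCS`) if no subalgebra is of interest.
-/

set_option autoImplicit false

open BV

namespace MAdd

variable {B : Type} [CompleteBooleanAlgebra B]

/-- the whole algebra -/
def topCS (B : Type) [CompleteBooleanAlgebra B] : CS B where
  carrier := Set.univ
  compl_mem' := fun _ _ => trivial
  sSup_mem' := fun _ _ => trivial

/-- the σ-algebra of sets of ultrafilters given by elements of `A` -/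
@[reducible] def CS.ms (A : CS B) : MeasurableSpace (UF B) where
  MeasurableSet' S := ∃ b, b ∈ A ∧ ∀ᶠ U in gen B, (U ∈ S ↔ b ∈ U)
  measurableSet_empty := by
    refine ⟨sSup ∅, A.sSup_mem' ∅ (Set.empty_subset _), Filter.Eventually.of_forall fun U => ?_⟩
    rw [sSup_empty]
    exact ⟨fun h => h.elim, fun h => U.bot_notMem' h⟩
  measurableSet_compl := by
    rintro S ⟨b, hb, hS⟩
    refine ⟨bᶜ, A.compl_mem' b hb, ?_⟩
    filter_upwards [hS] with U hU
    rw [Set.mem_compl_iff, hU, U.compl_mem_iff]
  measurableSet_iUnion := by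
    intro f hf
    choose b hb hA using hf
    refine ⟨sSup (Set.range b), A.sSup_mem' _ (by rintro _ ⟨n, rfl⟩; exact hb n), ?_⟩
    filter_upwards [gen_sSup (Set.range b), eventually_countable_forall.2 hA] with U hU hA'
    rw [hU, Set.mem_iUnion]
    constructor
    · rintro ⟨n, hn⟩
      exact ⟨b n, ⟨n, rfl⟩, (hA' n).1 hn⟩
    · rintro ⟨_, ⟨n, rfl⟩, hn⟩
      exact ⟨n, (hA' n).2 hn⟩

/-- functional calculus: `ψ` is a measurable function from `ι → Prop` to `κ → Prop`, `v` a Boolean
valuation; then there is `w = ψ(v)` -/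
theorem exists_fc (A : CS B) {ι κ : Type} [Countable ι] [Countable κ] (v : ι → B)
    (hv : ∀ i, v i ∈ A) (ψ : (ι → Prop) → (κ → Prop)) (hψ : Measurable ψ) :
    ∃ w : κ → B, (∀ k, w k ∈ A) ∧ ∀ᶠ U in gen B, atU U w = ψ (atU U v) := by
  let _ : MeasurableSpace (UF B) := A.ms
  have hs : Measurable (fun U : UF B => (atU U v : ι → Prop)) := by
    rw [measurable_pi_iff]
    intro i
    refine measurableSet_setOfPred.1 ?_
    exact ⟨v i, hv i, Filter.Eventually.of_forall fun U => Iff.rfl⟩
  have hk : ∀ k, MeasurableSet {U : UF B | ψ (atU U v) k} := by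
    intro k
    exact measurableSet_setOfPred.2 (((measurable_pi_iff.1 hψ) k).comp hs)
  have hk' : ∀ k, ∃ b, b ∈ A ∧ ∀ᶠ U in gen B, (U ∈ {U : UF B | ψ (atU U v) k} ↔ b ∈ U) := hk
  choose w hw hw' using hk'
  refine ⟨w, hw, ?_⟩
  filter_upwards [eventually_countable_forall.2 hw'] with U hU
  funext k
  exact propext (hU k).symm

end MAdd
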