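import Pool.Agent.H7.MAdd.Defs
import Pool.Agent.H26.BV.Mix

/-!
# MIXR: disjoint refinement of a supremum and mixing

`exists_refine`: well-order `I` (`exists_wellFoundedLT`, or `WellOrderingRel`), `u i = c i ⊓ (⨆ j < i, c j)ᶜ`;
see `iSup_first` in `Pool/Agent/H26/BV/Mix.lean` (that file may be imported and used).
-/

set_option autoImplicit false

namespace MAdd

variable {B : Type} [CompleteBooleanAlgebra B]

theorem exists_refine {I : Type*} (c : I → B) : ∃ u : I → B, (∀ i, u i ≤ c i) ∧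
    (⨆ i, u i) = (⨆ i, c i) ∧ ∀ i j, i ≠ j → u i ⊓ u j = ⊥ := by
  obtain ⟨hl, hw⟩ := exists_wellFoundedLT I
  have hlt : ∀ i j : I, i < j →
      (c i ⊓ (⨆ k : Set.Iio i, c k)ᶜ) ⊓ (c j ⊓ (⨆ k : Set.Iio j, c k)ᶜ) = ⊥ := by
    intro i j hij
    have h1 : c i ≤ ⨆ k : Set.Iio j, c k := le_iSup (fun k : Set.Iio j => c k) ⟨i, hij⟩
    rw [eq_bot_iff]
    calc (c i ⊓ (⨆ k : Set.Iio i, c k)ᶜ) ⊓ (c j ⊓ (⨆ k : Set.Iio j, c k)ᶜ)
        ≤ (⨆ k : Set.Iio j, c k) ⊓ (⨆ k : Set.Iio j, c k)ᶜ :=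
          inf_le_inf (inf_le_left.trans h1) inf_le_right
      _ = ⊥ := inf_compl_eq_bot
  refine ⟨fun i => c i ⊓ (⨆ k : Set.Iio i, c k)ᶜ, fun i => inf_le_left, BV.iSup_first c, ?_⟩
  intro i j hij
  rcases lt_or_gt_of_ne hij with h | h
  · exact hlt i j h
  · rw [inf_comm]
    exact hlt j i h

theorem mix_eq {I : Type*} (u : I → B) (hu : ∀ i j, i ≠ j → u i ⊓ u j = ⊥) (h : I → B) (i : I) :
    u i ⊓ (⨆ j, u j ⊓ h j) = u i ⊓ h i := by
  rw [inf_iSup_eq]
  apply le_antisymm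
  · refine iSup_le fun j => ?_
    by_cases hij : i = j
    · subst hij
      exact le_inf inf_le_left (inf_le_right.trans inf_le_right)
    · rw [← inf_assoc, hu i j hij, bot_inf_eq]
      exact bot_le
  · refine le_trans ?_ (le_iSup _ i)
    exact le_inf inf_le_left le_rfl

theorem le_bihimp_iff {a b c : B} : c ≤ bihimp a b ↔ c ⊓ a = c ⊓ b := by
  unfold bihimp
  rw [le_inf_iff, le_himp_iff, le_himp_iff]
  constructor
  · rintro ⟨h1, h2⟩
    exact le_antisymm (le_inf inf_le_left h2) (le_inf inf_le_left h1)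
  · intro h
    refine ⟨?_, ?_⟩
    · rw [← h]
      exact inf_le_right
    · rw [h]
      exact inf_le_right

end MAdd
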