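import Pool.Agent.H7.MAdd.VAL
import Pool.Agent.H7.MAdd.FC
import Pool.Agent.H7.MAdd.MIXR
import Pool.Agent.H7.MAdd.A4R

/-!
# A4: Boolean valued meager sets are eventually different

`a4_seq`: put `ν (i, τ) = ⨅ x, N i x ⇨ (cyl τ x)ᶜ`.  Then `N i x ⊓ cyl τ x ⊓ ν (i, τ) = ⊥`, so
`N i x ≤ (cyl τ x ⊓ ν (i, τ))ᶜ` for all `τ`, and `⨅ i, nwd (N i) ≤ ⨆ τ ⊇ σ, ν (i, τ)` for all `i σ`.
Get `f, z` from `a4r` by `exists_fc` (with `A = topCS B`); `IsFn f` and `Adv f` and the inequality by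
`gen_le`/`gen_eq_top`: for generic `U` with `(⨅ i, nwd (N i)) ⊓ N i x ∈ U` the valuation
`s = atU U ν` satisfies the hypotheses of `a4r` for `r = atU U x`.  (Monotonicity `f i v ≤ f i w` by
`gen_le`; to get `Adv f` exactly, replace `f i v` by `⊥` for `v ≤ i`.)

`a4_mgr`: `mgr Ψ = ⨆ N, m N` with `m N = (⨅ i, nwd (N i)) ⊓ ⨅ x, Ψ x ⇨ ⨆ i, N i x`; refine to an
antichain `u N ≤ m N` (`exists_refine`); with `f_N, z_N` from `a4_seq` put
`f i v = (⨆ N, u N ⊓ f_N i v) ⊔ ((mgr Ψ)ᶜ if i < v)` and `z n = ⨆ N, u N ⊓ z_N n`.  On `u N` the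
functions `f, f_N` and the reals `z, z_N` agree (`mix_eq`), hence `u N ⊓ evd f_N z_N y ≤ evd f z y`
(`gen_le` and `gen_evd`).
-/

set_option autoImplicit false

open BV

namespace MAdd

variable {B : Type} [CompleteBooleanAlgebra B]

/-- a refined supremum and a function or real glued along an antichain -/
theorem a4_glue {I : Type*} (u : I → B) (hu : ∀ i j, i ≠ j → u i ⊓ u j = ⊥) (h : I → B) (i : I)
    (U : UF B) (hU : u i ∈ U) : (⨆ j, u j ⊓ h j) ∈ U ↔ h i ∈ U := by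
  have h1 := mix_eq u hu h i
  constructor
  · intro h2
    have h3 : u i ⊓ (⨆ j, u j ⊓ h j) ∈ U := UF.inf_mem U hU h2
    rw [h1] at h3
    exact (UF.inf_mem_iff U).1 h3 |>.2
  · intro h2
    exact UF.iSup_mem_of_mem U (i := i) (UF.inf_mem U hU h2)

theorem a4_seq (N : ℕ → (ℕ → B) → B) : ∃ (f : ℕ → ℕ → B) (z : ℕ → B), IsFn f ∧ Adv f ∧
    ∀ i x, (⨅ i, nwd (N i)) ⊓ N i x ≤ evd f z x := by
  obtain ⟨F, Z, hF, hZ, H⟩ := a4r
  set ν : ℕ × List Bool → B := fun p => ⨅ x, N p.1 x ⇨ (cyl p.2 x)ᶜ with hν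
  obtain ⟨f0, -, hf0⟩ := exists_fc (topCS B) ν (fun _ => trivial) F hF
  obtain ⟨z, -, hz⟩ := exists_fc (topCS B) ν (fun _ => trivial) Z hZ
  have hmem : ∀ (U : UF B), atU U f0 = F (atU U ν) → ∀ i v, (f0 (i, v) ∈ U ↔ F (atU U ν) (i, v)) := by
    intro U hU i v
    rw [← hU]
    rfl
  refine ⟨fun i v => f0 (i, v), z, ⟨?_, ?_⟩, ?_, ?_⟩
  · intro i v w hvw
    apply gen_le
    filter_upwards [hf0] with U hU hm
    rw [hmem U hU] at hm ⊢
    exact (H (atU U ν)).1.mono i v w hvw hm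
  · intro i
    apply gen_eq_top
    filter_upwards [hf0, gen_iSup (fun v => f0 (i, v))] with U hU hs
    rw [hs]
    obtain ⟨v, hv⟩ := (H (atU U ν)).1.tot i
    exact ⟨v, (hmem U hU i v).2 hv⟩
  · intro i v hvi
    rw [← le_bot_iff]
    apply gen_le
    filter_upwards [hf0] with U hU hm
    rw [hmem U hU] at hm
    exact absurd hm ((H (atU U ν)).2.1 i v hvi)
  · intro i x
    apply gen_le
    have hg : ∀ᶠ U in gen B, ∀ p : ℕ × List Bool,
        ((⨆ τ : {τ : List Bool // p.2 <+: τ}, ν (p.1, τ.1)) ∈ U ↔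
          ∃ τ : {τ : List Bool // p.2 <+: τ}, ν (p.1, τ.1) ∈ U) :=
      eventually_countable_forall.2 fun p => gen_iSup _
    filter_upwards [hf0, hz, gen_evd (fun i v => f0 (i, v)) z x, gen_cyl x, hg]
      with U hU hzU hev hcyl hg hm
    rw [UF.inf_mem_iff] at hm
    obtain ⟨hm1, hm2⟩ := hm
    rw [hev]
    have e1 : (fun i => atU U (fun v => f0 (i, v))) = fun i v => F (atU U ν) (i, v) := by
      funext i v
      exact propext (hmem U hU i v)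
    rw [e1, hzU]
    refine (H (atU U ν)).2.2 ?_ i (atU U x) ?_
    · intro i σ
      have h1 : nwd (N i) ∈ U := UF.mem_of_iInf U hm1 i
      have h2 : (⨆ τ : List Bool, ⨆ (_ : σ <+: τ), ν (i, τ)) ∈ U := UF.mem_of_iInf U h1 σ
      rw [iSup_subtype'] at h2
      obtain ⟨τ, hτ⟩ := (hg (i, σ)).1 h2
      exact ⟨τ.1, τ.2, hτ⟩
    · intro τ hτ hs
      have h1 : ν (i, τ) ∈ U := hs
      have h2 : (N i x ⇨ (cyl τ x)ᶜ) ∈ U := UF.mem_of_iInf U h1 x
      have h3 := (UF.himp_mem_iff U).1 h2 hm2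
      rw [UF.compl_mem_iff] at h3
      exact h3 ((hcyl τ).2 hτ)

theorem a4_mgr (Ψ : (ℕ → B) → B) : ∃ (f : ℕ → ℕ → B) (z : ℕ → B), IsFn f ∧ Adv f ∧
    ∀ y, mgr Ψ ⊓ Ψ y ≤ evd f z y := by
  set m : {N : ℕ → (ℕ → B) → B // ∀ i, ExtR (N i)} → B := fun N =>
    (⨅ i, nwd (N.1 i)) ⊓ ⨅ x, Ψ x ⇨ ⨆ i, N.1 i x with hm
  have hmgr : mgr Ψ = ⨆ N, m N := rfl
  obtain ⟨u, hu1, hu2, hu3⟩ := exists_refine m
  choose f z hf hadv hev using fun N : {N : ℕ → (ℕ → B) → B // ∀ i, ExtR (N i)} => a4_seq N.1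
  refine ⟨fun i v => (⨆ N, u N ⊓ f N i v) ⊔ (if i < v then (mgr Ψ)ᶜ else ⊥),
    fun n => ⨆ N, u N ⊓ z N n, ⟨?_, ?_⟩, ?_, ?_⟩
  · intro i v w hvw
    refine sup_le_sup (iSup_mono fun N => inf_le_inf_left _ ((hf N).mono i v w hvw)) ?_
    split_ifs with h1 h2 h2
    · exact le_rfl
    · exact absurd (lt_of_lt_of_le h1 hvw) h2
    · exact bot_le
    · exact le_rfl
  · intro i
    rw [eq_top_iff]
    have h1 : (⊤ : B) = mgr Ψ ⊔ (mgr Ψ)ᶜ := by simp
    rw [h1]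
    refine sup_le ?_ ?_
    · rw [hmgr, ← hu2]
      refine iSup_le fun N => ?_
      have h2 : u N = ⨆ v, u N ⊓ f N i v := by
        rw [← inf_iSup_eq, (hf N).tot i, inf_top_eq]
      rw [h2]
      refine iSup_mono fun v => ?_
      exact le_sup_of_le_left (le_iSup (fun N => u N ⊓ f N i v) N)
    · refine le_iSup_of_le (i + 1) ?_
      rw [if_pos (Nat.lt_succ_self i)]
      exact le_sup_right
  · intro i v hvi
    change (⨆ N, u N ⊓ f N i v) ⊔ (if i < v then (mgr Ψ)ᶜ else ⊥) = ⊥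
    rw [if_neg (not_lt.2 hvi), sup_bot_eq]
    simp only [hadv _ i v hvi, inf_bot_eq, iSup_bot]
  · intro y
    have hle : mgr Ψ ⊓ Ψ y = ⨆ N, u N ⊓ Ψ y := by
      rw [hmgr, ← hu2, iSup_inf_eq]
    rw [hle]
    refine iSup_le fun N => ?_
    apply gen_le
    filter_upwards [gen_evd (f N) (z N) y, gen_evd (fun i v => (⨆ N, u N ⊓ f N i v) ⊔
      (if i < v then (mgr Ψ)ᶜ else ⊥)) (fun n => ⨆ N, u N ⊓ z N n) y,
      gen_iSup (fun i => N.1 i y)] with U h1 h2 h3 hmem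
    rw [UF.inf_mem_iff] at hmem
    obtain ⟨huN, hΨ⟩ := hmem
    have hmN : m N ∈ U := UF.mem_of_le U huN (hu1 N)
    rw [hm, UF.inf_mem_iff] at hmN
    have h4 : (⨆ i, N.1 i y) ∈ U := (UF.himp_mem_iff U).1 (UF.mem_of_iInf U hmN.2 y) hΨ
    obtain ⟨i, hi⟩ := h3.1 h4
    have h5 : evd (f N) (z N) y ∈ U :=
      UF.mem_of_le U (UF.inf_mem U hmN.1 hi) (hev N i y)
    rw [h2]
    rw [h1] at h5
    have hmgrU : mgr Ψ ∈ U := by
      rw [hmgr]
      exact UF.iSup_mem_of_mem U (i := N) (UF.mem_of_le U huN (hu1 N))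
    have e1 : (fun i => atU U (fun v => (⨆ N, u N ⊓ f N i v) ⊔
        (if i < v then (mgr Ψ)ᶜ else ⊥))) = fun i => atU U (f N i) := by
      funext i v
      apply propext
      change ((⨆ N, u N ⊓ f N i v) ⊔ (if i < v then (mgr Ψ)ᶜ else ⊥)) ∈ U ↔ f N i v ∈ U
      rw [UF.sup_mem_iff, a4_glue u hu3 (fun N => f N i v) N U huN]
      constructor
      · rintro (h | h)
        · exact h
        · exfalso
          split_ifs at h with h6
          · exact (UF.compl_mem_iff U).1 h hmgrU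
          · exact UF.bot_notMem U h
      · exact fun h => Or.inl h
    have e2 : atU U (fun n => ⨆ N, u N ⊓ z N n) = atU U (z N) := by
      funext n
      exact propext (a4_glue u hu3 (fun N => z N n) N U huN)
    rw [e1, e2]
    exact h5

end MAdd
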