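import Pool.Agent.H7.MAdd.VAL

/-!
# A5: eventually different sets are meager; monotonicity of `mgr`; extensionality

`mgr_evd`: take `N k x = ⨅ i, ⨅ (_ : k ≤ i), ⨅ v, g i v ⇨ (mat x z i v)ᶜ`, so
`evd g z x = ⨆ k, N k x`.  `nwd (N k) = ⊤`: given `σ` let `i = max k σ.length`; `⊤ = ⨆ v, g i v`; for
`v` and `w := max v i`, `⊤ = ⨆ τ (length w, σ <+: τ), ⟦z = τ on [i, w)⟧` and
`g i v ⊓ ⟦z = τ on [i, w)⟧ ⊓ cyl τ x ⊓ N k x = ⊥` for all `x`.  All by `gen_le`/`gen_eq_top` and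
`gen_iSup`, `gen_iInf`; for the infimum over all `x : ℕ → B` (uncountable) use a real witness:
it is enough that for each `τ` and each `x` : `c τ ⊓ cyl τ x ≤ (N k x)ᶜ` with
`c τ := (⨆ v ≤ τ.length, g i v) ⊓ ⨅ n in [i, τ.length), lit (τ.getD n false) (z n)`, and that
`⨆ τ ⊇ σ, c τ = ⊤`.
-/

set_option autoImplicit false

open BV

namespace MAdd

variable {B : Type} [CompleteBooleanAlgebra B]

theorem extR_evd (g : ℕ → ℕ → B) (z : ℕ → B) : ExtR (evd g z) := by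
  intro x y
  apply gen_le
  filter_upwards [gen_req x y, gen_evd g z x, gen_evd g z y] with U h1 h2 h3 h
  rw [UF.inf_mem_iff] at h
  rw [h3]
  rw [h1, h2] at h
  rw [← h.1]
  exact h.2

/-- the reals `x` with: for all `i ≥ k`, `x ≠ z` on `[i, g i)` -/
private def a5_N (g : ℕ → ℕ → B) (z : ℕ → B) (k : ℕ) (x : ℕ → B) : B :=
  ⨅ i, ⨅ (_ : k ≤ i), ⨅ v, g i v ⇨ (mat x z i v)ᶜ

private theorem a5_mat_req (x y z : ℕ → B) (i v : ℕ) : req x y ⊓ mat y z i v ≤ mat x z i v := by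
  apply gen_le
  filter_upwards [gen_req x y, gen_mat x z, gen_mat y z] with U h1 h2 h3 h
  rw [UF.inf_mem_iff] at h
  rw [h2]
  rw [h1, h3] at h
  rw [h.1]
  exact h.2

private theorem a5_ext (g : ℕ → ℕ → B) (z : ℕ → B) (k : ℕ) : ExtR (a5_N g z k) := by
  intro x y
  refine le_iInf₂ fun i hi => le_iInf fun v => ?_
  have h1 : a5_N g z k x ≤ g i v ⇨ (mat x z i v)ᶜ :=
    (iInf₂_le (f := fun i (_ : k ≤ i) => ⨅ v, g i v ⇨ (mat x z i v)ᶜ) i hi).trans (iInf_le _ v)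
  refine (inf_le_inf_left _ h1).trans ?_
  have h2 := a5_mat_req x y z i v
  apply gen_le
  refine Filter.Eventually.of_forall fun U h => ?_
  rw [UF.inf_mem_iff, UF.himp_mem_iff, UF.compl_mem_iff] at h
  rw [UF.himp_mem_iff, UF.compl_mem_iff]
  intro hg hm
  exact h.2 hg (U.mem_of_le (by rw [UF.inf_mem_iff]; exact ⟨h.1, hm⟩) h2)

private theorem a5_nwd (g : ℕ → ℕ → B) (hg : IsFn g) (z : ℕ → B) (k : ℕ) :
    nwd (a5_N g z k) = ⊤ := by
  classical
  rw [eq_top_iff]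
  refine le_iInf fun σ => ?_
  rw [iSup_subtype']
  set i := max k σ.length with hi
  let c : List Bool → B := fun τ =>
    g i τ.length ⊓ ⨅ n : {n // i ≤ n ∧ n < τ.length}, lit (τ.getD n.1 false) (z n.1)
  have h1 : (⨆ τ : {τ // σ <+: τ}, c τ.1) = ⊤ := by
    apply gen_eq_top
    filter_upwards [gen_iSup (fun τ : {τ // σ <+: τ} => c τ.1), gen_iSup (g i),
      eventually_countable_forall.2 fun τ : List Bool =>
        gen_iInf (fun n : {n // i ≤ n ∧ n < τ.length} => lit (τ.getD n.1 false) (z n.1))]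
      with U h1 h2 h3
    rw [h1]
    rw [hg.tot i] at h2
    obtain ⟨v, hv⟩ := h2.1 U.top_mem
    refine ⟨⟨σ ++ (List.range (max v σ.length - σ.length)).map
      (fun j => decide (z (σ.length + j) ∈ U)), List.prefix_append _ _⟩, ?_⟩
    set m := max v σ.length - σ.length with hm
    have hlen : (σ ++ (List.range m).map
      (fun j => decide (z (σ.length + j) ∈ U))).length = max v σ.length := by
      simp; omega
    change g i _ ⊓ _ ∈ U
    rw [UF.inf_mem_iff, h3]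
    refine ⟨U.mem_of_le hv (hg.mono i v _ (by rw [hlen]; exact le_max_left _ _)), ?_⟩
    rintro ⟨n, hn1, hn2⟩
    rw [mem_lit]
    rw [hlen] at hn2
    have hn3 : σ.length ≤ n := le_trans (le_max_right _ _) hn1
    have hn4 : n - σ.length < m := by omega
    have : (σ ++ (List.range m).map
        (fun j => decide (z (σ.length + j) ∈ U))).getD n false = decide (z n ∈ U) := by
      rw [List.getD_append_right _ _ _ _ hn3, List.getD_eq_getElem _ _ (by simpa using hn4)]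
      simp only [List.getElem_map, List.getElem_range]
      rw [Nat.add_sub_cancel' hn3]
    rw [this]
    simp
  rw [← h1]
  refine iSup_mono fun τ => le_iInf fun x => ?_
  rw [le_himp_iff, le_compl_iff_disjoint_right, disjoint_iff_inf_le]
  apply gen_le
  filter_upwards [gen_mat x z, gen_cyl x,
    gen_iInf (fun n : {n // i ≤ n ∧ n < τ.1.length} => lit (τ.1.getD n.1 false) (z n.1))]
    with U h2 h3 h4 h
  exfalso
  simp only [c, UF.inf_mem_iff, h3, h4] at h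
  obtain ⟨⟨⟨hg1, hz⟩, hN⟩, hx⟩ := h
  have h5 : (g i τ.1.length ⇨ (mat x z i τ.1.length)ᶜ) ∈ U := by
    refine U.mem_of_le hN ?_
    exact (iInf₂_le (f := fun i (_ : k ≤ i) => ⨅ v, g i v ⇨ (mat x z i v)ᶜ) i
      (le_max_left _ _)).trans (iInf_le _ _)
  rw [UF.himp_mem_iff, UF.compl_mem_iff, h2] at h5
  refine h5 hg1 fun n hn1 hn2 => ?_
  have h6 := hz ⟨n, hn1, hn2⟩
  rw [mem_lit] at h6
  exact (hx n hn2).trans h6.symm

theorem mgr_evd (g : ℕ → ℕ → B) (hg : IsFn g) (z : ℕ → B) : mgr (evd g z) = ⊤ := by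
  rw [eq_top_iff]
  refine le_trans ?_ (le_iSup _ ⟨a5_N g z, a5_ext g z⟩)
  refine le_inf ?_ ?_
  · refine le_iInf fun i => ?_
    exact (a5_nwd g hg z i).ge
  · refine le_iInf fun x => ?_
    rw [le_himp_iff]
    exact inf_le_right

theorem mgr_mono (Φ Ψ : (ℕ → B) → B) : (⨅ x, Φ x ⇨ Ψ x) ⊓ mgr Ψ ≤ mgr Φ := by
  rw [mgr, inf_iSup_eq]
  refine iSup_le fun N => ?_
  refine le_trans ?_ (le_iSup _ N)
  refine le_inf (inf_le_right.trans inf_le_left) ?_
  refine le_iInf fun x => ?_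
  rw [le_himp_iff]
  have h1 : (⨅ x, Φ x ⇨ Ψ x) ⊓ ((⨅ i, nwd (N.1 i)) ⊓ ⨅ x, Ψ x ⇨ ⨆ i, N.1 i x) ⊓ Φ x ≤
      (Φ x ⇨ Ψ x) ⊓ (Ψ x ⇨ ⨆ i, N.1 i x) ⊓ Φ x :=
    inf_le_inf_right _ (inf_le_inf (iInf_le _ x) (inf_le_right.trans (iInf_le _ x)))
  refine h1.trans ?_
  apply gen_le
  refine Filter.Eventually.of_forall fun U h => ?_
  rw [UF.inf_mem_iff, UF.inf_mem_iff, UF.himp_mem_iff, UF.himp_mem_iff] at h
  exact h.1.2 (h.1.1 h.2)

theorem extR_sumS (Φ Ψ : (ℕ → B) → B) (hΨ : ExtR Ψ) : ExtR (sumS Φ Ψ) := by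
  intro z z'
  rw [sumS, inf_iSup_eq]
  refine iSup_le fun x => ?_
  refine le_trans ?_ (le_iSup _ x)
  refine le_inf (inf_le_right.trans inf_le_left) ?_
  refine le_trans ?_ (hΨ (radd x z) (radd x z'))
  refine le_inf (inf_le_left.trans ?_) (inf_le_right.trans inf_le_right)
  refine iInf_mono fun n => ?_
  apply gen_le
  refine Filter.Eventually.of_forall fun U h => ?_
  rw [mem_bihimp] at h
  rw [mem_bihimp, radd, radd, mem_symmDiff, mem_symmDiff, h]

theorem extR_iSup {I : Sort*} (X : I → (ℕ → B) → B) (hX : ∀ a, ExtR (X a)) :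
    ExtR (fun x => ⨆ a, X a x) := by
  intro x y
  rw [inf_iSup_eq]
  exact iSup_mono fun a => hX a x y

/-- the reals `radd x (radd x z)` and `z` are equal -/
theorem radd_radd (x z : ℕ → B) : radd x (radd x z) = z := by
  funext n
  exact symmDiff_symmDiff_cancel_left (x n) (z n)

end MAdd
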