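import Pool.Agent.H7.MAdd.Defs

/-!
# A6R: meager-additive implies captured, classical version, measurable in the parameters

The parameter `s : (Fin 4 × ℕ × ℕ) → Prop` codes `f i v = s (0, i, v)`, `g j v = s (1, j, v)`,
`Y n = s (2, n, 0)`, `x n = s (3, n, 0)`.  Write `G j` for the least `v` with `g j v` (0 if none).
`Bad j`: for all `i ≥ j` and `w ≤ G j` with `f i w`: `x ≠ Y` somewhere on `[i, w)`; if `g` is a
function then `¬ capP` says that there are infinitely many bad `j` (`capP` for `v` follows from the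
case `v = G j`).
Select a sparse set of bad numbers: `e 0 = 0`; `sel j := Bad j ∧ e j ≤ j`;
`e (j+1) = if sel j then max (e j) (max (G j) j + 1) else e j`.  So if `j < j'` are selected then
`G j < j'`, and there are infinitely many selected numbers.
`m n := if ∃ j ≤ n, sel j ∧ n < G j then ¬ (x n ↔ Y n) else True`.
* `m ∈ evd f 0` (even with `N = 0`): let `f i v`, so `i < v` (`AdvP`).  Suppose `m = 0` on `[i, v)`.
  Then every `n ∈ [i, v)` lies in `[j, G j)` for some selected `j ≤ n`; it is the same `j` for all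
  `n ∈ [i, v)` (`G j < j'` for consecutive selected numbers, so `G j` is in no interval).  So
  `j ≤ i`, `v ≤ G j`, and by `Bad j` there is `n ∈ [i, v)` with `x n ≠ Y n`, that is `m n`.
* `¬ evdP g Y (x + m)`: for selected `j` with `v = G j` we have `x + m = Y` on `[j, G j)`.
Measurability: `G j` is measurable (`measurable_find` or sets `{s | G j = v}`), `Bad j` and `sel j`
are measurable, `e j` is measurable with values in `ℕ` (induction), then `m n`.
-/

set_option autoImplicit false

namespace MAdd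

theorem a6r_exG (s : (Fin 4 × ℕ × ℕ) → Prop) (j : ℕ) :
    ∃ v, s (1, j, v) ∨ ∀ v', ¬ s (1, j, v') := by
  by_cases h : ∃ v, s (1, j, v)
  · obtain ⟨v, hv⟩ := h
    exact ⟨v, Or.inl hv⟩
  · exact ⟨0, Or.inr fun v' hv => h ⟨v', hv⟩⟩

open Classical in
/-- the least bound -/
noncomputable def a6rG (s : (Fin 4 × ℕ × ℕ) → Prop) (j : ℕ) : ℕ := Nat.find (a6r_exG s j)

/-- bad numbers -/
def a6rBad (s : (Fin 4 × ℕ × ℕ) → Prop) (j : ℕ) : Prop :=
  ∀ i, j ≤ i → ∀ w, w ≤ a6rG s j → s (0, i, w) →
    ∃ n, i ≤ n ∧ n < w ∧ ¬ (s (3, n, 0) ↔ s (2, n, 0))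

open Classical in
/-- the next admissible number -/
noncomputable def a6rE (s : (Fin 4 × ℕ × ℕ) → Prop) : ℕ → ℕ
  | 0 => 0
  | j + 1 => if a6rBad s j ∧ a6rE s j ≤ j then max (a6rE s j) (max (a6rG s j) j + 1) else a6rE s j

/-- selected numbers -/
def a6rSel (s : (Fin 4 × ℕ × ℕ) → Prop) (j : ℕ) : Prop := a6rBad s j ∧ a6rE s j ≤ j

/-- the code -/
def a6rM (s : (Fin 4 × ℕ × ℕ) → Prop) (n : ℕ) : Prop :=
  (∃ j, j ≤ n ∧ a6rSel s j ∧ n < a6rG s j) → ¬ (s (3, n, 0) ↔ s (2, n, 0))

theorem a6r_measG (j : ℕ) : Measurable fun s : (Fin 4 × ℕ × ℕ) → Prop => a6rG s j := by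
  classical
  unfold a6rG
  apply measurable_find
  intro k
  apply measurableSet_setOfPred.2
  exact (measurable_pi_apply _).or (Measurable.forall fun v' => (measurable_pi_apply _).not)

theorem a6r_measBad (j : ℕ) : Measurable fun s : (Fin 4 × ℕ × ℕ) → Prop => a6rBad s j := by
  unfold a6rBad
  refine Measurable.forall fun i => Measurable.imp measurable_const ?_
  refine Measurable.forall fun w => Measurable.imp ?_ (Measurable.imp (measurable_pi_apply _) ?_)
  · exact measurableSet_setOfPred.1 (a6r_measG j measurableSet_Ici)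
  · refine Measurable.exists fun n => Measurable.and measurable_const
      (Measurable.and measurable_const (Measurable.not ?_))
    exact (measurable_pi_apply _).iff (measurable_pi_apply _)

theorem a6r_measE (j : ℕ) : Measurable fun s : (Fin 4 × ℕ × ℕ) → Prop => a6rE s j := by
  induction j with
  | zero => exact measurable_const
  | succ j ih =>
    unfold a6rE
    refine Measurable.ite ?_ ?_ ih
    · exact measurableSet_setOfPred.2 ((a6r_measBad j).and (measurableSet_setOfPred.1
        (ih measurableSet_Iic)))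
    · exact ih.max (((a6r_measG j).max measurable_const).add_const 1)

theorem a6r_measSel (j : ℕ) : Measurable fun s : (Fin 4 × ℕ × ℕ) → Prop => a6rSel s j :=
  (a6r_measBad j).and (measurableSet_setOfPred.1 (a6r_measE j measurableSet_Iic))

theorem a6r_measM : Measurable a6rM := by
  refine measurable_pi_iff.2 fun n => ?_
  unfold a6rM
  refine Measurable.imp (Measurable.exists fun j => Measurable.and measurable_const
    ((a6r_measSel j).and (measurableSet_setOfPred.1 (a6r_measG j measurableSet_Ioi)))) ?_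
  exact Measurable.not ((measurable_pi_apply _).iff (measurable_pi_apply _))

theorem a6r_E_mono (s : (Fin 4 × ℕ × ℕ) → Prop) : Monotone (a6rE s) := by
  refine monotone_nat_of_le_succ fun j => ?_
  rw [a6rE]
  split_ifs
  · exact le_max_left _ _
  · exact le_rfl

theorem a6r_sep (s : (Fin 4 × ℕ × ℕ) → Prop) {j j' : ℕ} (h : a6rSel s j) (h' : a6rSel s j')
    (hj : j < j') : a6rG s j < j' := by
  have h1 : a6rE s (j + 1) ≤ a6rE s j' := a6r_E_mono s hj
  have h2 : a6rE s (j + 1) = max (a6rE s j) (max (a6rG s j) j + 1) := by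
    rw [a6rE, if_pos (show a6rBad s j ∧ a6rE s j ≤ j from h)]
  have h3 : a6rG s j + 1 ≤ a6rE s (j + 1) := by
    rw [h2]
    have := le_max_left (a6rG s j) j
    have := le_max_right (a6rE s j) (max (a6rG s j) j + 1)
    omega
  have h4 := h'.2
  omega

theorem a6r_inf (s : (Fin 4 × ℕ × ℕ) → Prop) (hbad : ∀ N, ∃ j, N ≤ j ∧ a6rBad s j) (N : ℕ) :
    ∃ j, N ≤ j ∧ a6rSel s j := by
  by_contra hcon
  push Not at hcon
  have hE : ∀ k, a6rE s (N + k) = a6rE s N := by
    intro k
    induction k with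
    | zero => rfl
    | succ k ih =>
      have h1 : N + (k + 1) = (N + k) + 1 := by omega
      have h2 : ¬ (a6rBad s (N + k) ∧ a6rE s (N + k) ≤ N + k) := hcon (N + k) (by omega)
      rw [h1, a6rE, if_neg h2, ih]
  obtain ⟨j, hj, hb⟩ := hbad (max N (a6rE s N))
  have hjN : N ≤ j := (le_max_left _ _).trans hj
  apply hcon j hjN
  refine ⟨hb, ?_⟩
  have := hE (j - N)
  rw [Nat.add_sub_cancel' hjN] at this
  rw [this]
  exact (le_max_right _ _).trans hj

theorem a6r : ∃ ψ : ((Fin 4 × ℕ × ℕ) → Prop) → (ℕ → Prop), Measurable ψ ∧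
    ∀ s : (Fin 4 × ℕ × ℕ) → Prop,
      IsFnP (fun i v => s (0, i, v)) → AdvP (fun i v => s (0, i, v)) →
      IsFnP (fun i v => s (1, i, v)) →
      ¬ capP (fun i v => s (0, i, v)) (fun i v => s (1, i, v)) (fun n => s (2, n, 0))
        (fun n => s (3, n, 0)) →
      evdP (fun i v => s (0, i, v)) (fun _ => False) (ψ s) ∧
      ¬ evdP (fun i v => s (1, i, v)) (fun n => s (2, n, 0))
        (fun n => ¬ (s (3, n, 0) ↔ ψ s n)) := by
  classical
  refine ⟨a6rM, a6r_measM, fun s hf hadv hg hcap => ?_⟩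
  have hG : ∀ j, s (1, j, a6rG s j) := by
    intro j
    have h1 := Nat.find_spec (a6r_exG s j)
    rcases h1 with h1 | h1
    · exact h1
    · obtain ⟨v, hv⟩ := hg.tot j
      exact absurd hv (h1 v)
  have hGmin : ∀ j v, s (1, j, v) → a6rG s j ≤ v := fun j v hv =>
    Nat.find_min' (a6r_exG s j) (Or.inl hv)
  have hbad : ∀ N, ∃ j, N ≤ j ∧ a6rBad s j := by
    intro N
    unfold capP at hcap
    push Not at hcap
    obtain ⟨j, hj, v, hv, h⟩ := hcap N
    refine ⟨j, hj, fun i hi w hw hfw => ?_⟩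
    have h1 := h i hi w (hw.trans (hGmin j v hv)) hfw
    unfold matP at h1
    push Not at h1
    obtain ⟨n, hn1, hn2, hn3⟩ := h1
    refine ⟨n, hn1, hn2, fun hiff => ?_⟩
    rcases hn3 with ⟨a, b⟩ | ⟨a, b⟩
    · exact b (hiff.1 a)
    · exact a (hiff.2 b)
  constructor
  · refine ⟨0, fun i _ v hfv hmat => ?_⟩
    have hiv : i < v := by
      by_contra hcon
      exact hadv i v (not_lt.1 hcon) hfv
    have hm : ∀ n, i ≤ n → n < v → (∃ j, j ≤ n ∧ a6rSel s j ∧ n < a6rG s j) ∧
        (s (3, n, 0) ↔ s (2, n, 0)) := by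
      intro n h1 h2
      have h3 : ¬ a6rM s n := fun h => (hmat n h1 h2).1 h
      unfold a6rM at h3
      push Not at h3
      exact h3
    obtain ⟨⟨j, hji, hsel, hjG⟩, -⟩ := hm i le_rfl hiv
    have hall : ∀ k, i + k < v → i + k < a6rG s j := by
      intro k
      induction k with
      | zero => intro _; exact hjG
      | succ k ih =>
        intro hk
        have ih' := ih (by omega)
        obtain ⟨⟨j', hj', hsel', hjG'⟩, -⟩ := hm (i + (k + 1)) (by omega) hk
        rcases lt_trichotomy j j' with h | h | h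
        · have := a6r_sep s hsel hsel' h
          omega
        · rw [h]; exact hjG'
        · have := a6r_sep s hsel' hsel h
          omega
    have hvG : v ≤ a6rG s j := by
      have := hall (v - 1 - i) (by omega)
      omega
    obtain ⟨n, hn1, hn2, hn3⟩ := hsel.1 i hji v hvG hfv
    exact hn3 (hm n hn1 hn2).2
  · rintro ⟨N, hN⟩
    obtain ⟨j, hj, hsel⟩ := a6r_inf s hbad N
    refine hN j hj (a6rG s j) (hG j) fun n h1 h2 => ?_
    have hc : ∃ j, j ≤ n ∧ a6rSel s j ∧ n < a6rG s j := ⟨j, h1, hsel, h2⟩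
    have hM : a6rM s n ↔ ¬ (s (3, n, 0) ↔ s (2, n, 0)) := ⟨fun h => h hc, fun h _ => h⟩
    change ¬ (s (3, n, 0) ↔ a6rM s n) ↔ s (2, n, 0)
    rw [hM]
    tauto

end MAdd
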