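import Pool.Agent.H7.MAdd.A4
import Pool.Agent.H7.MAdd.A5
import Pool.Agent.H7.MAdd.A6R

/-!
# A6: meager-additive implies captured

Let `Ψ = evd f 0` (`0 = fun _ => ⊥`); `mgr Ψ = ⊤`, so `ma X ≤ mgr (sumS X Ψ)`.  By `a4_mgr` there are
`g, Y` with `mgr (sumS X Ψ) ⊓ sumS X Ψ y ≤ evd g Y y`.  For `x` let `m = ψ(f, g, Y, x)` by `exists_fc`
from `a6r`, so that `(cap f g Y x)ᶜ ≤ evd f 0 m ⊓ (evd g Y (radd x m))ᶜ` (`gen_le`).  Then
`X x ⊓ evd f 0 m ≤ sumS X Ψ (radd x m)` because `radd x (radd x m) = m`; so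
`ma X ⊓ X x ⊓ (cap f g Y x)ᶜ ≤ evd g Y (radd x m) ⊓ (evd g Y (radd x m))ᶜ = ⊥`.

`cap_evd`: for generic `U`: if `j ≥ N, N'` and `g j v` then there are `i ≥ j`, `w ≤ v` with `f i w` and
`x = Y` on `[i, w)`, and `m ≠ z` somewhere on `[i, w)`, so `x + m ≠ Y + z` somewhere on `[j, v)`.
-/

set_option autoImplicit false

open BV

namespace MAdd

variable {B : Type} [CompleteBooleanAlgebra B]

theorem a6_atU_radd (U : UF B) (x m : ℕ → B) :
    atU U (radd x m) = fun n => ¬ (atU U x n ↔ atU U m n) := by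
  funext n
  exact propext (mem_symmDiff U (x n) (m n))

theorem a6_atU_zero (U : UF B) : atU U (fun _ : ℕ => (⊥ : B)) = fun _ => False := by
  funext n
  exact propext ⟨fun h => UF.bot_notMem U h, fun h => h.elim⟩

theorem a6 (X : (ℕ → B) → B) (f : ℕ → ℕ → B) (hf : IsFn f) (hA : Adv f) :
    ∃ (g : ℕ → ℕ → B) (Y : ℕ → B), IsFn g ∧ ∀ x, ma X ⊓ X x ≤ cap f g Y x := by
  set Ψ : (ℕ → B) → B := evd f (fun _ => ⊥) with hΨ
  have hE : ExtR Ψ := extR_evd f _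
  have hM : mgr Ψ = ⊤ := mgr_evd f hf _
  have hma : ma X ≤ mgr (sumS X Ψ) := by
    have h1 : ma X ≤ mgr Ψ ⇨ mgr (sumS X Ψ) :=
      iInf_le (fun Ψ : {Ψ : (ℕ → B) → B // ExtR Ψ} => mgr Ψ.1 ⇨ mgr (sumS X Ψ.1)) ⟨Ψ, hE⟩
    rwa [hM, top_himp] at h1
  obtain ⟨g, Y, hg, -, hgY⟩ := a4_mgr (sumS X Ψ)
  obtain ⟨ψ, hψ, H⟩ := a6r
  refine ⟨g, Y, hg, fun x => ?_⟩
  set v : Fin 4 × ℕ × ℕ → B := fun p => ![f p.2.1 p.2.2, g p.2.1 p.2.2, Y p.2.1, x p.2.1] p.1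
    with hv
  obtain ⟨m, -, hm⟩ := exists_fc (topCS B) v (fun _ => trivial) ψ hψ
  apply gen_le
  filter_upwards [hm, gen_evd f (fun _ => ⊥) m, gen_evd g Y (radd x m), gen_cap f g Y x,
    gen_isFn hf, gen_isFn hg] with U hmU h1 h2 h3 h4 h5 hmem
  rw [UF.inf_mem_iff] at hmem
  by_contra hcap
  rw [h3] at hcap
  have e0 : (fun i w => atU U v (0, i, w)) = fun i => atU U (f i) := rfl
  have e1 : (fun i w => atU U v (1, i, w)) = fun i => atU U (g i) := rfl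
  have e2 : (fun n => atU U v (2, n, 0)) = atU U Y := rfl
  have e3 : (fun n => atU U v (3, n, 0)) = atU U x := rfl
  obtain ⟨h6, h7⟩ := H (atU U v) (by rw [e0]; exact h4) (by rw [e0]; exact adv_at hA U)
    (by rw [e1]; exact h5) (by rw [e0, e1, e2, e3]; exact hcap)
  rw [e0, ← hmU] at h6
  rw [e1, e2, ← hmU] at h7
  have h8 : evd f (fun _ => ⊥) m ∈ U := by
    rw [h1, a6_atU_zero]
    exact h6
  have h9 : evd g Y (radd x m) ∉ U := by
    rw [h2, a6_atU_radd]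
    exact h7
  apply h9
  refine UF.mem_of_le U (UF.inf_mem U (UF.mem_of_le U hmem.1 hma) ?_) (hgY (radd x m))
  have h10 : X x ⊓ Ψ (radd x (radd x m)) ≤ sumS X Ψ (radd x m) :=
    le_iSup (fun x' => X x' ⊓ Ψ (radd x' (radd x m))) x
  rw [radd_radd] at h10
  exact UF.mem_of_le U (UF.inf_mem U hmem.2 h8) h10

theorem cap_evd (f g : ℕ → ℕ → B) (Y x z m : ℕ → B) :
    cap f g Y x ⊓ evd f z m ≤ evd g (radd Y z) (radd x m) := by
  apply gen_le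
  filter_upwards [gen_cap f g Y x, gen_evd f z m, gen_evd g (radd Y z) (radd x m)]
    with U h1 h2 h3 hmem
  rw [UF.inf_mem_iff, h1, h2] at hmem
  obtain ⟨⟨N, hN⟩, N', hN'⟩ := hmem
  rw [h3, a6_atU_radd, a6_atU_radd]
  refine ⟨max N N', fun j hj w hw hmat => ?_⟩
  obtain ⟨i, hij, w', hw', hfw, hxy⟩ := hN j ((le_max_left _ _).trans hj) w hw
  refine hN' i (((le_max_right _ _).trans hj).trans hij) w' hfw fun n hn1 hn2 => ?_
  have h4 := hmat n (hij.trans hn1) (lt_of_lt_of_le hn2 hw')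
  have h5 := hxy n hn1 hn2
  simp only at h4
  tauto

end MAdd
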