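import Pool.Agent.H7.MAdd.A6

/-!
# ALG: the property `Alg B` from a chain of complete subalgebras

Let `X a` be extensional, `b = ⨅ a, ma (X a)`.  For `a` and `f` (a function, advancing) choose
`Φ a f = (g, Y)` by `a6`, `IsFn g`, `ma (X a) ⊓ X a x ≤ cap f g Y x`; (junk values, for instance
constant, for other `f`).  Take `δ` from `h3`.  For `x : ℕ → B` take `f` from `h4 δ x`; then
`(isin (A δ) x)ᶜ ≤ (cap f g Y x)ᶜ` with `(g, Y) = Φ a f`, hence `b ⊓ X a x ≤ isin (A δ) x`.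

Let `Ψ` be extensional; show `b ⊓ mgr Ψ ≤ mgr (sumS (⨆ X a) Ψ)`.  By `a4_mgr` there are `f, z` with
`mgr Ψ ⊓ Ψ y ≤ evd f z y`.  By `h1` (code `f` as one real by `Nat.pair`) there is `δ' ≥ δ` with
`InF (A δ') f`; `h2 δ' f` gives `g, Y` with `cap f g Y r = ⊤` for all reals `r` of `A δ'`, so
`isin (A δ) x ≤ cap f g Y x` for all `x` (`cap` is extensional in `x`: `req x r ⊓ cap f g Y r ≤ cap f g Y x`,
`gen_le`).  So `b ⊓ mgr Ψ ⊓ X a x ⊓ Ψ (radd x z0) ≤ cap f g Y x ⊓ evd f z (radd x z0) ≤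
evd g (radd Y z) (radd x (radd x z0)) = evd g (radd Y z) z0`, and `mgr (evd g (radd Y z)) = ⊤`,
`mgr_mono`.
-/

set_option autoImplicit false

open BV

namespace MAdd

variable {B : Type} [CompleteBooleanAlgebra B]

theorem alg_cap_congr (f g : ℕ → ℕ → B) (Y x r : ℕ → B) :
    req x r ⊓ cap f g Y r ≤ cap f g Y x := by
  apply gen_le
  filter_upwards [gen_req x r, gen_cap f g Y r, gen_cap f g Y x] with U h1 h2 h3 h
  rw [UF.inf_mem_iff] at h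
  rw [h1, h2] at h
  rw [h3, h.1]
  exact h.2

theorem alg_of_chain {J : Type} [Preorder J] (A : J → CS B) (hmono : ∀ δ δ', δ ≤ δ' → A δ ≤ A δ')
    (h1 : ∀ (x : ℕ → B) (δ : J), ∃ δ', δ ≤ δ' ∧ InR (A δ') x)
    (h2 : ∀ (δ : J) (f : ℕ → ℕ → B), InF (A δ) f → IsFn f → Adv f →
      ∃ (g : ℕ → ℕ → B) (Y : ℕ → B), IsFn g ∧ ∀ r, InR (A δ) r → cap f g Y r = ⊤)
    (h3 : ∀ Φ : (ℕ → ℕ) → (ℕ → ℕ → B) → (ℕ → ℕ → B) × (ℕ → B),
      ∃ δ, ∀ a f, InF (A δ) f → InF (A δ) (Φ a f).1 ∧ InR (A δ) (Φ a f).2)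
    (h4 : ∀ (δ : J) (x : ℕ → B), ∃ f, InF (A δ) f ∧ IsFn f ∧ Adv f ∧
      ∀ g, InF (A δ) g → IsFn g → ∀ Y, InR (A δ) Y → (isin (A δ) x)ᶜ ≤ (cap f g Y x)ᶜ) :
    Alg B := by
  classical
  intro X hX
  set b : B := ⨅ a, ma (X a) with hb
  have key : ∀ (a : ℕ → ℕ) (f : ℕ → ℕ → B), ∃ q : (ℕ → ℕ → B) × (ℕ → B),
      (IsFn f → Adv f → IsFn q.1 ∧ ∀ x, ma (X a) ⊓ X a x ≤ cap f q.1 q.2 x) := by
    intro a f
    by_cases h : IsFn f ∧ Adv f
    · obtain ⟨g, Y, hg, hY⟩ := a6 (X a) f h.1 h.2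
      exact ⟨(g, Y), fun _ _ => ⟨hg, hY⟩⟩
    · exact ⟨(fun _ _ => ⊥, fun _ => ⊥), fun h1 h2 => absurd ⟨h1, h2⟩ h⟩
  choose Φ hΦ using key
  obtain ⟨δ, hδ⟩ := h3 Φ
  have hin : ∀ a x, b ⊓ X a x ≤ isin (A δ) x := by
    intro a x
    obtain ⟨f, hf, hf', hfa, hfx⟩ := h4 δ x
    obtain ⟨hg, hY⟩ := hΦ a f hf' hfa
    have h5 := hfx _ (hδ a f hf).1 hg _ (hδ a f hf).2
    have h6 : b ⊓ X a x ≤ cap f (Φ a f).1 (Φ a f).2 x :=
      le_trans (inf_le_inf_right _ (iInf_le _ a)) (hY x)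
    exact h6.trans (compl_le_compl_iff_le.1 h5)
  unfold ma
  refine le_iInf fun Ψ => ?_
  rw [le_himp_iff]
  obtain ⟨f, z, hf, hfa, hfz⟩ := a4_mgr Ψ.1
  obtain ⟨δ', hδ', hx⟩ := h1 (fun n => f (Nat.unpair n).1 (Nat.unpair n).2) δ
  have hfin : InF (A δ') f := by
    intro i v
    have := hx (Nat.pair i v)
    simpa using this
  obtain ⟨g, Y, hg, hcap⟩ := h2 δ' f hfin hf hfa
  have hcap' : ∀ x, isin (A δ) x ≤ cap f g Y x := by
    intro x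
    unfold isin
    refine iSup_le fun r => ?_
    have h5 := alg_cap_congr f g Y x r.1
    rw [hcap r.1 (fun n => hmono _ _ hδ' _ (r.2 n)), inf_top_eq] at h5
    exact h5
  refine le_trans ?_ (mgr_mono _ (evd g (radd Y z)))
  rw [mgr_evd g hg (radd Y z), inf_top_eq]
  refine le_iInf fun z0 => ?_
  rw [le_himp_iff]
  unfold sumS
  rw [inf_iSup_eq]
  refine iSup_le fun x => ?_
  rw [iSup_inf_eq, inf_iSup_eq]
  refine iSup_le fun a => ?_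
  have h5 : b ⊓ mgr Ψ.1 ⊓ (X a x ⊓ Ψ.1 (radd x z0)) ≤ cap f g Y x ⊓ evd f z (radd x z0) := by
    refine le_inf ?_ ?_
    · refine le_trans ?_ ((hin a x).trans (hcap' x))
      exact le_inf (inf_le_left.trans inf_le_left) (inf_le_right.trans inf_le_left)
    · refine le_trans ?_ (hfz _)
      exact le_inf (inf_le_left.trans inf_le_right) (inf_le_right.trans inf_le_right)
  refine h5.trans ?_
  have h6 := cap_evd f g Y x z (radd x z0)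
  rwa [radd_radd] at h6

end MAdd
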