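import Pool.Agent.H7.MAdd.KON

/-!
# BDS: bounding a function against a compact family of conditions

Recursion on `j`: `H j v = ⨅ F : reals of A, pr A (β F ⊓ leOn h H 0 j ⊓ h j v)`; (`leOn h H 0 j` only
depends on `H i` for `i < j`: strong recursion, e.g. define the pair (`Q j`, `H j`) by
`Q 0 = ⊤`, `H j v = ⨅ F, pr A (β F ⊓ Q j ⊓ h j v)`, `Q (j+1) = Q j ⊓ ⨅ v, H j v ⇨ h j v`, and show
`Q j = leOn h H 0 j` afterwards).
Induction hypothesis: `pr A (β F ⊓ Q j) = ⊤` for all reals `F` of `A` (`j = 0`: `Shp.top`).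
Then `⨆ v, pr A (β F ⊓ Q j ⊓ h j v) = pr A (β F ⊓ Q j ⊓ ⨆ v, h j v) = ⊤` and by `kon`
(`hsc` from `Shp.sc` with `g = Q j ⊓ h j v`) `⨆ v, H j v = ⊤`.
Step: `pr A (β F ⊓ Q j ⊓ ⨅ v, H j v ⇨ h j v) = ⊤`: for each `v` let `u = H j v ⊓ (⨆ v' < v, H j v')ᶜ ∈ A`;
`u ⊓ Q j ⊓ h j v ≤ Q (j+1)` (for `v' < v`: `u ⊓ H j v' = ⊥`; for `v' ≥ v`: `h j v ≤ h j v'`), so
`pr A (β F ⊓ Q (j+1)) ≥ u ⊓ pr A (β F ⊓ Q j ⊓ h j v) ≥ u ⊓ H j v = u`, and the supremum of these `u`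
over `v` is `⨆ v, H j v = ⊤`.
-/

set_option autoImplicit false

namespace MAdd

variable {B : Type} [CompleteBooleanAlgebra B]

/-- the bound at one place -/
noncomputable def bdsH (A : CS B) (β : (ℕ → B) → B) (q a : B) : B :=
  ⨅ F : {F : ℕ → B // InR A F}, pr A (β F.1 ⊓ q ⊓ a)

/-- the condition that the first values are bounded -/
noncomputable def bdsQ (A : CS B) (β : (ℕ → B) → B) (h : ℕ → ℕ → B) : ℕ → B
  | 0 => ⊤
  | j + 1 => bdsQ A β h j ⊓ ⨅ v, bdsH A β (bdsQ A β h j) (h j v) ⇨ h j v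

theorem bds_mono {A : CS B} {β : (ℕ → B) → B} {h : ℕ → ℕ → B} (hh : IsFn h) (j : ℕ) (q : B)
    {v w : ℕ} (hvw : v ≤ w) : bdsH A β q (h j v) ≤ bdsH A β q (h j w) :=
  iInf_mono fun _ => pr_mono A (inf_le_inf_left _ (hh.mono j v w hvw))

theorem bds_sup {u : ℕ → B} (hu : (⨆ v, u v) = ⊤) :
    (⨆ v, u v ⊓ ⨅ v', ⨅ (_ : v' < v), (u v')ᶜ) = ⊤ := by
  rw [eq_top_iff, ← hu]
  refine iSup_le fun v => ?_
  induction v using Nat.strong_induction_on with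
  | _ v ih =>
    have h1 : u v ≤ (u v ⊓ ⨅ v', ⨅ (_ : v' < v), (u v')ᶜ) ⊔ ⨆ v', ⨆ (_ : v' < v), u v' := by
      have h2 : (⨅ v', ⨅ (_ : v' < v), (u v')ᶜ) = (⨆ v', ⨆ (_ : v' < v), u v')ᶜ := by
        simp only [compl_iSup]
      rw [h2]
      calc u v = (u v ⊓ (⨆ v', ⨆ (_ : v' < v), u v')ᶜ) ⊔ (u v ⊓ ⨆ v', ⨆ (_ : v' < v), u v') := by
            rw [← inf_sup_left, compl_sup_eq_top, inf_top_eq]
        _ ≤ _ := sup_le_sup_left inf_le_right _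
    refine h1.trans (sup_le (le_iSup (fun v => u v ⊓ ⨅ v', ⨅ (_ : v' < v), (u v')ᶜ) v) ?_)
    exact iSup_le fun v' => iSup_le fun hv' => ih v' hv'

theorem bds_tot {A : CS B} {β : (ℕ → B) → B} (hβ : Shp A β) {h : ℕ → ℕ → B} (hh : IsFn h)
    (j : ℕ) {q : B} (hq : ∀ F, InR A F → pr A (β F ⊓ q) = ⊤) :
    (⨆ v, bdsH A β q (h j v)) = ⊤ := by
  refine kon A (fun F v => pr A (β F ⊓ q ⊓ h j v)) (fun F _ v => pr_mem A _)
    (fun F _ v => pr_mono A (inf_le_inf_left _ (hh.mono j v (v + 1) (Nat.le_succ v)))) ?_ ?_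
  · intro F hF
    rw [← pr_iSup, ← inf_iSup_eq, hh.tot j, inf_top_eq, hq F hF]
  · intro F hF v
    have := hβ.sc F hF (q ⊓ h j v)
    simp only [inf_assoc]
    exact this

theorem bds_step {A : CS B} {β : (ℕ → B) → B} (hβ : Shp A β) {h : ℕ → ℕ → B} (hh : IsFn h)
    (j : ℕ) {q : B} (hq : ∀ F, InR A F → pr A (β F ⊓ q) = ⊤) (F : ℕ → B) (hF : InR A F) :
    pr A (β F ⊓ (q ⊓ ⨅ v, bdsH A β q (h j v) ⇨ h j v)) = ⊤ := by
  have h1 := bds_sup (bds_tot hβ hh j hq)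
  rw [eq_top_iff, ← h1]
  refine iSup_le fun v => ?_
  set u : B := bdsH A β q (h j v) ⊓ ⨅ v', ⨅ (_ : v' < v), (bdsH A β q (h j v'))ᶜ with hu
  have hHm : ∀ v, bdsH A β q (h j v) ∈ A := fun v => A.iInf_mem fun F => pr_mem A _
  have huA : u ∈ A := A.inf_mem (hHm v) (A.iInf_mem fun v' => A.iInf_mem fun _ =>
    A.compl_mem (hHm v'))
  have h2 : u ⊓ (β F ⊓ q ⊓ h j v) ≤ β F ⊓ (q ⊓ ⨅ v, bdsH A β q (h j v) ⇨ h j v) := by
    refine le_inf (inf_le_right.trans (inf_le_left.trans inf_le_left))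
      (le_inf (inf_le_right.trans (inf_le_left.trans inf_le_right)) (le_iInf fun w => ?_))
    rw [le_himp_iff]
    rcases lt_or_ge w v with hw | hw
    · have h3 : u ≤ (bdsH A β q (h j w))ᶜ :=
        inf_le_right.trans ((iInf_le _ w).trans (iInf_le _ hw))
      calc u ⊓ (β F ⊓ q ⊓ h j v) ⊓ bdsH A β q (h j w)
          ≤ (bdsH A β q (h j w))ᶜ ⊓ bdsH A β q (h j w) :=
            inf_le_inf_right _ (inf_le_left.trans h3)
        _ = ⊥ := compl_inf_eq_bot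
        _ ≤ _ := bot_le
    · exact inf_le_left.trans (inf_le_right.trans (inf_le_right.trans (hh.mono j v w hw)))
  calc u ≤ u ⊓ pr A (β F ⊓ q ⊓ h j v) :=
        le_inf le_rfl (inf_le_left.trans (iInf_le (fun F : {F : ℕ → B // InR A F} =>
          pr A (β F.1 ⊓ q ⊓ h j v)) ⟨F, hF⟩))
    _ = pr A (u ⊓ (β F ⊓ q ⊓ h j v)) := (pr_inf A huA _).symm
    _ ≤ _ := pr_mono A h2

theorem bds {A : CS B} {β : (ℕ → B) → B} (hβ : Shp A β) (h : ℕ → ℕ → B) (hh : IsFn h) :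
    ∃ H, InF A H ∧ IsFn H ∧ ∀ F, InR A F → ∀ m, pr A (β F ⊓ leOn h H 0 m) = ⊤ := by
  have hQ : ∀ j F, InR A F → pr A (β F ⊓ bdsQ A β h j) = ⊤ := by
    intro j
    induction j with
    | zero =>
      intro F hF
      show pr A (β F ⊓ ⊤) = ⊤
      rw [inf_top_eq, hβ.top F hF]
    | succ j ih =>
      intro F hF
      exact bds_step hβ hh j ih F hF
  have hanti : Antitone (bdsQ A β h) := antitone_nat_of_succ_le fun j => inf_le_left
  refine ⟨fun j v => bdsH A β (bdsQ A β h j) (h j v), fun j v => A.iInf_mem fun F => pr_mem A _,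
    ⟨fun j v w hvw => bds_mono hh j _ hvw, fun j => bds_tot hβ hh j (hQ j)⟩, fun F hF m => ?_⟩
  rw [eq_top_iff, ← hQ m F hF]
  refine pr_mono A (inf_le_inf_left _ ?_)
  refine le_iInf fun j => le_iInf fun hj => ?_
  exact (hanti (Nat.succ_le_of_lt hj.2)).trans inf_le_right

end MAdd
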