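import Pool.Agent.H7.MAdd.Defs
import Pool.Agent.H26.CM.Algb

/-!
# BRG: comparison with the definitions of `Pool/Agent/H26/CM/Algb.lean`

`bihimp a b = (b ⇨ a) ⊓ (a ⇨ b)`, `symmDiff a b = a \\ b ⊔ b \\ a`, `sdiff_eq`; `⨅ n : Fin k` versus
`⨅ n, ⨅ (_ : n < k)`; a string `τ` with `σ <+: τ` is `σ ++ t`.
-/

set_option autoImplicit false

namespace MAdd

variable {B : Type} [CompleteBooleanAlgebra B]

theorem eqR_eq (x y : ℕ → B) : LD.eqR x y = req x y := by
  unfold LD.eqR req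
  refine iInf_congr fun n => ?_
  rw [bihimp, inf_comm]

theorem xorR_eq (x y : ℕ → B) : LD.xorR x y = radd x y := by
  funext n
  simp only [LD.xorR, radd, symmDiff, sdiff_eq]
  rw [inf_comm (y n)]

theorem extR_iff (X : (ℕ → B) → B) : LD.ExtR X ↔ ExtR X := by
  simp only [LD.ExtR, ExtR, eqR_eq]

theorem BRG_lit_eq (a : B) (b : Bool) : LD.lit a b = lit b a := by
  cases b <;> simp [LD.lit, lit]

theorem bPre_eq (x : ℕ → B) (τ : List Bool) : LD.bPre x τ = cyl τ x := by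
  unfold LD.bPre cyl
  apply le_antisymm
  · refine le_iInf fun n => le_iInf fun hn => ?_
    refine (iInf_le _ ⟨n, hn⟩).trans ?_
    rw [BRG_lit_eq]
    simp [List.getD_eq_getElem?_getD, hn]
  · refine le_iInf fun n => ?_
    refine (iInf₂_le n.1 n.2).trans ?_
    rw [BRG_lit_eq]
    simp [List.getD_eq_getElem?_getD]

theorem bNwd_eq (X : (ℕ → B) → B) : LD.bNwd X = nwd X := by
  unfold LD.bNwd nwd
  refine iInf_congr fun σ => ?_
  simp only [bPre_eq]
  apply le_antisymm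
  · refine iSup_le fun t => ?_
    exact le_iSup₂_of_le (σ ++ t) ⟨t, rfl⟩ le_rfl
  · refine iSup₂_le fun τ hτ => ?_
    obtain ⟨t, rfl⟩ := hτ
    exact le_iSup_of_le t le_rfl

theorem bMeag_eq (X : (ℕ → B) → B) : LD.bMeag X = mgr X := by
  unfold LD.bMeag mgr
  rw [iSup_subtype, iSup_subtype]
  simp only [extR_iff, bNwd_eq]

theorem BRG_bAdd_eq (X Y : (ℕ → B) → B) : LD.bAdd X Y = sumS X Y := by
  funext z
  simp only [LD.bAdd, sumS, xorR_eq]

theorem bMA_eq (X : (ℕ → B) → B) : LD.bMA X = ma X := by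
  unfold LD.bMA ma
  rw [iInf_subtype, iInf_subtype]
  simp only [extR_iff, bMeag_eq, BRG_bAdd_eq]

theorem add_of_alg (h : Alg B) : LD.ADD B := by
  intro X hX
  have := h X (fun a => (extR_iff (X a)).1 (hX a))
  simpa only [bMA_eq] using this

end MAdd
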