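import Pool.Agent.H7.MAdd.Defs

/-!
# CSB: complete subalgebras and the upper projection

`pr A b` is the least element of `A` above `b`.  `pr_inf`: for `a ∈ A`,
`pr A (a ⊓ b) = a ⊓ pr A b`: `≤` clear; `pr A b ≤ aᶜ ⊔ pr A (a ⊓ b)` because the right side is in `A`
and above `b`.  `pr_iSup`: the supremum of the projections is in `A` and above.
-/

set_option autoImplicit false

namespace MAdd

variable {B : Type} [CompleteBooleanAlgebra B]

namespace CS

variable (A : CS B)

theorem compl_mem {b : B} (h : b ∈ A) : bᶜ ∈ A := A.compl_mem' b h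

theorem sSup_mem {s : Set B} (h : ∀ b ∈ s, b ∈ A) : sSup s ∈ A := A.sSup_mem' s h

theorem sInf_mem {s : Set B} (h : ∀ b ∈ s, b ∈ A) : sInf s ∈ A := by
  have h1 : sInf s = (sSup (compl '' s))ᶜ := by
    rw [← compl_sInf', compl_compl]
  rw [h1]
  apply A.compl_mem
  apply A.sSup_mem
  rintro _ ⟨b, hb, rfl⟩
  exact A.compl_mem (h b hb)

theorem iSup_mem {ι : Sort*} {f : ι → B} (h : ∀ i, f i ∈ A) : (⨆ i, f i) ∈ A := by
  apply A.sSup_mem
  rintro _ ⟨i, rfl⟩
  exact h i

theorem iInf_mem {ι : Sort*} {f : ι → B} (h : ∀ i, f i ∈ A) : (⨅ i, f i) ∈ A := by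
  apply A.sInf_mem
  rintro _ ⟨i, rfl⟩
  exact h i

theorem top_mem : (⊤ : B) ∈ A := by
  rw [← sInf_empty]
  exact A.sInf_mem (by simp)

theorem bot_mem : (⊥ : B) ∈ A := by
  rw [← sSup_empty]
  exact A.sSup_mem (by simp)

theorem sup_mem {a b : B} (ha : a ∈ A) (hb : b ∈ A) : a ⊔ b ∈ A := by
  rw [← sSup_pair]
  apply A.sSup_mem
  rintro c (rfl | rfl)
  · exact ha
  · exact hb

theorem inf_mem {a b : B} (ha : a ∈ A) (hb : b ∈ A) : a ⊓ b ∈ A := by
  rw [← sInf_pair]
  apply A.sInf_mem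
  rintro c (rfl | rfl)
  · exact ha
  · exact hb

theorem himp_mem {a b : B} (ha : a ∈ A) (hb : b ∈ A) : a ⇨ b ∈ A := by
  rw [himp_eq]
  exact A.sup_mem hb (A.compl_mem ha)

theorem bihimp_mem {a b : B} (ha : a ∈ A) (hb : b ∈ A) : bihimp a b ∈ A := by
  unfold bihimp
  exact A.inf_mem (A.himp_mem hb ha) (A.himp_mem ha hb)

theorem symmDiff_mem {a b : B} (ha : a ∈ A) (hb : b ∈ A) : symmDiff a b ∈ A := by
  unfold symmDiff
  rw [sdiff_eq, sdiff_eq]
  exact A.sup_mem (A.inf_mem ha (A.compl_mem hb)) (A.inf_mem hb (A.compl_mem ha))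

theorem lit_mem {t : Bool} {a : B} (ha : a ∈ A) : lit t a ∈ A := by
  cases t
  · exact A.compl_mem ha
  · exact ha

theorem mat_mem {x y : ℕ → B} (hx : InR A x) (hy : InR A y) (i v : ℕ) : mat x y i v ∈ A :=
  A.iInf_mem fun n => A.iInf_mem fun _ => A.bihimp_mem (hx n) (hy n)

theorem req_mem {x y : ℕ → B} (hx : InR A x) (hy : InR A y) : req x y ∈ A :=
  A.iInf_mem fun n => A.bihimp_mem (hx n) (hy n)

theorem cyl_mem {x : ℕ → B} (hx : InR A x) (τ : List Bool) : cyl τ x ∈ A :=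
  A.iInf_mem fun n => A.iInf_mem fun _ => A.lit_mem (hx n)

theorem av_mem {f : ℕ → ℕ → B} {x Y : ℕ → B} (hf : InF A f) (hx : InR A x) (hy : InR A Y)
    (n m : ℕ) : av f x Y n m ∈ A :=
  A.iInf_mem fun j => A.iInf_mem fun _ => A.iInf_mem fun v =>
    A.himp_mem (hf j v) (A.compl_mem (A.mat_mem hx hy j v))

theorem leOn_mem {f g : ℕ → ℕ → B} (hf : InF A f) (hg : InF A g) (n m : ℕ) :
    leOn f g n m ∈ A :=
  A.iInf_mem fun j => A.iInf_mem fun _ => A.iInf_mem fun v => A.himp_mem (hg j v) (hf j v)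

theorem cr_mem (z : ℕ → Bool) : InR A (cr z) := by
  intro n
  unfold cr
  cases z n
  · exact A.bot_mem
  · exact A.top_mem

end CS

variable (A : CS B)

theorem pr_mem (b : B) : pr A b ∈ A := A.sInf_mem fun _ h => h.1

theorem le_pr (b : B) : b ≤ pr A b := le_sInf fun _ h => h.2

theorem pr_le {a b : B} (ha : a ∈ A) (h : b ≤ a) : pr A b ≤ a := sInf_le ⟨ha, h⟩

theorem pr_mono {b b' : B} (h : b ≤ b') : pr A b ≤ pr A b' :=
  pr_le A (pr_mem A b') (h.trans (le_pr A b'))

theorem pr_of_mem {a : B} (ha : a ∈ A) : pr A a = a :=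
  le_antisymm (pr_le A ha le_rfl) (le_pr A a)

theorem pr_inf {a : B} (ha : a ∈ A) (b : B) : pr A (a ⊓ b) = a ⊓ pr A b := by
  apply le_antisymm
  · exact pr_le A (A.inf_mem ha (pr_mem A b)) (inf_le_inf_left a (le_pr A b))
  · have h1 : pr A b ≤ aᶜ ⊔ pr A (a ⊓ b) := by
      apply pr_le A (A.sup_mem (A.compl_mem ha) (pr_mem A _))
      have h2 : b = (a ⊓ b) ⊔ (aᶜ ⊓ b) := by
        rw [← inf_sup_right, sup_compl_eq_top, top_inf_eq]
      calc b = (a ⊓ b) ⊔ (aᶜ ⊓ b) := h2
        _ ≤ pr A (a ⊓ b) ⊔ aᶜ := sup_le_sup (le_pr A _) inf_le_left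
        _ = aᶜ ⊔ pr A (a ⊓ b) := sup_comm _ _
    calc a ⊓ pr A b ≤ a ⊓ (aᶜ ⊔ pr A (a ⊓ b)) := inf_le_inf_left a h1
      _ = a ⊓ pr A (a ⊓ b) := by rw [inf_sup_left, inf_compl_eq_bot, bot_sup_eq]
      _ ≤ pr A (a ⊓ b) := inf_le_right

theorem pr_inf' {a : B} (ha : a ∈ A) (b : B) : pr A (b ⊓ a) = pr A b ⊓ a := by
  rw [inf_comm, pr_inf A ha, inf_comm]

theorem pr_iSup {ι : Sort*} (f : ι → B) : pr A (⨆ i, f i) = ⨆ i, pr A (f i) := by
  apply le_antisymm
  · exact pr_le A (A.iSup_mem fun i => pr_mem A (f i)) (iSup_mono fun i => le_pr A (f i))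
  · exact iSup_le fun i => pr_mono A (le_iSup f i)

theorem pr_sup (b b' : B) : pr A (b ⊔ b') = pr A b ⊔ pr A b' := by
  apply le_antisymm
  · exact pr_le A (A.sup_mem (pr_mem A b) (pr_mem A b')) (sup_le_sup (le_pr A b) (le_pr A b'))
  · exact sup_le (pr_mono A le_sup_left) (pr_mono A le_sup_right)

theorem pr_bot : pr A (⊥ : B) = ⊥ := pr_of_mem A A.bot_mem

theorem pr_top : pr A (⊤ : B) = ⊤ := pr_of_mem A A.top_mem

theorem pr_eq_bot {b : B} : pr A b = ⊥ ↔ b = ⊥ := by
  constructor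
  · intro h
    have h1 := le_pr A b
    rw [h] at h1
    exact le_bot_iff.1 h1
  · intro h
    rw [h, pr_bot]

variable {A}

theorem pr_pr {A' : CS B} (h : A ≤ A') (b : B) : pr A (pr A' b) = pr A b := by
  apply le_antisymm
  · exact pr_le A (pr_mem A b) (pr_le A' (h _ (pr_mem A b)) (le_pr A b))
  · exact pr_mono A (le_pr A' b)

theorem isin_mem {A' : CS B} (h : A ≤ A') {x : ℕ → B} (hx : InR A' x) : isin A x ∈ A' :=
  A'.iSup_mem fun r => A'.req_mem hx fun n => h _ (r.2 n)

theorem isin_mono {A' : CS B} (h : A ≤ A') (x : ℕ → B) : isin A x ≤ isin A' x :=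
  iSup_le fun r => le_iSup (fun s : {r : ℕ → B // InR A' r} => req x s.1)
    ⟨r.1, fun n => h _ (r.2 n)⟩

theorem req_symm (x y : ℕ → B) : req x y = req y x := by
  unfold req
  congr 1
  funext n
  exact bihimp_comm _ _

theorem req_trans (x y z : ℕ → B) : req x y ⊓ req y z ≤ req x z := by
  refine le_iInf fun n => ?_
  exact (inf_le_inf (iInf_le _ n) (iInf_le _ n)).trans (bihimp_triangle (x n) (y n) (z n))

/-- `x` and `r` equal implies: `x` is in `A` iff `r` is in `A` -/
theorem req_isin (x r : ℕ → B) : req x r ⊓ isin A x ≤ isin A r := by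
  unfold isin
  rw [inf_iSup_eq]
  refine iSup_le fun s => ?_
  refine le_trans ?_ (le_iSup (fun s : {r : ℕ → B // InR A r} => req r s.1) s)
  rw [req_symm x r]
  exact req_trans r x s.1

/-- a real which differs from all reals of `A` differs from them on every `[j, ∞)` -/
theorem isin_compl_le {Y : ℕ → B} (hY : InR A Y) (x : ℕ → B) (j : ℕ) :
    (isin A x)ᶜ ≤ ⨆ v, (mat x Y j v)ᶜ := by
  rw [← compl_iInf, compl_le_compl_iff_le]
  have key : ∀ j : ℕ, (⊤ : B) ≤ ⨆ σ : ℕ → Bool, ⨅ n, ⨅ (_ : n < j), lit (σ n) (x n) := by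
    intro j
    induction j with
    | zero =>
      refine le_trans ?_ (le_iSup _ (fun _ => true))
      refine le_iInf fun n => le_iInf fun hn => absurd hn (Nat.not_lt_zero n)
    | succ j ih =>
      refine ih.trans (iSup_le fun σ => ?_)
      set E : B := ⨅ n, ⨅ (_ : n < j), lit (σ n) (x n) with hE
      have h1 : E = (E ⊓ x j) ⊔ (E ⊓ (x j)ᶜ) := by
        rw [← inf_sup_left, sup_compl_eq_top, inf_top_eq]
      have h2 : ∀ t : Bool, E ⊓ lit t (x j) ≤
          ⨆ σ : ℕ → Bool, ⨅ n, ⨅ (_ : n < j + 1), lit (σ n) (x n) := by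
        intro t
        refine le_trans ?_ (le_iSup _ (Function.update σ j t))
        refine le_iInf fun n => le_iInf fun hn => ?_
        rcases Nat.lt_succ_iff_lt_or_eq.1 hn with h | h
        · rw [Function.update_of_ne h.ne]
          exact inf_le_left.trans ((iInf_le _ n).trans (iInf_le _ h))
        · subst h
          rw [Function.update_self]
          exact inf_le_right
      rw [h1]
      exact sup_le (h2 true) (h2 false)
  calc (⨅ v, mat x Y j v) = (⨅ v, mat x Y j v) ⊓ ⊤ := (inf_top_eq _).symm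
    _ ≤ (⨅ v, mat x Y j v) ⊓ ⨆ σ : ℕ → Bool, ⨅ n, ⨅ (_ : n < j), lit (σ n) (x n) :=
        inf_le_inf_left _ (key j)
    _ ≤ isin A x := by
        rw [inf_iSup_eq]
        refine iSup_le fun σ => ?_
        have hr : InR A (fun n => if n < j then cr σ n else Y n) := by
          intro n
          by_cases h : n < j
          · simp only [h, if_true]; exact A.cr_mem σ n
          · simp only [h, if_false]; exact hY n
        refine le_trans ?_ (le_iSup (fun s : {r : ℕ → B // InR A r} => req x s.1)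
          ⟨fun n => if n < j then cr σ n else Y n, hr⟩)
        refine le_iInf fun n => ?_
        by_cases h : n < j
        · simp only [h, if_true]
          refine inf_le_right.trans ((iInf_le _ n).trans ((iInf_le _ h).trans ?_))
          unfold lit cr
          cases σ n
          · simp
          · simp
        · simp only [h, if_false]
          refine inf_le_left.trans ((iInf_le _ (n + 1)).trans ?_)
          exact (iInf_le _ n).trans (iInf_le _ ⟨by omega, by omega⟩)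

end MAdd
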