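import Pool.Agent.H26.BV.Defs

/-!
# MAdd: Boolean valued reals, functions, meager-additive sets (basic definitions)

`B : Type` is a complete Boolean algebra.  A Boolean valued real is `x : ℕ → B`
(`x n` is the value of the statement that `n` belongs to `x`; reals are subsets of the set of natural
numbers, the group operation is the symmetric difference).
A Boolean valued function from the natural numbers to the natural numbers is `f : ℕ → ℕ → B`, where
`f i v` is the value of the statement `f i ≤ v` (so `f i` is increasing in `v` with supremum `⊤`).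
A Boolean valued set of reals is an extensional `Φ : (ℕ → B) → B`.
-/

set_option autoImplicit false

open BV

namespace MAdd

section Real

variable {B : Type} [CompleteBooleanAlgebra B]

/-- `a` or its complement -/
def lit (b : Bool) (a : B) : B := bif b then a else aᶜ

/-- the constant real -/
def cr (z : ℕ → Bool) : ℕ → B := fun n => bif z n then ⊤ else ⊥

/-- value of: `x` and `y` agree on `[i, v)` -/
def mat (x y : ℕ → B) (i v : ℕ) : B := ⨅ n, ⨅ (_ : i ≤ n ∧ n < v), bihimp (x n) (y n)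

/-- value of `x = y` -/
def req (x y : ℕ → B) : B := ⨅ n, bihimp (x n) (y n)

/-- value of: the string `τ` is an initial segment of `x` -/
def cyl (τ : List Bool) (x : ℕ → B) : B := ⨅ n, ⨅ (_ : n < τ.length), lit (τ.getD n false) (x n)

/-- sum of reals -/
def radd (x y : ℕ → B) : ℕ → B := fun n => symmDiff (x n) (y n)

/-- `f` is a Boolean valued function from `ℕ` to `ℕ` -/
structure IsFn (f : ℕ → ℕ → B) : Prop where
  mono : ∀ i v w, v ≤ w → f i v ≤ f i w
  tot : ∀ i, (⨆ v, f i v) = ⊤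

/-- `i < f i` for all `i` -/
def Adv (f : ℕ → ℕ → B) : Prop := ∀ i v, v ≤ i → f i v = ⊥

/-- value of: `x` is captured by `(g, Y)`: for all but finitely many `j` there is `i ≥ j` with
`f i ≤ g j` such that `x = Y` on `[i, f i)` -/
def cap (f g : ℕ → ℕ → B) (Y x : ℕ → B) : B :=
  ⨆ N, ⨅ j, ⨅ (_ : N ≤ j), ⨅ v, g j v ⇨
    ⨆ i, ⨆ (_ : j ≤ i), ⨆ w, ⨆ (_ : w ≤ v), f i w ⊓ mat x Y i w

/-- value of: for all but finitely many `i`, `x ≠ z` on `[i, f i)` -/
def evd (f : ℕ → ℕ → B) (z x : ℕ → B) : B :=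
  ⨆ N, ⨅ i, ⨅ (_ : N ≤ i), ⨅ v, f i v ⇨ (mat x z i v)ᶜ

/-- value of: `x ≠ Y` on `[j, f j)` for all `j` in `[n, m)` -/
def av (f : ℕ → ℕ → B) (x Y : ℕ → B) (n m : ℕ) : B :=
  ⨅ j, ⨅ (_ : n ≤ j ∧ j < m), ⨅ v, f j v ⇨ (mat x Y j v)ᶜ

/-- value of: `h j ≤ H j` for all `j` in `[n, m)` -/
def leOn (h H : ℕ → ℕ → B) (n m : ℕ) : B := ⨅ j, ⨅ (_ : n ≤ j ∧ j < m), ⨅ v, H j v ⇨ h j v

/-! ## Sets of reals -/

/-- extensional Boolean valued sets of reals -/
def ExtR (Φ : (ℕ → B) → B) : Prop := ∀ x y, req x y ⊓ Φ x ≤ Φ y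

/-- value of: `Φ` is nowhere dense -/
def nwd (Φ : (ℕ → B) → B) : B :=
  ⨅ σ : List Bool, ⨆ τ : List Bool, ⨆ (_ : σ <+: τ), ⨅ x, Φ x ⇨ (cyl τ x)ᶜ

/-- value of: `Φ` is meager -/
def mgr (Φ : (ℕ → B) → B) : B :=
  ⨆ N : {N : ℕ → (ℕ → B) → B // ∀ i, ExtR (N i)}, (⨅ i, nwd (N.1 i)) ⊓ ⨅ x, Φ x ⇨ ⨆ i, N.1 i x

/-- the set of all sums `x + y`, `x` in `Φ` and `y` in `Ψ` -/
def sumS (Φ Ψ : (ℕ → B) → B) : (ℕ → B) → B := fun z => ⨆ x, Φ x ⊓ Ψ (radd x z)

/-- value of: `Φ` is meager-additive -/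
def ma (Φ : (ℕ → B) → B) : B :=
  ⨅ Ψ : {Ψ : (ℕ → B) → B // ExtR Ψ}, mgr Ψ.1 ⇨ mgr (sumS Φ Ψ.1)

end Real

/-- the first algebraic property of `B`: unions of families of meager-additive sets indexed by the
ground model functions are meager-additive -/
def Alg (B : Type) [CompleteBooleanAlgebra B] : Prop :=
  ∀ X : (ℕ → ℕ) → (ℕ → B) → B, (∀ a, ExtR (X a)) → (⨅ a, ma (X a)) ≤ ma (fun x => ⨆ a, X a x)

/-! ## Complete subalgebras -/

section Sub

/-- complete subalgebras of `B` -/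
structure CS (B : Type) [CompleteBooleanAlgebra B] where
  carrier : Set B
  compl_mem' : ∀ b ∈ carrier, bᶜ ∈ carrier
  sSup_mem' : ∀ s : Set B, s ⊆ carrier → sSup s ∈ carrier

variable {B : Type} [CompleteBooleanAlgebra B]

instance : Membership B (CS B) := ⟨fun A b => b ∈ A.carrier⟩

instance : LE (CS B) := ⟨fun A A' => ∀ b : B, b ∈ A → b ∈ A'⟩

/-- upper projection to a complete subalgebra -/
def pr (A : CS B) (b : B) : B := sInf {a | a ∈ A ∧ b ≤ a}

/-- reals of `A` -/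
def InR (A : CS B) (x : ℕ → B) : Prop := ∀ n, x n ∈ A

/-- functions of `A` -/
def InF (A : CS B) (f : ℕ → ℕ → B) : Prop := ∀ i v, f i v ∈ A

/-- value of: `x` is a real of `A` -/
def isin (A : CS B) (x : ℕ → B) : B := ⨆ r : {r : ℕ → B // InR A r}, req x r.1

/-- the countable chain condition: every supremum is the supremum of a countable subset -/
def CCC (B : Type) [CompleteBooleanAlgebra B] : Prop :=
  ∀ S : Set B, ∃ T : Set B, T ⊆ S ∧ T.Countable ∧ sSup T = sSup S

/-- every function of `A'` is bounded infinitely often, on long intervals, by a function of `A` -/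
def Bd (A A' : CS B) : Prop :=
  ∀ h, InF A' h → IsFn h → ∃ H, InF A H ∧ IsFn H ∧
    ∀ b : B, pr A b ≤ ⨆ n, ⨅ m, pr A (b ⊓ leOn h H n m)

/-- a real of `A'` which is not in `A` avoids, with the windows of some function of `A`, every real
of `A` on long intervals -/
def Nw (A A' : CS B) : Prop :=
  ∀ x, InR A' x → ∃ f, InF A f ∧ IsFn f ∧
    ∀ Y, InR A Y → ∀ b : B, b ≤ (isin A x)ᶜ → pr A b ≤ ⨆ n, ⨅ m, pr A (b ⊓ av f x Y n m)

/-- families of elements `β F` of `B`, indexed by the reals `F` of `A`, to which compactness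
arguments apply -/
structure Shp (A : CS B) (β : (ℕ → B) → B) : Prop where
  top : ∀ F, InR A F → pr A (β F) = ⊤
  sc : ∀ F, InR A F → ∀ g : B, pr A (β F ⊓ g) ≤
    ⨆ l, ⨅ F' : {F' : ℕ → B // InR A F'}, mat F F'.1 0 l ⇨ pr A (β F'.1 ⊓ g)

end Sub

/-! ## Generic ultrafilters (idea and code of the lead) -/

section Gen

variable {B : Type} [CompleteBooleanAlgebra B]

/-- `U` meets the family `D`: if `sup D ∈ U` then some member of `D` is in `U` -/
def Meets (D : Set B) (U : UF B) : Prop := sSup D ∈ U → ∃ d ∈ D, d ∈ U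

/-- the filter of all sets of ultrafilters containing all `U` which meet countably many families -/
def gen (B : Type) [CompleteBooleanAlgebra B] : Filter (UF B) where
  sets := {A | ∃ D : ℕ → Set B, ∀ U, (∀ n, Meets (D n) U) → U ∈ A}
  univ_sets := ⟨fun _ => ∅, fun _ _ => trivial⟩
  sets_of_superset := by
    rintro A A' ⟨D, hD⟩ h
    exact ⟨D, fun U hU => h (hD U hU)⟩
  inter_sets := by
    rintro A A' ⟨D, hD⟩ ⟨D', hD'⟩
    refine ⟨fun n => if n % 2 = 0 then D (n / 2) else D' (n / 2), fun U hU => ⟨hD U ?_, hD' U ?_⟩⟩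
    · intro n
      have := hU (2 * n)
      simpa using this
    · intro n
      have := hU (2 * n + 1)
      have h2 : (2 * n + 1) / 2 = n := by omega
      have h3 : (2 * n + 1) % 2 = 1 := by omega
      simpa [h2, h3] using this

/-- `U` sees the real `x` as `{n | x n ∈ U}` -/
def atU (U : UF B) {ι : Type} (x : ι → B) : ι → Prop := fun n => x n ∈ U

end Gen

/-! ## Two-valued versions -/

/-- `x = y` on `[i, v)` -/
def matP (x y : ℕ → Prop) (i v : ℕ) : Prop := ∀ n, i ≤ n → n < v → (x n ↔ y n)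

def cylP (τ : List Bool) (x : ℕ → Prop) : Prop := ∀ n, n < τ.length → (x n ↔ τ.getD n false = true)

def capP (f g : ℕ → ℕ → Prop) (Y x : ℕ → Prop) : Prop :=
  ∃ N, ∀ j, N ≤ j → ∀ v, g j v → ∃ i, j ≤ i ∧ ∃ w, w ≤ v ∧ f i w ∧ matP x Y i w

def evdP (f : ℕ → ℕ → Prop) (z x : ℕ → Prop) : Prop :=
  ∃ N, ∀ i, N ≤ i → ∀ v, f i v → ¬ matP x z i v

/-- `f i v` means `f i ≤ v` -/
structure IsFnP (f : ℕ → ℕ → Prop) : Prop where
  mono : ∀ i v w, v ≤ w → f i v → f i w
  tot : ∀ i, ∃ v, f i v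

def AdvP (f : ℕ → ℕ → Prop) : Prop := ∀ i v, v ≤ i → ¬ f i v

end MAdd
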