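import Pool.Agent.H7.MAdd.Defs
import Pool.Agent.H26.BV.Ult

/-!
# GEN: generic ultrafilters, reasoning modulo `gen B`

Write `U ∈ gen` for: `U` meets countably many given families.

* `exists_gen`: Rasiowa-Sikorski.  Let `A ∈ gen B` be given by `D : ℕ → Set B` and `a ≠ ⊥`.  Choose
  `a = a 0 ≥ a 1 ≥ ...` nonzero: if `a n ⊓ sSup (D n) = ⊥` put `a (n+1) = a n` (then
  `sSup (D n) ∉ U` for `U ∋ a n`); otherwise `a n ⊓ sSup (D n) = ⨆ d ∈ D n, a n ⊓ d ≠ ⊥`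
  (`inf_sSup_eq`), so `a (n+1) = a n ⊓ d ≠ ⊥` for some `d ∈ D n`.  There is an ultrafilter containing
  all `a n`: e.g. the filter generated by the `a n` and the ideal `{⊥}` are disjoint
  (`DistribLattice.prime_ideal_of_disjoint_filter_ideal` as in the proof of `UF.exists_mem` in
  `Pool.Agent.H26.BV.Ult`); or Zorn.
* `gen_le` from `exists_gen` applied to `a ⊓ bᶜ`.
* `gen_sSup`, `gen_iSup`, `gen_iInf` (complement of the sup of the complements), any index type.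
* `gen B` is closed under countable intersections: see `gen_countable` in
  `Pool/Agent/Lead/CM/Def.lean` (copy that proof), use `Nat.pair`.
* `gen_bi`: for countable `ι`: `eventually_countable_forall`.
-/

set_option autoImplicit false

open BV

namespace MAdd

variable {B : Type} [CompleteBooleanAlgebra B]

instance gen_countable : CountableInterFilter (gen B) := by
  refine ⟨?_⟩
  intro S hS hA
  rcases S.eq_empty_or_nonempty with rfl | hne
  · simp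
  obtain ⟨f, rfl⟩ := hS.exists_eq_range hne
  have h : ∀ n, ∃ D : ℕ → Set B, ∀ U, (∀ k, Meets (D k) U) → U ∈ f n := fun n =>
    hA (f n) ⟨n, rfl⟩
  choose D hD using h
  refine ⟨fun k => D k.unpair.1 k.unpair.2, fun U hU => ?_⟩
  rw [Set.mem_sInter]
  rintro _ ⟨n, rfl⟩
  refine hD n U fun k => ?_
  have := hU (Nat.pair n k)
  simpa using this

/-- an ultrafilter containing a decreasing sequence of nonzero elements -/
theorem gen_exists_uf (a : ℕ → B) (ha : ∀ n, a (n + 1) ≤ a n) (h0 : ∀ n, a n ≠ ⊥) :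
    ∃ U : UF B, ∀ n, a n ∈ U := by
  have hanti : ∀ n m, n ≤ m → a m ≤ a n := fun n m h => antitone_nat_of_succ_le ha h
  let F : Order.PFilter B := Order.IsPFilter.toPFilter (F := {x | ∃ n, a n ≤ x}) (by
    refine Order.IsPFilter.of_def ⟨a 0, 0, le_rfl⟩ ?_ ?_
    · rintro x ⟨n, hn⟩ y ⟨m, hm⟩
      refine ⟨a (max n m), ⟨max n m, le_rfl⟩, ?_, ?_⟩
      · exact (hanti _ _ (le_max_left _ _)).trans hn
      · exact (hanti _ _ (le_max_right _ _)).trans hm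
    · rintro x y hxy ⟨n, hn⟩
      exact ⟨n, hn.trans hxy⟩)
  have hmem : ∀ x, x ∈ F ↔ ∃ n, a n ≤ x := fun x => Iff.rfl
  have hd : Disjoint (F : Set B) ((Order.Ideal.principal (⊥ : B) : Order.Ideal B) : Set B) := by
    rw [Set.disjoint_left]
    intro x hx hx'
    obtain ⟨n, hn⟩ := (hmem x).1 hx
    have h2 : x ≤ ⊥ := hx'
    exact h0 n (le_bot_iff.mp (hn.trans h2))
  obtain ⟨J, hJp, -, hJF⟩ := DistribLattice.prime_ideal_of_disjoint_filter_ideal hd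
  have haJ : ∀ n, a n ∉ J := fun n h => Set.disjoint_left.mp hJF ((hmem _).2 ⟨n, le_rfl⟩) h
  refine ⟨⟨{x | x ∉ J}, ?_, ?_, ?_, ?_, ?_⟩, haJ⟩
  · intro h
    exact haJ 0 (J.lower le_top h)
  · intro x y hx hxy hy
    exact hx (J.lower hxy hy)
  · intro x y hx hy hxy
    rcases hJp.mem_or_mem hxy with h | h
    · exact hx h
    · exact hy h
  · intro h
    exact h J.bot_mem
  · intro x
    by_contra hc
    rw [not_or] at hc
    have h1 : x ∈ J := by
      by_contra h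
      exact hc.1 h
    have h2 : xᶜ ∈ J := by
      by_contra h
      exact hc.2 h
    have h3 : x ⊔ xᶜ ∈ J := J.sup_mem h1 h2
    rw [sup_compl_eq_top] at h3
    exact haJ 0 (J.lower le_top h3)

theorem exists_gen {A : Set (UF B)} (hA : A ∈ gen B) {a : B} (ha : a ≠ ⊥) : ∃ U ∈ A, a ∈ U := by
  obtain ⟨D, hD⟩ := hA
  have step : ∀ (n : ℕ) (b : {b : B // b ≠ ⊥}), ∃ c : {b : B // b ≠ ⊥}, c.1 ≤ b.1 ∧
      (c.1 ⊓ sSup (D n) = ⊥ ∨ ∃ d ∈ D n, c.1 ≤ d) := by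
    intro n b
    by_cases h : b.1 ⊓ sSup (D n) = ⊥
    · exact ⟨b, le_rfl, Or.inl h⟩
    · rw [inf_sSup_eq] at h
      have h1 : ∃ d ∈ D n, b.1 ⊓ d ≠ ⊥ := by
        by_contra hcon
        push Not at hcon
        apply h
        rw [eq_bot_iff]
        exact iSup₂_le fun d hd => (hcon d hd).le
      obtain ⟨d, hd, hbd⟩ := h1
      exact ⟨⟨b.1 ⊓ d, hbd⟩, inf_le_left, Or.inr ⟨d, hd, inf_le_right⟩⟩
  choose g hg1 hg2 using step
  let b : ℕ → {b : B // b ≠ ⊥} := fun n => Nat.rec ⟨a, ha⟩ (fun n c => g n c) n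
  have hb0 : (b 0).1 = a := rfl
  have hbs : ∀ n, b (n + 1) = g n (b n) := fun n => rfl
  obtain ⟨U, hU⟩ := gen_exists_uf (fun n => (b n).1) (fun n => by
    show (b (n + 1)).1 ≤ (b n).1
    rw [hbs]
    exact hg1 n (b n)) (fun n => (b n).2)
  refine ⟨U, hD U fun n => ?_, by rw [← hb0]; exact hU 0⟩
  intro hs
  have h1 : (b (n + 1)).1 ∈ U := hU (n + 1)
  rw [hbs] at h1
  rcases hg2 n (b n) with h2 | ⟨d, hd, h2⟩
  · have h3 := U.inf_mem h1 hs
    rw [h2] at h3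
    exact absurd h3 U.bot_notMem
  · exact ⟨d, hd, U.mem_of_le h1 h2⟩

theorem gen_le {a b : B} (h : ∀ᶠ U in gen B, a ∈ U → b ∈ U) : a ≤ b := by
  by_contra hcon
  have h1 : a ⊓ bᶜ ≠ ⊥ := by
    intro h0
    exact hcon (disjoint_compl_right_iff.mp (disjoint_iff.mpr h0))
  obtain ⟨U, hU, hU'⟩ := exists_gen h h1
  have h2 := U.inf_mem_iff.1 hU'
  exact U.compl_mem_iff.1 h2.2 (hU h2.1)

theorem gen_eq {a b : B} (h : ∀ᶠ U in gen B, (a ∈ U ↔ b ∈ U)) : a = b :=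
  le_antisymm (gen_le (h.mono fun _ hU => hU.1)) (gen_le (h.mono fun _ hU => hU.2))

theorem gen_eq_top {a : B} (h : ∀ᶠ U in gen B, a ∈ U) : a = ⊤ :=
  top_le_iff.1 (gen_le (h.mono fun _ hU _ => hU))

theorem gen_sSup (D : Set B) : ∀ᶠ U in gen B, (sSup D ∈ U ↔ ∃ d ∈ D, d ∈ U) := by
  have h : ∀ᶠ U in gen B, Meets D U := ⟨fun _ => D, fun _ hU => hU 0⟩
  filter_upwards [h] with U hU
  exact ⟨hU, fun ⟨d, hd, h⟩ => U.mem_of_le h (le_sSup hd)⟩

theorem gen_iSup {ι : Sort*} (f : ι → B) : ∀ᶠ U in gen B, ((⨆ i, f i) ∈ U ↔ ∃ i, f i ∈ U) := by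
  filter_upwards [gen_sSup (Set.range f)] with U hU
  rw [← sSup_range, hU]
  constructor
  · rintro ⟨_, ⟨i, rfl⟩, h⟩
    exact ⟨i, h⟩
  · rintro ⟨i, h⟩
    exact ⟨_, ⟨i, rfl⟩, h⟩

theorem gen_iInf {ι : Sort*} (f : ι → B) : ∀ᶠ U in gen B, ((⨅ i, f i) ∈ U ↔ ∀ i, f i ∈ U) := by
  filter_upwards [gen_iSup (fun i => (f i)ᶜ)] with U hU
  rw [← compl_iInf, U.compl_mem_iff] at hU
  rw [← not_iff_not, hU]
  simp only [U.compl_mem_iff, not_forall]

theorem mem_bihimp (U : UF B) (a b : B) : bihimp a b ∈ U ↔ (a ∈ U ↔ b ∈ U) := by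
  unfold bihimp
  rw [U.inf_mem_iff, U.himp_mem_iff, U.himp_mem_iff]
  tauto

theorem mem_symmDiff (U : UF B) (a b : B) : symmDiff a b ∈ U ↔ ¬ (a ∈ U ↔ b ∈ U) := by
  unfold symmDiff
  rw [U.sup_mem_iff, sdiff_eq, sdiff_eq, U.inf_mem_iff, U.inf_mem_iff, U.compl_mem_iff,
    U.compl_mem_iff]
  tauto

theorem mem_lit (U : UF B) (t : Bool) (a : B) : lit t a ∈ U ↔ (a ∈ U ↔ t = true) := by
  cases t
  · simp [lit, U.compl_mem_iff]
  · simp [lit]

end MAdd
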