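import Pool.Agent.H7.MAdd.CSB

/-!
# KON: compactness of the Cantor space of `A`, in Boolean values (Koenig's lemma)

For a string `σ` let `w σ v = ⨅ F : reals of A, cyl σ F ⇨ φ F v`, an element of `A`, increasing in
`v`.  Then `w σ v = w (σ ++ [false]) v ⊓ w (σ ++ [true]) v` (`cyl σ F = cyl (σ++[false]) F ⊔ cyl (σ++[true]) F`).
Let `T σ = (w σ σ.length)ᶜ` (a tree: `T (σ ++ [i]) ≤ T σ` by monotonicity) and
`E σ = ⨅ l, ⨆ τ (σ <+: τ, τ.length = max l σ.length), T τ` (`σ` has extensions in `T` at all levels).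
`c := (⨆ v, w [] v)ᶜ ≤ E []`, because `w [] l = ⨅ τ (τ.length = l), w τ l`.
`E σ ≤ E (σ ++ [false]) ⊔ E (σ ++ [true])` (for decreasing sequences `⨅ (a l ⊔ b l) = (⨅ a l) ⊔ (⨅ b l)`).
Leftmost branch: `π [] = ⊤`, `π (σ ++ [false]) = π σ ⊓ E (σ ++ [false])`,
`π (σ ++ [true]) = π σ ⊓ (E (σ ++ [false]))ᶜ`, `F n = ⨆ σ (σ.length = n), π (σ ++ [true])`, so
`π σ = cyl σ F`; by induction `c ≤ ⨆ σ (σ.length = l), cyl σ F ⊓ E σ` for all `l`.  `F` is a real of `A`.
Now `⊤ = ⨆ v, φ F v ≤ ⨆ v, ⨆ l, ⨅ F', mat F F' 0 l ⇨ φ F' v`, and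
`cyl σ F ⊓ (⨅ F', mat F F' 0 l ⇨ φ F' v) ≤ cyl σ F ⊓ w σ v` for `σ.length = l`; enlarging `l` and `v` to the
maximum of both: `⊤ ≤ ⨆ l, ⨆ σ (σ.length = l), cyl σ F ⊓ w σ l`, and
`cyl σ F ⊓ w σ l ⊓ E σ = ⊥` as `E σ ≤ T σ`; hence `c = ⊥` (use that for different `σ, σ'` of the same
length `cyl σ F ⊓ cyl σ' F = ⊥`).
Alternatively use `exists_fc` (FC.lean) with the classical leftmost branch.
-/

set_option autoImplicit false

namespace MAdd

variable {B : Type} [CompleteBooleanAlgebra B]

/-- two different strings of the same length have disjoint cylinders -/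
private theorem kon_cyl_disj (F : ℕ → B) {σ σ' : List Bool} (hl : σ.length = σ'.length)
    (hne : σ ≠ σ') : cyl σ F ⊓ cyl σ' F = ⊥ := by
  obtain ⟨n, hn, hd⟩ : ∃ n, n < σ.length ∧ σ.getD n false ≠ σ'.getD n false := by
    by_contra hcon
    push Not at hcon
    apply hne
    apply List.ext_getElem hl
    intro n h1 h2
    have := hcon n h1
    rw [List.getD_eq_getElem _ _ h1, List.getD_eq_getElem _ _ h2] at this
    exact this
  rw [eq_bot_iff]
  have e1 : cyl σ F ≤ lit (σ.getD n false) (F n) := iInf₂_le (f := fun n (_ : n < σ.length) =>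
    lit (σ.getD n false) (F n)) n hn
  have e2 : cyl σ' F ≤ lit (σ'.getD n false) (F n) := iInf₂_le (f := fun n (_ : n < σ'.length) =>
    lit (σ'.getD n false) (F n)) n (hl ▸ hn)
  refine (inf_le_inf e1 e2).trans ?_
  rcases h1 : σ.getD n false <;> rcases h2 : σ'.getD n false
  · exact absurd (h1.trans h2.symm) hd
  · simp [lit]
  · simp [lit]
  · exact absurd (h1.trans h2.symm) hd

private theorem kon_cyl_nil (F : ℕ → B) : cyl [] F = ⊤ := by
  simp [cyl]

/-- cylinders of one-step extensions -/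
private theorem kon_cyl_snoc (F : ℕ → B) (σ : List Bool) (t : Bool) :
    cyl (σ ++ [t]) F = cyl σ F ⊓ lit t (F σ.length) := by
  apply le_antisymm
  · refine le_inf ?_ ?_
    · refine le_iInf₂ fun n hn => ?_
      have := iInf₂_le (f := fun n (_ : n < (σ ++ [t]).length) =>
        lit ((σ ++ [t]).getD n false) (F n)) n (by simp; omega)
      refine this.trans (le_of_eq ?_)
      rw [List.getD_append _ _ _ _ hn]
    · have := iInf₂_le (f := fun n (_ : n < (σ ++ [t]).length) =>
        lit ((σ ++ [t]).getD n false) (F n)) σ.length (by simp)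
      refine this.trans (le_of_eq ?_)
      simp
  · refine le_iInf₂ fun n hn => ?_
    simp only [List.length_append, List.length_singleton] at hn
    by_cases h : n < σ.length
    · rw [List.getD_append _ _ _ _ h]
      exact inf_le_left.trans (iInf₂_le (f := fun n (_ : n < σ.length) =>
        lit (σ.getD n false) (F n)) n h)
    · have : n = σ.length := by omega
      subst this
      refine inf_le_right.trans (le_of_eq ?_)
      simp

/-- every real lies in one of the cylinders of given length -/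
private theorem kon_cyl_cover (F : ℕ → B) (l : ℕ) :
    (⨆ σ : List Bool, ⨆ (_ : σ.length = l), cyl σ F) = ⊤ := by
  induction l with
  | zero =>
    rw [eq_top_iff]
    refine le_trans ?_ (le_iSup₂ (f := fun σ (_ : σ.length = 0) => cyl σ F) [] rfl)
    rw [kon_cyl_nil]
  | succ l ih =>
    rw [eq_top_iff, ← ih]
    refine iSup₂_le fun σ hσ => ?_
    have h1 : cyl σ F = cyl (σ ++ [false]) F ⊔ cyl (σ ++ [true]) F := by
      rw [kon_cyl_snoc, kon_cyl_snoc, ← inf_sup_left]
      simp [lit]
    rw [h1]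
    refine sup_le ?_ ?_
    · exact le_iSup₂ (f := fun σ (_ : σ.length = l + 1) => cyl σ F) (σ ++ [false]) (by simp [hσ])
    · exact le_iSup₂ (f := fun σ (_ : σ.length = l + 1) => cyl σ F) (σ ++ [true]) (by simp [hσ])

/-- two reals in the same cylinder agree on its length -/
private theorem kon_cyl_mat (F F' : ℕ → B) (σ : List Bool) :
    cyl σ F ⊓ cyl σ F' ≤ mat F F' 0 σ.length := by
  refine le_iInf₂ fun n hn => ?_
  have e1 : cyl σ F ≤ lit (σ.getD n false) (F n) := iInf₂_le (f := fun n (_ : n < σ.length) =>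
    lit (σ.getD n false) (F n)) n hn.2
  have e2 : cyl σ F' ≤ lit (σ.getD n false) (F' n) := iInf₂_le (f := fun n (_ : n < σ.length) =>
    lit (σ.getD n false) (F' n)) n hn.2
  refine (inf_le_inf e1 e2).trans ?_
  rw [bihimp, himp_eq, himp_eq]
  rcases h1 : σ.getD n false
  · simp only [lit, cond_false]
    exact le_inf (inf_le_right.trans le_sup_right) (inf_le_left.trans le_sup_right)
  · simp only [lit, cond_true]
    exact le_inf (inf_le_left.trans le_sup_left) (inf_le_right.trans le_sup_left)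

/-- cylinders depend only on the first values -/
private theorem kon_cyl_congr {F G : ℕ → B} (σ : List Bool) (h : ∀ n, n < σ.length → F n = G n) :
    cyl σ F = cyl σ G := by
  refine iInf_congr fun n => iInf_congr fun hn => ?_
  rw [h n hn]

/-- stages of the construction of the leftmost branch -/
private def kon_G (D : List Bool → B) : ℕ → ℕ → B
  | 0 => fun _ => ⊥
  | n + 1 => fun m => if m = n then
      ⨆ σ : List Bool, ⨆ (_ : σ.length = n), cyl σ (kon_G D n) ⊓ (D (σ ++ [false]))ᶜ
      else kon_G D n m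

private theorem kon_G_stable (D : List Bool → B) (m : ℕ) : ∀ n, m < n →
    kon_G D n m = kon_G D (m + 1) m := by
  intro n
  induction n with
  | zero => intro h; omega
  | succ n ih =>
    intro h
    by_cases hm : m = n
    · subst hm; rfl
    · rw [← ih (by omega)]
      change (if m = n then _ else kon_G D n m) = _
      rw [if_neg hm]

/-- the leftmost branch of the tree given by `D` -/
private theorem kon_branch (D : List Bool → B) : ∃ F : ℕ → B,
    (∀ n, F n = ⨆ σ : List Bool, ⨆ (_ : σ.length = n), cyl σ F ⊓ (D (σ ++ [false]))ᶜ) := by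
  refine ⟨fun n => kon_G D (n + 1) n, fun n => ?_⟩
  have : kon_G D (n + 1) n = ⨆ σ : List Bool, ⨆ (_ : σ.length = n),
      cyl σ (kon_G D n) ⊓ (D (σ ++ [false]))ᶜ := by
    change (if n = n then _ else kon_G D n n) = _
    rw [if_pos rfl]
  refine this.trans ?_
  refine iSup_congr fun σ => iSup_congr fun hσ => ?_
  rw [kon_cyl_congr σ (G := fun n => kon_G D (n + 1) n)]
  intro m hm
  exact kon_G_stable D m n (by omega)

theorem kon (A : CS B) (φ : (ℕ → B) → ℕ → B) (hmem : ∀ F, InR A F → ∀ v, φ F v ∈ A)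
    (hmono : ∀ F, InR A F → ∀ v, φ F v ≤ φ F (v + 1)) (htot : ∀ F, InR A F → (⨆ v, φ F v) = ⊤)
    (hsc : ∀ F, InR A F → ∀ v,
      φ F v ≤ ⨆ l, ⨅ F' : {F' : ℕ → B // InR A F'}, mat F F'.1 0 l ⇨ φ F'.1 v) :
    (⨆ v, ⨅ F : {F : ℕ → B // InR A F}, φ F.1 v) = ⊤ := by
  classical
  -- `w σ v`
  set w : List Bool → ℕ → B := fun σ v => ⨅ F : {F : ℕ → B // InR A F}, cyl σ F.1 ⇨ φ F.1 v with hw
  have hwmem : ∀ σ v, w σ v ∈ A := fun σ v =>
    A.iInf_mem fun F => A.himp_mem (A.cyl_mem F.2 σ) (hmem F.1 F.2 v)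
  have hwmono : ∀ σ, Monotone (w σ) := fun σ =>
    monotone_nat_of_le_succ fun v => iInf_mono fun F => himp_le_himp_left (hmono F.1 F.2 v)
  have hwsplit : ∀ σ v, w (σ ++ [false]) v ⊓ w (σ ++ [true]) v ≤ w σ v := by
    intro σ v
    refine le_iInf fun F => ?_
    have h1 : cyl σ F.1 = cyl (σ ++ [false]) F.1 ⊔ cyl (σ ++ [true]) F.1 := by
      rw [kon_cyl_snoc, kon_cyl_snoc, ← inf_sup_left]
      simp [lit]
    rw [h1, sup_himp_distrib]
    exact inf_le_inf (iInf_le _ F) (iInf_le _ F)
  set D : List Bool → B := fun σ => (⨆ v, w σ v)ᶜ with hD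
  have hDmem : ∀ σ, D σ ∈ A := fun σ => A.compl_mem (A.iSup_mem fun v => hwmem σ v)
  have hDsplit : ∀ σ, D σ ≤ D (σ ++ [false]) ⊔ D (σ ++ [true]) := by
    intro σ
    simp only [hD]
    rw [← compl_inf]
    apply compl_le_compl
    rw [iSup_inf_iSup]
    refine iSup_le fun p => ?_
    refine le_trans ?_ (le_iSup (w σ) (max p.1 p.2))
    refine le_trans ?_ (hwsplit σ _)
    exact inf_le_inf (hwmono _ (le_max_left _ _)) (hwmono _ (le_max_right _ _))
  obtain ⟨F, hF⟩ := kon_branch D
  -- `F` is a real of `A`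
  have hFA : InR A F := by
    intro n
    induction n using Nat.strong_induction_on with
    | _ n ih =>
      rw [hF n]
      refine A.iSup_mem fun σ => A.iSup_mem fun hσ => A.inf_mem ?_ (A.compl_mem (hDmem _))
      refine A.iInf_mem fun m => A.iInf_mem fun hm => A.lit_mem (ih m (by omega))
  -- the cylinders of F
  have hFt : ∀ σ : List Bool, cyl σ F ⊓ F σ.length = cyl σ F ⊓ (D (σ ++ [false]))ᶜ := by
    intro σ
    apply le_antisymm
    · rw [hF σ.length, inf_iSup_eq]
      refine iSup_le fun σ' => ?_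
      rw [inf_iSup_eq]
      refine iSup_le fun h => ?_
      by_cases he : σ' = σ
      · subst he
        exact inf_le_inf_left _ inf_le_right
      · rw [← inf_assoc, kon_cyl_disj F h.symm (fun hh => he hh.symm)]
        simp
    · refine le_inf inf_le_left ?_
      conv_rhs => rw [hF σ.length]
      exact le_iSup₂ (f := fun σ' (_ : σ'.length = σ.length) =>
        cyl σ' F ⊓ (D (σ' ++ [false]))ᶜ) σ rfl
  have hFf : ∀ σ : List Bool, cyl σ F ⊓ (F σ.length)ᶜ ≤ D (σ ++ [false]) := by
    intro σ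
    have h1 := hFt σ
    have h2 : cyl σ F ⊓ (D (σ ++ [false]))ᶜ ≤ F σ.length := by
      rw [← h1]; exact inf_le_right
    rw [← sdiff_eq, sdiff_le_iff]
    rw [← sdiff_eq, sdiff_le_iff] at h2
    rw [sup_comm]; exact h2
  -- bad strings along the branch
  have key : ∀ l, ∀ σ : List Bool, σ.length = l → D [] ⊓ cyl σ F ≤ D σ := by
    intro l
    induction l with
    | zero =>
      intro σ hσ
      have : σ = [] := List.length_eq_zero_iff.mp hσ
      subst this
      exact inf_le_left
    | succ l ih =>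
      intro σ hσ
      rcases List.eq_nil_or_concat σ with h | ⟨τ, t, h⟩
      · subst h; simp at hσ
      · rw [List.concat_eq_append] at h
        subst h
        have hτ : τ.length = l := by simpa using hσ
        have h1 := ih τ hτ
        rw [kon_cyl_snoc]
        cases t with
        | false =>
          refine inf_le_right.trans ?_
          exact hFf τ
        | true =>
          have h3 : D [] ⊓ (cyl τ F ⊓ lit true (F τ.length)) ≤ D τ ⊓ (D (τ ++ [false]))ᶜ := by
            have h4 : cyl τ F ⊓ lit true (F τ.length) ≤ (D (τ ++ [false]))ᶜ := by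
              have : lit true (F τ.length) = F τ.length := rfl
              rw [this, hFt τ]
              exact inf_le_right
            refine le_inf ?_ (inf_le_right.trans h4)
            exact (inf_le_inf_left _ inf_le_left).trans h1
          refine h3.trans ?_
          rw [← sdiff_eq, sdiff_le_iff]
          exact hDsplit τ
  -- conclusion
  have hc : D [] = ⊥ := by
    rw [eq_bot_iff]
    have h0 : D [] ≤ D [] ⊓ ⨆ v, φ F v := by rw [htot F hFA]; simp
    refine h0.trans ?_
    rw [inf_iSup_eq]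
    refine iSup_le fun v => ?_
    refine (inf_le_inf_left _ (hsc F hFA v)).trans ?_
    rw [inf_iSup_eq]
    refine iSup_le fun l => ?_
    set X : B := ⨅ F' : {F' : ℕ → B // InR A F'}, mat F F'.1 0 l ⇨ φ F'.1 v with hX
    have h1 : D [] ⊓ X ≤ (D [] ⊓ X) ⊓ ⨆ σ : List Bool, ⨆ (_ : σ.length = l), cyl σ F := by
      rw [kon_cyl_cover]; simp
    refine h1.trans ?_
    rw [inf_iSup_eq]
    refine iSup_le fun σ => ?_
    rw [inf_iSup_eq]
    refine iSup_le fun hσ => ?_
    have h2 : cyl σ F ⊓ X ≤ w σ v := by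
      refine le_iInf fun F' => ?_
      rw [le_himp_iff]
      have h3 : cyl σ F ⊓ X ⊓ cyl σ F'.1 ≤ mat F F'.1 0 l ⊓ (mat F F'.1 0 l ⇨ φ F'.1 v) := by
        refine le_inf ?_ ?_
        · refine le_trans ?_ (hσ ▸ kon_cyl_mat F F'.1 σ)
          exact inf_le_inf_right _ inf_le_left
        · exact (inf_le_left.trans inf_le_right).trans (iInf_le _ F')
      exact h3.trans inf_himp_le
    have h4 : D [] ⊓ cyl σ F ≤ (w σ v)ᶜ :=
      (key l σ hσ).trans (compl_le_compl (le_iSup (w σ) v))
    have h5 : D [] ⊓ X ⊓ cyl σ F ≤ (w σ v)ᶜ ⊓ w σ v := by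
      refine le_inf ?_ ?_
      · exact le_trans (inf_le_inf_right _ inf_le_left) h4
      · refine le_trans ?_ h2
        rw [inf_comm (cyl σ F)]
        exact inf_le_inf_right _ inf_le_right
    exact h5.trans (by simp)
  have hfin : (⨆ v, w [] v) = ⊤ := by
    have : (⨆ v, w [] v)ᶜ = ⊥ := hc
    rwa [compl_eq_bot] at this
  rw [← hfin]
  refine iSup_congr fun v => ?_
  refine iInf_congr fun F' => ?_
  rw [kon_cyl_nil, top_himp]

end MAdd
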