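import Pool.Agent.H7.MAdd.TRV

/-!
# LIM: limits of cofinality omega

`hd` says that every nonzero element of `A'` is above a nonzero element of some `Ak k`.
Hence for `b ∈ A'`, `P ∈ A`: to show `pr A b ≤ P` it is enough to show `pr A b' ≤ P` for all
`k` and `b' ∈ Ak k` with `b' ≤ b` (otherwise `b ⊓ Pᶜ ≠ ⊥` has such a nonzero `b'` below it).

`lim_bd`: use `bd_of_mem`.  `h` of `A'`.  For each `k` `bds (shp_top (Ak k)) h` gives `h_k` of `Ak k`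
with `pr (Ak k) (leOn h h_k 0 m) = ⊤` for all `m`.  `Bd A (Ak k)` for `h_k` gives `H_k` of `A`;
`H` of `A` with `H j v ≤ H_k j v` for `k ≤ j` (`exists_dom`).  For `b' ∈ Ak k`, `b' ≤ b`:
`pr A b' ≤ ⨆ n, ⨅ m, pr A (b' ⊓ leOn h_k H_k n m)`; let `d = b' ⊓ leOn h_k H_k n m ∈ Ak k`; then
`d = d ⊓ pr (Ak k) (leOn h h_k 0 m) = pr (Ak k) (d ⊓ leOn h h_k 0 m) ≤ pr (Ak k) (b ⊓ leOn h H (max n k) m)`,
so `pr A d ≤ pr A (b ⊓ leOn h H (max n k) m)` (`pr_pr`).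

`lim_nw`: use `nw_of_mem`.  `x` a real of `A'`.  For each `k`: `nws (shp_top (Ak k)) x` gives `f_k` of
`Ak k` with `pr (Ak k) (isin (Ak k) x ⊔ av f_k x Y 0 m) = ⊤` for all reals `Y` of `Ak k`, `m`;
`Bd A (Ak k)` for `f_k` gives `H_k` of `A`; `r k i` reals of `Ak k` with
`isin (Ak k) x = ⨆ i, req x (r k i)` (`exists_seq_isin`); `Nw A (Ak k)` for `r k i` gives `f2 k i` of
`A`; `f` of `A` eventually below all `H_k, f2 k i` (`exists_dom`, code the pairs by `Nat.pair`).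
Let `b ∈ A'`, `b ≤ (isin A x)ᶜ`, `Y` a real of `A`.
`b = (⨆ k i, b ⊓ req x (r k i)) ⊔ (b ⊓ ⨅ k, (isin (Ak k) x)ᶜ)`.
The parts `b ⊓ req x (r k i)` as in TRN (`nw_trans`).  For the last part, `b_u`, it is enough to
treat `b' ∈ Ak k` with `b' ≤ b_u` (see above; `b_u ∈ A'`): `b' ≤ (isin (Ak k) x)ᶜ`, so for
`d ∈ Ak k`, `d ≤ b'`: `d = pr (Ak k) (d ⊓ (isin (Ak k) x ⊔ av f_k x Y 0 m)) = pr (Ak k) (d ⊓ av f_k x Y 0 m)`.
Take `d = b' ⊓ leOn f_k H_k n m`: `pr A b' ≤ ⨆ n, ⨅ m, pr A d` and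
`pr A d ≤ pr A (b' ⊓ leOn f_k H_k n m ⊓ av f_k x Y 0 m) ≤ pr A (b ⊓ av f x Y n' m)` (`av_leOn`, `av_mono`).
-/

set_option autoImplicit false

namespace MAdd

variable {B : Type} [CompleteBooleanAlgebra B]

theorem lim_red {A A' : CS B} (Ak : ℕ → CS B) (hA : A ≤ A')
    (hd : ∀ b ∈ A', b ≠ ⊥ → ∃ k, ∃ a ∈ Ak k, a ≠ ⊥ ∧ a ≤ b) {b P : B} (hb : b ∈ A') (hP : P ∈ A)
    (h : ∀ k, ∀ b' ∈ Ak k, b' ≤ b → pr A b' ≤ P) : pr A b ≤ P := by
  refine pr_le A hP ?_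
  by_contra hcon
  have h3 : b ⊓ Pᶜ ≠ ⊥ := by
    intro h4
    exact hcon (by rwa [← sdiff_eq, sdiff_eq_bot_iff] at h4)
  obtain ⟨k, a, ha, ha0, hab⟩ := hd (b ⊓ Pᶜ) (A'.inf_mem hb (A'.compl_mem (hA _ hP))) h3
  apply ha0
  have h5 : a ≤ P := (le_pr A a).trans (h k a ha (hab.trans inf_le_left))
  have h6 : a ≤ Pᶜ := hab.trans inf_le_right
  exact le_bot_iff.1 (by rw [← inf_compl_eq_bot (a := P)]; exact le_inf h5 h6)

theorem lim_le {A A' : CS B} (Ak : ℕ → CS B) (h1 : ∀ k, A ≤ Ak k) (h2 : ∀ k, Ak k ≤ A') : A ≤ A' :=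
  fun b hb => h2 0 b (h1 0 b hb)

theorem lim_bd {A A' : CS B} (Ak : ℕ → CS B) (h1 : ∀ k, A ≤ Ak k) (h2 : ∀ k, Ak k ≤ A')
    (hd : ∀ b ∈ A', b ≠ ⊥ → ∃ k, ∃ a ∈ Ak k, a ≠ ⊥ ∧ a ≤ b) (hb : ∀ k, Bd A (Ak k)) :
    Bd A A' := by
  have hA : A ≤ A' := lim_le Ak h1 h2
  refine bd_of_mem hA fun h _ hh => ?_
  have hk : ∀ k, ∃ H, InF (Ak k) H ∧ IsFn H ∧ ∀ m, pr (Ak k) (leOn h H 0 m) = ⊤ := by
    intro k
    obtain ⟨H, ha, hb', hc'⟩ := bds (shp_top (Ak k)) h hh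
    refine ⟨H, ha, hb', fun m => ?_⟩
    have := hc' (fun _ => ⊥) (fun _ => (Ak k).bot_mem) m
    rwa [top_inf_eq] at this
  choose hf hf1 hf2 hf3 using hk
  have hk2 : ∀ k, ∃ H, InF A H ∧ IsFn H ∧
    ∀ b : B, pr A b ≤ ⨆ n, ⨅ m, pr A (b ⊓ leOn (hf k) H n m) := fun k => hb k (hf k) (hf1 k) (hf2 k)
  choose Hf Hf1 Hf2 Hf3 using hk2
  obtain ⟨H, H1, H2, H3⟩ := exists_dom Hf Hf1 Hf2
  refine ⟨H, H1, H2, fun b hbA => ?_⟩
  refine lim_red Ak hA hd hbA (A.iSup_mem fun n => A.iInf_mem fun m => pr_mem A _) ?_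
  intro k b' hb' hb'b
  refine (Hf3 k b').trans (iSup_le fun n => le_iSup_of_le (max n k) (iInf_mono fun m => ?_))
  have hL : leOn (hf k) (Hf k) n m ∈ Ak k :=
    (Ak k).leOn_mem (hf1 k) (fun i v => h1 k _ (Hf1 k i v)) n m
  have hdk : b' ⊓ leOn (hf k) (Hf k) n m ∈ Ak k := (Ak k).inf_mem hb' hL
  have hdeq : pr (Ak k) ((b' ⊓ leOn (hf k) (Hf k) n m) ⊓ leOn h (hf k) 0 m) =
      b' ⊓ leOn (hf k) (Hf k) n m := by
    rw [pr_inf (Ak k) hdk, hf3, inf_top_eq]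
  rw [← hdeq, pr_pr (h1 k)]
  refine pr_mono A (le_inf (inf_le_left.trans (inf_le_left.trans hb'b)) ?_)
  refine le_trans ?_ (leOn_trans h (hf k) H (max n k) m)
  refine le_inf ?_ ?_
  · exact inf_le_right.trans (leOn_mono (Nat.zero_le _) le_rfl fun _ _ _ => le_rfl)
  · exact (inf_le_left.trans inf_le_right).trans
      (leOn_mono (le_max_left _ _) le_rfl fun j v hj => H3 k j v ((le_max_right _ _).trans hj))

theorem lim_nw (hc : CCC B) {A A' : CS B} (Ak : ℕ → CS B) (h1 : ∀ k, A ≤ Ak k)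
    (h2 : ∀ k, Ak k ≤ A') (hd : ∀ b ∈ A', b ≠ ⊥ → ∃ k, ∃ a ∈ Ak k, a ≠ ⊥ ∧ a ≤ b)
    (hb : ∀ k, Bd A (Ak k)) (hn : ∀ k, Nw A (Ak k)) : Nw A A' := by
  have hA : A ≤ A' := lim_le Ak h1 h2
  refine nw_of_mem hA fun x hx => ?_
  have hk : ∀ k, ∃ f, InF (Ak k) f ∧ IsFn f ∧ ∀ Y, InR (Ak k) Y → ∀ m,
      pr (Ak k) (isin (Ak k) x ⊔ av f x Y 0 m) = ⊤ := by
    intro k
    obtain ⟨f, ha, hb', hc'⟩ := nws (shp_top (Ak k)) x
    refine ⟨f, ha, hb', fun Y hY m => ?_⟩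
    have := hc' (fun _ => ⊥) (fun _ => (Ak k).bot_mem) Y hY m
    rwa [top_inf_eq] at this
  choose hf hf1 hf2 hf3 using hk
  have hk2 : ∀ k, ∃ H, InF A H ∧ IsFn H ∧
    ∀ b : B, pr A b ≤ ⨆ n, ⨅ m, pr A (b ⊓ leOn (hf k) H n m) := fun k => hb k (hf k) (hf1 k) (hf2 k)
  choose Hf Hf1 Hf2 Hf3 using hk2
  have hk3 : ∀ k, ∃ r : ℕ → ℕ → B, (∀ i, InR (Ak k) (r i)) ∧ isin (Ak k) x = ⨆ i, req x (r i) :=
    fun k => exists_seq_isin hc (Ak k) x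
  choose r r1 r2 using hk3
  have hk4 : ∀ k i, ∃ f, InF A f ∧ IsFn f ∧ ∀ Y, InR A Y → ∀ b : B, b ≤ (isin A (r k i))ᶜ →
      pr A b ≤ ⨆ n, ⨅ m, pr A (b ⊓ av f (r k i) Y n m) := fun k i => hn k (r k i) (r1 k i)
  choose F2 F21 F22 F23 using hk4
  obtain ⟨f, f1, f2, f3⟩ := exists_dom
    (fun n => if n.unpair.2 = 0 then Hf n.unpair.1 else F2 n.unpair.1 (n.unpair.2 - 1))
    (fun n => by
      split_ifs
      · exact Hf1 _
      · exact F21 _ _)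
    (fun n => by
      split_ifs
      · exact Hf2 _
      · exact F22 _ _)
  have f3H : ∀ k j v, Nat.pair k 0 ≤ j → f j v ≤ Hf k j v := by
    intro k j v hj
    have := f3 (Nat.pair k 0) j v hj
    simpa using this
  have f3F : ∀ k i j v, Nat.pair k (i + 1) ≤ j → f j v ≤ F2 k i j v := by
    intro k i j v hj
    have := f3 (Nat.pair k (i + 1)) j v hj
    simpa using this
  refine ⟨f, f1, f2, fun Y hY b hbA hbx => ?_⟩
  have hPA : (⨆ n, ⨅ m, pr A (b ⊓ av f x Y n m)) ∈ A :=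
    A.iSup_mem fun n => A.iInf_mem fun m => pr_mem A _
  -- the parts where `x` is a known real
  have hpart1 : ∀ k i, b ⊓ req x (r k i) ≤ ⨆ n, ⨅ m, pr A (b ⊓ av f x Y n m) := by
    intro k i
    have h3 : b ⊓ req x (r k i) ≤ (isin A (r k i))ᶜ := by
      rw [le_compl_iff_disjoint_right, disjoint_iff]
      refine le_bot_iff.1 ?_
      have h4 : req x (r k i) ⊓ isin A (r k i) ≤ isin A x := by
        rw [req_symm]
        exact req_isin _ _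
      calc b ⊓ req x (r k i) ⊓ isin A (r k i) = b ⊓ (req x (r k i) ⊓ isin A (r k i)) := inf_assoc _ _ _
        _ ≤ (isin A x)ᶜ ⊓ isin A x := inf_le_inf hbx h4
        _ = ⊥ := compl_inf_eq_bot
    refine (le_pr A _).trans ((F23 k i Y hY _ h3).trans (iSup_le fun n =>
      le_iSup_of_le (max n (Nat.pair k (i + 1))) (iInf_mono fun m => pr_mono A ?_)))
    refine le_inf (inf_le_left.trans inf_le_left) ?_
    have h5 : req x (r k i) ⊓ av (F2 k i) (r k i) Y n m ≤ av (F2 k i) x Y n m := by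
      rw [req_symm]
      exact av_congr _ _ _ _ _ _
    refine le_trans ?_ (av_mono (f := F2 k i) (le_max_left n (Nat.pair k (i + 1))) (le_refl m)
      fun j v hj => f3F k i j v ((le_max_right _ _).trans hj))
    exact le_trans (inf_le_inf_right _ inf_le_right) h5
  -- the part where `x` is not in any `Ak k`
  have hbu : b ⊓ (⨅ k, (isin (Ak k) x)ᶜ) ∈ A' :=
    A'.inf_mem hbA (A'.iInf_mem fun k => A'.compl_mem (isin_mem (h2 k) hx))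
  have hpart2 : b ⊓ (⨅ k, (isin (Ak k) x)ᶜ) ≤ ⨆ n, ⨅ m, pr A (b ⊓ av f x Y n m) := by
    refine (le_pr A _).trans (lim_red Ak hA hd hbu hPA ?_)
    intro k b' hb' hb'b
    refine (Hf3 k b').trans (iSup_le fun n =>
      le_iSup_of_le (max n (Nat.pair k 0)) (iInf_mono fun m => ?_))
    have hL : leOn (hf k) (Hf k) n m ∈ Ak k :=
      (Ak k).leOn_mem (hf1 k) (fun i v => h1 k _ (Hf1 k i v)) n m
    have hdk : b' ⊓ leOn (hf k) (Hf k) n m ∈ Ak k := (Ak k).inf_mem hb' hL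
    have hdeq : pr (Ak k) ((b' ⊓ leOn (hf k) (Hf k) n m) ⊓
        (isin (Ak k) x ⊔ av (hf k) x Y 0 m)) = b' ⊓ leOn (hf k) (Hf k) n m := by
      rw [pr_inf (Ak k) hdk, hf3 k Y (fun i => h1 k _ (hY i)), inf_top_eq]
    rw [← hdeq, pr_pr (h1 k)]
    refine pr_mono A ?_
    rw [inf_sup_left]
    refine sup_le ?_ ?_
    · have h6 : b' ≤ (isin (Ak k) x)ᶜ := hb'b.trans (inf_le_right.trans (iInf_le _ k))
      have h7 : b' ⊓ leOn (hf k) (Hf k) n m ⊓ isin (Ak k) x ≤ ⊥ := by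
        rw [← compl_inf_eq_bot (a := isin (Ak k) x)]
        exact inf_le_inf_right _ (inf_le_left.trans h6)
      exact h7.trans bot_le
    · refine le_inf (inf_le_left.trans (inf_le_left.trans (hb'b.trans inf_le_left))) ?_
      refine le_trans ?_ (av_mono (f := Hf k) (le_max_left n (Nat.pair k 0)) (le_refl m)
        fun j v hj => f3H k j v ((le_max_right _ _).trans hj))
      refine le_trans ?_ (av_leOn (hf k) (Hf k) x Y n m)
      refine le_inf ?_ (inf_le_left.trans inf_le_right)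
      exact inf_le_right.trans (av_mono (Nat.zero_le n) (le_refl m) fun _ _ _ => le_rfl)
  refine pr_le A hPA ?_
  have hsplit : b ≤ (⨆ k, ⨆ i, b ⊓ req x (r k i)) ⊔ (b ⊓ ⨅ k, (isin (Ak k) x)ᶜ) := by
    have h8 : (⨆ k, ⨆ i, b ⊓ req x (r k i)) = b ⊓ ⨆ k, isin (Ak k) x := by
      rw [inf_iSup_eq]
      refine iSup_congr fun k => ?_
      rw [r2 k, inf_iSup_eq]
    rw [h8, ← inf_sup_left, ← compl_iSup, sup_compl_eq_top, inf_top_eq]
  exact hsplit.trans (sup_le (iSup_le fun k => iSup_le fun i => hpart1 k i) hpart2)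

end MAdd
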