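import Pool.Agent.H7.MAdd.GEN

/-!
# VAL: the Boolean valued predicates seen by a generic ultrafilter

Unfold the definitions; every supremum and infimum over a countable index set is handled by
`gen_iSup`, `gen_iInf` (also for `Prop`-indexed ones, or treat those by hand: `⨆ (_ : p), a` is `a`
or `⊥`), countably many instances at the same time by `Filter.eventually_countable_forall` /
`eventually_countable_forall`; finite operations by `UF.inf_mem_iff`, `UF.sup_mem_iff`,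
`UF.himp_mem_iff`, `UF.compl_mem_iff`, `mem_bihimp`, `mem_lit`.
First prove `gen_mat` for all `i v` at the same time, then use it in the others.
-/

set_option autoImplicit false

open BV

namespace MAdd

variable {B : Type} [CompleteBooleanAlgebra B]

theorem val_all {ι : Type} [Countable ι] {P : ι → UF B → Prop}
    (h : ∀ i, ∀ᶠ U in gen B, P i U) : ∀ᶠ U in gen B, ∀ i, P i U :=
  eventually_countable_forall.2 h

theorem val_iInf (U : UF B) (p : Prop) (a : B) : (⨅ (_ : p), a) ∈ U ↔ (p → a ∈ U) := by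
  by_cases h : p
  · simp [h]
  · simp [h, UF.top_mem]

theorem val_iSup (U : UF B) (p : Prop) (a : B) : (⨆ (_ : p), a) ∈ U ↔ (p ∧ a ∈ U) := by
  by_cases h : p
  · simp [h]
  · simp [h, UF.bot_notMem]

theorem gen_mat (x y : ℕ → B) :
    ∀ᶠ U in gen B, ∀ i v, (mat x y i v ∈ U ↔ matP (atU U x) (atU U y) i v) := by
  have h1 : ∀ᶠ U in gen B, ∀ i v, ((⨅ n, ⨅ (_ : i ≤ n ∧ n < v), bihimp (x n) (y n)) ∈ U ↔
      ∀ n, (⨅ (_ : i ≤ n ∧ n < v), bihimp (x n) (y n)) ∈ U) :=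
    val_all fun i => val_all fun v => gen_iInf _
  filter_upwards [h1] with U h1 i v
  unfold mat
  rw [h1]
  simp only [val_iInf, mem_bihimp]
  exact ⟨fun h n h2 h3 => h n ⟨h2, h3⟩, fun h n h2 => h n h2.1 h2.2⟩

theorem gen_cyl (x : ℕ → B) : ∀ᶠ U in gen B, ∀ τ, (cyl τ x ∈ U ↔ cylP τ (atU U x)) := by
  have h1 : ∀ᶠ U in gen B, ∀ τ : List Bool,
      ((⨅ n, ⨅ (_ : n < τ.length), lit (τ.getD n false) (x n)) ∈ U ↔
      ∀ n, (⨅ (_ : n < τ.length), lit (τ.getD n false) (x n)) ∈ U) :=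
    val_all fun τ => gen_iInf _
  filter_upwards [h1] with U h1 τ
  unfold cyl
  rw [h1]
  simp only [val_iInf, mem_lit]
  rfl

theorem gen_req (x y : ℕ → B) : ∀ᶠ U in gen B, (req x y ∈ U ↔ atU U x = atU U y) := by
  filter_upwards [gen_iInf (fun n => bihimp (x n) (y n))] with U h1
  unfold req
  rw [h1]
  simp only [mem_bihimp]
  constructor
  · intro h
    funext n
    exact propext (h n)
  · intro h n
    exact iff_of_eq (congrFun h n)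

theorem gen_cap (f g : ℕ → ℕ → B) (Y x : ℕ → B) :
    ∀ᶠ U in gen B, (cap f g Y x ∈ U ↔
      capP (fun i => atU U (f i)) (fun i => atU U (g i)) (atU U Y) (atU U x)) := by
  have h1 := gen_iSup (B := B) (fun N => ⨅ j, ⨅ (_ : N ≤ j), ⨅ v, g j v ⇨
    ⨆ i, ⨆ (_ : j ≤ i), ⨆ w, ⨆ (_ : w ≤ v), f i w ⊓ mat x Y i w)
  have h2 : ∀ᶠ U in gen B, ∀ N : ℕ, ((⨅ j, ⨅ (_ : N ≤ j), ⨅ v, g j v ⇨
    ⨆ i, ⨆ (_ : j ≤ i), ⨆ w, ⨆ (_ : w ≤ v), f i w ⊓ mat x Y i w) ∈ U ↔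
      ∀ j, (⨅ (_ : N ≤ j), ⨅ v, g j v ⇨
        ⨆ i, ⨆ (_ : j ≤ i), ⨆ w, ⨆ (_ : w ≤ v), f i w ⊓ mat x Y i w) ∈ U) :=
    val_all fun N => gen_iInf _
  have h3 : ∀ᶠ U in gen B, ∀ j : ℕ, ((⨅ v, g j v ⇨
    ⨆ i, ⨆ (_ : j ≤ i), ⨆ w, ⨆ (_ : w ≤ v), f i w ⊓ mat x Y i w) ∈ U ↔
      ∀ v, (g j v ⇨
        ⨆ i, ⨆ (_ : j ≤ i), ⨆ w, ⨆ (_ : w ≤ v), f i w ⊓ mat x Y i w) ∈ U) :=
    val_all fun j => gen_iInf _
  have h4 : ∀ᶠ U in gen B, ∀ j v : ℕ,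
      ((⨆ i, ⨆ (_ : j ≤ i), ⨆ w, ⨆ (_ : w ≤ v), f i w ⊓ mat x Y i w) ∈ U ↔
      ∃ i, (⨆ (_ : j ≤ i), ⨆ w, ⨆ (_ : w ≤ v), f i w ⊓ mat x Y i w) ∈ U) :=
    val_all fun j => val_all fun v => gen_iSup _
  have h5 : ∀ᶠ U in gen B, ∀ i v : ℕ,
      ((⨆ w, ⨆ (_ : w ≤ v), f i w ⊓ mat x Y i w) ∈ U ↔
      ∃ w, (⨆ (_ : w ≤ v), f i w ⊓ mat x Y i w) ∈ U) :=
    val_all fun i => val_all fun v => gen_iSup _
  filter_upwards [h1, h2, h3, h4, h5, gen_mat x Y] with U h1 h2 h3 h4 h5 h6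
  unfold cap
  rw [h1]
  simp only [h2, val_iInf, h3, UF.himp_mem_iff, h4, val_iSup, h5, UF.inf_mem_iff, h6]
  rfl

theorem gen_evd (f : ℕ → ℕ → B) (z x : ℕ → B) :
    ∀ᶠ U in gen B, (evd f z x ∈ U ↔ evdP (fun i => atU U (f i)) (atU U z) (atU U x)) := by
  have h1 := gen_iSup (B := B) (fun N => ⨅ i, ⨅ (_ : N ≤ i), ⨅ v, f i v ⇨ (mat x z i v)ᶜ)
  have h2 : ∀ᶠ U in gen B, ∀ N : ℕ, ((⨅ i, ⨅ (_ : N ≤ i), ⨅ v, f i v ⇨ (mat x z i v)ᶜ) ∈ U ↔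
      ∀ i, (⨅ (_ : N ≤ i), ⨅ v, f i v ⇨ (mat x z i v)ᶜ) ∈ U) :=
    val_all fun N => gen_iInf _
  have h3 : ∀ᶠ U in gen B, ∀ i : ℕ, ((⨅ v, f i v ⇨ (mat x z i v)ᶜ) ∈ U ↔
      ∀ v, (f i v ⇨ (mat x z i v)ᶜ) ∈ U) :=
    val_all fun i => gen_iInf _
  filter_upwards [h1, h2, h3, gen_mat x z] with U h1 h2 h3 h4
  unfold evd
  rw [h1]
  simp only [h2, val_iInf, h3, UF.himp_mem_iff, UF.compl_mem_iff, h4]
  rfl

theorem gen_av (f : ℕ → ℕ → B) (x Y : ℕ → B) :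
    ∀ᶠ U in gen B, ∀ n m, (av f x Y n m ∈ U ↔
      ∀ j, n ≤ j → j < m → ∀ v, f j v ∈ U → ¬ matP (atU U x) (atU U Y) j v) := by
  have h2 : ∀ᶠ U in gen B, ∀ n m : ℕ,
      ((⨅ j, ⨅ (_ : n ≤ j ∧ j < m), ⨅ v, f j v ⇨ (mat x Y j v)ᶜ) ∈ U ↔
      ∀ j, (⨅ (_ : n ≤ j ∧ j < m), ⨅ v, f j v ⇨ (mat x Y j v)ᶜ) ∈ U) :=
    val_all fun n => val_all fun m => gen_iInf _
  have h3 : ∀ᶠ U in gen B, ∀ j : ℕ, ((⨅ v, f j v ⇨ (mat x Y j v)ᶜ) ∈ U ↔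
      ∀ v, (f j v ⇨ (mat x Y j v)ᶜ) ∈ U) :=
    val_all fun j => gen_iInf _
  filter_upwards [h2, h3, gen_mat x Y] with U h2 h3 h4 n m
  unfold av
  simp only [h2, val_iInf, h3, UF.himp_mem_iff, UF.compl_mem_iff, h4]
  exact ⟨fun h j a b => h j ⟨a, b⟩, fun h j a => h j a.1 a.2⟩

theorem gen_leOn (h H : ℕ → ℕ → B) :
    ∀ᶠ U in gen B, ∀ n m, (leOn h H n m ∈ U ↔
      ∀ j, n ≤ j → j < m → ∀ v, H j v ∈ U → h j v ∈ U) := by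
  have h2 : ∀ᶠ U in gen B, ∀ n m : ℕ,
      ((⨅ j, ⨅ (_ : n ≤ j ∧ j < m), ⨅ v, H j v ⇨ h j v) ∈ U ↔
      ∀ j, (⨅ (_ : n ≤ j ∧ j < m), ⨅ v, H j v ⇨ h j v) ∈ U) :=
    val_all fun n => val_all fun m => gen_iInf _
  have h3 : ∀ᶠ U in gen B, ∀ j : ℕ, ((⨅ v, H j v ⇨ h j v) ∈ U ↔
      ∀ v, (H j v ⇨ h j v) ∈ U) :=
    val_all fun j => gen_iInf _
  filter_upwards [h2, h3] with U h2 h3 n m
  unfold leOn
  simp only [h2, val_iInf, h3, UF.himp_mem_iff]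
  exact ⟨fun h j a b => h j ⟨a, b⟩, fun h j a => h j a.1 a.2⟩

theorem gen_isFn {f : ℕ → ℕ → B} (hf : IsFn f) :
    ∀ᶠ U in gen B, IsFnP (fun i => atU U (f i)) := by
  have h1 : ∀ᶠ U in gen B, ∀ i, ((⨆ v, f i v) ∈ U ↔ ∃ v, f i v ∈ U) :=
    val_all fun i => gen_iSup _
  filter_upwards [h1] with U h1
  refine ⟨fun i v w hvw h => U.mem_of_le h (hf.mono i v w hvw), fun i => ?_⟩
  refine (h1 i).1 ?_
  rw [hf.tot i]
  exact U.top_mem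

theorem adv_at {f : ℕ → ℕ → B} (hf : Adv f) (U : UF B) : AdvP (fun i => atU U (f i)) := by
  intro i v hv h
  have h2 : f i v ∈ U := h
  rw [hf i v hv] at h2
  exact U.bot_notMem h2

end MAdd
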