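import Pool.Agent.H7.MAdd.CSB
import Pool.Agent.H7.MAdd.VAL
import Pool.Agent.H26.CM.Algb

/-!
# NEW: consequences of `Nw` and `Bd` used at the end

`new_of_nw`: let `f₀` be given by `Nw A A'` for `x`; put `f i v = f₀ i v` if `i < v`, `⊥` otherwise;
`IsFn f`, `Adv f`, `InF A f`, `av f₀ x Y n m ≤ av f x Y n m`.  Let `g, Y` be of `A`.  Suppose
`b := (isin A x)ᶜ ⊓ cap f g Y x ≠ ⊥`.  By the definition of `cap` there are `N` and `b₁ ≤ b`, `b₁ ≠ ⊥`, with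
`b₁ ≤ ⨅ j ≥ N, ⨅ v, g j v ⇨ ⨆ i ≥ j, ⨆ w ≤ v, f i w ⊓ mat x Y i w`.  By `Nw` there is `n` with
`c = ⨅ m, pr A (b₁ ⊓ av f x Y n m) ≠ ⊥`.  Let `j = max n N` and `v` with `c ⊓ g j v ≠ ⊥`.  Then
`pr A (b₁ ⊓ av f x Y n (v+1) ⊓ (c ⊓ g j v)) = pr A (..) ⊓ (c ⊓ g j v) = c ⊓ g j v ≠ ⊥`, so
`b₁ ⊓ av f x Y n (v+1) ⊓ g j v ≠ ⊥`; below it: some `i ≥ j` and `w ≤ v` with `f i w ⊓ mat x Y i w`, and
`i < w ≤ v` (else `f i w = ⊥`), contradicting `av f x Y n (v+1)` at `i` (`n ≤ i < v + 1`).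

`unb_of_bd`: let `A` be such that all its elements are `⊥` or `⊤` and `A'` the whole algebra.  For
`H` as in `LD.UNB` put `h i v = ⨆ j ≤ v, H i j` (`IsFn h`); let `H₀` be given by `Bd A A'`; define
`f j = (least v with H₀ j v = ⊤) + 1` (exists: `⨆ v, H₀ j v = ⊤` and all values are `⊥` or `⊤`).
Let `n` be given and let `b` be the complement of the supremum in `LD.UNB`.  If `b ≠ ⊥` then
`pr A b = ⊤`, so for some `n₀` we have `pr A (b ⊓ leOn h H₀ n₀ m) ≠ ⊥` for all `m`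
(a supremum of elements of `{⊥, ⊤}`); with `k = max n n₀`, `m = k + 1` and `v = f k - 1`:
`b ⊓ leOn h H₀ n₀ m ≠ ⊥` and it is `≤ b ⊓ h k v`, contradiction.
-/

set_option autoImplicit false

namespace MAdd

variable {B : Type} [CompleteBooleanAlgebra B]

/-- the function `f₀`, cut off so that `i < f i` -/
def new_cut (f₀ : ℕ → ℕ → B) (i v : ℕ) : B := if i < v then f₀ i v else ⊥

theorem new_cut_isFn {f₀ : ℕ → ℕ → B} (hf : IsFn f₀) : IsFn (new_cut f₀) where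
  mono i v w hvw := by
    unfold new_cut
    by_cases h : i < v
    · rw [if_pos h, if_pos (lt_of_lt_of_le h hvw)]
      exact hf.mono i v w hvw
    · rw [if_neg h]
      exact bot_le
  tot i := by
    rw [eq_top_iff, ← hf.tot i]
    refine iSup_le fun v => ?_
    refine le_trans ?_ (le_iSup _ (max v (i + 1)))
    unfold new_cut
    rw [if_pos (by omega)]
    exact hf.mono i v _ (le_max_left _ _)

theorem new_cut_adv (f₀ : ℕ → ℕ → B) : Adv (new_cut f₀) := by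
  intro i v h
  unfold new_cut
  rw [if_neg (by omega)]

theorem new_cut_mem {A : CS B} {f₀ : ℕ → ℕ → B} (hf : InF A f₀) : InF A (new_cut f₀) := by
  intro i v
  unfold new_cut
  split_ifs
  · exact hf i v
  · exact A.bot_mem

/-- `av` contradicts a match -/
theorem new_av_mat (f₀ : ℕ → ℕ → B) (x Y : ℕ → B) {n v i w : ℕ} (hn : n ≤ i) (hw : w ≤ v) :
    av f₀ x Y n (v + 1) ⊓ (new_cut f₀ i w ⊓ mat x Y i w) = ⊥ := by
  unfold new_cut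
  by_cases h : i < w
  · rw [if_pos h]
    have h1 : av f₀ x Y n (v + 1) ≤ f₀ i w ⇨ (mat x Y i w)ᶜ := by
      unfold av
      exact (iInf_le _ i).trans ((iInf_le _ ⟨hn, by omega⟩).trans (iInf_le _ w))
    have h2 : av f₀ x Y n (v + 1) ⊓ f₀ i w ≤ (mat x Y i w)ᶜ := le_himp_iff.1 h1
    rw [← inf_assoc, eq_bot_iff]
    calc av f₀ x Y n (v + 1) ⊓ f₀ i w ⊓ mat x Y i w ≤ (mat x Y i w)ᶜ ⊓ mat x Y i w :=
          inf_le_inf_right _ h2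
      _ = ⊥ := compl_inf_eq_bot
  · rw [if_neg h, bot_inf_eq, inf_bot_eq]

theorem new_exists {ι : Sort*} {f : ι → B} (h : (⨆ i, f i) ≠ ⊥) : ∃ i, f i ≠ ⊥ := by
  by_contra hcon
  push Not at hcon
  exact h (by rw [eq_bot_iff]; exact iSup_le fun i => (hcon i).le)

theorem new_of_nw {A A' : CS B} (hn : Nw A A') (x : ℕ → B) (hx : InR A' x) :
    ∃ f, InF A f ∧ IsFn f ∧ Adv f ∧
      ∀ g, InF A g → IsFn g → ∀ Y, InR A Y → (isin A x)ᶜ ≤ (cap f g Y x)ᶜ := by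
  obtain ⟨f₀, hf₀, hfn, hav⟩ := hn x hx
  refine ⟨new_cut f₀, new_cut_mem hf₀, new_cut_isFn hfn, new_cut_adv f₀, ?_⟩
  intro g hg hgf Y hY
  rw [le_compl_iff_disjoint_right, disjoint_iff]
  by_contra hb
  unfold cap at hb
  rw [inf_iSup_eq] at hb
  obtain ⟨N, hN⟩ := new_exists hb
  set b₁ : B := (isin A x)ᶜ ⊓ ⨅ j, ⨅ (_ : N ≤ j), ⨅ v, g j v ⇨
    ⨆ i, ⨆ (_ : j ≤ i), ⨆ w, ⨆ (_ : w ≤ v), new_cut f₀ i w ⊓ mat x Y i w with hb₁
  have h1 : pr A b₁ ≤ ⨆ n, ⨅ m, pr A (b₁ ⊓ av f₀ x Y n m) := hav Y hY b₁ inf_le_left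
  have h2 : (⨆ n, ⨅ m, pr A (b₁ ⊓ av f₀ x Y n m)) ≠ ⊥ := by
    intro h
    rw [h] at h1
    exact hN ((pr_eq_bot A).1 (le_bot_iff.1 h1))
  obtain ⟨n, hc⟩ := new_exists h2
  have h3 : (⨆ v, (⨅ m, pr A (b₁ ⊓ av f₀ x Y n m)) ⊓ g (max n N) v) ≠ ⊥ := by
    rw [← inf_iSup_eq, hgf.tot, inf_top_eq]
    exact hc
  obtain ⟨v, hv⟩ := new_exists h3
  have h4 : pr A (b₁ ⊓ av f₀ x Y n (v + 1)) ⊓ g (max n N) v ≠ ⊥ := by
    intro h
    apply hv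
    rw [eq_bot_iff, ← h]
    exact inf_le_inf_right _ (iInf_le _ (v + 1))
  rw [← pr_inf' A (hg _ _)] at h4
  apply h4
  rw [pr_eq_bot, eq_bot_iff]
  have h5 : b₁ ⊓ g (max n N) v ≤ ⨆ i, ⨆ (_ : max n N ≤ i), ⨆ w, ⨆ (_ : w ≤ v),
      new_cut f₀ i w ⊓ mat x Y i w := by
    rw [← le_himp_iff]
    exact inf_le_right.trans ((iInf_le _ (max n N)).trans
      ((iInf_le _ (le_max_right n N)).trans (iInf_le _ v)))
  calc b₁ ⊓ av f₀ x Y n (v + 1) ⊓ g (max n N) v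
      = av f₀ x Y n (v + 1) ⊓ (b₁ ⊓ g (max n N) v) := by
        rw [inf_comm b₁, inf_assoc]
    _ ≤ av f₀ x Y n (v + 1) ⊓ ⨆ i, ⨆ (_ : max n N ≤ i), ⨆ w, ⨆ (_ : w ≤ v),
          new_cut f₀ i w ⊓ mat x Y i w := inf_le_inf_left _ h5
    _ ≤ ⊥ := by
        rw [inf_iSup_eq]
        refine iSup_le fun i => ?_
        rw [inf_iSup_eq]
        refine iSup_le fun hi => ?_
        rw [inf_iSup_eq]
        refine iSup_le fun w => ?_
        rw [inf_iSup_eq]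
        refine iSup_le fun hw => ?_
        exact (new_av_mat f₀ x Y (le_trans (le_max_left n N) hi) hw).le

theorem unb_of_bd {A A' : CS B} (hA : ∀ a ∈ A, a = ⊥ ∨ a = ⊤) (hA' : ∀ b : B, b ∈ A')
    (hb : Bd A A') : LD.UNB B := by
  intro H hH _
  by_cases ht : (⊤ : B) = ⊥
  · refine ⟨fun _ => 0, fun n => ?_⟩
    rw [ht, eq_bot_iff, ← ht]
    exact le_top
  obtain ⟨h, hh⟩ : ∃ h : ℕ → ℕ → B, h = fun i v => ⨆ j, ⨆ (_ : j ≤ v), H i j := ⟨_, rfl⟩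
  have hfn : IsFn h := by
    constructor
    · intro i v w hvw
      rw [hh]
      exact iSup_mono fun j => iSup_le fun hj => le_iSup_of_le (hj.trans hvw) le_rfl
    · intro i
      rw [eq_top_iff, ← hH i, hh]
      exact iSup_le fun j => le_iSup_of_le j (le_iSup_of_le j (le_iSup_of_le le_rfl le_rfl))
  obtain ⟨H₀, hH₀, hH₀f, hH₀b⟩ := hb h (fun i v => hA' _) hfn
  have hex : ∀ j, ∃ v, H₀ j v = ⊤ := by
    intro j
    have h1 : (⨆ v, H₀ j v) ≠ ⊥ := by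
      rw [hH₀f.tot j]
      exact ht
    obtain ⟨v, hv⟩ := new_exists h1
    exact ⟨v, (hA _ (hH₀ j v)).resolve_left hv⟩
  choose V hV using hex
  refine ⟨fun j => V j + 1, fun n => ?_⟩
  obtain ⟨S, hS⟩ : ∃ S : B, S = ⨆ k : {k : ℕ // n ≤ k}, ⨆ j : {j : ℕ // j < V k + 1}, H k j :=
    ⟨_, rfl⟩
  rw [← hS]
  by_contra hne
  have h0 : Sᶜ ≠ ⊥ := fun h => hne (compl_eq_bot.1 h)
  have h1 : (⨆ m₀, ⨅ m, pr A (Sᶜ ⊓ leOn h H₀ m₀ m)) ≠ ⊥ := by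
    intro h'
    have h2 := hH₀b Sᶜ
    rw [h'] at h2
    exact h0 ((pr_eq_bot A).1 (le_bot_iff.1 h2))
  obtain ⟨n₀, hn₀⟩ := new_exists h1
  apply hn₀
  rw [eq_bot_iff]
  refine (iInf_le _ (max n n₀ + 1)).trans ?_
  have h2 : leOn h H₀ n₀ (max n n₀ + 1) ≤ S := by
    have h3 : leOn h H₀ n₀ (max n n₀ + 1) ≤
        H₀ (max n n₀) (V (max n n₀)) ⇨ h (max n n₀) (V (max n n₀)) := by
      unfold leOn
      exact (iInf_le _ (max n n₀)).trans ((iInf_le _ ⟨le_max_right _ _, by omega⟩).trans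
        (iInf_le _ _))
    rw [hV, top_himp] at h3
    refine h3.trans ?_
    rw [hS, hh]
    refine iSup_le fun j => iSup_le fun hj => ?_
    exact le_iSup_of_le (⟨max n n₀, le_max_left _ _⟩ : {k : ℕ // n ≤ k})
      (le_iSup_of_le (⟨j, by simpa using Nat.lt_succ_of_le hj⟩ :
        {j : ℕ // j < V (max n n₀) + 1}) le_rfl)
  have h4 : Sᶜ ⊓ leOn h H₀ n₀ (max n n₀ + 1) = ⊥ := by
    rw [eq_bot_iff]
    calc Sᶜ ⊓ leOn h H₀ n₀ (max n n₀ + 1) ≤ Sᶜ ⊓ S := inf_le_inf_left _ h2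
      _ = ⊥ := compl_inf_eq_bot
  rw [h4, pr_bot]

end MAdd
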