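import Pool.Agent.H7.MAdd.KON
import Pool.Agent.H26.BV.Ult

/-!
# NWS: windows for avoiding reals, against a compact family of conditions

Let `c' = isin A x`.  Recursion on `j` (as in BDS): `Q 0 = ⊤`-like, where the part `av f x Y 0 j` also
depends on the real `Y` of `A`: for a real `Y` of `A` put `q 0 Y = ⊤`,
`f j v = ⨅ F Y : reals of A, pr A (β F ⊓ (c' ⊔ (q j Y ⊓ (mat x Y j v)ᶜ)))`,
`q (j+1) Y = q j Y ⊓ ⨅ v, f j v ⇨ (mat x Y j v)ᶜ` (so `q j Y = av f x Y 0 j`).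
Induction hypothesis: `pr A (β F ⊓ (c' ⊔ q j Y)) = ⊤` for all reals `F, Y` of `A`.
To apply `kon` code the pair `(F, Y)` as one real `G` of `A` (`F n = G (2n)`, `Y n = G (2n+1)`):
`φ G v = pr A (β F ⊓ (c' ⊔ (q j Y ⊓ (mat x Y j v)ᶜ)))`.
* total: `c' ⊔ ⨆ v (mat x Y j v)ᶜ = ⊤` (`isin_compl_le`), so
  `⨆ v, φ G v = pr A (β F ⊓ (c' ⊔ (q j Y ⊓ ⨆ v, (mat x Y j v)ᶜ))) = pr A (β F ⊓ (c' ⊔ q j Y)) = ⊤`.
* semicontinuity: `hβ.sc` with `g = c' ⊔ (q j Y ⊓ (mat x Y j v)ᶜ)`; and if `Y' = Y` on `[0, l)` and `l ≥ v`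
  and `f i l` for all `i < j`, then `q j Y = q j Y'` and `mat x Y j v = mat x Y' j v`:
  `(⨅ i < j, f i l) ⊓ mat Y Y' 0 l ⊓ q j Y ≤ q j Y'`; and `⨆ l, ⨅ i < j, f i l = ⊤` (monotone).
* monotone in `v`.
Step as in BDS with `u = f j v ⊓ (⨆ v' < v, f j v')ᶜ`:
`u ⊓ (c' ⊔ (q j Y ⊓ (mat x Y j v)ᶜ)) ≤ c' ⊔ q (j+1) Y`.
-/

set_option autoImplicit false

namespace MAdd

variable {B : Type} [CompleteBooleanAlgebra B]

open BV

theorem nws_bihimp_mem (U : UF B) (a b : B) : bihimp a b ∈ U ↔ (a ∈ U ↔ b ∈ U) := by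
  rw [bihimp, UF.inf_mem_iff, UF.himp_mem_iff, UF.himp_mem_iff]
  tauto

theorem nws_bihimp_trans (a b c : B) : bihimp b c ⊓ bihimp a c ≤ bihimp a b := by
  refine UF.le_of_forall fun U h => ?_
  rw [UF.inf_mem_iff, nws_bihimp_mem, nws_bihimp_mem] at h
  rw [nws_bihimp_mem]
  tauto

theorem nws_mat_anti (x y : ℕ → B) (i : ℕ) {v w : ℕ} (h : v ≤ w) : mat x y i w ≤ mat x y i v := by
  unfold mat
  refine le_iInf₂ fun n hn => ?_
  exact iInf₂_le n ⟨hn.1, by omega⟩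

theorem nws_mat_trans (x Y Y' : ℕ → B) (i : ℕ) {w l : ℕ} (h : w ≤ l) :
    mat Y Y' 0 l ⊓ mat x Y' i w ≤ mat x Y i w := by
  refine le_iInf₂ fun n hn => ?_
  refine le_trans (inf_le_inf (iInf₂_le n ⟨by omega, by omega⟩) (iInf₂_le n hn)) ?_
  exact nws_bihimp_trans _ _ _

noncomputable def nws_f (A : CS B) (β : (ℕ → B) → B) (x : ℕ → B) (j : ℕ) (q : (ℕ → B) → B)
    (v : ℕ) : B :=
  ⨅ F : {F : ℕ → B // InR A F}, ⨅ Y : {Y : ℕ → B // InR A Y},
    pr A (β F.1 ⊓ (isin A x ⊔ (q Y.1 ⊓ (mat x Y.1 j v)ᶜ)))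

noncomputable def nws_q (A : CS B) (β : (ℕ → B) → B) (x : ℕ → B) : ℕ → (ℕ → B) → B
  | 0, _ => ⊤
  | j + 1, Y => nws_q A β x j Y ⊓ ⨅ v, nws_f A β x j (nws_q A β x j) v ⇨ (mat x Y j v)ᶜ

/-- the windows -/
noncomputable def nws_w (A : CS B) (β : (ℕ → B) → B) (x : ℕ → B) (j v : ℕ) : B :=
  nws_f A β x j (nws_q A β x j) v

theorem nws_q_eq (A : CS B) (β : (ℕ → B) → B) (x Y : ℕ → B) (j : ℕ) :
    av (nws_w A β x) x Y 0 j = nws_q A β x j Y := by
  induction j with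
  | zero =>
    unfold nws_q av
    rw [eq_top_iff]
    exact le_iInf₂ fun n hn => absurd hn.2 (by omega)
  | succ j ih =>
    rw [nws_q, ← ih]
    unfold av
    apply le_antisymm
    · refine le_inf (le_iInf₂ fun n hn => iInf₂_le n ⟨hn.1, by omega⟩) ?_
      exact iInf₂_le j ⟨by omega, by omega⟩
    · refine le_iInf₂ fun n hn => ?_
      rcases Nat.lt_succ_iff_lt_or_eq.1 hn.2 with h | h
      · exact inf_le_left.trans (iInf₂_le n ⟨hn.1, h⟩)
      · rw [h]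
        exact inf_le_right

theorem nws_w_mem (A : CS B) (β : (ℕ → B) → B) (x : ℕ → B) : InF A (nws_w A β x) := by
  intro i v
  exact A.iInf_mem fun F => A.iInf_mem fun Y => pr_mem A _

theorem nws_w_mono (A : CS B) (β : (ℕ → B) → B) (x : ℕ → B) (i : ℕ) {v w : ℕ} (h : v ≤ w) :
    nws_w A β x i v ≤ nws_w A β x i w := by
  refine iInf_mono fun F => iInf_mono fun Y => pr_mono A ?_
  refine inf_le_inf_left _ (sup_le_sup_left (inf_le_inf_left _ ?_) _)
  exact compl_le_compl (nws_mat_anti _ _ _ h)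

theorem nws_q_mem (A : CS B) (β : (ℕ → B) → B) (x : ℕ → B) (j i w : ℕ) (hi : i < j) (Y : ℕ → B) :
    nws_q A β x j Y ⊓ nws_w A β x i w ≤ (mat x Y i w)ᶜ := by
  rw [← nws_q_eq, ← le_himp_iff]
  exact (iInf₂_le i ⟨by omega, hi⟩).trans (iInf_le _ w)

/-- `q` depends only on a bounded part of `Y` -/
theorem nws_q_congr (A : CS B) (β : (ℕ → B) → B) (x : ℕ → B) (j l : ℕ) (Y Y' : ℕ → B) :
    ((⨅ i, ⨅ (_ : i < j), nws_w A β x i l) ⊓ mat Y Y' 0 l) ⊓ nws_q A β x j Y ≤ nws_q A β x j Y' := by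
  rw [← nws_q_eq A β x Y' j]
  refine le_iInf₂ fun i hi => le_iInf fun w => ?_
  rw [le_himp_iff, le_compl_iff_disjoint_right, disjoint_iff_inf_le]
  rcases le_total w l with h | h
  · have h1 := nws_q_mem A β x j i w hi.2 Y
    have h2 := nws_mat_trans x Y Y' i h
    refine UF.le_of_forall fun U hU => ?_
    simp only [UF.inf_mem_iff] at hU
    obtain ⟨⟨⟨⟨_, a2⟩, a3⟩, a4⟩, a5⟩ := hU
    exact absurd (U.mem_of_le (U.inf_mem a2 a5) h2)
      (UF.compl_mem_iff U |>.1 (U.mem_of_le (U.inf_mem a3 a4) h1))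
  · have h1 := nws_q_mem A β x j i l hi.2 Y
    have h2 := nws_mat_trans x Y Y' i (le_refl l)
    have h3 := nws_mat_anti x Y' i h
    have h4 : (⨅ i, ⨅ (_ : i < j), nws_w A β x i l) ≤ nws_w A β x i l := iInf₂_le i hi.2
    refine UF.le_of_forall fun U hU => ?_
    simp only [UF.inf_mem_iff] at hU
    obtain ⟨⟨⟨⟨a1, a2⟩, a3⟩, a4⟩, a5⟩ := hU
    exact absurd (U.mem_of_le (U.inf_mem a2 (U.mem_of_le a5 h3)) h2)
      (UF.compl_mem_iff U |>.1 (U.mem_of_le (U.inf_mem a3 (U.mem_of_le a1 h4)) h1))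

theorem nws_dir {a b : ℕ → B} (ha : Monotone a) (hb : Monotone b) :
    (⨆ l, a l) ⊓ (⨆ l, b l) ≤ ⨆ l, a l ⊓ b l := by
  rw [iSup_inf_eq]
  refine iSup_le fun l => ?_
  rw [inf_iSup_eq]
  refine iSup_le fun m => ?_
  refine le_trans ?_ (le_iSup _ (max l m))
  exact inf_le_inf (ha (le_max_left _ _)) (hb (le_max_right _ _))

theorem nws_top (f : ℕ → ℕ → B) (hf : ∀ i, Monotone (f i)) (j : ℕ)
    (ht : ∀ i < j, (⨆ l, f i l) = ⊤) : (⨆ l, ⨅ i, ⨅ (_ : i < j), f i l) = ⊤ := by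
  induction j with
  | zero =>
    rw [eq_top_iff]
    refine le_trans ?_ (le_iSup _ 0)
    exact le_iInf₂ fun i hi => absurd hi (by omega)
  | succ j ih =>
    rw [eq_top_iff]
    have h1 := ih (fun i hi => ht i (by omega))
    have h2 := ht j (by omega)
    calc (⊤ : B) = (⨆ l, ⨅ i, ⨅ (_ : i < j), f i l) ⊓ (⨆ l, f j l) := by rw [h1, h2, top_inf_eq]
      _ ≤ ⨆ l, (⨅ i, ⨅ (_ : i < j), f i l) ⊓ f j l :=
        nws_dir (fun l m h => iInf₂_mono fun i _ => hf i h) (hf j)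
      _ ≤ _ := by
        refine iSup_mono fun l => le_iInf₂ fun i hi => ?_
        rcases Nat.lt_succ_iff_lt_or_eq.1 hi with h | h
        · exact inf_le_left.trans (iInf₂_le i h)
        · rw [h]; exact inf_le_right

/-- induction step: totality of the window at `j` -/
theorem nws_tot {A : CS B} {β : (ℕ → B) → B} (hβ : Shp A β) (x : ℕ → B) (j : ℕ)
    (ht : ∀ i < j, (⨆ l, nws_w A β x i l) = ⊤)
    (ih : ∀ F, InR A F → ∀ Y, InR A Y → pr A (β F ⊓ (isin A x ⊔ nws_q A β x j Y)) = ⊤) :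
    (⨆ v, nws_w A β x j v) = ⊤ := by
  set ev : (ℕ → B) → ℕ → B := fun G n => G (2 * n) with hev
  set od : (ℕ → B) → ℕ → B := fun G n => G (2 * n + 1) with hod
  have hevA : ∀ G, InR A G → InR A (ev G) := fun G hG n => hG _
  have hodA : ∀ G, InR A G → InR A (od G) := fun G hG n => hG _
  have hk := kon A (fun G v => pr A (β (ev G) ⊓ (isin A x ⊔
    (nws_q A β x j (od G) ⊓ (mat x (od G) j v)ᶜ)))) (fun G _ v => pr_mem A _) ?_ ?_ ?_
  · rw [eq_top_iff, ← hk]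
    refine iSup_mono fun v => le_iInf fun F => le_iInf fun Y => ?_
    set G : ℕ → B := fun n => if n % 2 = 0 then F.1 (n / 2) else Y.1 (n / 2) with hG
    have hGA : InR A G := by
      intro n
      by_cases h : n % 2 = 0
      · simp only [hG, h, if_true]; exact F.2 _
      · simp only [hG, h, if_false]; exact Y.2 _
    have e1 : ev G = F.1 := by
      funext n
      have e : 2 * n / 2 = n := by omega
      simp only [hev, hG]
      rw [if_pos (by omega), e]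
    have e2 : od G = Y.1 := by
      funext n
      have e : (2 * n + 1) / 2 = n := by omega
      simp only [hod, hG]
      rw [if_neg (by omega), e]
    refine (iInf_le _ (⟨G, hGA⟩ : {F : ℕ → B // InR A F})).trans ?_
    simp only [e1, e2]
    exact le_refl _
  · intro G hG v
    refine pr_mono A (inf_le_inf_left _ (sup_le_sup_left (inf_le_inf_left _ ?_) _))
    exact compl_le_compl (nws_mat_anti _ _ _ (Nat.le_succ v))
  · intro G hG
    rw [← pr_iSup, ← inf_iSup_eq, ← sup_iSup, ← inf_iSup_eq, eq_top_iff,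
      ← ih (ev G) (hevA G hG) (od G) (hodA G hG)]
    refine pr_mono A (inf_le_inf_left _ ?_)
    have h1 := isin_compl_le (hodA G hG) x j
    rw [sup_inf_left]
    refine le_inf (le_refl _) ?_
    have h2 : isin A x ⊔ (isin A x)ᶜ = ⊤ := sup_compl_eq_top
    refine le_top.trans ?_
    rw [← h2]
    exact sup_le_sup_left h1 _
  · intro G hG v
    set g : B := isin A x ⊔ (nws_q A β x j (od G) ⊓ (mat x (od G) j v)ᶜ) with hg
    have h1 := hβ.sc (ev G) (hevA G hG) g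
    have h2 := nws_top (nws_w A β x) (fun i v w h => nws_w_mono A β x i h) j ht
    have m1 : Monotone (fun l => ⨅ i, ⨅ (_ : i < j), nws_w A β x i l) :=
      fun l m h => iInf₂_mono fun i _ => nws_w_mono A β x i h
    have m2 : Monotone (fun l => ⨅ F' : {F' : ℕ → B // InR A F'},
        mat (ev G) F'.1 0 l ⇨ pr A (β F'.1 ⊓ g)) :=
      fun l m h => iInf_mono fun F' => himp_le_himp_right (nws_mat_anti _ _ _ h)
    have h3 : pr A (β (ev G) ⊓ g) ≤ ⨆ l, (⨅ i, ⨅ (_ : i < j), nws_w A β x i l) ⊓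
        ⨅ F' : {F' : ℕ → B // InR A F'}, mat (ev G) F'.1 0 l ⇨ pr A (β F'.1 ⊓ g) := by
      refine le_trans (le_inf ?_ h1) (nws_dir m1 m2)
      rw [h2]; exact le_top
    refine h3.trans (iSup_le fun l => ?_)
    have hl1 : l ≤ max l v := le_max_left _ _
    have hl2 : v ≤ max l v := le_max_right _ _
    refine (inf_le_inf (m1 hl1) (m2 hl1)).trans ?_
    generalize max l v = L at hl2
    refine le_trans ?_ (le_iSup _ (2 * L))
    refine le_iInf fun G' => ?_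
    rw [le_himp_iff]
    have e1 : mat G G'.1 0 (2 * L) ≤ mat (ev G) (ev G'.1) 0 L :=
      le_iInf₂ fun n hn => iInf₂_le (2 * n) ⟨by omega, by omega⟩
    have e2 : mat G G'.1 0 (2 * L) ≤ mat (od G) (od G'.1) 0 L :=
      le_iInf₂ fun n hn => iInf₂_le (2 * n + 1) ⟨by omega, by omega⟩
    set p : B := ⨅ i, ⨅ (_ : i < j), nws_w A β x i L with hp
    have hpA : p ∈ A := A.iInf_mem fun i => A.iInf_mem fun _ => nws_w_mem A β x i L
    have e3 : (⨅ F' : {F' : ℕ → B // InR A F'}, mat (ev G) F'.1 0 L ⇨ pr A (β F'.1 ⊓ g)) ⊓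
        mat (ev G) (ev G'.1) 0 L ≤ pr A (β (ev G'.1) ⊓ g) := by
      rw [← le_himp_iff]
      exact iInf_le _ (⟨ev G'.1, hevA _ G'.2⟩ : {F' : ℕ → B // InR A F'})
    have hmA : mat (od G) (od G'.1) 0 L ∈ A := A.mat_mem (hodA _ hG) (hodA _ G'.2) 0 L
    have haA : p ⊓ mat (od G) (od G'.1) 0 L ∈ A := A.inf_mem hpA hmA
    have e4 : (p ⊓ mat (od G) (od G'.1) 0 L) ⊓ pr A (β (ev G'.1) ⊓ g) ≤
        pr A (β (ev G'.1) ⊓ (isin A x ⊔ (nws_q A β x j (od G'.1) ⊓ (mat x (od G'.1) j v)ᶜ))) := by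
      rw [← pr_inf A haA]
      refine pr_mono A ?_
      have f1 := nws_q_congr A β x j L (od G) (od G'.1)
      have f2 := nws_mat_trans x (od G) (od G'.1) j hl2
      refine UF.le_of_forall fun U hU => ?_
      rw [hg] at hU
      simp only [UF.inf_mem_iff, UF.sup_mem_iff, UF.compl_mem_iff] at hU
      obtain ⟨⟨a1, a2⟩, a3, a4⟩ := hU
      rw [UF.inf_mem_iff, UF.sup_mem_iff, UF.inf_mem_iff, UF.compl_mem_iff]
      refine ⟨a3, ?_⟩
      rcases a4 with a4 | ⟨a5, a6⟩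
      · exact Or.inl a4
      · refine Or.inr ⟨U.mem_of_le (U.inf_mem (U.inf_mem a1 a2) a5) f1, ?_⟩
        intro a7
        exact a6 (U.mem_of_le (U.inf_mem a2 a7) f2)
    refine le_trans ?_ e4
    refine le_inf (le_inf (inf_le_left.trans inf_le_left) (inf_le_right.trans e2)) ?_
    refine le_trans ?_ e3
    exact le_inf (inf_le_left.trans inf_le_right) (inf_le_right.trans e1)

theorem nws_first (f : ℕ → B) (v : ℕ) :
    f v ≤ ⨆ w, f w ⊓ (⨆ w', ⨆ (_ : w' < w), f w')ᶜ := by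
  induction v using Nat.strong_induction_on with
  | _ v ih =>
    have h : f v ≤ (f v ⊓ (⨆ w', ⨆ (_ : w' < v), f w')ᶜ) ⊔ (⨆ w', ⨆ (_ : w' < v), f w') := by
      refine UF.le_of_forall fun U hU => ?_
      rw [UF.sup_mem_iff, UF.inf_mem_iff, UF.compl_mem_iff]
      tauto
    refine h.trans (sup_le (le_iSup (fun w => f w ⊓ (⨆ w', ⨆ (_ : w' < w), f w')ᶜ) v) ?_)
    exact iSup₂_le fun w' hw' => ih w' hw'

theorem nws_step {A : CS B} {β : (ℕ → B) → B} (x : ℕ → B) (j : ℕ)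
    (ht : (⨆ l, nws_w A β x j l) = ⊤) (F : ℕ → B) (hF : InR A F) (Y : ℕ → B) (hY : InR A Y) :
    pr A (β F ⊓ (isin A x ⊔ nws_q A β x (j + 1) Y)) = ⊤ := by
  rw [eq_top_iff, ← ht]
  refine iSup_le fun v => (nws_first _ v).trans (iSup_le fun w => ?_)
  set u : B := nws_w A β x j w ⊓ (⨆ w', ⨆ (_ : w' < w), nws_w A β x j w')ᶜ with hu
  have huA : u ∈ A := by
    refine A.inf_mem (nws_w_mem A β x j w) (A.compl_mem ?_)
    exact A.iSup_mem fun w' => A.iSup_mem fun _ => nws_w_mem A β x j w'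
  have h1 : nws_w A β x j w ≤ pr A (β F ⊓ (isin A x ⊔ (nws_q A β x j Y ⊓ (mat x Y j w)ᶜ))) :=
    (iInf_le _ (⟨F, hF⟩ : {F : ℕ → B // InR A F})).trans
      (iInf_le _ (⟨Y, hY⟩ : {Y : ℕ → B // InR A Y}))
  have h2 : u ≤ u ⊓ pr A (β F ⊓ (isin A x ⊔ (nws_q A β x j Y ⊓ (mat x Y j w)ᶜ))) :=
    le_inf (le_refl _) (inf_le_left.trans h1)
  refine h2.trans ?_
  rw [← pr_inf A huA]
  refine pr_mono A ?_
  have h3 : u ⊓ (nws_q A β x j Y ⊓ (mat x Y j w)ᶜ) ≤ nws_q A β x (j + 1) Y := by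
    rw [nws_q]
    refine le_inf (inf_le_right.trans inf_le_left) (le_iInf fun w' => ?_)
    rw [le_himp_iff]
    rcases lt_or_ge w' w with h | h
    · have h4 : nws_f A β x j (nws_q A β x j) w' ≤ ⨆ w', ⨆ (_ : w' < w), nws_w A β x j w' :=
        le_iSup₂ (f := fun w' (_ : w' < w) => nws_w A β x j w') w' h
      refine UF.le_of_forall fun U hU => ?_
      rw [hu] at hU
      simp only [UF.inf_mem_iff, UF.compl_mem_iff] at hU
      exact absurd (U.mem_of_le hU.2 h4) hU.1.1.2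
    · exact (inf_le_left.trans (inf_le_right.trans inf_le_right)).trans
        (compl_le_compl (nws_mat_anti _ _ _ h))
  refine UF.le_of_forall fun U hU => ?_
  simp only [UF.inf_mem_iff, UF.sup_mem_iff, UF.compl_mem_iff] at hU
  obtain ⟨a1, a2, a3⟩ := hU
  rw [UF.inf_mem_iff, UF.sup_mem_iff]
  refine ⟨a2, ?_⟩
  rcases a3 with a3 | ⟨a4, a5⟩
  · exact Or.inl a3
  · exact Or.inr (U.mem_of_le (U.inf_mem a1 (U.inf_mem a4 (UF.compl_mem_iff U |>.2 a5))) h3)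

theorem nws {A : CS B} {β : (ℕ → B) → B} (hβ : Shp A β) (x : ℕ → B) :
    ∃ f, InF A f ∧ IsFn f ∧ ∀ F, InR A F → ∀ Y, InR A Y → ∀ m,
      pr A (β F ⊓ (isin A x ⊔ av f x Y 0 m)) = ⊤ := by
  have key : ∀ j, (∀ i < j, (⨆ l, nws_w A β x i l) = ⊤) ∧
      ∀ F, InR A F → ∀ Y, InR A Y → pr A (β F ⊓ (isin A x ⊔ nws_q A β x j Y)) = ⊤ := by
    intro j
    induction j with
    | zero =>
      refine ⟨fun i hi => absurd hi (by omega), fun F hF Y hY => ?_⟩
      rw [nws_q, sup_top_eq, inf_top_eq]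
      exact hβ.top F hF
    | succ j ih =>
      have h := nws_tot hβ x j ih.1 ih.2
      refine ⟨fun i hi => ?_, fun F hF Y hY => nws_step x j h F hF Y hY⟩
      rcases Nat.lt_succ_iff_lt_or_eq.1 hi with h' | h'
      · exact ih.1 i h'
      · rw [h']; exact h
  refine ⟨nws_w A β x, nws_w_mem A β x, ⟨fun i v w h => nws_w_mono A β x i h,
    fun i => (key (i + 1)).1 i (by omega)⟩, ?_⟩
  intro F hF Y hY m
  rw [nws_q_eq]
  exact (key m).2 F hF Y hY

end MAdd
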