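import Pool.Agent.H7.MAdd.PEXT

/-!
# PCAP: the generic sequence of blocks at `c` captures all reals of stage `c`

Write `f = cfun (nval e c (D.fb c))`, `R = res (Iio c)`.
`pcap`: `g j v = ⨆ s, ⨆ (some block of s occupies [a, b) with j ≤ a, b ≤ v), gn e c s`,
`Y n = ⨆ s, ⨆ (n < len s, s.flatten[n] = true), gn e c s`.
`IsFn g`: by `pcap_ext` every condition `p` can be extended to `p'` with
`(p' c).s` containing a block starting at a position `≥ j`; `e p' ≤ gn e c (p' c).s` (`le_single`).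
`cap f g Y r = ⊤` for `r = nval e c (D.ν c i)`: below a given `p` take `p' = upd p c ⟨(p c).s, (p c).F ∪ {i}⟩`,
`N = len (p c).s + 1`; for `j ≥ N` and `v`:
`e p' ⊓ g j v ≤ ⨆ i' ≥ j, ⨆ w ≤ v, f i' w ⊓ mat r Y i' w`: let `q ≤ p'`, `q ≤ upd 0 c ⟨s*, ∅⟩` where `s*` has
a block `t` at `[a, b)`, `j ≤ a`, `b ≤ v`.  So `(q c).s = (p c).s ++ u` where `t` is a block of `u` (as `a ≥ N`), and
`WW D c i (p c).s u q`, so `e q ≤ hit f r a t` and `e q ≤ gn e c (q c).s` decides `Y` on `[a, b)` to be `t`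
(`gn_inf` for the other stems).
-/

set_option autoImplicit false

open BV

namespace MAdd

variable {L K : Type} [LinearOrder L] [WellFoundedLT L] {D : Dat L K}
  {B : Type} [CompleteBooleanAlgebra B] {e : Cond L K → B}

/-- the end of the first block starting at or after `j` is at most `v` -/
noncomputable def PCAP_g (e : Cond L K → B) (c : L) (j v : ℕ) : B :=
  ⨆ s : List (List Bool), ⨆ (_ : ∃ u1 t u2, s = u1 ++ t :: u2 ∧ j ≤ len u1 ∧
    len u1 + t.length ≤ v), gn e c s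

/-- the generic real -/
noncomputable def PCAP_Y (e : Cond L K → B) (c : L) (n : ℕ) : B :=
  ⨆ s : List (List Bool), ⨆ (_ : s.flatten[n]? = some true), gn e c s

theorem PCAP_le_gn (he : DE D e) (c : L) (p : Cond L K) : e p ≤ gn e c (p c).s :=
  he.mono _ _ (le_single D (u := []) (by simp) (by simp) (by simp))

theorem PCAP_long (he : DE D e) (c : L) (j : ℕ) (p : Cond L K) :
    ∃ q, leP D q p ∧ j ≤ len (q c).s := by
  induction j with
  | zero => exact ⟨p, leP_refl D p, Nat.zero_le _⟩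
  | succ j ih =>
    obtain ⟨q, hq, hj⟩ := ih
    obtain ⟨q', t, hq', ht, hs⟩ := pcap_ext he c q
    refine ⟨q', leP_trans D _ _ _ hq' hq, ?_⟩
    rw [hs]
    have : 0 < t.length := List.length_pos_iff.2 ht
    simp only [len, List.flatten_append, List.length_append, List.flatten_cons,
      List.flatten_nil, List.append_nil] at hj ⊢
    omega

theorem PCAP_isFn (he : DE D e) (c : L) : IsFn (PCAP_g e c) := by
  constructor
  · intro j v w hvw
    refine iSup_le fun s => iSup_le fun hs => ?_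
    obtain ⟨u1, t, u2, h1, h2, h3⟩ := hs
    exact le_iSup_of_le s (le_iSup_of_le ⟨u1, t, u2, h1, h2, h3.trans hvw⟩ le_rfl)
  · intro j
    refine top_le_iff.1 (he.le_of_dense fun p _ => ?_)
    obtain ⟨q, hq, hj⟩ := PCAP_long he c j p
    obtain ⟨q', t, hq', -, hs⟩ := pcap_ext he c q
    refine ⟨q', leP_trans D _ _ _ hq' hq, ?_⟩
    refine le_iSup_of_le (len (q c).s + t.length) ?_
    refine le_iSup_of_le (q' c).s (le_iSup_of_le ⟨(q c).s, t, [], hs, hj, le_rfl⟩ ?_)
    exact PCAP_le_gn he c q'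

theorem PCAP_lit (he : DE D e) (c : L) (q : Cond L K) (n : ℕ) (b : Bool)
    (hb : (q c).s.flatten[n]? = some b) : e q ≤ lit b (PCAP_Y e c n) := by
  have hgn := PCAP_le_gn he c q
  cases b with
  | true =>
    change e q ≤ PCAP_Y e c n
    exact le_iSup_of_le _ (le_iSup_of_le hb hgn)
  | false =>
    change e q ≤ (PCAP_Y e c n)ᶜ
    rw [le_compl_iff_disjoint_right, disjoint_iff]
    rw [PCAP_Y, inf_iSup_eq]
    refine iSup_eq_bot.2 fun s => ?_
    rw [inf_iSup_eq]
    refine iSup_eq_bot.2 fun hs => ?_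
    by_contra hne
    have hne' : gn e c (q c).s ⊓ gn e c s ≠ ⊥ := fun h0 => hne
      (le_bot_iff.1 (le_trans (inf_le_inf_right _ hgn) h0.le))
    rcases gn_inf he c _ _ hne' with ⟨u, hu⟩ | ⟨u, hu⟩
    · rw [hu, List.flatten_append] at hs
      have hlt : n < (q c).s.flatten.length := by
        by_contra hge
        rw [List.getElem?_eq_none (not_lt.1 hge)] at hb
        exact absurd hb (by simp)
      rw [List.getElem?_append_left hlt, hb] at hs
      exact absurd hs (by simp)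
    · rw [hu, List.flatten_append] at hb
      have hlt : n < s.flatten.length := by
        by_contra hge
        rw [List.getElem?_eq_none (not_lt.1 hge)] at hs
        exact absurd hs (by simp)
      rw [List.getElem?_append_left hlt, hs] at hb
      exact absurd hb (by simp)

theorem PCAP_bihimp (b : Bool) (x y : B) : lit b x ⊓ lit b y ≤ bihimp x y := by
  cases b with
  | true =>
    change x ⊓ y ≤ bihimp x y
    exact inf_le_bihimp
  | false =>
    change xᶜ ⊓ yᶜ ≤ bihimp x y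
    rw [bihimp]
    refine le_inf ?_ ?_
    · rw [le_himp_iff, inf_assoc, compl_inf_eq_bot, inf_bot_eq]
      exact bot_le
    · rw [le_himp_iff, inf_right_comm, compl_inf_eq_bot, bot_inf_eq]
      exact bot_le

theorem PCAP_hit (he : DE D e) (c : L) (f : ℕ → ℕ → B) (r : ℕ → B) (q : Cond L K)
    (u1 : List (List Bool)) (t : List Bool) (u2 : List (List Bool))
    (hq : (q c).s = u1 ++ t :: u2) (hh : e q ≤ hit f r (len u1) t) (j v : ℕ) (hj : j ≤ len u1)
    (hv : len u1 + t.length ≤ v) :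
    e q ≤ ⨆ i, ⨆ (_ : j ≤ i), ⨆ w, ⨆ (_ : w ≤ v), f i w ⊓ mat r (PCAP_Y e c) i w := by
  have h1 : e q = e q ⊓ hit f r (len u1) t := (inf_eq_left.2 hh).symm
  rw [h1, hit, inf_iSup_eq]
  refine iSup_le fun w => ?_
  rw [inf_iSup_eq]
  refine iSup_le fun v' => ?_
  rw [inf_iSup_eq]
  refine iSup_le fun hw => ?_
  refine le_iSup_of_le w (le_iSup_of_le (hj.trans hw.1) (le_iSup_of_le v'
    (le_iSup_of_le (hw.2.trans hv) ?_)))
  refine le_inf (inf_le_right.trans inf_le_left) ?_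
  rw [mat]
  refine le_iInf fun n => le_iInf fun hn => ?_
  have h2 : (q c).s.flatten[n]? = some (t.getD (n - len u1) false) := by
    rw [hq, List.flatten_append, List.flatten_cons]
    have hlen : u1.flatten.length = len u1 := rfl
    rw [List.getElem?_append_right (by omega), List.getElem?_append_left (by omega)]
    rw [hlen, List.getD_eq_getElem?_getD, List.getElem?_eq_getElem (by omega)]
    simp
  refine le_trans (le_inf ?_ ?_) (PCAP_bihimp (t.getD (n - len u1) false) (r n) (PCAP_Y e c n))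
  · exact (inf_le_right.trans inf_le_right).trans (iInf_le_of_le n (iInf_le_of_le hn le_rfl))
  · exact inf_le_left.trans (PCAP_lit he c q n _ h2)

theorem pcap (he : DE D e) (c : L) : ∃ (g : ℕ → ℕ → B) (Y : ℕ → B), IsFn g ∧
    ∀ i, cap (cfun (nval e c (D.fb c))) g Y (nval e c (D.ν c i)) = ⊤ := by
  refine ⟨PCAP_g e c, PCAP_Y e c, PCAP_isFn he c, fun i => ?_⟩
  refine top_le_iff.1 (he.le_of_dense fun p _ => ?_)
  classical
  refine ⟨upd p c ⟨(p c).s, insert i (p c).F⟩, upd_le D (u := []) (by simp) (by simp)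
    (fun i' _ => WW_nil D c i' _ p), ?_⟩
  set p' : Cond L K := upd p c ⟨(p c).s, insert i (p c).F⟩ with hp'
  have hp'c : p' c = ⟨(p c).s, insert i (p c).F⟩ := upd_self _ _ _
  rw [cap]
  refine le_iSup_of_le (len (p c).s + 1) (le_iInf fun j => le_iInf fun hj => le_iInf fun v => ?_)
  rw [le_himp_iff, PCAP_g, inf_iSup_eq]
  refine iSup_le fun s => ?_
  rw [inf_iSup_eq]
  refine iSup_le fun hs => ?_
  obtain ⟨u1, t, u2, hs1, hs2, hs3⟩ := hs
  refine he.le_of_dense fun q0 hq0 => ?_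
  have hq0p : e q0 ⊓ e p' ≠ ⊥ := by
    rw [inf_eq_left.2 (hq0.trans inf_le_left)]
    exact he.ne_bot q0
  obtain ⟨q1, h1, h2⟩ := he.compat _ _ hq0p
  have hq1s : e q1 ⊓ e (upd 0 c ⟨s, ∅⟩) ≠ ⊥ := by
    have h5 : e q1 ≤ e (upd 0 c ⟨s, ∅⟩) := ((he.mono _ _ h1).trans hq0).trans inf_le_right
    rw [inf_eq_left.2 h5]
    exact he.ne_bot q1
  obtain ⟨q, h3, h4⟩ := he.compat _ _ hq1s
  refine ⟨q, leP_trans D _ _ _ h3 h1, ?_⟩
  have hqp' : leP D q p' := leP_trans D _ _ _ h3 h2
  obtain ⟨u, hu1, -, hu3⟩ := hqp' c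
  obtain ⟨u', hu'1, -, -⟩ := h4 c
  rw [upd_self] at hu'1
  simp only at hu'1
  rw [hp'c] at hu1 hu3
  simp only at hu1 hu3
  have hW := hu3 i (Finset.mem_insert_self _ _)
  rw [WW_iff he] at hW
  have heq : (p c).s ++ u = u1 ++ (t :: (u2 ++ u')) := by
    rw [← hu1, hu'1, hs1]
    simp
  have hq : (q c).s = u1 ++ t :: (u2 ++ u') := by rw [hu1, heq]
  rcases List.append_eq_append_iff.1 heq with ⟨a', ha1, ha2⟩ | ⟨c', hc1, hc2⟩
  · -- `u1 = (p c).s ++ a'`
    have hhit : e q ≤ hit (cfun (nval e c (D.fb c))) (nval e c (D.ν c i)) (len u1) t := by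
      refine ((he.mono _ _ (leP_res D (Set.Iio c) q)).trans hW).trans ?_
      rw [hits]
      refine iInf_le_of_le a' (iInf_le_of_le t (iInf_le_of_le (u2 ++ u') (iInf_le_of_le ha2 ?_)))
      rw [← ha1]
    exact PCAP_hit he c _ _ q u1 t _ hq hhit j v hs2 hs3
  · exfalso
    have : len u1 ≤ len (p c).s := by
      rw [hc1]
      simp [len]
    omega

theorem pcap' (hD : Ok D) (he : DE D e) (δ : L) (f : ℕ → ℕ → B)
    (hf : InF (Sb he (Set.Iio δ) (isLowerSet_Iio δ)) f) (hf' : IsFn f) (ha : Adv f) :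
    ∃ (g : ℕ → ℕ → B) (Y : ℕ → B), IsFn g ∧
      ∀ r, InR (Sb he (Set.Iio δ) (isLowerSet_Iio δ)) r → cap f g Y r = ⊤ := by
  obtain ⟨d, hd, hfd⟩ := exists_coord hD he δ hf hf' ha
  obtain ⟨g, Y, hg, hcap⟩ := pcap he d
  refine ⟨g, Y, hg, fun r hr => ?_⟩
  have hr' : InR (Sb he (Set.Iio d) (isLowerSet_Iio d)) r := fun n =>
    Sb_mono he (isLowerSet_Iio δ) (isLowerSet_Iio d) (Set.Iio_subset_Iio hd) _ (hr n)
  obtain ⟨i, hi⟩ := exists_index hD he d hr'
  have := hcap i
  rwa [hfd, hi] at this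

end MAdd
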