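import Pool.Agent.H7.MAdd.PDef

/-!
# PCCC: a Delta-system type lemma

By induction on `n`: if all `f i` have at most `n` elements.  (First pass to an uncountable subfamily
with `(f i).card = n`: otherwise `ι` is a countable union of countable sets.)  Suppose the conclusion
fails for the uncountable family.  Case 1: some `c` lies in `f i` for uncountably many `i`; for
uncountably many of them `g i c` has the same value; apply the induction hypothesis to
`(f i).erase c`.  Case 2: every `c` lies in `f i` for countably many `i` only; fix `i₀`; the `i` such that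
`f i` meets `f i₀` form a countable set, so some `i ≠ i₀` has `f i ∩ f i₀ = ∅`: the conclusion holds
vacuously.
-/

set_option autoImplicit false

namespace MAdd

/-- an uncountable type mapped to a countable one has an uncountable fibre -/
theorem pccc_fibre {ι T : Type} [Countable T] (hι : ¬ Countable ι) (φ : ι → T) :
    ∃ t, ¬ Countable {i : ι // φ i = t} := by
  by_contra hcon
  push Not at hcon
  apply hι
  have h1 : Countable (Σ t, {i : ι // φ i = t}) := by
    have := hcon
    infer_instance
  exact (Equiv.sigmaFiberEquiv φ).symm.injective.countable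

theorem pccc_aux {L S : Type} [Countable S] (n : ℕ) : ∀ {ι : Type} (_ : ¬ Countable ι)
    (f : ι → Finset L) (_ : ∀ i, (f i).card = n) (g : ι → L → S),
    ∃ i j, i ≠ j ∧ ∀ c, c ∈ f i → c ∈ f j → g i c = g j c := by
  classical
  induction n with
  | zero =>
    intro ι hι f hf g
    have h1 : ∃ i j : ι, i ≠ j := by
      by_contra hcon
      push Not at hcon
      apply hι
      have : Subsingleton ι := ⟨hcon⟩
      infer_instance
    obtain ⟨i, j, hij⟩ := h1
    refine ⟨i, j, hij, fun c hc => ?_⟩
    rw [Finset.card_eq_zero.1 (hf i)] at hc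
    exact absurd hc (Finset.notMem_empty c)
  | succ n ih =>
    intro ι hι f hf g
    by_cases hc : ∃ c, ¬ Countable {i : ι // c ∈ f i}
    · obtain ⟨c, hc⟩ := hc
      obtain ⟨s, hs⟩ := pccc_fibre hc (fun i => g i.1 c)
      obtain ⟨i, j, hij, h⟩ := ih hs (fun i => (f i.1.1).erase c) (fun i => by
        rw [Finset.card_erase_of_mem i.1.2, hf]
        rfl) (fun i => g i.1.1)
      refine ⟨i.1.1, j.1.1, fun h' => hij (Subtype.ext (Subtype.ext h')), fun d hd hd' => ?_⟩
      by_cases hdc : d = c
      · subst hdc
        exact i.2.trans j.2.symm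
      · exact h d (Finset.mem_erase.2 ⟨hdc, hd⟩) (Finset.mem_erase.2 ⟨hdc, hd'⟩)
    · push Not at hc
      have hne : Nonempty ι := by
        by_contra hcon
        rw [not_nonempty_iff] at hcon
        exact hι inferInstance
      obtain ⟨i₀⟩ := hne
      have h1 : ({i : ι | ∃ c ∈ f i₀, c ∈ f i} ∪ {i₀}).Countable := by
        refine Set.Countable.union ?_ (Set.countable_singleton i₀)
        have h2 : {i : ι | ∃ c ∈ f i₀, c ∈ f i} = ⋃ c ∈ (f i₀ : Set L), {i : ι | c ∈ f i} := by
          ext i
          simp
        rw [h2]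
        refine Set.Countable.biUnion (f i₀).countable_toSet fun c _ => ?_
        exact Set.countable_coe_iff.1 (hc c)
      have h3 : ∃ i, i ∉ ({i : ι | ∃ c ∈ f i₀, c ∈ f i} ∪ {i₀} : Set ι) := by
        by_contra hcon
        push Not at hcon
        apply hι
        rw [← Set.countable_univ_iff]
        exact h1.mono fun i _ => hcon i
      obtain ⟨i, hi⟩ := h3
      rw [Set.mem_union, not_or] at hi
      refine ⟨i₀, i, fun h => hi.2 (by rw [h]; rfl), fun c hc hc' => ?_⟩
      exact absurd ⟨c, hc, hc'⟩ hi.1

theorem delta {ι L S : Type} [Countable S] (hι : ¬ Countable ι) (f : ι → Finset L)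
    (g : ι → L → S) : ∃ i j, i ≠ j ∧ ∀ c, c ∈ f i → c ∈ f j → g i c = g j c := by
  obtain ⟨n, hn⟩ := pccc_fibre hι (fun i => (f i).card)
  obtain ⟨i, j, hij, h⟩ := pccc_aux n hn (fun i => f i.1) (fun i => i.2) (fun i => g i.1)
  exact ⟨i.1, j.1, fun h' => hij (Subtype.ext h'), h⟩

end MAdd
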