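import Pool.Agent.H7.MAdd.PEMB
import Pool.Agent.H7.MAdd.PCCC

/-!
# PCC2: the countable chain condition

`ccc`: two conditions `p, q` with `(p c).s = (q c).s` for all `c` in both supports are compatible
(take `⟨s, F ∪ F'⟩` on the common support, and the cell of `p` or `q` elsewhere; all `u` are `[]` or the
cell of the other is `0 = ⟨[], ∅⟩`).  So by `delta` (with `S = List (List Bool)`) every set of pairwise
incompatible conditions is countable.  For `S : Set B` take a maximal (Zorn) set `Q` of pairwise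
incompatible conditions `p` with `e p ≤ b` for some `b ∈ S`; then `sSup S = ⨆ p ∈ Q, e p`; choose such a
`b` for each `p ∈ Q`.
-/

set_option autoImplicit false

open BV

namespace MAdd

variable {L K : Type} [LinearOrder L] [WellFoundedLT L] {D : Dat L K}
  {B : Type} [CompleteBooleanAlgebra B] {e : Cond L K → B}

theorem pcc2_same {r p : Cond L K} {d : L} (hs : (r d).s = (p d).s) (hF : (p d).F ⊆ (r d).F) :
    ∃ u, (r d).s = (p d).s ++ u ∧ (p d).F ⊆ (r d).F ∧ ∀ i ∈ (p d).F, WW D d i (p d).s u r :=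
  ⟨[], by rw [hs, List.append_nil], hF, fun i _ => WW_nil D d i _ r⟩

theorem pcc2_triv {r p : Cond L K} {d : L} (h : p d = 0) :
    ∃ u, (r d).s = (p d).s ++ u ∧ (p d).F ⊆ (r d).F ∧ ∀ i ∈ (p d).F, WW D d i (p d).s u r := by
  rw [h]
  exact ⟨(r d).s, rfl, Finset.empty_subset _, fun i hi => absurd hi (Finset.notMem_empty i)⟩

theorem compat_of_stems {p q : Cond L K}
    (h : ∀ c, c ∈ p.support → c ∈ q.support → (p c).s = (q c).s) :
    ∃ r, leP D r p ∧ leP D r q := by
  classical
  set r : Cond L K := Finsupp.onFinset (p.support ∪ q.support)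
    (fun c => ⟨if c ∈ p.support then (p c).s else (q c).s, (p c).F ∪ (q c).F⟩) (by
      intro c hc
      by_contra hn
      rw [Finset.mem_union, not_or] at hn
      apply hc
      have h1 : p c = 0 := Finsupp.notMem_support_iff.1 hn.1
      have h2 : q c = 0 := Finsupp.notMem_support_iff.1 hn.2
      rw [if_neg hn.1, h1, h2]
      have h3 : ((0 : Cell K)).F ∪ ((0 : Cell K)).F = ∅ := Finset.union_empty _
      rw [h3]
      rfl) with hr
  have hrs : ∀ c, (r c).s = if c ∈ p.support then (p c).s else (q c).s := fun c => by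
    rw [hr, Finsupp.onFinset_apply]
  have hrF : ∀ c, (r c).F = (p c).F ∪ (q c).F := fun c => by
    rw [hr, Finsupp.onFinset_apply]
  refine ⟨r, fun d => ?_, fun d => ?_⟩
  · by_cases hd : d ∈ p.support
    · refine pcc2_same ?_ ?_
      · rw [hrs, if_pos hd]
      · rw [hrF]
        exact Finset.subset_union_left
    · exact pcc2_triv (Finsupp.notMem_support_iff.1 hd)
  · by_cases hd : d ∈ q.support
    · refine pcc2_same ?_ ?_
      · rw [hrs]
        by_cases hp : d ∈ p.support
        · rw [if_pos hp]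
          exact h d hp hd
        · rw [if_neg hp]
      · rw [hrF]
        exact Finset.subset_union_right
    · exact pcc2_triv (Finsupp.notMem_support_iff.1 hd)

theorem pcc2_countable (Q : Set (Cond L K))
    (hQ : Q.Pairwise (fun p q => ¬ ∃ r, leP D r p ∧ leP D r q)) : Q.Countable := by
  by_contra hn
  have h1 : ¬ Countable Q := fun h => hn (Set.countable_coe_iff.1 h)
  obtain ⟨i, j, hij, h⟩ := delta h1 (fun p : Q => p.1.support) (fun p c => (p.1 c).s)
  exact hQ i.2 j.2 (fun h2 => hij (Subtype.ext h2)) (compat_of_stems h)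

theorem ccc (he : DE D e) : CCC B := by
  classical
  intro S
  obtain ⟨Q, hQ⟩ := zorn_subset {Q : Set (Cond L K) |
      Q.Pairwise (fun p q => ¬ ∃ r, leP D r p ∧ leP D r q) ∧ ∀ p ∈ Q, ∃ b ∈ S, e p ≤ b} (by
    intro c hc hch
    refine ⟨⋃₀ c, ⟨?_, ?_⟩, fun s hs => Set.subset_sUnion_of_mem hs⟩
    · rw [Set.pairwise_sUnion hch.directedOn]
      exact fun a ha => (hc ha).1
    · rintro p ⟨a, ha, hp⟩
      exact (hc ha).2 p hp)
  have hQ1 : Q.Pairwise (fun p q => ¬ ∃ r, leP D r p ∧ leP D r q) := hQ.prop.1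
  have hQ2 : ∀ p ∈ Q, ∃ b ∈ S, e p ≤ b := hQ.prop.2
  choose! β hβS hβ using hQ2
  refine ⟨β '' Q, ?_, (pcc2_countable Q hQ1).image β, ?_⟩
  · rintro b ⟨p, hp, rfl⟩
    exact hβS p hp
  · apply le_antisymm
    · refine sSup_le ?_
      rintro b ⟨p, hp, rfl⟩
      exact le_sSup (hβS p hp)
    · refine sSup_le fun b hb => ?_
      refine he.le_of_dense fun p hp => ?_
      by_cases hc : ∃ q ∈ Q, ∃ r, leP D r p ∧ leP D r q
      · obtain ⟨q, hq, r, hr1, hr2⟩ := hc
        exact ⟨r, hr1, (he.mono r q hr2).trans ((hβ q hq).trans (le_sSup ⟨q, hq, rfl⟩))⟩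
      · exfalso
        have hpQ : p ∉ Q := fun h => hc ⟨p, h, p, leP_refl D p, leP_refl D p⟩
        have h1 : insert p Q ∈ {Q : Set (Cond L K) |
            Q.Pairwise (fun p q => ¬ ∃ r, leP D r p ∧ leP D r q) ∧ ∀ p ∈ Q, ∃ b ∈ S, e p ≤ b} := by
          refine ⟨?_, ?_⟩
          · rw [Set.pairwise_insert]
            refine ⟨hQ1, fun q hq _ => ⟨fun h => hc ⟨q, hq, h⟩, ?_⟩⟩
            rintro ⟨r, h2, h3⟩
            exact hc ⟨q, hq, r, h3, h2⟩
          · intro q hq
            rcases hq with rfl | hq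
            · exact ⟨b, hb, hp⟩
            · exact ⟨β q, hβS q hq, hβ q hq⟩
        have h2 := hQ.le_of_ge h1 (Set.subset_insert p Q)
        exact hpQ (h2 (Set.mem_insert p Q))

end MAdd
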