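import Pool.Agent.H7.MAdd.PVAL

/-!
# PCNT: countable supports

`Sb_dense`: `b ∈ Sb J` nonzero, `e p ≤ b`, `e (res J p) ≤ b`; the support of `res J p` is a finite subset
of `J`, so it is below some `d ∈ J` (`J` without largest element, or empty: then use `hne`).
`Sb_cases`: the reals `x n` are suprema of countably many `e p`, `p` supported on `J` (see
`nval_surj`), so there is a countable set `T ⊆ J` of coordinates with `x n ∈ Sb` of any lower set
containing `T`.  If `T ⊆ Iio d` for some `d ∈ J` the first case holds; otherwise `T` is cofinal in `J`;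
enumerate `T` as `t 0, t 1, ...` and put `c k` = maximum of `t 0, ..., t k`.
`Sb_bdd`: the case `J = univ` with `Ok.bdd` (`T` countable has cardinality `≤ 𝔠`), together with `δ`.
-/

set_option autoImplicit false

open BV

namespace MAdd

variable {L K : Type} [LinearOrder L] [WellFoundedLT L] {D : Dat L K}
  {B : Type} [CompleteBooleanAlgebra B] {e : Cond L K → B}

omit [WellFoundedLT L] in
theorem pcnt_bound {J : Set L} (hne : J.Nonempty) (hmax : ∀ d ∈ J, ∃ d' ∈ J, d < d')
    (T : Finset L) (hT : ∀ t ∈ T, t ∈ J) : ∃ d ∈ J, ∀ t ∈ T, t < d := by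
  classical
  induction T using Finset.induction_on with
  | empty =>
    obtain ⟨d, hd⟩ := hne
    exact ⟨d, hd, fun t ht => absurd ht (Finset.notMem_empty t)⟩
  | insert a T ha ih =>
    obtain ⟨d, hd, hdT⟩ := ih (fun t ht => hT t (Finset.mem_insert_of_mem ht))
    obtain ⟨d', hd', had'⟩ := hmax a (hT a (Finset.mem_insert_self a T))
    refine ⟨max d d', ?_, fun t ht => ?_⟩
    · rcases max_choice d d' with h | h
      · rw [h]; exact hd
      · rw [h]; exact hd'
    · rcases Finset.mem_insert.1 ht with h | h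
      · rw [h]
        exact lt_of_lt_of_le had' (le_max_right _ _)
      · exact lt_of_lt_of_le (hdT t h) (le_max_left _ _)

theorem pcnt_res {I : Set L} {q : Cond L K} (h : ∀ c ∈ q.support, c ∈ I) : res I q = q := by
  refine Finsupp.ext fun c => ?_
  by_cases hc : c ∈ I
  · exact res_apply_of_mem hc q
  · rw [res_apply_of_notMem hc]
    by_contra hne
    exact hc (h c (Finsupp.mem_support_iff.2 (fun h0 => hne h0.symm)))

theorem pcnt_supp_res {J : Set L} {q : Cond L K} (h : res J q = q) :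
    ∀ c ∈ q.support, c ∈ J := by
  intro c hc
  by_contra hcJ
  apply Finsupp.mem_support_iff.1 hc
  rw [← h]
  exact res_apply_of_notMem hcJ q

theorem pcnt_one (he : DE D e) {J : Set L} (hJ : IsLowerSet J) {b : B}
    (hb : b ∈ Sb he J hJ) : ∃ T : Set L, T.Countable ∧ T ⊆ J ∧
      ∀ (I : Set L) (hI : IsLowerSet I), T ⊆ I → b ∈ Sb he I hI := by
  let S : Set B := {a | ∃ p, res J p = p ∧ e p = a ∧ e p ≤ b}
  have hS : sSup S = b := by
    apply le_antisymm
    · refine sSup_le ?_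
      rintro a ⟨p, -, rfl, hp⟩
      exact hp
    · refine he.le_of_dense fun p hp => ⟨p, leP_refl D p, ?_⟩
      have h1 : e (res J p) ≤ b := (mem_Sb he).1 hb p hp
      refine (he.mono _ _ (leP_res D J p)).trans (le_sSup ?_)
      exact ⟨res J p, by rw [res_res, Set.inter_self], rfl, h1⟩
  obtain ⟨T', hT's, hT'c, hT'⟩ := ccc he S
  have hex : ∀ a : T', ∃ p, res J p = p ∧ e p = (a : B) := by
    intro a
    obtain ⟨p, h1, h2, -⟩ := hT's a.2
    exact ⟨p, h1, h2⟩
  choose P hP hPe using hex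
  have hcount : Countable T' := hT'c.to_subtype
  refine ⟨⋃ a : T', ((P a).support : Set L), ?_, ?_, ?_⟩
  · exact Set.countable_iUnion fun a => (P a).support.countable_toSet
  · refine Set.iUnion_subset fun a c hc => ?_
    exact pcnt_supp_res (hP a) c hc
  · intro I hI hTI
    rw [← hS, ← hT']
    refine (Sb he I hI).sSup_mem fun a ha => ?_
    have h1 := hPe ⟨a, ha⟩
    simp only at h1
    rw [← h1]
    refine e_mem he hI (pcnt_res fun c hc => hTI ?_)
    exact Set.mem_iUnion.2 ⟨⟨a, ha⟩, hc⟩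

theorem pcnt_all (he : DE D e) {J : Set L} (hJ : IsLowerSet J) {x : ℕ → B}
    (hx : InR (Sb he J hJ) x) : ∃ T : Set L, T.Countable ∧ T ⊆ J ∧
      ∀ (I : Set L) (hI : IsLowerSet I), T ⊆ I → InR (Sb he I hI) x := by
  choose T hTc hTJ hT using fun n => pcnt_one he hJ (hx n)
  refine ⟨⋃ n, T n, Set.countable_iUnion hTc, Set.iUnion_subset hTJ, fun I hI hTI n => ?_⟩
  exact hT n I hI ((Set.subset_iUnion T n).trans hTI)

theorem Sb_dense (he : DE D e) {J : Set L} (hJ : IsLowerSet J) (hne : J.Nonempty)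
    (hmax : ∀ d ∈ J, ∃ d' ∈ J, d < d') {b : B} (hb : b ∈ Sb he J hJ) (h0 : b ≠ ⊥) :
    ∃ d ∈ J, ∃ a ∈ Sb he (Set.Iio d) (isLowerSet_Iio d), a ≠ ⊥ ∧ a ≤ b := by
  obtain ⟨p, hp⟩ := he.dense b h0
  have h1 : e (res J p) ≤ b := (mem_Sb he).1 hb p hp
  have h2 : res J (res J p) = res J p := by rw [res_res, Set.inter_self]
  obtain ⟨d, hd, hdT⟩ := pcnt_bound hne hmax (res J p).support (pcnt_supp_res h2)
  exact ⟨d, hd, e (res J p), e_mem he _ (pcnt_res fun c hc => hdT c hc), he.ne_bot _, h1⟩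

theorem Sb_cases (he : DE D e) {J : Set L} (hJ : IsLowerSet J) (hne : J.Nonempty)
    (hmax : ∀ d ∈ J, ∃ d' ∈ J, d < d') {x : ℕ → B} (hx : InR (Sb he J hJ) x) :
    (∃ d ∈ J, InR (Sb he (Set.Iio d) (isLowerSet_Iio d)) x) ∨
      ∃ c : ℕ → L, Monotone c ∧ (∀ k, c k ∈ J) ∧ ∀ d ∈ J, ∃ k, d < c k := by
  obtain ⟨T, hTc, hTJ, hT⟩ := pcnt_all he hJ hx
  by_cases h : ∃ d ∈ J, T ⊆ Set.Iio d
  · obtain ⟨d, hd, hTd⟩ := h
    exact Or.inl ⟨d, hd, hT _ _ hTd⟩
  · right
    push Not at h
    have h1 : ∀ d ∈ J, ∃ t ∈ T, d ≤ t := by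
      intro d hd
      obtain ⟨t, ht, hdt⟩ := Set.not_subset.1 (h d hd)
      exact ⟨t, ht, not_lt.1 hdt⟩
    have hTne : T.Nonempty := by
      obtain ⟨d, hd⟩ := hne
      obtain ⟨t, ht, -⟩ := h1 d hd
      exact ⟨t, ht⟩
    obtain ⟨t, rfl⟩ := hTc.exists_eq_range hTne
    refine ⟨fun k => partialSups t k, (partialSups t).monotone, fun k => ?_, fun d hd => ?_⟩
    · induction k with
      | zero =>
        change partialSups t 0 ∈ J
        rw [partialSups_zero]
        exact hTJ ⟨0, rfl⟩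
      | succ k ih =>
        change partialSups t (k + 1) ∈ J
        rw [partialSups_add_one]
        rcases le_total (partialSups t k) (t (k + 1)) with h2 | h2
        · rw [sup_eq_right.2 h2]
          exact hTJ ⟨k + 1, rfl⟩
        · rw [sup_eq_left.2 h2]
          exact ih
    · obtain ⟨d', hd', hdd'⟩ := hmax d hd
      obtain ⟨_, ⟨i, rfl⟩, hi⟩ := h1 d' hd'
      exact ⟨i, hdd'.trans_le (hi.trans (le_partialSups t i))⟩

theorem Sb_bdd (hD : Ok D) (he : DE D e) (x : ℕ → B) (δ : L) :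
    ∃ d, δ ≤ d ∧ InR (Sb he (Set.Iio d) (isLowerSet_Iio d)) x := by
  obtain ⟨T, hTc, -, hT⟩ := pcnt_all he (J := Set.univ) isLowerSet_univ (x := x)
    (fun n => mem_Sb_univ he isLowerSet_univ (x n))
  have h1 : (insert δ T).Countable := hTc.insert δ
  obtain ⟨d, hd⟩ := hD.bdd (insert δ T)
    ((Cardinal.mk_le_aleph0_iff.2 h1.to_subtype).trans Cardinal.aleph0_le_continuum)
  exact ⟨d, (hd δ (Set.mem_insert _ _)).le, hT _ _ fun t ht => hd t (Set.mem_insert_of_mem _ ht)⟩

end MAdd
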