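import Pool.Agent.H7.MAdd.PVAL

/-!
# PCRD: cardinality of the stages

`card_Sb`: every element of `Sb (Iio c)` is a supremum of countably many `e p`, `res (Iio c) p = p`; so
there are at most `𝔠 ^ ℵ₀ = 𝔠` of them (`Ok.small`).  `card_InF`: `(ℕ → ℕ → ..)`: again `𝔠 ^ ℵ₀`.
-/

set_option autoImplicit false

open BV

namespace MAdd

variable {L K : Type} [LinearOrder L] [WellFoundedLT L] {D : Dat L K}
  {B : Type} [CompleteBooleanAlgebra B] {e : Cond L K → B}

theorem PCRD_arrow {α : Type} (h : Cardinal.mk α ≤ Cardinal.continuum) :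
    Cardinal.mk (ℕ → α) ≤ Cardinal.continuum := by
  rw [← Cardinal.power_def, Cardinal.mk_nat]
  exact (Cardinal.power_le_power_right h).trans (le_of_eq Cardinal.continuum_power_aleph0)

theorem PCRD_option {α : Type} (h : Cardinal.mk α ≤ Cardinal.continuum) :
    Cardinal.mk (Option α) ≤ Cardinal.continuum := by
  rw [Cardinal.mk_option]
  exact (add_le_add h le_rfl).trans (le_of_eq (Cardinal.add_one_eq Cardinal.aleph0_le_continuum))

/-- the real with a given sequence of names -/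
noncomputable def PCRD_F (e : Cond L K → B) (c : L)
    (ρ : ℕ → ℕ → Option {p : Cond L K | res (Set.Iio c) p = p}) : ℕ → B :=
  nval e c (fun n m => (ρ n m).map Subtype.val)

theorem PCRD_surj (he : DE D e) (c : L) {x : ℕ → B}
    (hx : InR (Sb he (Set.Iio c) (isLowerSet_Iio c)) x) : ∃ ρ, PCRD_F e c ρ = x := by
  classical
  obtain ⟨r, hr, h⟩ := nval_surj he c hx
  refine ⟨fun n m => (r n m).pmap (fun a h => ⟨a, h⟩) (fun a ha => hr n m a ha), ?_⟩
  rw [← h]
  unfold PCRD_F
  congr 1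
  funext n m
  rw [Option.map_pmap]
  simp

theorem PCRD_card (hD : Ok D) (c : L) :
    Cardinal.mk (ℕ → ℕ → Option {p : Cond L K | res (Set.Iio c) p = p}) ≤ Cardinal.continuum :=
  PCRD_arrow (PCRD_arrow (PCRD_option (hD.small c)))

theorem card_Sb (hD : Ok D) (he : DE D e) (c : L) :
    Cardinal.mk {b : B | b ∈ Sb he (Set.Iio c) (isLowerSet_Iio c)} ≤ Cardinal.continuum := by
  have h1 : {b : B | b ∈ Sb he (Set.Iio c) (isLowerSet_Iio c)} ⊆
      Set.range (fun ρ => PCRD_F e c ρ 0) := by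
    intro b hb
    obtain ⟨ρ, hρ⟩ := PCRD_surj he c (x := fun _ => b) (fun _ => hb)
    exact ⟨ρ, by simp only [hρ]⟩
  exact (Cardinal.mk_le_mk_of_subset h1).trans (Cardinal.mk_range_le.trans (PCRD_card hD c))

theorem card_InF (hD : Ok D) (he : DE D e) (c : L) :
    Cardinal.mk {f : ℕ → ℕ → B | InF (Sb he (Set.Iio c) (isLowerSet_Iio c)) f} ≤
      Cardinal.continuum := by
  have h1 : {f : ℕ → ℕ → B | InF (Sb he (Set.Iio c) (isLowerSet_Iio c)) f} ⊆
      Set.range (fun ρ => fun i v => PCRD_F e c ρ (Nat.pair i v)) := by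
    intro f hf
    obtain ⟨ρ, hρ⟩ := PCRD_surj he c (x := fun k => f (Nat.unpair k).1 (Nat.unpair k).2)
      (fun k => hf _ _)
    refine ⟨ρ, ?_⟩
    funext i v
    simp only [hρ, Nat.unpair_pair]
  exact (Cardinal.mk_le_mk_of_subset h1).trans (Cardinal.mk_range_le.trans (PCRD_card hD c))

end MAdd
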