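import Pool.Agent.H7.MAdd.PDC

/-!
# PDAT: existence of good data

`L = (Order.succ 𝔠).ord.ToType`, `K = Set ℕ` (cardinality `𝔠`).
* `bdd`: regularity of `succ 𝔠` (`Cardinal.isRegular_succ`); a set of cardinality `≤ 𝔠` is bounded
  (`Ordinal`/`Cardinal` cofinality lemmas; or: the union of the initial segments `Iic t` has cardinality
  `≤ 𝔠 * 𝔠 = 𝔠 < #L`).
* names: `ℕ → ℕ → Option {p // res (Iio c) p = p}` has cardinality `≤ 𝔠 ^ ℵ₀ = 𝔠`
  (`Cardinal.continuum_power_aleph0`), so there is `ν c` from `K` onto the names of stage `c`.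
* `fb`: the set of pairs `(c, i)`, `c : L`, `i : K`, has cardinality `#L`; choose a bijection (or
  surjection) `g : L → L × K × L`; let `fb d = ν (g d).1 (g d).2.1`.  For `(c, i)` the set of `d` with
  `(g d).1 = c`, `(g d).2.1 = i` has cardinality `#L`, so it is not contained in `Iio c` (of cardinality
  `≤ 𝔠 < #L`).
-/

set_option autoImplicit false

open BV

namespace MAdd

open Cardinal in
theorem pdat_bdd {L : Type} [LinearOrder L] (hL : #L = Order.succ 𝔠)
    (hI : ∀ c : L, #(Set.Iio c) ≤ 𝔠) (T : Set L) (hT : #T ≤ 𝔠) : ∃ d, ∀ t ∈ T, t < d := by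
  by_contra hcon
  push Not at hcon
  have hIic : ∀ c : L, #(Set.Iic c) ≤ 𝔠 := by
    intro c
    have h1 : Set.Iic c = insert c (Set.Iio c) := by
      ext x
      simp [le_iff_eq_or_lt]
    rw [h1]
    refine (Cardinal.mk_insert_le).trans ?_
    calc #(Set.Iio c) + 1 ≤ 𝔠 + 1 := by gcongr; exact hI c
      _ = 𝔠 := Cardinal.add_one_eq Cardinal.aleph0_le_continuum
  have huniv : (Set.univ : Set L) = ⋃ t ∈ T, Set.Iic t := by
    ext d
    simp only [Set.mem_univ, Set.mem_iUnion, Set.mem_Iic, true_iff]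
    obtain ⟨t, ht, htd⟩ := hcon d
    exact ⟨t, ht, htd⟩
  have h2 : #L ≤ 𝔠 := by
    rw [← Cardinal.mk_univ, huniv]
    refine (Cardinal.mk_biUnion_le _ _).trans ?_
    calc #T * ⨆ x : T, #(Set.Iic (x : L)) ≤ 𝔠 * 𝔠 := by
          gcongr
          exact ciSup_le' (fun x => hIic x)
      _ = 𝔠 := Cardinal.continuum_mul_self
  rw [hL] at h2
  exact absurd (Order.lt_succ 𝔠) (not_lt.2 h2)

open Cardinal in
theorem pdat_names {C : Type} (P : Set C) (hP : #P ≤ 𝔠) :
    #{r : ℕ → ℕ → Option C | ∀ n m a, r n m = some a → a ∈ P} ≤ 𝔠 := by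
  classical
  let F : {r : ℕ → ℕ → Option C | ∀ n m a, r n m = some a → a ∈ P} → (ℕ → ℕ → Option P) :=
    fun r n m => match h : r.1 n m with
      | none => none
      | some a => some ⟨a, r.2 n m a h⟩
  have hF : ∀ r n m, (F r n m).map Subtype.val = r.1 n m := by
    intro r n m
    simp only [F]
    split
    · next h => exact h.symm
    · next a h => exact h.symm
  have hinj : Function.Injective F := by
    intro r r' h
    apply Subtype.ext
    funext n m
    rw [← hF r n m, ← hF r' n m, h]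
  refine (Cardinal.mk_le_of_injective hinj).trans ?_
  have h1 : #(Option P) ≤ 𝔠 := by
    rw [Cardinal.mk_option]
    calc #P + 1 ≤ 𝔠 + 1 := by gcongr
      _ = 𝔠 := Cardinal.add_one_eq Cardinal.aleph0_le_continuum
  have h2 : #(ℕ → ℕ → Option P) = (#(Option P) ^ ℵ₀) ^ ℵ₀ := by
    rw [← Cardinal.mk_nat, Cardinal.power_def, Cardinal.power_def]
  rw [h2]
  calc (#(Option P) ^ ℵ₀) ^ ℵ₀ ≤ (𝔠 ^ ℵ₀) ^ ℵ₀ :=
        Cardinal.power_le_power_right (Cardinal.power_le_power_right h1)
    _ = 𝔠 := by rw [Cardinal.continuum_power_aleph0, Cardinal.continuum_power_aleph0]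

open Cardinal in
theorem pdat_surj {X K : Type} [Inhabited X] (N : Set X) (hN : #N ≤ 𝔠) (hK : #K = 𝔠) :
    ∃ g : K → X, ∀ r ∈ N, ∃ i, g i = r := by
  rw [← hK] at hN
  obtain ⟨f⟩ := hN
  refine ⟨Function.extend f Subtype.val (fun _ => default), fun r hr => ⟨f ⟨r, hr⟩, ?_⟩⟩
  exact f.injective.extend_apply _ _ _

open Cardinal in
theorem exists_dat : ∃ (L K : Type) (_ : LinearOrder L) (_ : WellFoundedLT L) (D : Dat L K),
    Ok D := by
  classical
  let L : Type := (Order.succ 𝔠).ord.ToType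
  let K : Type := Set ℕ
  let iL : LinearOrder L := inferInstanceAs (LinearOrder ((Order.succ 𝔠).ord.ToType))
  let iW : WellFoundedLT L := inferInstanceAs (WellFoundedLT ((Order.succ 𝔠).ord.ToType))
  have hL : #L = Order.succ 𝔠 := Cardinal.mk_ord_toType _
  have hK : #K = 𝔠 := Cardinal.mk_set_nat
  have hI : ∀ c : L, #(Set.Iio c) ≤ 𝔠 := fun c =>
    Order.lt_succ_iff.1 (Cardinal.mk_Iio_toType_ord_lt c)
  have hbdd := pdat_bdd hL hI
  have hsmall : ∀ c : L, #{p : Cond L K | res (Set.Iio c) p = p} ≤ 𝔠 := fun c =>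
    card_cond hK.le c (hI c)
  have hne : Nonempty L := by
    rw [← Cardinal.mk_ne_zero_iff, hL]
    exact (Order.bot_lt_succ (𝔠 : Cardinal.{0})).ne'
  have hinf : ℵ₀ ≤ #L := by
    rw [hL]
    exact Cardinal.aleph0_le_continuum.trans (Order.le_succ _)
  -- the names
  have hν : ∀ c : L, ∃ g : K → Nm L K,
      ∀ r ∈ {r : Nm L K | ∀ n m a, r n m = some a → a ∈ {p : Cond L K | res (Set.Iio c) p = p}},
        ∃ i, g i = r := by
    intro c
    have : Inhabited (Nm L K) := ⟨fun _ _ => none⟩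
    exact pdat_surj _ (pdat_names _ (hsmall c)) hK
  choose ν hν using hν
  -- the bookkeeping
  have hKL : #K ≤ #L := by rw [hK, hL]; exact Order.le_succ _
  have hcard : #L = #(L × K × L) := by
    have hKne : #K ≠ 0 := by rw [hK]; exact Cardinal.continuum_ne_zero
    have hLne : #L ≠ 0 := Cardinal.mk_ne_zero_iff.2 hne
    have h1 : #(K × L) = #L := by
      rw [Cardinal.mk_prod, Cardinal.lift_id, Cardinal.lift_id]
      exact Cardinal.mul_eq_right hinf hKL hKne
    rw [Cardinal.mk_prod, Cardinal.lift_id, Cardinal.lift_id, h1]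
    exact (Cardinal.mul_eq_self hinf).symm
  obtain ⟨g⟩ := Cardinal.eq.1 hcard
  let D : Dat L K := ⟨ν, fun d => ν (g d).1 (g d).2.1⟩
  refine ⟨L, K, iL, iW, D, ⟨hne, ?_, ?_, ?_, ?_, hsmall⟩⟩
  · intro c
    obtain ⟨d, hd⟩ := hbdd {c} (by
      rw [Cardinal.mk_singleton]
      exact Cardinal.one_le_aleph0.trans Cardinal.aleph0_le_continuum)
    exact ⟨d, hd c rfl⟩
  · intro c r hr
    exact hν c r hr
  · intro c r hr
    obtain ⟨i, hi⟩ := hν c r hr
    by_contra hcon
    push Not at hcon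
    have h1 : ∀ x : L, g.symm (c, i, x) < c := by
      intro x
      by_contra h
      refine hcon (g.symm (c, i, x)) (not_lt.1 h) ?_
      show ν (g (g.symm (c, i, x))).1 (g (g.symm (c, i, x))).2.1 = r
      rw [Equiv.apply_symm_apply]
      exact hi
    have h2 : #L ≤ #(Set.Iio c) := by
      refine Cardinal.mk_le_of_injective (f := fun x => ⟨g.symm (c, i, x), h1 x⟩) ?_
      intro x y hxy
      have h3 := g.symm.injective (Subtype.ext_iff.1 hxy)
      simpa using h3
    have h3 := h2.trans (hI c)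
    rw [hL] at h3
    exact absurd (Order.lt_succ 𝔠) (not_lt.2 h3)
  · intro T hT
    exact hbdd T hT

end MAdd
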