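import Pool.Agent.H7.MAdd.PDef

/-!
# PDC: the number of conditions supported below a coordinate

* `card_cond`: conditions supported below `c`: finitely supported functions on a set of cardinality
  `≤ 𝔠` with values in `Cell K`, of cardinality `𝔠`: inject `p` into `Finset (Iio c × Cell K)` (graph), or
  into lists (`Cardinal.mk_list_le_max`, `Cardinal.mk_finset_of_infinite`).
-/

set_option autoImplicit false

open BV

namespace MAdd

theorem pdc_list {α : Type} (h : Cardinal.mk α ≤ Cardinal.continuum) :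
    Cardinal.mk (List α) ≤ Cardinal.continuum :=
  (Cardinal.mk_list_le_max α).trans (max_le Cardinal.aleph0_le_continuum h)

theorem pdc_finset {α : Type} (h : Cardinal.mk α ≤ Cardinal.continuum) :
    Cardinal.mk (Finset α) ≤ Cardinal.continuum :=
  (Cardinal.mk_le_of_injective (f := fun s : Finset α => s.toList) (fun s t hst => by
    ext x
    rw [← Finset.mem_toList, ← Finset.mem_toList]
    exact iff_of_eq (congrArg (fun l => x ∈ l) hst))).trans (pdc_list h)

theorem pdc_cell {K : Type} (hK : Cardinal.mk K ≤ Cardinal.continuum) :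
    Cardinal.mk (Cell K) ≤ Cardinal.continuum := by
  refine (Cardinal.mk_le_of_injective (f := fun x : Cell K => (x.s, x.F)) ?_).trans ?_
  · rintro ⟨s, F⟩ ⟨s', F'⟩ h
    simp only [Prod.mk.injEq] at h
    rw [h.1, h.2]
  · rw [Cardinal.mk_prod, Cardinal.lift_id, Cardinal.lift_id]
    refine (mul_le_mul' (b := Cardinal.continuum) (d := Cardinal.continuum) ?_
      (pdc_finset hK)).trans Cardinal.continuum_mul_self.le
    exact (Cardinal.mk_le_aleph0).trans Cardinal.aleph0_le_continuum

theorem card_cond {L K : Type} [LinearOrder L] [WellFoundedLT L]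
    (hK : Cardinal.mk K ≤ Cardinal.continuum) (c : L)
    (hc : Cardinal.mk (Set.Iio c) ≤ Cardinal.continuum) :
    Cardinal.mk {p : Cond L K | res (Set.Iio c) p = p} ≤ Cardinal.continuum := by
  classical
  have hres : ∀ (p : Cond L K) (d : L), ¬ d < c → res (Set.Iio c) p d = 0 := by
    intro p d hcon
    unfold res
    rw [Finsupp.filter_apply]
    exact if_neg hcon
  have hsup : ∀ p : {p : Cond L K | res (Set.Iio c) p = p}, ∀ d ∈ p.1.support, d < c := by
    intro p d hd
    rw [Finsupp.mem_support_iff] at hd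
    by_contra hcon
    apply hd
    have h1 := hres p.1 d hcon
    rwa [show res (Set.Iio c) p.1 = p.1 from p.2] at h1
  have hcard : Cardinal.mk (Set.Iio c × Cell K) ≤ Cardinal.continuum := by
    rw [Cardinal.mk_prod, Cardinal.lift_id, Cardinal.lift_id]
    exact (mul_le_mul' hc (pdc_cell hK)).trans Cardinal.continuum_mul_self.le
  refine (Cardinal.mk_le_of_injective (f := fun p : {p : Cond L K | res (Set.Iio c) p = p} =>
    (p.1.support.attach.image (fun d => ((⟨d.1, hsup p d.1 d.2⟩ : Set.Iio c), p.1 d.1)) :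
      Finset (Set.Iio c × Cell K))) ?_).trans (pdc_finset hcard)
  intro p q hpq
  have hmem : ∀ (p : {p : Cond L K | res (Set.Iio c) p = p}) (d : L) (hd : d < c) (x : Cell K),
      ((⟨d, hd⟩ : Set.Iio c), x) ∈ (p.1.support.attach.image
        (fun d => ((⟨d.1, hsup p d.1 d.2⟩ : Set.Iio c), p.1 d.1)) :
        Finset (Set.Iio c × Cell K)) ↔ d ∈ p.1.support ∧ p.1 d = x := by
    intro p d hd x
    rw [Finset.mem_image]
    constructor
    · rintro ⟨y, -, hy⟩
      rw [Prod.mk.injEq] at hy
      have h1 : y.1 = d := congrArg Subtype.val hy.1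
      rw [← h1]
      exact ⟨y.2, hy.2⟩
    · rintro ⟨h1, h2⟩
      exact ⟨⟨d, h1⟩, Finset.mem_attach _ _, by rw [h2]⟩
  have h3 : ∀ (d : L) (hd : d < c) (x : Cell K),
      (d ∈ p.1.support ∧ p.1 d = x) ↔ (d ∈ q.1.support ∧ q.1 d = x) := by
    intro d hd x
    rw [← hmem p d hd x, ← hmem q d hd x]
    exact iff_of_eq (congrArg (fun S => ((⟨d, hd⟩ : Set.Iio c), x) ∈ S) hpq)
  apply Subtype.ext
  refine Finsupp.ext fun d => ?_
  by_cases hd : d ∈ p.1.support
  · exact ((h3 d (hsup p d hd) (p.1 d)).1 ⟨hd, rfl⟩).2.symm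
  · by_cases hd' : d ∈ q.1.support
    · exact ((h3 d (hsup q d hd') (q.1 d)).2 ⟨hd', rfl⟩).2
    · rw [Finsupp.notMem_support_iff.1 hd, Finsupp.notMem_support_iff.1 hd']

end MAdd
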