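import Pool.Agent.H7.MAdd.Defs

/-!
# PDef: the finite support iteration

`L` is a well-order (the coordinates), `K` a type of indices for names of reals.  A condition is a
finitely supported function `p : L → Cell K`; `(p c).s` is a stem (a finite list of blocks, each block
a finite 0-1 sequence), `(p c).F` a finite set of indices of reals of stage `c` (the part of the forcing
below `c`).  `ν c i` is the name with index `i` at stage `c`; `fb c` is a name of (a code of) a function
at stage `c`.  A name is `r : ℕ → ℕ → Option (Cond L K)`: the real `{n | ∃ m, r n m ∈ G}`, always read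
below `c`.

`q ≤ p` iff for all `c` the stem of `q c` is the stem of `p c` followed by a list `u` of blocks, the set
grows, and for every `i` in `(p c).F` it is forced (by `q` below `c`) that every block of `u` captures the
real `ν c i`: a block `t` which occupies the positions `[a, a + t.length)` captures the real `r` if there
are `a ≤ w < v ≤ a + t.length`, `f w ≤ v`, such that `r` agrees with `t` on `[w, v)`; here `f` is the
function coded by `fb c`, `f w = max (w + 1) (least v such that pair w v is in the real fb c)`
(`w + 1` if there is none).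
-/

set_option autoImplicit false

open BV

namespace MAdd

structure Cell (K : Type) where
  s : List (List Bool)
  F : Finset K

instance (K : Type) : Zero (Cell K) := ⟨⟨[], ∅⟩⟩

/-- conditions -/
abbrev Cond (L K : Type) := L →₀ Cell K

/-- names of reals -/
abbrev Nm (L K : Type) := ℕ → ℕ → Option (Cond L K)

/-- number of positions occupied by a stem -/
def len (s : List (List Bool)) : ℕ := s.flatten.length

section Decide

variable {C : Type} (le : C → C → Prop)

/-- `p` decides `n ∈ r` (directly) -/
def decR (r : ℕ → ℕ → Option C) (p : C) (n : ℕ) : Bool → Prop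
  | true => ∃ m a, r n m = some a ∧ le p a
  | false => ∀ m a, r n m = some a → ¬ ∃ q, le q p ∧ le q a

/-- `p` decides (directly) that `f w ≤ v`, `f` the function coded by the real `r` -/
def decF (r : ℕ → ℕ → Option C) (p : C) (w v : ℕ) : Prop :=
  w < v ∧ ((∃ v', v' ≤ v ∧ decR le r p (Nat.pair w v') true) ∨
    ∀ v', decR le r p (Nat.pair w v') false)

/-- `p` decides that the block `t` at position `a` captures `r` -/
def goodB (f r : ℕ → ℕ → Option C) (p : C) (a : ℕ) (t : List Bool) : Prop :=
  ∃ w v, a ≤ w ∧ v ≤ a + t.length ∧ decF le f p w v ∧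
    ∀ n, w ≤ n → n < v → decR le r p n (t.getD (n - a) false)

/-- `p` decides that all blocks of `u`, put after the stem `s`, capture `r` -/
def good (f r : ℕ → ℕ → Option C) (p : C) (s u : List (List Bool)) : Prop :=
  ∀ u1 t u2, u = u1 ++ t :: u2 → goodB le f r p (len (s ++ u1)) t

/-- `p` forces that all blocks of `u`, put after the stem `s`, capture `r` -/
def frc (f r : ℕ → ℕ → Option C) (s u : List (List Bool)) (p : C) : Prop :=
  ∀ p1, le p1 p → ∃ p2, le p2 p1 ∧ good le f r p2 s u

end Decide

/-- the data of the iteration -/
structure Dat (L K : Type) where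
  ν : L → K → Nm L K
  fb : L → Nm L K

section Iter

variable {L K : Type} [LinearOrder L] [WellFoundedLT L]

/-- the order below `c`, given the forcing relations `W` below `c` -/
def leW (c : L) (W : (d : L) → d < c → K → List (List Bool) → List (List Bool) → Cond L K → Prop)
    (p q : Cond L K) : Prop :=
  ∀ (d : L) (hd : d < c), ∃ u, (p d).s = (q d).s ++ u ∧ (q d).F ⊆ (p d).F ∧
    ∀ i ∈ (q d).F, W d hd i (q d).s u p

/-- the forcing relations, by well-founded recursion -/
noncomputable def WW (D : Dat L K) :
    L → K → List (List Bool) → List (List Bool) → Cond L K → Prop :=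
  WellFounded.fix (wellFounded_lt (α := L))
    (fun c W i s u p => frc (leW c W) (D.fb c) (D.ν c i) s u p)

/-- the order below `c` -/
def leB (D : Dat L K) (c : L) (p q : Cond L K) : Prop :=
  ∀ d : L, d < c → ∃ u, (p d).s = (q d).s ++ u ∧ (q d).F ⊆ (p d).F ∧
    ∀ i ∈ (q d).F, WW D d i (q d).s u p

theorem WW_eq (D : Dat L K) (c : L) (i : K) (s u : List (List Bool)) (p : Cond L K) :
    WW D c i s u p ↔ frc (leB D c) (D.fb c) (D.ν c i) s u p := by
  rw [WW, WellFounded.fix_eq]
  rfl

/-- the order of the iteration -/
def leP (D : Dat L K) (p q : Cond L K) : Prop :=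
  ∀ d : L, ∃ u, (p d).s = (q d).s ++ u ∧ (q d).F ⊆ (p d).F ∧
    ∀ i ∈ (q d).F, WW D d i (q d).s u p

/-- the conditions, with the order of the iteration -/
def Cd (_ : Dat L K) : Type := Cond L K

/-- restriction of a condition to a set of coordinates -/
noncomputable def res (I : Set L) (p : Cond L K) : Cond L K := by
  classical
  exact p.filter (fun c => c ∈ I)

/-- the condition `q` on `I` and `p` outside -/
noncomputable def amal (I : Set L) (q p : Cond L K) : Cond L K := by
  classical
  exact Finsupp.onFinset (q.support ∪ p.support) (fun c => if c ∈ I then q c else p c) (by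
    intro c hc
    rw [Finset.mem_union, Finsupp.mem_support_iff, Finsupp.mem_support_iff]
    by_cases h : c ∈ I
    · left
      simpa [h] using hc
    · right
      simpa [h] using hc)

/-- the condition `p` with the cell at `c` replaced by `x` -/
noncomputable def upd (p : Cond L K) (c : L) (x : Cell K) : Cond L K := by
  classical
  exact p.update c x

end Iter

/-! ## The forcing in a complete Boolean algebra -/

section Alg

variable {L K : Type} [LinearOrder L] [WellFoundedLT L] {B : Type} [CompleteBooleanAlgebra B]

/-- the real of `B` given by the name `r`, read below `c` -/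
noncomputable def nval (e : Cond L K → B) (c : L) (r : Nm L K) (n : ℕ) : B :=
  ⨆ m, ⨆ a, ⨆ (_ : r n m = some a), e (res (Set.Iio c) a)

/-- value of `f w ≤ v`, `f` the function coded by the real `x` -/
def cfun (x : ℕ → B) (w v : ℕ) : B :=
  if w < v then (⨆ v', ⨆ (_ : v' ≤ v), x (Nat.pair w v')) ⊔ (⨆ v', x (Nat.pair w v'))ᶜ else ⊥

/-- value of: the block `t` at position `a` captures `r` -/
def hit (f : ℕ → ℕ → B) (r : ℕ → B) (a : ℕ) (t : List Bool) : B :=
  ⨆ w, ⨆ v, ⨆ (_ : a ≤ w ∧ v ≤ a + t.length), f w v ⊓
    ⨅ n, ⨅ (_ : w ≤ n ∧ n < v), lit (t.getD (n - a) false) (r n)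

/-- value of: all blocks of `u`, put after the stem `s`, capture `r` -/
def hits (f : ℕ → ℕ → B) (r : ℕ → B) (s u : List (List Bool)) : B :=
  ⨅ u1, ⨅ t, ⨅ u2, ⨅ (_ : u = u1 ++ t :: u2), hit f r (len (s ++ u1)) t

/-- value of: `s` is an initial segment of the generic sequence of blocks at `c` -/
noncomputable def gn (e : Cond L K → B) (c : L) (s : List (List Bool)) : B :=
  e (upd 0 c ⟨s, ∅⟩)

/-- value of: all blocks of the generic sequence at `c` after `s` capture `r` -/
noncomputable def prm (e : Cond L K → B) (c : L) (f : ℕ → ℕ → B) (s : List (List Bool))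
    (r : ℕ → B) : B :=
  ⨅ u, gn e c (s ++ u) ⇨ hits f r s u

/-- the element of `B` given by the stem `s` and the `k` reals coded by `F` -/
noncomputable def bet (e : Cond L K → B) (c : L) (f : ℕ → ℕ → B) (s : List (List Bool)) (k : ℕ)
    (F : ℕ → B) : B :=
  gn e c s ⊓ ⨅ j, ⨅ (_ : j < k), prm e c f s (fun n => F (Nat.pair j n))

end Alg

/-- what is used about the data: `K` has enough indices for all names of stage `c`, every name of a
function of a stage is used at a later coordinate, initial segments are small and small sets are
bounded -/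
structure Ok {L K : Type} [LinearOrder L] [WellFoundedLT L] (D : Dat L K) : Prop where
  nonempty : Nonempty L
  nomax : ∀ c : L, ∃ d, c < d
  νsurj : ∀ (c : L) (r : Nm L K), (∀ n m a, r n m = some a → res (Set.Iio c) a = a) →
    ∃ i, D.ν c i = r
  fsurj : ∀ (c : L) (r : Nm L K), (∀ n m a, r n m = some a → res (Set.Iio c) a = a) →
    ∃ d, c ≤ d ∧ D.fb d = r
  bdd : ∀ T : Set L, Cardinal.mk T ≤ Cardinal.continuum → ∃ d, ∀ t ∈ T, t < d
  small : ∀ c : L, Cardinal.mk {p : Cond L K | res (Set.Iio c) p = p} ≤ Cardinal.continuum

end MAdd
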