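import Pool.Agent.H7.MAdd.PRES
import Pool.Agent.H7.MAdd.CSB
import Pool.Agent.H26.BV.Rop

/-!
# PEMB: the dense embedding, the complete subalgebras `Sb I`, the countable chain condition

`exists_de`: `exists_denseEmb` (`Rop.lean`) for the type `Cd D` with the preorder `leP D`.
General facts as in `Rop.lean` (`DenseEmb.exists_le_of_inf_ne_bot` etc.; you may transfer `DE` to
`DenseEmb`).
`e p ≤ b` fails iff some `q ≤ p` has `e q ≤ bᶜ` (`exists_le_compl`).

`Sb I`: the set of all `b` with `e p ≤ b → e (res I p) ≤ b` for all `p`.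
* closed under complements: let `e p ≤ bᶜ` and suppose `e (res I p) ≰ bᶜ`: there is `q ≤ res I p` with
  `e q ≤ b`, so `e (res I q) ≤ b`; `res I q ≤ res I p` (`res_mono`, `res_res`), so
  `r = amal I (res I q) p` is below `p` and `res I q`: `e r ≤ b ⊓ bᶜ = ⊥`.
* closed under suprema: let `e p ≤ sSup s`; if `e (res I p) ≰ sSup s` there is `q ≤ res I p` with
  `e q ≤ (sSup s)ᶜ`; `r = amal I (res I q) p ≤ p`, so there are `r' ≤ r` and `b ∈ s` with `e r' ≤ b`,
  hence `e (res I r') ≤ b`; `res I r' ≤ res I r = res I q`; `t = amal I (res I r') q` is below `q` and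
  below `res I r'`: `e t ≤ b ⊓ (sSup s)ᶜ = ⊥`.
`pr_e`: `e (res I p) ∈ Sb I` and it is the least element of `Sb I` above `e p`.
(The countable chain condition is in PCC2.)
-/

set_option autoImplicit false

open BV

namespace MAdd

variable {L K : Type} [LinearOrder L] [WellFoundedLT L] {D : Dat L K}
  {B : Type} [CompleteBooleanAlgebra B]

/-- `e` is a dense embedding of the iteration into `B` -/
structure DE (D : Dat L K) (e : Cond L K → B) : Prop where
  mono : ∀ p q, leP D p q → e p ≤ e q
  ne_bot : ∀ p, e p ≠ ⊥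
  dense : ∀ b : B, b ≠ ⊥ → ∃ p, e p ≤ b
  compat : ∀ p q, e p ⊓ e q ≠ ⊥ → ∃ r, leP D r p ∧ leP D r q

theorem exists_de (D : Dat L K) : ∃ (B : Type) (_ : CompleteBooleanAlgebra B) (e : Cond L K → B),
    DE D e := by
  let P : Preorder (Cond L K) :=
    { le := leP D
      le_refl := leP_refl D
      le_trans := fun p q r h1 h2 => leP_trans D p q r h1 h2 }
  obtain ⟨B, hB, e, he⟩ := @exists_denseEmb (Cond L K) P
  exact ⟨B, hB, e, fun p q h => he.mono p q h, he.ne_bot, he.dense, fun p q h => he.compat p q h⟩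

variable {e : Cond L K → B}

namespace DE

theorem exists_le_of_inf_ne_bot (he : DE D e) {p : Cond L K} {b : B} (h : e p ⊓ b ≠ ⊥) :
    ∃ q, leP D q p ∧ e q ≤ b := by
  obtain ⟨r, hr⟩ := he.dense _ h
  have h1 : e r ⊓ e p ≠ ⊥ := by
    rw [inf_eq_left.2 (hr.trans inf_le_left)]
    exact he.ne_bot r
  obtain ⟨q, hq1, hq2⟩ := he.compat r p h1
  exact ⟨q, hq2, (he.mono q r hq1).trans (hr.trans inf_le_right)⟩

theorem exists_le_of_le_iSup (he : DE D e) {p : Cond L K} {ι : Sort*} {f : ι → B}
    (h : e p ≤ ⨆ i, f i) : ∃ q, leP D q p ∧ ∃ i, e q ≤ f i := by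
  by_contra hcon
  push Not at hcon
  have h1 : ∀ i, e p ⊓ f i = ⊥ := by
    intro i
    by_contra hne
    obtain ⟨q, hq, hqi⟩ := he.exists_le_of_inf_ne_bot hne
    exact hcon q hq i hqi
  apply he.ne_bot p
  rw [← inf_eq_left.2 h, inf_iSup_eq]
  simp [h1]

theorem exists_le_compl (he : DE D e) {p : Cond L K} {b : B} (h : ¬ e p ≤ b) :
    ∃ q, leP D q p ∧ e q ≤ bᶜ := by
  refine he.exists_le_of_inf_ne_bot (fun h0 => h ?_)
  rw [← sdiff_eq, sdiff_eq_bot_iff] at h0
  exact h0

/-- to show `b ≤ b'` it is enough to find below every `p` with `e p ≤ b` a `q` with `e q ≤ b'` -/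
theorem le_of_dense (he : DE D e) {b b' : B} (h : ∀ p, e p ≤ b → ∃ q, leP D q p ∧ e q ≤ b') :
    b ≤ b' := by
  by_contra hcon
  have h0 : b ⊓ b'ᶜ ≠ ⊥ := by
    intro h0
    rw [← sdiff_eq, sdiff_eq_bot_iff] at h0
    exact hcon h0
  obtain ⟨p, hp⟩ := he.dense _ h0
  obtain ⟨q, hq, hqb⟩ := h p (hp.trans inf_le_left)
  apply he.ne_bot q
  rw [← le_bot_iff, ← inf_compl_eq_bot (a := b')]
  exact le_inf hqb ((he.mono q p hq).trans (hp.trans inf_le_right))

theorem e_zero (he : DE D e) : e 0 = ⊤ := by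
  rw [eq_top_iff]
  exact he.le_of_dense (fun p _ => ⟨p, leP_refl D p, he.mono p 0 (leP_zero D p)⟩)

end DE

theorem pemb_compl (he : DE D e) {I : Set L} (hI : IsLowerSet I) {b : B}
    (hb : ∀ p, e p ≤ b → e (res I p) ≤ b) (p : Cond L K) (hp : e p ≤ bᶜ) :
    e (res I p) ≤ bᶜ := by
  by_contra hcon
  obtain ⟨q, hq, hqb⟩ := he.exists_le_compl hcon
  rw [compl_compl] at hqb
  have h1 : e (res I q) ≤ b := hb q hqb
  have h2 : leP D (res I q) (res I p) := by
    have := res_mono D hI hq
    rwa [res_res, Set.inter_self] at this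
  have h3 : leP D (amal I (res I q) p) p := amal_le_right D hI h2
  have h4 : leP D (amal I (res I q) p) (res I q) :=
    amal_le_left D hI (by rw [res_res, Set.inter_self])
  apply he.ne_bot (amal I (res I q) p)
  rw [← le_bot_iff, ← inf_compl_eq_bot (a := b)]
  exact le_inf ((he.mono _ _ h4).trans h1) ((he.mono _ _ h3).trans hp)

theorem pemb_sSup (he : DE D e) {I : Set L} (hI : IsLowerSet I) {s : Set B}
    (hs : ∀ b ∈ s, ∀ p, e p ≤ b → e (res I p) ≤ b) (p : Cond L K) (hp : e p ≤ sSup s) :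
    e (res I p) ≤ sSup s := by
  by_contra hcon
  obtain ⟨q, hq, hqb⟩ := he.exists_le_compl hcon
  have h2 : leP D (res I q) (res I p) := by
    have := res_mono D hI hq
    rwa [res_res, Set.inter_self] at this
  have h3 : leP D (amal I (res I q) p) p := amal_le_right D hI h2
  obtain ⟨r', hr', ⟨b, hb⟩, hbr⟩ := he.exists_le_of_le_iSup (f := fun b : s => (b : B))
    (p := amal I (res I q) p) ((he.mono _ _ h3).trans (by rw [← sSup_eq_iSup']; exact hp))
  have h4 : e (res I r') ≤ b := hs b hb r' hbr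
  have hresq : res I (res I q) = res I q := by rw [res_res, Set.inter_self]
  have h5 : leP D (res I r') (res I q) := by
    have := res_mono D hI hr'
    rwa [res_amal hresq] at this
  have h6 : leP D (amal I (res I r') q) q := amal_le_right D hI h5
  have h7 : leP D (amal I (res I r') q) (res I r') :=
    amal_le_left D hI (by rw [res_res, Set.inter_self])
  apply he.ne_bot (amal I (res I r') q)
  rw [← le_bot_iff, ← inf_compl_eq_bot (a := sSup s)]
  exact le_inf (((he.mono _ _ h7).trans h4).trans (le_sSup hb)) ((he.mono _ _ h6).trans hqb)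

/-- the complete subalgebra of the part `I` of the iteration -/
def Sb (he : DE D e) (I : Set L) (hI : IsLowerSet I) : CS B where
  carrier := {b | ∀ p, e p ≤ b → e (res I p) ≤ b}
  compl_mem' := by
    intro b hb p hp
    exact pemb_compl he hI hb p hp
  sSup_mem' := by
    intro s hs p hp
    exact pemb_sSup he hI (fun b hb => hs hb) p hp

theorem mem_Sb (he : DE D e) {I : Set L} {hI : IsLowerSet I} {b : B} :
    b ∈ Sb he I hI ↔ ∀ p, e p ≤ b → e (res I p) ≤ b := Iff.rfl

theorem e_mem (he : DE D e) {I : Set L} (hI : IsLowerSet I) {p : Cond L K} (hp : res I p = p) :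
    e p ∈ Sb he I hI := by
  rw [mem_Sb]
  intro q hq
  -- `e q ≤ e p`; show `e (res I q) ≤ e p`
  by_contra hcon
  obtain ⟨r, hr, hrb⟩ := he.exists_le_compl hcon
  have h2 : leP D (res I r) (res I q) := by
    have := res_mono D hI hr
    rwa [res_res, Set.inter_self] at this
  -- a condition below `q` which restricts to `res I r`
  have h3 : leP D (amal I (res I r) q) q := amal_le_right D hI h2
  have h3' : e (amal I (res I r) q) ≤ e p := (he.mono _ _ h3).trans hq
  have hne : e (amal I (res I r) q) ⊓ e p ≠ ⊥ := by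
    rw [inf_eq_left.2 h3']
    exact he.ne_bot _
  obtain ⟨t, ht1, ht2⟩ := he.compat _ _ hne
  have hresr : res I (res I r) = res I r := by rw [res_res, Set.inter_self]
  have h5 : leP D (res I t) (res I r) := by
    have := res_mono D hI ht1
    rwa [res_amal hresr] at this
  have h6 : leP D (res I t) p := by
    have := res_mono D hI ht2
    rwa [hp] at this
  have h7 : leP D (amal I (res I t) r) r := amal_le_right D hI h5
  have h8 : leP D (amal I (res I t) r) (res I t) :=
    amal_le_left D hI (by rw [res_res, Set.inter_self])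
  apply he.ne_bot (amal I (res I t) r)
  rw [← le_bot_iff, ← inf_compl_eq_bot (a := e p)]
  exact le_inf (((he.mono _ _ h8)).trans (he.mono _ _ h6)) ((he.mono _ _ h7).trans hrb)

theorem pr_e (he : DE D e) {I : Set L} (hI : IsLowerSet I) (p : Cond L K) :
    pr (Sb he I hI) (e p) = e (res I p) := by
  apply le_antisymm
  · exact pr_le (A := Sb he I hI) (e_mem he hI (by rw [res_res, Set.inter_self]))
      (he.mono _ _ (leP_res D I p))
  · exact (mem_Sb he).1 (pr_mem (Sb he I hI) (e p)) p (le_pr (Sb he I hI) (e p))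

theorem Sb_mono (he : DE D e) {I J : Set L} (hI : IsLowerSet I) (hJ : IsLowerSet J) (h : I ⊆ J) :
    Sb he I hI ≤ Sb he J hJ := by
  intro b hb
  rw [mem_Sb] at hb ⊢
  intro p hp
  exact (he.mono _ _ (leP_res_res D h p)).trans (hb p hp)

theorem mem_Sb_univ (he : DE D e) (h : IsLowerSet (Set.univ : Set L)) (b : B) :
    b ∈ Sb he Set.univ h := by
  rw [mem_Sb]
  intro p hp
  rw [res_univ]
  exact hp

theorem mem_Sb_empty (he : DE D e) (h : IsLowerSet (∅ : Set L)) {b : B}
    (hb : b ∈ Sb he ∅ h) : b = ⊥ ∨ b = ⊤ := by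
  by_cases h0 : b = ⊥
  · exact Or.inl h0
  · right
    obtain ⟨p, hp⟩ := he.dense b h0
    have h1 := (mem_Sb he).1 hb p hp
    rw [res_empty, he.e_zero] at h1
    exact top_le_iff.1 h1

end MAdd
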