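import Pool.Agent.H7.MAdd.PSG

/-!
# PEXT: adding one block to the stem at `c`

Write `f = cfun (nval e c (D.fb c))`, `R = res (Iio c)`.
`pcap_ext` (adding a block): let `(p c) = ⟨s, F⟩`, `F = {i_0, .., i_{k-1}}`, `a = len s`.  Find
`w_0 = a < v_0 = w_1 < v_1 = ..` and `q` below `R p` with `e (R q) ≤ f w_j v_j` for all `j < k`
(`⨆ v, f w v = ⊤`, `exists_le_of_le_iSup`, `f w v = ⊥` for `v ≤ w`), then decide all
`nval e c (D.ν c (i_j)) n`, `n ∈ [w_j, v_j)`: `e q ≤ lit (t n) ..`.  Let `t` be the block of length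
`max 1 (v_{k-1} - a)` with these bits.  Then `e (R q) ≤ hits f (nval e c (D.ν c i)) s [t]` for `i ∈ F`.
Take `upd (amal (Iio c) (R q) p) c ⟨s ++ [t], F⟩`.
-/

set_option autoImplicit false

open BV

namespace MAdd

variable {L K : Type} [LinearOrder L] [WellFoundedLT L] {D : Dat L K}
  {B : Type} [CompleteBooleanAlgebra B] {e : Cond L K → B}

/-- deciding finitely many bits of a name of a real -/
theorem pext_bits (he : DE D e) (c : L) (r : Nm L K) (v : ℕ) :
    ∀ q : Cond L K, res (Set.Iio c) q = q → ∃ q', leP D q' q ∧ res (Set.Iio c) q' = q' ∧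
      ∃ τ : ℕ → Bool, ∀ n, n < v → e q' ≤ lit (τ n) (nval e c r n) := by
  induction v with
  | zero =>
    intro q hq
    exact ⟨q, leP_refl D q, hq, fun _ => false, fun n hn => absurd hn (Nat.not_lt_zero n)⟩
  | succ v ih =>
    intro q hq
    obtain ⟨q1, h1, hq1, τ, hτ⟩ := ih q hq
    obtain ⟨q2, h2, t, ht⟩ := exists_decR he c r q1 v
    have h3 : leP D (res (Set.Iio c) q2) q1 := by
      have := (leB_iff_res D c q2 q1).1 h2
      rwa [hq1] at this
    refine ⟨res (Set.Iio c) q2, leP_trans D _ _ _ h3 h1, by rw [res_res, Set.inter_self],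
      fun n => if n = v then t else τ n, ?_⟩
    intro n hn
    by_cases hnv : n = v
    · subst hnv
      simp only [if_true]
      exact decR_le he ht
    · simp only [if_neg hnv]
      exact (he.mono _ _ h3).trans (hτ n (by omega))

/-- deciding a bound for a value of the coded function -/
theorem pext_bound (he : DE D e) (c : L) {x : ℕ → B} (w : ℕ) (q : Cond L K)
    (hq : res (Set.Iio c) q = q) (hx : InR (Sb he (Set.Iio c) (isLowerSet_Iio c)) x) :
    ∃ q' v, leP D q' q ∧ res (Set.Iio c) q' = q' ∧ w < v ∧ e q' ≤ cfun x w v := by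
  have hg : e q ≤ ⨆ v, cfun x w v := by
    rw [(cfun_isFn x).tot w]
    exact le_top
  obtain ⟨q1, h1, v, hv⟩ := he.exists_le_of_le_iSup hg
  have h2 : e (res (Set.Iio c) q1) ≤ cfun x w v := (mem_Sb he).1 (cfun_mem hx w v) q1 hv
  refine ⟨res (Set.Iio c) q1, v, ?_, by rw [res_res, Set.inter_self], ?_, h2⟩
  · have := res_mono D (isLowerSet_Iio c) h1
    rwa [hq] at this
  · by_contra hc
    push Not at hc
    rw [cfun_adv x w v hc] at h2
    exact he.ne_bot _ (le_bot_iff.1 h2)

/-- one block for finitely many reals -/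
theorem pext_block (he : DE D e) (c : L) {x : ℕ → B} (a : ℕ)
    (hx : InR (Sb he (Set.Iio c) (isLowerSet_Iio c)) x) (F : Finset K) (q : Cond L K)
    (hq : res (Set.Iio c) q = q) :
    ∃ q', leP D q' q ∧ res (Set.Iio c) q' = q' ∧ ∃ (V : ℕ) (τ : ℕ → Bool), a ≤ V ∧
      ∀ i ∈ F, ∃ w v, a ≤ w ∧ v ≤ V ∧ e q' ≤ cfun x w v ∧
        ∀ n, w ≤ n → n < v → e q' ≤ lit (τ n) (nval e c (D.ν c i) n) := by
  classical
  induction F using Finset.induction_on with
  | empty =>
    exact ⟨q, leP_refl D q, hq, a, fun _ => false, le_rfl, fun i hi => absurd hi (by simp)⟩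
  | insert i F hi ih =>
    obtain ⟨q1, h1, hq1, V, τ, haV, hF⟩ := ih
    obtain ⟨q2, v, h2, hq2, hVv, hv⟩ := pext_bound he c V q1 hq1 hx
    obtain ⟨q3, h3, hq3, σ, hσ⟩ := pext_bits he c (D.ν c i) v q2 hq2
    refine ⟨q3, leP_trans D _ _ _ (leP_trans D _ _ _ h3 h2) h1, hq3, v,
      fun n => if n < V then τ n else σ n, by omega, ?_⟩
    intro j hj
    rw [Finset.mem_insert] at hj
    rcases hj with rfl | hj
    · refine ⟨V, v, haV, le_rfl, (he.mono _ _ h3).trans hv, fun n hn hn' => ?_⟩
      simp only [if_neg (not_lt.2 hn)]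
      exact hσ n hn'
    · obtain ⟨w, v', h4, h5, h6, h7⟩ := hF j hj
      have h32 : e q3 ≤ e q1 := (he.mono _ _ h3).trans (he.mono _ _ h2)
      refine ⟨w, v', h4, by omega, h32.trans h6, fun n hn hn' => ?_⟩
      have hnV : n < V := by omega
      simp only [if_pos hnV]
      exact h32.trans (h7 n hn hn')

theorem pcap_ext (he : DE D e) (c : L) (p : Cond L K) :
    ∃ q t, leP D q p ∧ t ≠ [] ∧ (q c).s = (p c).s ++ [t] := by
  have hR : res (Set.Iio c) (res (Set.Iio c) p) = res (Set.Iio c) p := by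
    rw [res_res, Set.inter_self]
  obtain ⟨q, hq, hqR, V, τ, haV, hF⟩ := pext_block he c (len (p c).s)
    (nval_mem he c (D.fb c)) (p c).F (res (Set.Iio c) p) hR
  set a := len (p c).s with ha
  set t : List Bool := (List.range' a (V + 1 - a)).map τ with ht
  have htl : t.length = V + 1 - a := by rw [ht, List.length_map, List.length_range']
  have htg : ∀ n, a ≤ n → n ≤ V → t.getD (n - a) false = τ n := by
    intro n h1 h2
    have h3 : n - a < t.length := by rw [htl]; omega
    rw [List.getD_eq_getElem _ _ h3]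
    simp only [ht, List.getElem_map, List.getElem_range', one_mul]
    congr 1
    omega
  have hcI : c ∉ Set.Iio c := by simp
  set r := amal (Set.Iio c) q p with hr
  have hrc : r c = p c := amal_apply_of_notMem hcI q p
  have hrp : leP D r p := amal_le_right D (isLowerSet_Iio c) hq
  have hrR : res (Set.Iio c) r = q := res_amal hqR
  refine ⟨upd r c ⟨(p c).s ++ [t], (p c).F⟩, t, leP_trans D _ _ _ (upd_le D (u := [t]) ?_ ?_ ?_) hrp,
    ?_, ?_⟩
  · rw [hrc]
  · rw [hrc]
  · intro i hi
    rw [hrc] at hi ⊢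
    rw [WW_iff he, hrR]
    unfold hits
    refine le_iInf fun u1 => le_iInf fun t' => le_iInf fun u2 => le_iInf fun hu => ?_
    have hu1 : u1 = [] := by
      rcases u1 with _ | ⟨b, u1⟩
      · rfl
      · have := congrArg List.length hu
        simp at this
    subst hu1
    rw [List.nil_append, List.cons.injEq] at hu
    obtain ⟨rfl, -⟩ := hu
    rw [List.append_nil]
    obtain ⟨w, v, h4, h5, h6, h7⟩ := hF i hi
    unfold hit
    refine le_iSup_of_le w (le_iSup_of_le v (le_iSup_of_le ⟨h4, by rw [htl]; omega⟩ ?_))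
    refine le_inf h6 (le_iInf fun n => le_iInf fun hn => ?_)
    rw [htg n (by omega) (by omega)]
    exact h7 n hn.1 hn.2
  · intro h0
    rw [h0] at htl
    simp at htl
    omega
  · rw [upd_self]

end MAdd
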