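import Pool.Agent.H7.MAdd.PCRD
import Pool.Agent.H7.MAdd.PCNT

/-!
# PREF: reflection

`pref`: for `c : L` the values `Φ a f` for `a : ℕ → ℕ`, `f` of `Sb (Iio c)` are at most `𝔠` many; each is in
some `Sb (Iio d)` (`Sb_bdd`, code `(ℕ → ℕ → B) × (ℕ → B)` as one real); so there is `next c` above all
these `d` and above `c` (`Ok.bdd`).  By recursion along `ω₁` (`(Ordinal.omega 1).ToType` or any well-order
of cofinality `ω₁`) choose `c ξ` above all `next (c η)`, `η < ξ` (countably many).  Let `δ` be the least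
upper bound of the `c ξ` (bounded by `Ok.bdd`, `ℵ₁ ≤ 𝔠`; least by well-foundedness); so every `d < δ` is
below some `c ξ`.  Every `f` of `Sb (Iio δ)` is in `Sb (Iio (c ξ))` for some `ξ`: `Sb_cases` for `J = Iio δ`;
the second case is impossible (countable sets of indices `ξ` are bounded in `ω₁`).
-/

set_option autoImplicit false

open BV

namespace MAdd

variable {L K : Type} [LinearOrder L] [WellFoundedLT L] {D : Dat L K}
  {B : Type} [CompleteBooleanAlgebra B] {e : Cond L K → B}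

/-- a well-order of type `ω₁` -/
theorem PREF_omega_one : ∃ (W : Type) (_ : LinearOrder W) (_ : WellFoundedLT W),
    Cardinal.mk W ≤ Cardinal.continuum ∧ Nonempty W ∧ (∀ ξ : W, (Set.Iio ξ).Countable) ∧
      ∀ S : Set W, S.Countable → ∃ ξ, ∀ η ∈ S, η < ξ := by
  refine ⟨(Cardinal.aleph 1).ord.ToType, inferInstance, inferInstance, ?_, ?_, ?_, ?_⟩
  · rw [Cardinal.mk_ord_toType]
    exact Cardinal.aleph_one_le_continuum
  · rw [← Cardinal.mk_ne_zero_iff, Cardinal.mk_ord_toType]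
    exact (Cardinal.aleph_pos 1).ne'
  · intro ξ
    rw [← Cardinal.le_aleph0_iff_set_countable, ← Cardinal.lt_aleph_one_iff]
    simpa using Cardinal.mk_Iio_lt ξ
  · intro S hS
    by_contra hcon
    push Not at hcon
    have h1 : (⋃ η ∈ S, Set.Iic η) = (Set.univ : Set (Cardinal.aleph 1).ord.ToType) := by
      ext ξ
      simp only [Set.mem_iUnion, Set.mem_Iic, Set.mem_univ, iff_true]
      obtain ⟨η, hη, h⟩ := hcon ξ
      exact ⟨η, hη, h⟩
    have h2 : (⋃ η ∈ S, Set.Iic η).Countable := by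
      refine hS.biUnion fun η _ => ?_
      rw [← Set.Iio_insert]
      refine Set.Countable.insert η ?_
      rw [← Cardinal.le_aleph0_iff_set_countable, ← Cardinal.lt_aleph_one_iff]
      simpa using Cardinal.mk_Iio_lt η
    rw [h1, ← Cardinal.le_aleph0_iff_set_countable, ← Cardinal.lt_aleph_one_iff, Cardinal.mk_univ,
      Cardinal.mk_ord_toType] at h2
    exact lt_irrefl _ h2

/-- the next stage -/
theorem PREF_next (hD : Ok D) (he : DE D e)
    (Φ : (ℕ → ℕ) → (ℕ → ℕ → B) → (ℕ → ℕ → B) × (ℕ → B)) (c : L) :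
    ∃ d : L, c < d ∧ ∀ a f, InF (Sb he (Set.Iio c) (isLowerSet_Iio c)) f →
      InF (Sb he (Set.Iio d) (isLowerSet_Iio d)) (Φ a f).1 ∧
      InR (Sb he (Set.Iio d) (isLowerSet_Iio d)) (Φ a f).2 := by
  classical
  let code : (ℕ → ℕ → B) × (ℕ → B) → ℕ → B := fun P k =>
    if (Nat.unpair k).1 = 0 then P.2 (Nat.unpair k).2
    else P.1 (Nat.unpair (Nat.unpair k).2).1 (Nat.unpair (Nat.unpair k).2).2
  have hcode : ∀ P (A : CS B), InR A (code P) → InF A P.1 ∧ InR A P.2 := by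
    intro P A h
    constructor
    · intro i v
      have := h (Nat.pair 1 (Nat.pair i v))
      simpa [code] using this
    · intro n
      have := h (Nat.pair 0 n)
      simpa [code] using this
  let I : Type := (ℕ → ℕ) × {f : ℕ → ℕ → B | InF (Sb he (Set.Iio c) (isLowerSet_Iio c)) f}
  have hI : Cardinal.mk I ≤ Cardinal.continuum := by
    rw [Cardinal.mk_prod, Cardinal.lift_id, Cardinal.lift_id]
    have h1 : Cardinal.mk (ℕ → ℕ) ≤ Cardinal.continuum := le_of_eq (by simp)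
    exact (mul_le_mul' h1 (card_InF hD he c)).trans (le_of_eq Cardinal.continuum_mul_self)
  choose g hg1 hg2 using fun i : I => Sb_bdd hD he (code (Φ i.1 i.2.1)) c
  obtain ⟨d, hd⟩ := hD.bdd (insert c (Set.range g)) (by
    refine (Cardinal.mk_insert_le).trans ?_
    refine (add_le_add (Cardinal.mk_range_le.trans hI) le_rfl).trans ?_
    exact le_of_eq (Cardinal.add_one_eq Cardinal.aleph0_le_continuum))
  refine ⟨d, hd c (Set.mem_insert _ _), fun a f hf => ?_⟩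
  have h1 : g (a, ⟨f, hf⟩) < d := hd _ (Set.mem_insert_of_mem _ ⟨_, rfl⟩)
  refine hcode (Φ a f) _ fun n => ?_
  exact Sb_mono he _ _ (Set.Iio_subset_Iio h1.le) _ (hg2 (a, ⟨f, hf⟩) n)

theorem pref (hD : Ok D) (he : DE D e)
    (Φ : (ℕ → ℕ) → (ℕ → ℕ → B) → (ℕ → ℕ → B) × (ℕ → B)) :
    ∃ δ : L, ∀ a f, InF (Sb he (Set.Iio δ) (isLowerSet_Iio δ)) f →
      InF (Sb he (Set.Iio δ) (isLowerSet_Iio δ)) (Φ a f).1 ∧
      InR (Sb he (Set.Iio δ) (isLowerSet_Iio δ)) (Φ a f).2 := by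
  obtain ⟨W, iW, iWF, hW1, hW2, hW3, hW4⟩ := PREF_omega_one
  choose next hn1 hn2 using PREF_next hD he Φ
  -- the recursion
  have hex : ∀ (ξ : W) (IH : (η : W) → η < ξ → L), ∃ d : L, ∀ (η : W) (h : η < ξ), next (IH η h) < d := by
    intro ξ IH
    obtain ⟨d, hd⟩ := hD.bdd (Set.range (fun η : Set.Iio ξ => next (IH η.1 η.2))) (by
      have : Countable (Set.Iio ξ) := (hW3 ξ).to_subtype
      exact (Cardinal.mk_range_le).trans ((Cardinal.mk_le_aleph0).trans Cardinal.aleph0_le_continuum))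
    exact ⟨d, fun η h => hd _ ⟨⟨η, h⟩, rfl⟩⟩
  choose G hG using hex
  let c : W → L := WellFounded.fix (wellFounded_lt (α := W)) (fun ξ IH => G ξ IH)
  have hc : ∀ ξ η : W, η < ξ → next (c η) < c ξ := by
    intro ξ η h
    have h1 : c ξ = G ξ (fun η _ => c η) := WellFounded.fix_eq _ _ _
    rw [h1]
    exact hG ξ (fun η _ => c η) η h
  obtain ⟨d0, hd0⟩ := hD.bdd (Set.range c) (Cardinal.mk_range_le.trans hW1)
  let T : Set L := {d | ∀ ξ, c ξ < d}
  have hT : T.Nonempty := ⟨d0, fun ξ => hd0 _ ⟨ξ, rfl⟩⟩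
  let δ : L := WellFounded.min (wellFounded_lt (α := L)) T hT
  have hδ : ∀ ξ, c ξ < δ := WellFounded.min_mem (wellFounded_lt (α := L)) T hT
  have hδ' : ∀ d, d < δ → ∃ ξ, d ≤ c ξ := by
    intro d hd
    by_contra hcon
    push Not at hcon
    exact WellFounded.not_lt_min (wellFounded_lt (α := L)) T (x := d) hcon hd
  have hsucc : ∀ ξ : W, ∃ ξ', ξ < ξ' := by
    intro ξ
    obtain ⟨ξ', h⟩ := hW4 {ξ} (Set.countable_singleton ξ)
    exact ⟨ξ', h ξ rfl⟩
  have hcmono : ∀ ξ η : W, η < ξ → c η < c ξ := fun ξ η h => (hn1 _).trans (hc ξ η h)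
  refine ⟨δ, fun a f hf => ?_⟩
  -- code `f` as one real
  have hx : InR (Sb he (Set.Iio δ) (isLowerSet_Iio δ))
      (fun k => f (Nat.unpair k).1 (Nat.unpair k).2) := fun k => hf _ _
  have key : ∃ d ∈ Set.Iio δ, InR (Sb he (Set.Iio d) (isLowerSet_Iio d))
      (fun k => f (Nat.unpair k).1 (Nat.unpair k).2) := by
    rcases Sb_cases he (isLowerSet_Iio δ) ⟨c hW2.some, hδ _⟩ (by
      intro d hd
      obtain ⟨ξ, hξ⟩ := hδ' d hd
      obtain ⟨ξ', hξ'⟩ := hsucc ξ
      exact ⟨c ξ', hδ ξ', hξ.trans_lt (hcmono _ _ hξ')⟩) hx with h | ⟨c', -, hc'1, hc'2⟩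
    · exact h
    · exfalso
      choose ξ hξ using fun k => hδ' (c' k) (hc'1 k)
      obtain ⟨ζ, hζ⟩ := hW4 (Set.range ξ) (Set.countable_range ξ)
      obtain ⟨k, hk⟩ := hc'2 (c ζ) (hδ ζ)
      exact lt_irrefl _ (hk.trans_le ((hξ k).trans (hcmono _ _ (hζ _ ⟨k, rfl⟩)).le))
  obtain ⟨d, hd, hfd⟩ := key
  obtain ⟨ξ, hξ⟩ := hδ' d hd
  obtain ⟨ξ', hξ'⟩ := hsucc ξ
  have hf' : InF (Sb he (Set.Iio (c ξ)) (isLowerSet_Iio (c ξ))) f := by
    intro i v
    have := hfd (Nat.pair i v)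
    simp only [Nat.unpair_pair] at this
    exact Sb_mono he _ _ (Set.Iio_subset_Iio hξ) _ this
  have hle : next (c ξ) ≤ δ := ((hc ξ' ξ hξ').trans (hδ ξ')).le
  obtain ⟨h1, h2⟩ := hn2 (c ξ) a f hf'
  exact ⟨fun i v => Sb_mono he _ _ (Set.Iio_subset_Iio hle) _ (h1 i v),
    fun n => Sb_mono he _ _ (Set.Iio_subset_Iio hle) _ (h2 n)⟩

end MAdd
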