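import Pool.Agent.H7.MAdd.PIND
import Pool.Agent.H7.MAdd.PCAP
import Pool.Agent.H7.MAdd.PREF
import Pool.Agent.H7.MAdd.PDAT
import Pool.Agent.H7.MAdd.NEW
import Pool.Agent.H7.MAdd.ALG
import Pool.Agent.H7.MAdd.BRG

/-!
# PFIN: the algebraic form of the theorem
-/

set_option autoImplicit false

open BV

namespace MAdd

theorem exists_alg : ∃ (B : Type) (_ : CompleteBooleanAlgebra B), LD.ADD B ∧ LD.UNB B ∧
    (⊥ : B) ≠ ⊤ := by
  obtain ⟨L, K, iL, iW, D, hD⟩ := exists_dat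
  obtain ⟨B, iB, e, he⟩ := exists_de D
  refine ⟨B, iB, ?_, ?_, ?_⟩
  · refine add_of_alg ?_
    refine alg_of_chain (J := L) (fun δ => Sb he (Set.Iio δ) (isLowerSet_Iio δ))
      (fun δ δ' h => Sb_mono he _ _ (Set.Iio_subset_Iio h)) ?_ ?_ ?_ ?_
    · intro x δ
      exact Sb_bdd hD he x δ
    · intro δ f hf hf' ha
      exact pcap' hD he δ f hf hf' ha
    · intro Φ
      exact pref hD he Φ
    · intro δ x
      exact new_of_nw (pind_univ hD he δ).2 x (fun n => mem_Sb_univ he _ _)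
  · exact unb_of_bd (fun a ha => mem_Sb_empty he _ ha) (fun b => mem_Sb_univ he _ b)
      (pind_empty hD he)
  · intro h
    exact he.ne_bot 0 (by rw [he.e_zero, ← h])

end MAdd
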