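import Pool.Agent.H7.MAdd.PVAL

/-!
# PFT: the forcing theorem for capturing

Write `R = res (Iio c)`.  `leB D c p q` is `leP D (R p) (R q)` (`leB_iff_res`).
* `decR_le`: true: `e (R p) ≤ e (R a)`.  false: if `e (R p) ⊓ e (R a) ≠ ⊥` then `R p` and `R a` have a
  common extension `q`, and `leB D c q p`, `leB D c q a` (`leB_iff_res`, `res_mono`, `res_res`).
* `exists_decR`: if `e (R p) ⊓ nval e c r n ≠ ⊥` there are `m a` and `q ≤ R p`, `q ≤ R a`: decides true.
  Otherwise `p` itself decides false (a `q` below both would give `e (R q) ≤ e (R p) ⊓ e (R a)`).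
* `exists_decF`: if `w < v` and `e (R p) ≤ cfun (nval e c r) w v` there is `q` below `p` with `decF q w v`.
* `WW_iff`, `→`: by `DE.le_of_dense`: for `q` with `e q ≤ e (R p)`, we may assume `q ≤ R p`
  (compatibility), so `leB D c q p`; there is `p2` with `leB D c p2 q` and `good`; by `decR_le` etc.
  `e (R p2) ≤ hits`.  `R p2 ≤ R q`, so `amal (Iio c) (R p2) q` is below `q` and below `R p2`.
  `←`: given `leB D c p1 p`: `e (R p1) ≤ hits ..`.  Treat the finitely many blocks of `u` one after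
  another: for a block get `w v` with a nonzero part of `e (R p1)` below `cfun .. w v ⊓ ⨅ n ..`
  (`exists_le_of_le_iSup`), extend to decide `f w ≤ v` (`exists_decF`) and all `n ∈ [w, v)`
  (`exists_decR`, the decisions are the right ones by `decR_le`); previous decisions remain
  (`good_down`, `decR_down`).  Replace the extension `q` by `R q`: `leB D c (R q) (R p1)`.
* `hits_append`: `hits f r s (u ++ u') ≤ hits f r s u`.
* `hits_congr`: if `r = r'` on `[0, len (s ++ u))` then the values agree.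
-/

set_option autoImplicit false

open BV

namespace MAdd

variable {L K : Type} [LinearOrder L] [WellFoundedLT L] {D : Dat L K}
  {B : Type} [CompleteBooleanAlgebra B] {e : Cond L K → B}

theorem pft_res_res (c : L) (p : Cond L K) :
    res (Set.Iio c) (res (Set.Iio c) p) = res (Set.Iio c) p := by
  rw [res_res, Set.inter_self]

theorem pft_leB_of_le {c : L} {q p : Cond L K} (h : leP D q (res (Set.Iio c) p)) :
    leB D c q p := by
  rw [leB_iff_res]
  have h1 := res_mono D (isLowerSet_Iio c) h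
  rwa [pft_res_res] at h1

theorem pft_e_le (he : DE D e) {c : L} {q p : Cond L K} (h : leB D c q p) :
    e (res (Set.Iio c) q) ≤ e (res (Set.Iio c) p) := by
  rw [leB_iff_res] at h
  exact he.mono _ _ h

theorem pft_le_nval {c : L} {r : Nm L K} {n m : ℕ} {a : Cond L K} (h : r n m = some a) :
    e (res (Set.Iio c) a) ≤ nval e c r n := by
  unfold nval
  exact le_iSup_of_le m (le_iSup_of_le a (le_iSup_of_le h le_rfl))

theorem pft_true (he : DE D e) {c : L} {r : Nm L K} {p : Cond L K} {n : ℕ}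
    (h : e p ≤ nval e c r n) : ∃ q, leP D q p ∧ decR (leB D c) r q n true := by
  unfold nval at h
  obtain ⟨q1, hq1, m, h1⟩ := he.exists_le_of_le_iSup h
  obtain ⟨q2, hq2, a, h2⟩ := he.exists_le_of_le_iSup h1
  obtain ⟨q3, hq3, ha, h3⟩ := he.exists_le_of_le_iSup h2
  have h4 : e q3 ⊓ e (res (Set.Iio c) a) ≠ ⊥ := by
    rw [inf_eq_left.2 h3]
    exact he.ne_bot q3
  obtain ⟨q4, hq4, hq4'⟩ := he.compat _ _ h4
  refine ⟨q4, ?_, m, a, ha, pft_leB_of_le hq4'⟩
  exact leP_trans D _ _ _ hq4 (leP_trans D _ _ _ hq3 (leP_trans D _ _ _ hq2 hq1))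

theorem pft_false (he : DE D e) {c : L} {r : Nm L K} {p : Cond L K} {n : ℕ}
    (h : e (res (Set.Iio c) p) ⊓ nval e c r n = ⊥) : decR (leB D c) r p n false := by
  intro m a ha
  rintro ⟨q, hq1, hq2⟩
  apply he.ne_bot (res (Set.Iio c) q)
  rw [← le_bot_iff, ← h]
  exact le_inf (pft_e_le he hq1) ((pft_e_le he hq2).trans (pft_le_nval ha))

theorem pft_lit (t t' : Bool) (h : t ≠ t') (a : B) : lit t a ⊓ lit t' a = ⊥ := by
  cases t <;> cases t' <;> simp_all [lit]

theorem decR_le (he : DE D e) {c : L} {r : Nm L K} {p : Cond L K} {n : ℕ} {t : Bool}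
    (h : decR (leB D c) r p n t) : e (res (Set.Iio c) p) ≤ lit t (nval e c r n) := by
  cases t with
  | true =>
    obtain ⟨m, a, ha, hpa⟩ := h
    exact (pft_e_le he hpa).trans (pft_le_nval ha)
  | false =>
    show e (res (Set.Iio c) p) ≤ (nval e c r n)ᶜ
    rw [le_compl_iff_disjoint_right]
    unfold nval
    rw [disjoint_iSup_iff]
    intro m
    rw [disjoint_iSup_iff]
    intro a
    rw [disjoint_iSup_iff]
    intro ha
    rw [disjoint_iff]
    by_contra hne
    obtain ⟨q, hq1, hq2⟩ := he.compat _ _ hne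
    exact h m a ha ⟨q, pft_leB_of_le hq1, pft_leB_of_le hq2⟩

theorem exists_decR (he : DE D e) (c : L) (r : Nm L K) (p : Cond L K) (n : ℕ) :
    ∃ q, leB D c q p ∧ ∃ t, decR (leB D c) r q n t := by
  by_cases h : e (res (Set.Iio c) p) ⊓ nval e c r n = ⊥
  · exact ⟨p, leB_refl D c p, false, pft_false he h⟩
  · obtain ⟨q, hq, hq2⟩ := he.exists_le_of_inf_ne_bot h
    obtain ⟨q', hq', hd⟩ := pft_true he hq2
    exact ⟨q', pft_leB_of_le (leP_trans D _ _ _ hq' hq), true, hd⟩

theorem decF_le (he : DE D e) {c : L} {r : Nm L K} {p : Cond L K} {w v : ℕ}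
    (h : decF (leB D c) r p w v) : e (res (Set.Iio c) p) ≤ cfun (nval e c r) w v := by
  obtain ⟨hwv, h⟩ := h
  unfold cfun
  rw [if_pos hwv]
  rcases h with ⟨v', hv', hd⟩ | h
  · refine le_sup_of_le_left ?_
    exact le_iSup_of_le v' (le_iSup_of_le hv' (decR_le he hd))
  · refine le_sup_of_le_right ?_
    rw [compl_iSup]
    exact le_iInf fun v' => decR_le he (h v')

theorem exists_decF (he : DE D e) {c : L} {r : Nm L K} {p : Cond L K} {w v : ℕ}
    (h : e (res (Set.Iio c) p) ≤ cfun (nval e c r) w v) :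
    ∃ q, leB D c q p ∧ decF (leB D c) r q w v := by
  unfold cfun at h
  split_ifs at h with hwv
  · by_cases hne : e (res (Set.Iio c) p) ⊓
      (⨆ v', ⨆ (_ : v' ≤ v), nval e c r (Nat.pair w v')) = ⊥
    · refine ⟨p, leB_refl D c p, hwv, Or.inr fun v' => ?_⟩
      apply pft_false he
      have h2 : e (res (Set.Iio c) p) ≤ (⨆ v', nval e c r (Nat.pair w v'))ᶜ := by
        have h3 : e (res (Set.Iio c) p) ≤ e (res (Set.Iio c) p) ⊓
            ((⨆ v', ⨆ (_ : v' ≤ v), nval e c r (Nat.pair w v')) ⊔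
              (⨆ v', nval e c r (Nat.pair w v'))ᶜ) := le_inf le_rfl h
        rw [inf_sup_left, hne, bot_sup_eq] at h3
        exact h3.trans inf_le_right
      rw [compl_iSup] at h2
      have h4 := h2.trans (iInf_le _ v')
      rw [le_compl_iff_disjoint_right, disjoint_iff] at h4
      exact h4
    · obtain ⟨q, hq, hq2⟩ := he.exists_le_of_inf_ne_bot hne
      obtain ⟨q1, hq1, v', h1⟩ := he.exists_le_of_le_iSup hq2
      obtain ⟨q2, hq2, hv', h2⟩ := he.exists_le_of_le_iSup h1
      obtain ⟨q3, hq3, hd⟩ := pft_true he h2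
      refine ⟨q3, pft_leB_of_le ?_, hwv, Or.inl ⟨v', hv', hd⟩⟩
      exact leP_trans D _ _ _ hq3 (leP_trans D _ _ _ hq2 (leP_trans D _ _ _ hq1 hq))
  · exact absurd (le_bot_iff.1 h) (he.ne_bot _)

theorem pft_good_le (he : DE D e) {c : L} {f r : Nm L K} {p : Cond L K} {s u : List (List Bool)}
    (h : good (leB D c) f r p s u) :
    e (res (Set.Iio c) p) ≤ hits (cfun (nval e c f)) (nval e c r) s u := by
  unfold hits
  refine le_iInf fun u1 => le_iInf fun t => le_iInf fun u2 => le_iInf fun hu => ?_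
  obtain ⟨w, v, haw, hva, hF, hR⟩ := h u1 t u2 hu
  unfold hit
  refine le_iSup_of_le w (le_iSup_of_le v (le_iSup_of_le ⟨haw, hva⟩ ?_))
  refine le_inf (decF_le he hF) ?_
  exact le_iInf fun n => le_iInf fun hn => decR_le he (hR n hn.1 hn.2)

theorem pft_decide (he : DE D e) (c : L) (r : Nm L K) (v : ℕ) (p : Cond L K) :
    ∃ q, leB D c q p ∧ ∀ n, n < v → ∃ t, decR (leB D c) r q n t := by
  induction v with
  | zero => exact ⟨p, leB_refl D c p, fun n hn => absurd hn (Nat.not_lt_zero n)⟩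
  | succ v ih =>
    obtain ⟨q, hq, h⟩ := ih
    obtain ⟨q', hq', t, ht⟩ := exists_decR he c r q v
    refine ⟨q', leB_trans D c _ _ _ hq' hq, fun n hn => ?_⟩
    rcases Nat.lt_succ_iff_lt_or_eq.1 hn with h1 | h1
    · obtain ⟨t', ht'⟩ := h n h1
      exact ⟨t', decR_down (leB_trans D c) hq' ht'⟩
    · exact ⟨t, by rw [h1]; exact ht⟩

theorem hits_append (f : ℕ → ℕ → B) (r : ℕ → B) (s u u' : List (List Bool)) :
    hits f r s (u ++ u') ≤ hits f r s u := by
  unfold hits
  refine le_iInf fun u1 => le_iInf fun t => le_iInf fun u2 => le_iInf fun hu => ?_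
  refine iInf_le_of_le u1 (iInf_le_of_le t (iInf_le_of_le (u2 ++ u') (iInf_le_of_le ?_ le_rfl)))
  rw [hu]
  simp

theorem pft_hits_head (f : ℕ → ℕ → B) (r : ℕ → B) (s u : List (List Bool)) (t : List Bool) :
    hits f r s (t :: u) ≤ hit f r (len s) t := by
  unfold hits
  refine iInf_le_of_le [] (iInf_le_of_le t (iInf_le_of_le u (iInf_le_of_le rfl ?_)))
  rw [List.append_nil]

theorem pft_hits_tail (f : ℕ → ℕ → B) (r : ℕ → B) (s u : List (List Bool)) (t : List Bool) :
    hits f r s (t :: u) ≤ hits f r (s ++ [t]) u := by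
  unfold hits
  refine le_iInf fun u1 => le_iInf fun t' => le_iInf fun u2 => le_iInf fun hu => ?_
  refine iInf_le_of_le (t :: u1) (iInf_le_of_le t' (iInf_le_of_le u2 (iInf_le_of_le ?_ ?_)))
  · rw [hu]
    simp
  · rw [List.append_assoc]
    exact le_rfl

theorem hits_mem {A : CS B} {f : ℕ → ℕ → B} {r : ℕ → B} (hf : InF A f) (hr : InR A r)
    (s u : List (List Bool)) : hits f r s u ∈ A := by
  unfold hits hit
  refine A.iInf_mem fun u1 => A.iInf_mem fun t => A.iInf_mem fun u2 => A.iInf_mem fun _ => ?_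
  refine A.iSup_mem fun w => A.iSup_mem fun v => A.iSup_mem fun _ => ?_
  refine A.inf_mem (hf w v) ?_
  exact A.iInf_mem fun n => A.iInf_mem fun _ => A.lit_mem (hr n)

theorem pft_block (he : DE D e) {c : L} {f r : Nm L K} {p : Cond L K} {a : ℕ} {t : List Bool}
    (h : e (res (Set.Iio c) p) ≤ hit (cfun (nval e c f)) (nval e c r) a t) :
    ∃ q, leB D c q p ∧ goodB (leB D c) f r q a t := by
  unfold hit at h
  obtain ⟨q1, hq1, w, h1⟩ := he.exists_le_of_le_iSup h
  obtain ⟨q2, hq2, v, h2⟩ := he.exists_le_of_le_iSup h1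
  obtain ⟨q3, hq3, hwv, h3⟩ := he.exists_le_of_le_iSup h2
  have hlow := isLowerSet_Iio c
  have h4 : e (res (Set.Iio c) q3) ≤ cfun (nval e c f) w v ⊓
      ⨅ n, ⨅ (_ : w ≤ n ∧ n < v), lit (t.getD (n - a) false) (nval e c r n) := by
    have hm : cfun (nval e c f) w v ⊓
      (⨅ n, ⨅ (_ : w ≤ n ∧ n < v), lit (t.getD (n - a) false) (nval e c r n)) ∈
        Sb he (Set.Iio c) hlow := by
      refine CS.inf_mem _ (cfun_mem (nval_mem he c f) w v) ?_
      exact CS.iInf_mem _ fun n => CS.iInf_mem _ fun _ => CS.lit_mem _ (nval_mem he c r n)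
    exact (mem_Sb he).1 hm q3 h3
  have hq3p : leB D c q3 p := pft_leB_of_le (leP_trans D _ _ _ hq3 (leP_trans D _ _ _ hq2 hq1))
  obtain ⟨q4, hq4, hF⟩ := exists_decF he (h4.trans inf_le_left)
  obtain ⟨q5, hq5, hR⟩ := pft_decide he c r v q4
  refine ⟨q5, leB_trans D c _ _ _ hq5 (leB_trans D c _ _ _ hq4 hq3p), w, v, hwv.1, hwv.2,
    decF_down (leB_trans D c) hq5 hF, ?_⟩
  intro n hn1 hn2
  obtain ⟨t', ht'⟩ := hR n hn2
  by_cases htt : t' = t.getD (n - a) false
  · rw [← htt]
    exact ht'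
  · exfalso
    apply he.ne_bot (res (Set.Iio c) q5)
    rw [← le_bot_iff, ← pft_lit _ _ htt (nval e c r n)]
    refine le_inf (decR_le he ht') ?_
    have h5 : e (res (Set.Iio c) q5) ≤ e (res (Set.Iio c) q3) :=
      pft_e_le he (leB_trans D c _ _ _ hq5 hq4)
    exact h5.trans (h4.trans (inf_le_right.trans (iInf_le_of_le n (iInf_le _ ⟨hn1, hn2⟩))))

theorem pft_blocks (he : DE D e) {c : L} {f r : Nm L K} (u : List (List Bool)) :
    ∀ (s : List (List Bool)) (p : Cond L K),
    e (res (Set.Iio c) p) ≤ hits (cfun (nval e c f)) (nval e c r) s u →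
    ∃ q, leB D c q p ∧ good (leB D c) f r q s u := by
  induction u with
  | nil =>
    intro s p _
    refine ⟨p, leB_refl D c p, ?_⟩
    intro u1 t u2 hu
    simp at hu
  | cons t u ih =>
    intro s p h
    obtain ⟨q, hq, hg⟩ := pft_block he (h.trans (pft_hits_head _ _ s u t))
    obtain ⟨q', hq', hg'⟩ := ih (s ++ [t]) q
      ((pft_e_le he hq).trans (h.trans (pft_hits_tail _ _ s u t)))
    refine ⟨q', leB_trans D c _ _ _ hq' hq, ?_⟩
    have h1 : good (leB D c) f r q s [t] := by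
      intro u1 t' u2 hu
      rcases u1 with _ | ⟨x, u1⟩
      · simp only [List.nil_append, List.cons.injEq] at hu
        rw [← hu.1, List.append_nil]
        exact hg
      · simp at hu
    exact good_append (u1 := [t]) (good_down (leB_trans D c) hq' h1) hg'

theorem WW_iff (he : DE D e) (c : L) (i : K) (s u : List (List Bool)) (p : Cond L K) :
    WW D c i s u p ↔ e (res (Set.Iio c) p) ≤
      hits (cfun (nval e c (D.fb c))) (nval e c (D.ν c i)) s u := by
  rw [WW_eq]
  constructor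
  · intro h
    apply he.le_of_dense
    intro q hq
    have h1 : e q ⊓ e (res (Set.Iio c) p) ≠ ⊥ := by
      rw [inf_eq_left.2 hq]
      exact he.ne_bot q
    obtain ⟨q1, hq1, hq1'⟩ := he.compat _ _ h1
    obtain ⟨p2, hp2, hg⟩ := h q1 (pft_leB_of_le hq1')
    have hlow := isLowerSet_Iio c
    refine ⟨amal (Set.Iio c) (res (Set.Iio c) p2) q1, ?_, ?_⟩
    · refine leP_trans D _ _ _ (amal_le_right D hlow ?_) hq1
      exact (leB_iff_res D c _ _).1 hp2
    · refine (he.mono _ _ (amal_le_left D hlow (pft_res_res c p2))).trans ?_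
      exact pft_good_le he hg
  · intro h p1 hp1
    exact pft_blocks he u s p1 ((pft_e_le he hp1).trans h)

theorem pft_bihimp_lit (t : Bool) (x y : B) : bihimp x y ⊓ lit t x ≤ lit t y := by
  cases t with
  | true =>
    show bihimp x y ⊓ x ≤ y
    rw [bihimp_def]
    calc (y ⇨ x) ⊓ (x ⇨ y) ⊓ x ≤ (x ⇨ y) ⊓ x := inf_le_inf_right _ inf_le_right
      _ ≤ y := himp_inf_le
  | false =>
    show bihimp x y ⊓ xᶜ ≤ yᶜ
    rw [bihimp_def, le_compl_iff_disjoint_right, disjoint_iff, ← le_bot_iff]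
    calc (y ⇨ x) ⊓ (x ⇨ y) ⊓ xᶜ ⊓ y ≤ ((y ⇨ x) ⊓ y) ⊓ xᶜ :=
          le_inf (le_inf (inf_le_left.trans (inf_le_left.trans inf_le_left)) inf_le_right)
            (inf_le_left.trans inf_le_right)
      _ ≤ x ⊓ xᶜ := inf_le_inf_right _ himp_inf_le
      _ = ⊥ := inf_compl_eq_bot
      _ ≤ ⊥ := le_rfl

theorem hits_congr (f : ℕ → ℕ → B) (r r' : ℕ → B) (s u : List (List Bool)) (l : ℕ)
    (hl : len (s ++ u) ≤ l) : mat r r' 0 l ⊓ hits f r s u ≤ hits f r' s u := by
  unfold hits
  refine le_iInf fun u1 => le_iInf fun t => le_iInf fun u2 => le_iInf fun hu => ?_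
  have h1 : (⨅ u1, ⨅ t, ⨅ u2, ⨅ (_ : u = u1 ++ t :: u2), hit f r (len (s ++ u1)) t) ≤
      hit f r (len (s ++ u1)) t :=
    iInf_le_of_le u1 (iInf_le_of_le t (iInf_le_of_le u2 (iInf_le_of_le hu le_rfl)))
  refine (inf_le_inf_left _ h1).trans ?_
  have h2 : len (s ++ u1) + t.length ≤ l := by
    refine le_trans ?_ hl
    rw [hu]
    unfold len
    simp only [List.flatten_append, List.flatten_cons, List.length_append]
    omega
  unfold hit
  rw [inf_iSup_eq]
  refine iSup_le fun w => ?_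
  rw [inf_iSup_eq]
  refine iSup_le fun v => ?_
  rw [inf_iSup_eq]
  refine iSup_le fun hwv => ?_
  refine le_iSup_of_le w (le_iSup_of_le v (le_iSup_of_le hwv ?_))
  refine le_inf (inf_le_right.trans inf_le_left) ?_
  refine le_iInf fun n => le_iInf fun hn => ?_
  refine le_trans ?_ (pft_bihimp_lit _ (r n) (r' n))
  refine le_inf ?_ ?_
  · refine inf_le_left.trans ?_
    unfold mat
    exact iInf_le_of_le n (iInf_le _ ⟨Nat.zero_le n, by omega⟩)
  · exact inf_le_right.trans (inf_le_right.trans (iInf_le_of_le n (iInf_le _ hn)))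

end MAdd
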