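import Pool.Agent.H7.MAdd.TRV

/-!
# TRN: composition

`bd_trans`: `h` of `A''`, `H₁` of `A'` by `Bd A' A''`, `H` of `A` by `Bd A A'` for `H₁`.  For `b : B`:
`pr A' b ≤ ⨆ n₁, c n₁`, `c n₁ = ⨅ m, pr A' (b ⊓ leOn h H₁ n₁ m) ∈ A'`.
`pr A b = pr A (pr A' b) ≤ ⨆ n₁, pr A (c n₁) ≤ ⨆ n₁ n, ⨅ m, pr A (c n₁ ⊓ leOn H₁ H n m)`.  Given
`n₁, n` let `k = max n₁ n`.  For all `m`:
`c n₁ ⊓ leOn H₁ H n m ≤ pr A' (b ⊓ leOn h H₁ k m) ⊓ leOn H₁ H k m = pr A' (b ⊓ leOn h H₁ k m ⊓ leOn H₁ H k m)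
≤ pr A' (b ⊓ leOn h H k m)`; apply `pr A`.

`nw_trans`: `x` a real of `A''`, `f₁` of `A'` by `Nw A' A''`, `H` of `A` by `Bd A A'` for `f₁`;
`r i` reals of `A'` with `isin A' x = ⨆ i, req x (r i)` (`exists_seq_isin`, ccc), `f₂ i` of `A` by
`Nw A A'` for `r i`; `f` of `A` with `f j v ≤ H j v` for all `j` and `f j v ≤ f₂ i j v` for `i ≤ j`
(`exists_dom` applied to `H, f₂ 0, f₂ 1, ...`, so from some point on).
For `b ≤ (isin A x)ᶜ`: `b = (b ⊓ (isin A' x)ᶜ) ⊔ ⨆ i, b ⊓ req x (r i)`; `pr A` of the supremum is the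
supremum.  First part `b₀`: exactly as for `bd_trans` with `av f₁ x Y` instead of `leOn h H₁` and
`av_leOn`, `av_mono`.  Part `b i = b ⊓ req x (r i)`: `pr A' (b i) ≤ (isin A (r i))ᶜ` (`req_isin`, and
`isin A (r i) ∈ A'`), so `pr A (b i) = pr A (pr A' (b i)) ≤ ⨆ n, ⨅ m, pr A (pr A' (b i) ⊓ av (f₂ i) (r i) Y n m)`
`= ⨆ n, ⨅ m, pr A (b i ⊓ av (f₂ i) (r i) Y n m)` and `b i ⊓ av (f₂ i) (r i) Y n m ≤ b ⊓ av f x Y n' m`
(`av_congr`, `av_mono`) for `n' ≥ n, i + 1`.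
-/

set_option autoImplicit false

namespace MAdd

variable {B : Type} [CompleteBooleanAlgebra B]

theorem trn_inR {A A' : CS B} (h : A ≤ A') {x : ℕ → B} (hx : InR A x) : InR A' x :=
  fun n => h _ (hx n)

theorem trn_inF {A A' : CS B} (h : A ≤ A') {f : ℕ → ℕ → B} (hf : InF A f) : InF A' f :=
  fun i v => h _ (hf i v)

/-- the common step of both theorems -/
theorem trn_step {A A' : CS B} (h1 : A ≤ A') (b b' : B) (P Q R : ℕ → ℕ → B)
    (hP : pr A' b ≤ ⨆ n, ⨅ m, pr A' (b ⊓ P n m))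
    (hQ : ∀ c : B, pr A c ≤ ⨆ n, ⨅ m, pr A (c ⊓ Q n m))
    (hQA : ∀ n m, Q n m ∈ A')
    (hR : ∀ n₁ n m, b ⊓ P n₁ m ⊓ Q n m ≤ b' ⊓ R (max n₁ n) m) :
    pr A b ≤ ⨆ n, ⨅ m, pr A (b' ⊓ R n m) := by
  rw [← pr_pr h1 b]
  refine (pr_mono A hP).trans ?_
  rw [pr_iSup]
  refine iSup_le (fun n₁ => ?_)
  refine (hQ _).trans (iSup_le (fun n => ?_))
  refine le_iSup_of_le (max n₁ n) (iInf_mono (fun m => ?_))
  have h2 : (⨅ m, pr A' (b ⊓ P n₁ m)) ⊓ Q n m ≤ pr A' (b' ⊓ R (max n₁ n) m) := by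
    refine (inf_le_inf_right _ (iInf_le _ m)).trans ?_
    rw [← pr_inf' A' (hQA n m)]
    exact pr_mono A' (hR n₁ n m)
  refine (pr_mono A h2).trans ?_
  rw [pr_pr h1]

theorem bd_trans {A A' A'' : CS B} (h1 : A ≤ A') (h2 : A' ≤ A'') (hb1 : Bd A A')
    (hb2 : Bd A' A'') : Bd A A'' := by
  intro h hh hf
  obtain ⟨H₁, hH₁, hH₁f, hB₁⟩ := hb2 h hh hf
  obtain ⟨H, hH, hHf, hB⟩ := hb1 H₁ hH₁ hH₁f
  refine ⟨H, hH, hHf, fun b => ?_⟩
  refine trn_step h1 b b (fun n m => leOn h H₁ n m) (fun n m => leOn H₁ H n m)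
    (fun n m => leOn h H n m) (hB₁ b) hB (fun n m => CS.leOn_mem A' hH₁ (trn_inF h1 hH) n m) ?_
  intro n₁ n m
  rw [inf_assoc]
  refine inf_le_inf_left _ ?_
  refine le_trans (inf_le_inf ?_ ?_) (leOn_trans h H₁ H (max n₁ n) m)
  · exact leOn_mono (le_max_left _ _) le_rfl (fun _ _ _ => le_rfl)
  · exact leOn_mono (le_max_right _ _) le_rfl (fun _ _ _ => le_rfl)

theorem nw_trans (hc : CCC B) {A A' A'' : CS B} (h1 : A ≤ A') (h2 : A' ≤ A'') (hb1 : Bd A A')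
    (hn1 : Nw A A') (hn2 : Nw A' A'') : Nw A A'' := by
  intro x hx
  obtain ⟨f₁, hf₁, hf₁f, hN₁⟩ := hn2 x hx
  obtain ⟨H, hH, hHf, hB⟩ := hb1 f₁ hf₁ hf₁f
  obtain ⟨r, hr, hrx⟩ := exists_seq_isin hc A' x
  choose f₂ hf₂ hf₂f hN₂ using fun i => hn1 (r i) (hr i)
  obtain ⟨f, hf, hff, hdom⟩ := exists_dom (A := A) (fun i => match i with
      | 0 => H
      | i + 1 => f₂ i) (fun i => by
        cases i with
        | zero => exact hH
        | succ i => exact hf₂ i) (fun i => by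
        cases i with
        | zero => exact hHf
        | succ i => exact hf₂f i)
  have hfH : ∀ j v, f j v ≤ H j v := fun j v => hdom 0 j v (Nat.zero_le _)
  have hff2 : ∀ i j v, i + 1 ≤ j → f j v ≤ f₂ i j v := fun i j v h => hdom (i + 1) j v h
  refine ⟨f, hf, hff, fun Y hY b hb => ?_⟩
  have hbdec : b = (b ⊓ (isin A' x)ᶜ) ⊔ ⨆ i, b ⊓ req x (r i) := by
    rw [← inf_iSup_eq, ← hrx, ← inf_sup_left, compl_sup_eq_top, inf_top_eq]
  have hgoal : pr A b = pr A (b ⊓ (isin A' x)ᶜ) ⊔ ⨆ i, pr A (b ⊓ req x (r i)) := by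
    conv_lhs => rw [hbdec]
    rw [pr_sup, pr_iSup]
  rw [hgoal]
  refine sup_le ?_ (iSup_le (fun i => ?_))
  · refine trn_step h1 (b ⊓ (isin A' x)ᶜ) b (fun n m => av f₁ x Y n m)
      (fun n m => leOn f₁ H n m) (fun n m => av f x Y n m)
      (hN₁ Y (trn_inR h1 hY) _ inf_le_right) hB
      (fun n m => CS.leOn_mem A' hf₁ (trn_inF h1 hH) n m) ?_
    intro n₁ n m
    refine le_inf ((inf_le_left.trans inf_le_left).trans inf_le_left) ?_
    refine le_trans (inf_le_inf_right _ inf_le_right) ?_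
    refine le_trans (inf_le_inf (av_mono (n' := max n₁ n) (m' := m) (f' := f₁) (le_max_left _ _) le_rfl
      (fun _ _ _ => le_rfl)) (leOn_mono (n' := max n₁ n) (m' := m) (H' := H) (le_max_right _ _) le_rfl
      (fun _ _ _ => le_rfl))) ?_
    refine (av_leOn f₁ H x Y (max n₁ n) m).trans ?_
    exact av_mono le_rfl le_rfl (fun j v _ => hfH j v)
  · have hbi : b ⊓ req x (r i) ≤ (isin A (r i))ᶜ := by
      rw [le_compl_iff_disjoint_right, disjoint_iff]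
      have h3 : req (r i) x ⊓ isin A (r i) ≤ isin A x := req_isin (r i) x
      rw [req_symm] at h3
      rw [← le_bot_iff, inf_assoc]
      refine (inf_le_inf hb h3).trans ?_
      rw [inf_comm, inf_compl_eq_bot]
    refine (hN₂ i Y hY _ hbi).trans (iSup_le (fun n => ?_))
    refine le_iSup_of_le (max n (i + 1)) (iInf_mono (fun m => pr_mono A ?_))
    rw [inf_assoc]
    refine inf_le_inf_left _ ?_
    rw [req_symm]
    refine (av_congr (f₂ i) (r i) x Y n m).trans ?_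
    exact av_mono (le_max_left _ _) le_rfl
      (fun j v hj => hff2 i j v ((le_max_right _ _).trans hj))

end MAdd
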