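import Pool.Agent.H7.MAdd.PONE
import Pool.Agent.H7.MAdd.PCNT
import Pool.Agent.H7.MAdd.TRN
import Pool.Agent.H7.MAdd.LIM

/-!
# PIND: the induction along the iteration

`pind_lim`: `J` a lower set without largest element, `δ ∈ J`, and `Bd`, `Nw` hold from `Sb (Iio δ)` to
`Sb (Iio d)` for all `d ∈ J`, `δ ≤ d`.  Then they hold from `Sb (Iio δ)` to `Sb J`.  Given `h` (coded as one
real) or `x` of `Sb J` use `Sb_cases`.  First case: `h` is in `Sb (Iio d)`, and we may assume `δ ≤ d`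
(replace `d` by the maximum, `Sb_mono`); `Bd`, `Nw` for `Sb (Iio d)` quantify over all `b : B`, so they give
the statement directly.  Second case: `Ak k = Sb (Iio (max δ (c k)))` and `lim_bd`, `lim_nw`; `hd` from
`Sb_dense` (if `d < c k` then `Iio d ⊆ Iio (c k)`).
`pind`: by well-founded induction on `c`, for `δ ≤ c`: `c = δ`: `bd_refl`, `nw_refl`.  `δ < c`: if `Iio c` has a
largest element `d` then `δ ≤ d`, `Iio c = Iic d` and use the induction hypothesis for `d`,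
`bd_one`/`nw_one` and `bd_trans`/`nw_trans`; otherwise `pind_lim`.
`pind_univ`: `pind_lim` for `J = univ` (`Ok.nomax`).
`pind_empty`: `∅ = Iio δ` for the least element `δ` of `L`.
-/

set_option autoImplicit false

open BV

namespace MAdd

variable {L K : Type} [LinearOrder L] [WellFoundedLT L] {D : Dat L K}
  {B : Type} [CompleteBooleanAlgebra B] {e : Cond L K → B}

/-- the second case of the limit step -/
theorem pind_lim2 (hD : Ok D) (he : DE D e) {J : Set L} (hJ : IsLowerSet J) {δ : L} (hδ : δ ∈ J)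
    (hmax : ∀ d ∈ J, ∃ d' ∈ J, d < d')
    (h : ∀ d ∈ J, δ ≤ d → Bd (Sb he (Set.Iio δ) (isLowerSet_Iio δ)) (Sb he (Set.Iio d) (isLowerSet_Iio d)) ∧
      Nw (Sb he (Set.Iio δ) (isLowerSet_Iio δ)) (Sb he (Set.Iio d) (isLowerSet_Iio d)))
    (c : ℕ → L) (hc1 : ∀ k, c k ∈ J) (hc2 : ∀ d ∈ J, ∃ k, d < c k) :
    Bd (Sb he (Set.Iio δ) (isLowerSet_Iio δ)) (Sb he J hJ) ∧
      Nw (Sb he (Set.Iio δ) (isLowerSet_Iio δ)) (Sb he J hJ) := by
  have hm : ∀ k, max δ (c k) ∈ J := by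
    intro k
    rcases le_total δ (c k) with h1 | h1
    · rw [max_eq_right h1]
      exact hc1 k
    · rw [max_eq_left h1]
      exact hδ
  have h1 : ∀ k, Sb he (Set.Iio δ) (isLowerSet_Iio δ) ≤
      Sb he (Set.Iio (max δ (c k))) (isLowerSet_Iio _) := fun k =>
    Sb_mono he _ _ (Set.Iio_subset_Iio (le_max_left _ _))
  have h2 : ∀ k, Sb he (Set.Iio (max δ (c k))) (isLowerSet_Iio _) ≤ Sb he J hJ := fun k =>
    Sb_mono he _ _ (fun x hx => hJ (le_of_lt hx) (hm k))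
  have hd : ∀ b ∈ Sb he J hJ, b ≠ ⊥ →
      ∃ k, ∃ a ∈ Sb he (Set.Iio (max δ (c k))) (isLowerSet_Iio _), a ≠ ⊥ ∧ a ≤ b := by
    intro b hb h0
    obtain ⟨d, hdJ, a, ha, ha0, hab⟩ := Sb_dense he hJ ⟨δ, hδ⟩ hmax hb h0
    obtain ⟨k, hk⟩ := hc2 d hdJ
    exact ⟨k, a, Sb_mono he _ _ (Set.Iio_subset_Iio (hk.le.trans (le_max_right _ _))) a ha, ha0,
      hab⟩
  refine ⟨lim_bd _ h1 h2 hd (fun k => (h _ (hm k) (le_max_left _ _)).1),
    lim_nw (ccc he) _ h1 h2 hd (fun k => (h _ (hm k) (le_max_left _ _)).1)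
      (fun k => (h _ (hm k) (le_max_left _ _)).2)⟩

theorem pind_lim (hD : Ok D) (he : DE D e) {J : Set L} (hJ : IsLowerSet J) {δ : L} (hδ : δ ∈ J)
    (hmax : ∀ d ∈ J, ∃ d' ∈ J, d < d')
    (h : ∀ d ∈ J, δ ≤ d → Bd (Sb he (Set.Iio δ) (isLowerSet_Iio δ)) (Sb he (Set.Iio d) (isLowerSet_Iio d)) ∧
      Nw (Sb he (Set.Iio δ) (isLowerSet_Iio δ)) (Sb he (Set.Iio d) (isLowerSet_Iio d))) :
    Bd (Sb he (Set.Iio δ) (isLowerSet_Iio δ)) (Sb he J hJ) ∧
      Nw (Sb he (Set.Iio δ) (isLowerSet_Iio δ)) (Sb he J hJ) := by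
  have hmx : ∀ d ∈ J, max δ d ∈ J := by
    intro d hd
    rcases le_total δ d with h1 | h1
    · rw [max_eq_right h1]
      exact hd
    · rw [max_eq_left h1]
      exact hδ
  constructor
  · intro f hf hf'
    have hx : InR (Sb he J hJ) (fun n => f (Nat.unpair n).1 (Nat.unpair n).2) := fun n => hf _ _
    rcases Sb_cases he hJ ⟨δ, hδ⟩ hmax hx with ⟨d, hdJ, hd⟩ | ⟨c, -, hc1, hc2⟩
    · have hf1 : InF (Sb he (Set.Iio (max δ d)) (isLowerSet_Iio _)) f := by
        intro i v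
        have := hd (Nat.pair i v)
        simp only [Nat.unpair_pair] at this
        exact Sb_mono he _ _ (Set.Iio_subset_Iio (le_max_right _ _)) _ this
      exact (h _ (hmx d hdJ) (le_max_left _ _)).1 f hf1 hf'
    · exact (pind_lim2 hD he hJ hδ hmax h c hc1 hc2).1 f hf hf'
  · intro x hx
    rcases Sb_cases he hJ ⟨δ, hδ⟩ hmax hx with ⟨d, hdJ, hd⟩ | ⟨c, -, hc1, hc2⟩
    · have hx1 : InR (Sb he (Set.Iio (max δ d)) (isLowerSet_Iio _)) x := fun n =>
        Sb_mono he _ _ (Set.Iio_subset_Iio (le_max_right _ _)) _ (hd n)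
      exact (h _ (hmx d hdJ) (le_max_left _ _)).2 x hx1
    · exact (pind_lim2 hD he hJ hδ hmax h c hc1 hc2).2 x hx

theorem pind (hD : Ok D) (he : DE D e) (δ c : L) (h : δ ≤ c) :
    Bd (Sb he (Set.Iio δ) (isLowerSet_Iio δ)) (Sb he (Set.Iio c) (isLowerSet_Iio c)) ∧
      Nw (Sb he (Set.Iio δ) (isLowerSet_Iio δ)) (Sb he (Set.Iio c) (isLowerSet_Iio c)) := by
  induction c using WellFoundedLT.induction with
  | ind c ih =>
    rcases eq_or_lt_of_le h with h1 | h1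
    · subst h1
      exact ⟨bd_refl _, nw_refl _⟩
    · by_cases hm : ∃ d, d < c ∧ ∀ d', d' < c → d' ≤ d
      · obtain ⟨d, hd, hd'⟩ := hm
        have hS : Sb he (Set.Iio c) (isLowerSet_Iio c) = Sb he (Set.Iic d) (isLowerSet_Iic d) := by
          have : Set.Iio c = Set.Iic d := by
            ext x
            exact ⟨fun hx => hd' x hx, fun hx => lt_of_le_of_lt hx hd⟩
          congr 1
        rw [hS]
        have h2 := ih d hd (hd' δ h1)
        have h3 : Sb he (Set.Iio δ) (isLowerSet_Iio δ) ≤ Sb he (Set.Iio d) (isLowerSet_Iio d) :=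
          Sb_mono he _ _ (Set.Iio_subset_Iio (hd' δ h1))
        have h4 : Sb he (Set.Iio d) (isLowerSet_Iio d) ≤ Sb he (Set.Iic d) (isLowerSet_Iic d) :=
          Sb_mono he _ _ Set.Iio_subset_Iic_self
        exact ⟨bd_trans h3 h4 h2.1 (bd_one hD he d),
          nw_trans (ccc he) h3 h4 h2.1 h2.2 (nw_one hD he d)⟩
      · refine pind_lim hD he (isLowerSet_Iio c) h1 ?_ ?_
        · intro d hd
          by_contra hcon
          push Not at hcon
          exact hm ⟨d, hd, fun d' hd' => hcon d' hd'⟩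
        · intro d hd hδd
          exact ih d hd hδd

theorem pind_univ (hD : Ok D) (he : DE D e) (δ : L) :
    Bd (Sb he (Set.Iio δ) (isLowerSet_Iio δ)) (Sb he Set.univ isLowerSet_univ) ∧
      Nw (Sb he (Set.Iio δ) (isLowerSet_Iio δ)) (Sb he Set.univ isLowerSet_univ) := by
  refine pind_lim hD he isLowerSet_univ (Set.mem_univ δ) ?_ ?_
  · intro d _
    obtain ⟨d', hd'⟩ := hD.nomax d
    exact ⟨d', Set.mem_univ _, hd'⟩
  · intro d _ hd
    exact pind hD he δ d hd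

theorem pind_empty (hD : Ok D) (he : DE D e) :
    Bd (Sb he ∅ isLowerSet_empty) (Sb he Set.univ isLowerSet_univ) := by
  obtain ⟨δ, hδ⟩ : ∃ δ : L, ∀ c, δ ≤ c := by
    obtain ⟨δ, -, hδ⟩ := (wellFounded_lt (α := L)).has_min Set.univ
      (by obtain ⟨x⟩ := hD.nonempty; exact ⟨x, trivial⟩)
    exact ⟨δ, fun c => not_lt.1 (hδ c trivial)⟩
  have h1 : (Set.Iio δ : Set L) = ∅ := by
    ext x
    simp only [Set.mem_Iio, Set.mem_empty_iff_false, iff_false, not_lt]
    exact hδ x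
  have h2 := (pind_univ hD he δ).1
  have hS : Sb he (Set.Iio δ) (isLowerSet_Iio δ) = Sb he ∅ isLowerSet_empty := by
    congr 1
  rw [hS] at h2
  exact h2

end MAdd
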