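import Pool.Agent.H7.MAdd.BDS
import Pool.Agent.H7.MAdd.NWS

/-!
# TRV: the trivial shape; elementary facts on `Bd`, `Nw`, `leOn`, `av`

`shp_top`: `β F = ⊤`; `sc`: the right side for any `l` is `≥ pr A g`.
`bd_of_mem`: for `b : B` use the hypothesis for `pr A' b ∈ A'`:
`pr A b = pr A (pr A' b) ≤ ⨆ n, ⨅ m, pr A (pr A' b ⊓ leOn h H n m)` and
`pr A' b ⊓ leOn h H n m = pr A' (b ⊓ leOn h H n m)` as `leOn h H n m ∈ A'`, `pr_pr`.
`nw_of_mem`: the same, with `pr A' b ≤ (isin A x)ᶜ ∈ A'`.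
`bd_refl`, `nw_refl`: `H = h`; `isin A x = ⊤` for reals of `A`, so `b = ⊥`.
`exists_dom`: `f j v = ⨅ i ≤ j, g i j v`.
-/

set_option autoImplicit false

namespace MAdd

variable {B : Type} [CompleteBooleanAlgebra B]

theorem shp_top (A : CS B) : Shp A (fun _ => ⊤) := by
  refine ⟨fun F _ => pr_top A, fun F _ g => ?_⟩
  refine le_trans ?_ (le_iSup _ 0)
  refine le_iInf fun F' => ?_
  rw [le_himp_iff]
  exact inf_le_left

theorem bd_of_mem {A A' : CS B} (hA : A ≤ A')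
    (H : ∀ h, InF A' h → IsFn h → ∃ H, InF A H ∧ IsFn H ∧
      ∀ b ∈ A', pr A b ≤ ⨆ n, ⨅ m, pr A (b ⊓ leOn h H n m)) : Bd A A' := by
  intro h hh hh'
  obtain ⟨G, hG1, hG2, hG3⟩ := H h hh hh'
  refine ⟨G, hG1, hG2, fun b => ?_⟩
  have h1 := hG3 (pr A' b) (pr_mem A' b)
  rw [pr_pr hA] at h1
  refine h1.trans (iSup_mono fun n => iInf_mono fun m => ?_)
  have h2 : leOn h G n m ∈ A' := CS.leOn_mem A' hh (fun i v => hA _ (hG1 i v)) n m
  rw [← pr_inf' A' h2, pr_pr hA]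

theorem nw_of_mem {A A' : CS B} (hA : A ≤ A')
    (H : ∀ x, InR A' x → ∃ f, InF A f ∧ IsFn f ∧
      ∀ Y, InR A Y → ∀ b ∈ A', b ≤ (isin A x)ᶜ → pr A b ≤ ⨆ n, ⨅ m, pr A (b ⊓ av f x Y n m)) :
    Nw A A' := by
  intro x hx
  obtain ⟨f, hf1, hf2, hf3⟩ := H x hx
  refine ⟨f, hf1, hf2, fun Y hY b hb => ?_⟩
  have h0 : (isin A x)ᶜ ∈ A' := CS.compl_mem A' (isin_mem hA hx)
  have h1 := hf3 Y hY (pr A' b) (pr_mem A' b) (pr_le A' h0 hb)
  rw [pr_pr hA] at h1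
  refine h1.trans (iSup_mono fun n => iInf_mono fun m => ?_)
  have h2 : av f x Y n m ∈ A' :=
    CS.av_mem A' (fun i v => hA _ (hf1 i v)) hx (fun n => hA _ (hY n)) n m
  rw [← pr_inf' A' h2, pr_pr hA]

theorem trv_leOn_self (h : ℕ → ℕ → B) (n m : ℕ) : leOn h h n m = ⊤ := by
  unfold leOn
  simp

theorem bd_refl (A : CS B) : Bd A A := by
  intro h hh hh'
  refine ⟨h, hh, hh', fun b => ?_⟩
  refine le_trans ?_ (le_iSup _ 0)
  refine le_iInf fun m => ?_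
  rw [trv_leOn_self, inf_top_eq]

theorem nw_refl (A : CS B) : Nw A A := by
  intro x hx
  refine ⟨fun _ _ => ⊤, fun _ _ => CS.top_mem A, ⟨fun _ _ _ _ => le_rfl, fun _ => by simp⟩, ?_⟩
  intro Y _ b hb
  have h1 : isin A x = ⊤ := by
    rw [eq_top_iff]
    refine le_trans ?_ (le_iSup (fun r : {r : ℕ → B // InR A r} => req x r.1) ⟨x, hx⟩)
    unfold req
    simp
  rw [h1, compl_top, le_bot_iff] at hb
  rw [hb, pr_bot]
  exact bot_le

/-- finite infima of increasing sequences with supremum `⊤` -/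
theorem trv_iSup_inf (g : ℕ → ℕ → B) (hm : ∀ i v w, v ≤ w → g i v ≤ g i w)
    (ht : ∀ i, (⨆ v, g i v) = ⊤) (n : ℕ) : (⨆ v, ⨅ i, ⨅ (_ : i < n), g i v) = ⊤ := by
  induction n with
  | zero => simp
  | succ n ih =>
    rw [eq_top_iff]
    calc (⊤ : B) = (⨆ v, ⨅ i, ⨅ (_ : i < n), g i v) ⊓ ⨆ w, g n w := by rw [ih, ht, inf_top_eq]
      _ ≤ ⨆ v, ⨅ i, ⨅ (_ : i < n + 1), g i v := by
        rw [iSup_inf_eq]
        refine iSup_le fun v => ?_
        rw [inf_iSup_eq]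
        refine iSup_le fun w => ?_
        refine le_trans ?_ (le_iSup _ (max v w))
        refine le_iInf fun i => le_iInf fun hi => ?_
        rcases Nat.lt_succ_iff_lt_or_eq.1 hi with h1 | h1
        · refine inf_le_left.trans ((iInf₂_le i h1).trans (hm i _ _ (le_max_left _ _)))
        · subst h1
          exact inf_le_right.trans (hm i _ _ (le_max_right _ _))

/-- countably many functions of `A` are eventually dominated by one -/
theorem exists_dom {A : CS B} (g : ℕ → ℕ → ℕ → B) (hg : ∀ i, InF A (g i)) (hg' : ∀ i, IsFn (g i)) :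
    ∃ f, InF A f ∧ IsFn f ∧ ∀ i j v, i ≤ j → f j v ≤ g i j v := by
  refine ⟨fun j v => ⨅ i, ⨅ (_ : i < j + 1), g i j v, ?_, ⟨?_, ?_⟩, ?_⟩
  · intro j v
    exact CS.iInf_mem A fun i => CS.iInf_mem A fun _ => hg i j v
  · intro j v w hvw
    exact iInf_mono fun i => iInf_mono fun _ => (hg' i).mono j v w hvw
  · intro j
    exact trv_iSup_inf (fun i v => g i j v) (fun i v w h => (hg' i).mono j v w h)
      (fun i => (hg' i).tot j) (j + 1)
  · intro i j v hij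
    exact iInf₂_le i (Nat.lt_succ_of_le hij)

theorem leOn_mono {h H H' : ℕ → ℕ → B} {n m n' m' : ℕ} (hn : n ≤ n') (hm : m' ≤ m)
    (hH : ∀ j v, n' ≤ j → H' j v ≤ H j v) : leOn h H n m ≤ leOn h H' n' m' := by
  unfold leOn
  refine le_iInf fun j => le_iInf fun hj => le_iInf fun v => ?_
  refine (iInf₂_le j ⟨hn.trans hj.1, hj.2.trans_le hm⟩).trans ((iInf_le _ v).trans ?_)
  exact himp_le_himp_right (hH j v hj.1)

theorem leOn_trans (h H H' : ℕ → ℕ → B) (n m : ℕ) :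
    leOn h H n m ⊓ leOn H H' n m ≤ leOn h H' n m := by
  unfold leOn
  refine le_iInf fun j => le_iInf fun hj => le_iInf fun v => ?_
  rw [le_himp_iff]
  have h1 : (⨅ j, ⨅ (_ : n ≤ j ∧ j < m), ⨅ v, H j v ⇨ h j v) ≤ H j v ⇨ h j v :=
    (iInf₂_le j hj).trans (iInf_le _ v)
  have h2 : (⨅ j, ⨅ (_ : n ≤ j ∧ j < m), ⨅ v, H' j v ⇨ H j v) ≤ H' j v ⇨ H j v :=
    (iInf₂_le j hj).trans (iInf_le _ v)
  refine le_trans (inf_le_inf_right _ (inf_le_inf h1 h2)) ?_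
  calc (H j v ⇨ h j v) ⊓ (H' j v ⇨ H j v) ⊓ H' j v ≤ (H j v ⇨ h j v) ⊓ H j v := by
        rw [inf_assoc]
        exact inf_le_inf_left _ himp_inf_le
    _ ≤ h j v := himp_inf_le

theorem av_mono {f f' : ℕ → ℕ → B} {x Y : ℕ → B} {n m n' m' : ℕ} (hn : n ≤ n') (hm : m' ≤ m)
    (hf : ∀ j v, n' ≤ j → f' j v ≤ f j v) : av f x Y n m ≤ av f' x Y n' m' := by
  unfold av
  refine le_iInf fun j => le_iInf fun hj => le_iInf fun v => ?_
  refine (iInf₂_le j ⟨hn.trans hj.1, hj.2.trans_le hm⟩).trans ((iInf_le _ v).trans ?_)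
  exact himp_le_himp_right (hf j v hj.1)

theorem av_leOn (f H : ℕ → ℕ → B) (x Y : ℕ → B) (n m : ℕ) :
    av f x Y n m ⊓ leOn f H n m ≤ av H x Y n m := by
  unfold av leOn
  refine le_iInf fun j => le_iInf fun hj => le_iInf fun v => ?_
  rw [le_himp_iff]
  have h1 : (⨅ j, ⨅ (_ : n ≤ j ∧ j < m), ⨅ v, f j v ⇨ (mat x Y j v)ᶜ) ≤ f j v ⇨ (mat x Y j v)ᶜ :=
    (iInf₂_le j hj).trans (iInf_le _ v)
  have h2 : (⨅ j, ⨅ (_ : n ≤ j ∧ j < m), ⨅ v, H j v ⇨ f j v) ≤ H j v ⇨ f j v :=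
    (iInf₂_le j hj).trans (iInf_le _ v)
  refine le_trans (inf_le_inf_right _ (inf_le_inf h1 h2)) ?_
  calc (f j v ⇨ (mat x Y j v)ᶜ) ⊓ (H j v ⇨ f j v) ⊓ H j v ≤ (f j v ⇨ (mat x Y j v)ᶜ) ⊓ f j v := by
        rw [inf_assoc]
        exact inf_le_inf_left _ himp_inf_le
    _ ≤ (mat x Y j v)ᶜ := himp_inf_le

theorem trv_bihimp (a b c : B) : bihimp a b ⊓ bihimp b c ≤ bihimp a c := by
  have h1 : bihimp a b ⊓ a ≤ b := by
    unfold bihimp
    rw [inf_assoc]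
    exact inf_le_right.trans himp_inf_le
  have h2 : bihimp b c ⊓ b ≤ c := by
    unfold bihimp
    rw [inf_assoc]
    exact inf_le_right.trans himp_inf_le
  have h3 : bihimp b c ⊓ c ≤ b := by
    rw [bihimp_comm]
    unfold bihimp
    rw [inf_assoc]
    exact inf_le_right.trans himp_inf_le
  have h4 : bihimp a b ⊓ b ≤ a := by
    rw [bihimp_comm]
    unfold bihimp
    rw [inf_assoc]
    exact inf_le_right.trans himp_inf_le
  show _ ≤ (c ⇨ a) ⊓ (a ⇨ c)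
  refine le_inf ?_ ?_
  · rw [le_himp_iff]
    refine le_trans ?_ h4
    refine le_inf (inf_le_left.trans inf_le_left) ?_
    exact le_trans (inf_le_inf_right _ inf_le_right) h3
  · rw [le_himp_iff]
    refine le_trans ?_ h2
    refine le_inf (inf_le_left.trans inf_le_right) ?_
    exact le_trans (inf_le_inf_right _ inf_le_left) h1

theorem av_congr (f : ℕ → ℕ → B) (x x' Y : ℕ → B) (n m : ℕ) :
    req x x' ⊓ av f x Y n m ≤ av f x' Y n m := by
  unfold av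
  refine le_iInf fun j => le_iInf fun hj => le_iInf fun v => ?_
  rw [le_himp_iff]
  have h1 : (⨅ j, ⨅ (_ : n ≤ j ∧ j < m), ⨅ v, f j v ⇨ (mat x Y j v)ᶜ) ≤ f j v ⇨ (mat x Y j v)ᶜ :=
    (iInf₂_le j hj).trans (iInf_le _ v)
  have h2 : req x x' ⊓ mat x' Y j v ≤ mat x Y j v := by
    unfold mat
    refine le_iInf fun k => le_iInf fun hk => ?_
    refine le_trans (inf_le_inf (iInf_le _ k) (iInf₂_le k hk)) ?_
    exact trv_bihimp _ _ _
  have h3 : (f j v ⇨ (mat x Y j v)ᶜ) ⊓ f j v ≤ (mat x Y j v)ᶜ := himp_inf_le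
  rw [le_compl_iff_disjoint_right, disjoint_iff_inf_le]
  calc req x x' ⊓ (⨅ j, ⨅ (_ : n ≤ j ∧ j < m), ⨅ v, f j v ⇨ (mat x Y j v)ᶜ) ⊓ f j v ⊓ mat x' Y j v
      ≤ (req x x' ⊓ mat x' Y j v) ⊓ ((f j v ⇨ (mat x Y j v)ᶜ) ⊓ f j v) := by
        refine le_inf (le_inf ?_ inf_le_right) (le_inf ?_ ?_)
        · exact (inf_le_left.trans inf_le_left).trans inf_le_left
        · exact ((inf_le_left.trans inf_le_left).trans inf_le_right).trans h1
        · exact inf_le_left.trans inf_le_right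
    _ ≤ mat x Y j v ⊓ (mat x Y j v)ᶜ := inf_le_inf h2 h3
    _ ≤ ⊥ := by rw [inf_compl_eq_bot]

/-- `isin A x` is a supremum of countably many `req x r`, `r` a real of `A` -/
theorem exists_seq_isin (hc : CCC B) (A : CS B) (x : ℕ → B) :
    ∃ r : ℕ → ℕ → B, (∀ i, InR A (r i)) ∧ isin A x = ⨆ i, req x (r i) := by
  obtain ⟨T, hT1, hT2, hT3⟩ := hc (Set.range fun r : {r : ℕ → B // InR A r} => req x r.1)
  have hle : ∀ r, InR A r → req x r ≤ isin A x := fun r hr =>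
    le_iSup (fun r : {r : ℕ → B // InR A r} => req x r.1) ⟨r, hr⟩
  have hin : isin A x = sSup T := by
    rw [hT3, sSup_range]
    rfl
  rcases T.eq_empty_or_nonempty with h0 | h0
  · refine ⟨fun _ _ => ⊥, fun _ _ => CS.bot_mem A, le_antisymm ?_ ?_⟩
    · rw [hin, h0, sSup_empty]
      exact bot_le
    · exact iSup_le fun i => hle _ (fun _ => CS.bot_mem A)
  · obtain ⟨t, ht⟩ := hT2.exists_eq_range h0
    have h1 : ∀ i, ∃ r : ℕ → B, InR A r ∧ req x r = t i := by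
      intro i
      obtain ⟨r, hr⟩ := hT1 (show t i ∈ T by rw [ht]; exact ⟨i, rfl⟩)
      exact ⟨r.1, r.2, hr⟩
    choose r hr1 hr2 using h1
    refine ⟨r, hr1, ?_⟩
    rw [hin, ht, sSup_range]
    exact iSup_congr fun i => (hr2 i).symm

end MAdd
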