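import Pool.Agent.H7.MAdd.PSC
import Pool.Agent.H7.MAdd.TRV

/-!
# PONE: one step of the iteration

Let `A = Sb (Iio c)`, `A' = Sb (Iic c)`.  Use `bd_of_mem`, `nw_of_mem`.
`bd_one`: `h` of `A'`.  For every shape `(s, k)` let `H_{s,k}` of `A` be given by
`bds (shp_bet hD he c s k) h`; let `H` of `A` be eventually below all of them (`exists_dom`; encode
`List (List Bool) × ℕ` by natural numbers, `Encodable`): `H j v ≤ H_{s,k} j v` for `j ≥ n(s,k)`.
Let `b ∈ A'`, `P = ⨆ n, ⨅ m, pr A (b ⊓ leOn h H n m) ∈ A`.  Suppose `a = pr A b ⊓ Pᶜ ≠ ⊥`; `a ⊓ b ≠ ⊥`, so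
there is `p` with `e p ≤ a ⊓ b`, and we may replace `p` by `res (Iic c) p` (`a ⊓ b ∈ A'`).  By `e_split` and
`bet_eq'` (`p c = ⟨s, F₀⟩`): `e p = e (res (Iio c) p) ⊓ β F` with `β = bet e c f s k`, `F` a real of `A`.  For all
`m`, with `n = n(s,k)`: `pr A (e p ⊓ leOn h H n m) = e (res (Iio c) p) ⊓ pr A (β F ⊓ leOn h H n m) =
e (res (Iio c) p)` as `leOn h H n m ≥ leOn h H_{s,k} 0 m`.  So `e (res (Iio c) p) ≤ P`, contradicting
`e p ≤ a`.
`nw_one`: the same with `nws`: `b ≤ (isin A x)ᶜ`, so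
`pr A (e p ⊓ av f x Y n m) = pr A (e p ⊓ (isin A x ⊔ av f x Y n m))`.
-/

set_option autoImplicit false

open BV

namespace MAdd

variable {L K : Type} [LinearOrder L] [WellFoundedLT L] {D : Dat L K}
  {B : Type} [CompleteBooleanAlgebra B] {e : Cond L K → B}

/-- the pattern of both arguments: `G n m` are elements of `B`, and for every shape the projections
of `β F ⊓ G n m` are large from some `n` on -/
theorem pone_aux (he : DE D e) (c : L) (G : ℕ → ℕ → B) {b : B}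
    (hb : b ∈ Sb he (Set.Iic c) (isLowerSet_Iic c))
    (hG : ∀ (s : List (List Bool)) (k : ℕ) (F : ℕ → B),
      InR (Sb he (Set.Iio c) (isLowerSet_Iio c)) F →
      ∀ a ∈ Sb he (Set.Iio c) (isLowerSet_Iio c),
        a ⊓ bet e c (cfun (nval e c (D.fb c))) s k F ≤ b →
        ∃ n, ∀ m, a ≤ pr (Sb he (Set.Iio c) (isLowerSet_Iio c))
          (a ⊓ bet e c (cfun (nval e c (D.fb c))) s k F ⊓ G n m)) :
    pr (Sb he (Set.Iio c) (isLowerSet_Iio c)) b ≤
      ⨆ n, ⨅ m, pr (Sb he (Set.Iio c) (isLowerSet_Iio c)) (b ⊓ G n m) := by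
  set A := Sb he (Set.Iio c) (isLowerSet_Iio c) with hA
  set P : B := ⨆ n, ⨅ m, pr A (b ⊓ G n m) with hP
  have hPA : P ∈ A := CS.iSup_mem A fun n => CS.iInf_mem A fun m => pr_mem A _
  by_contra hcon
  have h1 : pr A b ⊓ Pᶜ ≠ ⊥ := by
    intro h0
    exact hcon (disjoint_compl_right_iff.mp (disjoint_iff.mpr h0))
  have h2 : pr A b ⊓ Pᶜ ∈ A := CS.inf_mem A (pr_mem A _) (CS.compl_mem A hPA)
  have h3 : (pr A b ⊓ Pᶜ) ⊓ b ≠ ⊥ := by
    intro h0
    have h4 := pr_inf A h2 b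
    rw [h0, pr_bot] at h4
    apply h1
    rw [inf_right_comm, inf_idem] at h4
    exact h4.symm
  obtain ⟨p, hp⟩ := he.dense _ h3
  have hAle : A ≤ Sb he (Set.Iic c) (isLowerSet_Iic c) := Sb_mono he _ _ Set.Iio_subset_Iic_self
  have h5 : (pr A b ⊓ Pᶜ) ⊓ b ∈ Sb he (Set.Iic c) (isLowerSet_Iic c) :=
    CS.inf_mem _ (hAle _ h2) hb
  have h6 : e (res (Set.Iic c) p) ≤ (pr A b ⊓ Pᶜ) ⊓ b := h5 p hp
  set q := res (Set.Iic c) p with hq
  have hqq : res (Set.Iic c) q = q := by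
    rw [hq, res_res, Set.inter_self]
  have h7 := e_split he c hqq
  obtain ⟨k, F, hF, hbet⟩ := bet_eq' (D := D) he c (q c).s (q c).F
  have h8 : e q = e (res (Set.Iio c) q) ⊓ bet e c (cfun (nval e c (D.fb c))) (q c).s k F := by
    rw [h7, hbet]
  have h9 : e (res (Set.Iio c) q) ∈ A := by
    refine e_mem he _ ?_
    rw [res_res, Set.inter_self]
  obtain ⟨n, hn⟩ := hG (q c).s k F hF _ h9 (by
    rw [← h8]
    exact h6.trans inf_le_right)
  have h10 : e (res (Set.Iio c) q) ≤ P := by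
    refine le_trans (le_iInf fun m => ?_) (le_iSup (fun n => ⨅ m, pr A (b ⊓ G n m)) n)
    refine (hn m).trans (pr_mono A ?_)
    rw [← h8]
    exact inf_le_inf_right _ (h6.trans inf_le_right)
  apply he.ne_bot q
  rw [← le_bot_iff]
  calc e q ≤ P ⊓ Pᶜ := by
        refine le_inf ?_ ((h6.trans inf_le_left).trans inf_le_right)
        rw [h8]
        exact inf_le_left.trans h10
    _ = ⊥ := inf_compl_eq_bot

theorem bd_one (hD : Ok D) (he : DE D e) (c : L) :
    Bd (Sb he (Set.Iio c) (isLowerSet_Iio c)) (Sb he (Set.Iic c) (isLowerSet_Iic c)) := by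
  set A := Sb he (Set.Iio c) (isLowerSet_Iio c) with hA
  refine bd_of_mem (Sb_mono he _ _ Set.Iio_subset_Iic_self) ?_
  intro h _ hh
  choose H hH1 hH2 hH3 using fun (z : List (List Bool) × ℕ) => bds (shp_bet hD he c z.1 z.2) h hh
  obtain ⟨z0⟩ : Nonempty (List (List Bool) × ℕ) := ⟨([], 0)⟩
  obtain ⟨g, hg1, hg2, hg3⟩ := exists_dom (A := A)
    (fun n => H ((Encodable.decode (α := List (List Bool) × ℕ) n).getD z0))
    (fun n => hH1 _) (fun n => hH2 _)
  refine ⟨g, hg1, hg2, fun b hb => ?_⟩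
  refine pone_aux he c (fun n m => leOn h g n m) hb ?_
  intro s k F hF a ha _
  refine ⟨Encodable.encode (s, k), fun m => ?_⟩
  have h1 := hH3 (s, k) F hF m
  have h2 : leOn h (H (s, k)) 0 m ≤ leOn h g (Encodable.encode (s, k)) m := by
    refine leOn_mono (Nat.zero_le _) le_rfl ?_
    intro j v hj
    have := hg3 (Encodable.encode (s, k)) j v hj
    simpa using this
  rw [inf_assoc, pr_inf A ha]
  refine le_inf le_rfl ?_
  refine le_trans le_top ?_
  rw [← h1]
  exact pr_mono A (inf_le_inf_left _ h2)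

theorem nw_one (hD : Ok D) (he : DE D e) (c : L) :
    Nw (Sb he (Set.Iio c) (isLowerSet_Iio c)) (Sb he (Set.Iic c) (isLowerSet_Iic c)) := by
  set A := Sb he (Set.Iio c) (isLowerSet_Iio c) with hA
  refine nw_of_mem (Sb_mono he _ _ Set.Iio_subset_Iic_self) ?_
  intro x _
  choose H hH1 hH2 hH3 using fun (z : List (List Bool) × ℕ) => nws (shp_bet hD he c z.1 z.2) x
  obtain ⟨z0⟩ : Nonempty (List (List Bool) × ℕ) := ⟨([], 0)⟩
  obtain ⟨g, hg1, hg2, hg3⟩ := exists_dom (A := A)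
    (fun n => H ((Encodable.decode (α := List (List Bool) × ℕ) n).getD z0))
    (fun n => hH1 _) (fun n => hH2 _)
  refine ⟨g, hg1, hg2, fun Y hY b hb hbx => ?_⟩
  refine pone_aux he c (fun n m => av g x Y n m) hb ?_
  intro s k F hF a ha hab
  refine ⟨Encodable.encode (s, k), fun m => ?_⟩
  have h1 := hH3 (s, k) F hF Y hY m
  have h2 : av (H (s, k)) x Y 0 m ≤ av g x Y (Encodable.encode (s, k)) m := by
    refine av_mono (Nat.zero_le _) le_rfl ?_
    intro j v hj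
    have := hg3 (Encodable.encode (s, k)) j v hj
    simpa using this
  have h3 : a ⊓ (bet e c (cfun (nval e c (D.fb c))) s k F ⊓ (isin A x ⊔ av (H (s, k)) x Y 0 m)) ≤
      a ⊓ bet e c (cfun (nval e c (D.fb c))) s k F ⊓ av g x Y (Encodable.encode (s, k)) m := by
    rw [← inf_assoc, inf_sup_left]
    refine sup_le ?_ (inf_le_inf_left _ h2)
    have h4 : a ⊓ bet e c (cfun (nval e c (D.fb c))) s k F ⊓ isin A x ≤ ⊥ := by
      refine le_trans (inf_le_inf_right _ (hab.trans hbx)) ?_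
      rw [compl_inf_self]
    exact h4.trans bot_le
  refine le_trans ?_ (pr_mono A h3)
  rw [pr_inf A ha, h1, inf_top_eq]

end MAdd
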