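import Pool.Agent.H7.MAdd.PDef

/-!
# PORD: the orders are preorders; elementary facts on the forcing relations

By strong induction on `c` (`WellFoundedLT.induction`): `leB D c` is reflexive and transitive.
* reflexivity: `u = []`; `WW D d i s [] p` holds, because `good` is vacuous for `u = []` and `leB D d`
  is reflexive (`WW_eq`).
* transitivity `p ≤ q ≤ r` at `d < c`: `(q d).s = (r d).s ++ u2`, `(p d).s = (q d).s ++ u1`; take
  `u = u2 ++ u1`.  For `i ∈ (r d).F`: `WW D d i (r d).s u2 q`, so `WW D d i (r d).s u2 p` by `WW_down`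
  (`leB D d p q` is the restriction of the hypothesis), `WW D d i ((r d).s ++ u2) u1 p`, and `WW_append`.
* `WW_down` is immediate from the transitivity of `leB D d`.
* `decR_down`, `good_down`: `decR`, `goodB`, `good` are inherited by stronger conditions
  (transitivity of the order).  `WW_append`: given `p1 ≤ p` take `p2 ≤ p1` good for `u1`, `p3 ≤ p2` good
  for `(s ++ u1, u2)`; a block of `u1 ++ u2` is a block of `u1` or of `u2`
  (`List.append_eq_append_iff`, `List.append_eq_cons_iff`, ...).
General lemmas with an arbitrary transitive relation `le` may be useful: `WW_append_aux`.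
-/

set_option autoImplicit false

open BV

namespace MAdd

section General

variable {C : Type} {le : C → C → Prop}

theorem decR_down (ht : ∀ p q r, le p q → le q r → le p r) {r : ℕ → ℕ → Option C} {p q : C} {n : ℕ}
    {t : Bool} (hpq : le p q) (h : decR le r q n t) : decR le r p n t := by
  cases t with
  | true =>
    obtain ⟨m, a, h1, h2⟩ := h
    exact ⟨m, a, h1, ht _ _ _ hpq h2⟩
  | false =>
    intro m a h1
    rintro ⟨x, h2, h3⟩
    exact h m a h1 ⟨x, ht _ _ _ h2 hpq, h3⟩

theorem decF_down (ht : ∀ p q r, le p q → le q r → le p r) {r : ℕ → ℕ → Option C} {p q : C}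
    {w v : ℕ} (hpq : le p q) (h : decF le r q w v) : decF le r p w v := by
  obtain ⟨h0, h | h⟩ := h
  · obtain ⟨v', h1, h2⟩ := h
    exact ⟨h0, Or.inl ⟨v', h1, decR_down ht hpq h2⟩⟩
  · exact ⟨h0, Or.inr fun v' => decR_down ht hpq (h v')⟩

theorem good_down (ht : ∀ p q r, le p q → le q r → le p r) {f r : ℕ → ℕ → Option C} {p q : C}
    {s u : List (List Bool)} (hpq : le p q) (h : good le f r q s u) : good le f r p s u := by
  intro u1 t u2 hu
  obtain ⟨w, v, h1, h2, h3, h4⟩ := h u1 t u2 hu
  exact ⟨w, v, h1, h2, decF_down ht hpq h3, fun n hn hn' => decR_down ht hpq (h4 n hn hn')⟩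

theorem good_append {f r : ℕ → ℕ → Option C} {p : C} {s u1 u2 : List (List Bool)}
    (h1 : good le f r p s u1) (h2 : good le f r p (s ++ u1) u2) : good le f r p s (u1 ++ u2) := by
  intro v1 t v2 hv
  rcases List.append_eq_append_iff.1 hv with ⟨a, ha, hb⟩ | ⟨a, ha, hb⟩
  · have h3 := h2 a t v2 hb
    rw [List.append_assoc, ← ha] at h3
    exact h3
  · cases a with
    | nil =>
      rw [List.append_nil] at ha
      have h3 := h2 [] t v2 hb.symm
      rw [List.append_nil] at h3
      rw [ha] at h3
      exact h3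
    | cons x a =>
      rw [List.cons_append, List.cons.injEq] at hb
      obtain ⟨rfl, _⟩ := hb
      exact h1 v1 t a ha

theorem pord_nil (hr : ∀ p, le p p) {f r : ℕ → ℕ → Option C} {p : C} {s : List (List Bool)} :
    frc le f r s [] p := by
  intro p1 _
  refine ⟨p1, hr p1, fun u1 t u2 hu => ?_⟩
  exact absurd hu (by simp)

theorem pord_down (ht : ∀ p q r, le p q → le q r → le p r) {f r : ℕ → ℕ → Option C} {p q : C}
    {s u : List (List Bool)} (hpq : le p q) (h : frc le f r s u q) : frc le f r s u p :=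
  fun p1 hp1 => h p1 (ht _ _ _ hp1 hpq)

theorem pord_append (ht : ∀ p q r, le p q → le q r → le p r) {f r : ℕ → ℕ → Option C} {p : C}
    {s u1 u2 : List (List Bool)} (h1 : frc le f r s u1 p) (h2 : frc le f r (s ++ u1) u2 p) :
    frc le f r s (u1 ++ u2) p := by
  intro p1 hp1
  obtain ⟨p2, hp2, hg2⟩ := h1 p1 hp1
  obtain ⟨p3, hp3, hg3⟩ := h2 p2 (ht _ _ _ hp2 hp1)
  exact ⟨p3, ht _ _ _ hp3 hp2, good_append (good_down ht hp3 hg2) hg3⟩

end General

variable {L K : Type} [LinearOrder L] [WellFoundedLT L] (D : Dat L K)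

/-- the composition step -/
theorem pord_step {d : L} (ht : ∀ p q r, leB D d p q → leB D d q r → leB D d p r)
    {p q r : Cond L K} (hpq : leB D d p q)
    (h1 : ∃ u, (p d).s = (q d).s ++ u ∧ (q d).F ⊆ (p d).F ∧ ∀ i ∈ (q d).F, WW D d i (q d).s u p)
    (h2 : ∃ u, (q d).s = (r d).s ++ u ∧ (r d).F ⊆ (q d).F ∧ ∀ i ∈ (r d).F, WW D d i (r d).s u q) :
    ∃ u, (p d).s = (r d).s ++ u ∧ (r d).F ⊆ (p d).F ∧ ∀ i ∈ (r d).F, WW D d i (r d).s u p := by
  obtain ⟨u1, hs1, hF1, hW1⟩ := h1
  obtain ⟨u2, hs2, hF2, hW2⟩ := h2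
  refine ⟨u2 ++ u1, ?_, hF2.trans hF1, fun i hi => ?_⟩
  · rw [hs1, hs2, List.append_assoc]
  · rw [WW_eq]
    have h3 := hW2 i hi
    rw [WW_eq] at h3
    have h4 := hW1 i (hF2 hi)
    rw [WW_eq, hs2] at h4
    exact pord_append ht (pord_down ht hpq h3) h4

theorem pord_main (c : L) : (∀ p, leB D c p p) ∧
    ∀ p q r, leB D c p q → leB D c q r → leB D c p r := by
  induction c using WellFoundedLT.induction with
  | ind c ih =>
    refine ⟨fun p d hd => ⟨[], (List.append_nil _).symm, Finset.Subset.refl _, fun i _ => ?_⟩,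
      fun p q r h1 h2 d hd => ?_⟩
    · rw [WW_eq]
      exact pord_nil (ih d hd).1
    · exact pord_step D (ih d hd).2 (fun e he => h1 e (he.trans hd)) (h1 d hd) (h2 d hd)

theorem leB_refl (c : L) (p : Cond L K) : leB D c p p := by
  exact (pord_main D c).1 p

theorem leB_trans (c : L) (p q r : Cond L K) (h1 : leB D c p q) (h2 : leB D c q r) :
    leB D c p r := by
  exact (pord_main D c).2 p q r h1 h2

theorem leB_mono {c c' : L} (h : c ≤ c') {p q : Cond L K} (hpq : leB D c' p q) :
    leB D c p q := by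
  exact fun d hd => hpq d (hd.trans_le h)

theorem WW_nil (c : L) (i : K) (s : List (List Bool)) (p : Cond L K) : WW D c i s [] p := by
  rw [WW_eq]
  exact pord_nil (leB_refl D c)

theorem WW_down {c : L} {i : K} {s u : List (List Bool)} {p q : Cond L K} (h : WW D c i s u q)
    (hpq : leB D c p q) : WW D c i s u p := by
  rw [WW_eq] at h ⊢
  exact pord_down (leB_trans D c) hpq h

theorem WW_append {c : L} {i : K} {s u1 u2 : List (List Bool)} {p : Cond L K}
    (h1 : WW D c i s u1 p) (h2 : WW D c i (s ++ u1) u2 p) : WW D c i s (u1 ++ u2) p := by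
  rw [WW_eq] at h1 h2 ⊢
  exact pord_append (leB_trans D c) h1 h2

theorem pord_congr_right {c : L} {p q q' : Cond L K} (h : ∀ d, d < c → q d = q' d)
    (h1 : leB D c p q) : leB D c p q' := by
  intro d hd
  rw [← h d hd]
  exact h1 d hd

/-- conditions which agree below `c` force the same -/
theorem WW_congr {c : L} {i : K} {s u : List (List Bool)} {p q : Cond L K}
    (h : ∀ d, d < c → p d = q d) : WW D c i s u p ↔ WW D c i s u q := by
  rw [WW_eq, WW_eq]
  exact ⟨fun h1 p1 hp1 => h1 p1 (pord_congr_right D (fun d hd => (h d hd).symm) hp1),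
    fun h1 p1 hp1 => h1 p1 (pord_congr_right D h hp1)⟩

theorem leB_congr {c : L} {p p' q q' : Cond L K} (hp : ∀ d, d < c → p d = p' d)
    (hq : ∀ d, d < c → q d = q' d) : leB D c p q ↔ leB D c p' q' := by
  have key : ∀ {p p' : Cond L K}, (∀ d, d < c → p d = p' d) → ∀ q, leB D c p q → leB D c p' q := by
    intro p p' hp q h d hd
    obtain ⟨u, h1, h2, h3⟩ := h d hd
    rw [hp d hd] at h1 h2
    exact ⟨u, h1, h2, fun i hi => (WW_congr D fun e he => hp e (he.trans hd)).1 (h3 i hi)⟩
  constructor
  · exact fun h => key hp _ (pord_congr_right D hq h)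
  · exact fun h => key (fun d hd => (hp d hd).symm) _
      (pord_congr_right D (fun d hd => (hq d hd).symm) h)

theorem leP_refl (p : Cond L K) : leP D p p := by
  exact fun d => ⟨[], (List.append_nil _).symm, Finset.Subset.refl _, fun i _ => WW_nil D d i _ p⟩

theorem leP_trans (p q r : Cond L K) (h1 : leP D p q) (h2 : leP D q r) : leP D p r := by
  exact fun d => pord_step D (leB_trans D d) (fun e _ => h1 e) (h1 d) (h2 d)

theorem leB_of_leP {p q : Cond L K} (h : leP D p q) (c : L) : leB D c p q := by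
  exact fun d _ => h d

end MAdd
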