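import Pool.Agent.H7.MAdd.PORD

/-!
# PRES: restriction, amalgamation, changing one cell

`res I p` agrees with `p` on `I` and is `0` outside, `amal I q p` is `q` on `I` and `p` outside,
`upd p c x` is `x` at `c` and `p` elsewhere.  Where the stem does not change use `u = []` and
`WW_nil`; where the forcing relation is about a condition which agrees below the coordinate with
another one use `WW_congr`; here it is important that `I` is a lower set (`IsLowerSet I`).
`(0 : Cond L K) c = ⟨[], ∅⟩`.
-/

set_option autoImplicit false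

open BV

namespace MAdd

variable {L K : Type} [LinearOrder L] [WellFoundedLT L] (D : Dat L K)

theorem pres_zero_s (c : L) : ((0 : Cond L K) c).s = [] := rfl

theorem pres_zero_F (c : L) : ((0 : Cond L K) c).F = ∅ := rfl

theorem res_apply_of_mem {I : Set L} {c : L} (h : c ∈ I) (p : Cond L K) : res I p c = p c := by
  classical
  unfold res
  exact Finsupp.filter_apply_pos (fun c => c ∈ I) p h

theorem res_apply_of_notMem {I : Set L} {c : L} (h : c ∉ I) (p : Cond L K) : res I p c = 0 := by
  classical
  unfold res
  exact Finsupp.filter_apply_neg (fun c => c ∈ I) p h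

theorem res_res (I J : Set L) (p : Cond L K) : res I (res J p) = res (I ∩ J) p := by
  refine Finsupp.ext fun c => ?_
  by_cases hI : c ∈ I
  · rw [res_apply_of_mem hI]
    by_cases hJ : c ∈ J
    · rw [res_apply_of_mem hJ, res_apply_of_mem (show c ∈ I ∩ J from ⟨hI, hJ⟩)]
    · rw [res_apply_of_notMem hJ, res_apply_of_notMem (fun h => hJ h.2)]
  · rw [res_apply_of_notMem hI, res_apply_of_notMem (fun h => hI h.1)]

theorem res_univ (p : Cond L K) : res Set.univ p = p := by
  exact Finsupp.ext fun c => res_apply_of_mem (Set.mem_univ c) p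

theorem res_empty (p : Cond L K) : res (∅ : Set L) p = 0 := by
  exact Finsupp.ext fun c => res_apply_of_notMem (Set.notMem_empty c) p

theorem res_zero (I : Set L) : res I (0 : Cond L K) = 0 := by
  refine Finsupp.ext fun c => ?_
  by_cases hI : c ∈ I
  · rw [res_apply_of_mem hI]
  · rw [res_apply_of_notMem hI]
    rfl

theorem amal_apply_of_mem {I : Set L} {c : L} (h : c ∈ I) (q p : Cond L K) :
    amal I q p c = q c := by
  unfold amal
  rw [Finsupp.onFinset_apply]
  exact if_pos h

theorem amal_apply_of_notMem {I : Set L} {c : L} (h : c ∉ I) (q p : Cond L K) :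
    amal I q p c = p c := by
  unfold amal
  rw [Finsupp.onFinset_apply]
  exact if_neg h

theorem upd_self (p : Cond L K) (c : L) (x : Cell K) : upd p c x c = x := by
  unfold upd
  rw [Finsupp.coe_update, Function.update_self]

theorem upd_of_ne (p : Cond L K) {c d : L} (h : d ≠ c) (x : Cell K) : upd p c x d = p d := by
  unfold upd
  rw [Finsupp.coe_update, Function.update_of_ne h]

/-- the step with unchanged cell -/
theorem pres_same {p q : Cond L K} {d : L} (h : p d = q d) :
    ∃ u, (p d).s = (q d).s ++ u ∧ (q d).F ⊆ (p d).F ∧ ∀ i ∈ (q d).F, WW D d i (q d).s u p := by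
  refine ⟨[], ?_, ?_, fun i _ => WW_nil D d i _ p⟩
  · rw [h, List.append_nil]
  · rw [h]

/-- the step over the trivial cell -/
theorem pres_triv {p q : Cond L K} {d : L} (h : q d = 0) :
    ∃ u, (p d).s = (q d).s ++ u ∧ (q d).F ⊆ (p d).F ∧ ∀ i ∈ (q d).F, WW D d i (q d).s u p := by
  refine ⟨(p d).s, ?_, ?_, ?_⟩
  · rw [h]; rfl
  · rw [h]; exact Finset.empty_subset _
  · rw [h]; intro i hi; exact absurd hi (Finset.notMem_empty i)

theorem leP_zero (p : Cond L K) : leP D p 0 := by
  exact fun d => pres_triv D rfl

theorem leP_res (I : Set L) (p : Cond L K) : leP D p (res I p) := by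
  intro d
  by_cases h : d ∈ I
  · exact pres_same D (res_apply_of_mem h p).symm
  · exact pres_triv D (res_apply_of_notMem h p)

theorem leP_res_res {I J : Set L} (h : I ⊆ J) (p : Cond L K) : leP D (res J p) (res I p) := by
  have h1 := leP_res D I (res J p)
  rwa [res_res, Set.inter_eq_left.2 h] at h1

theorem res_mono {I : Set L} (hI : IsLowerSet I) {p q : Cond L K} (h : leP D p q) :
    leP D (res I p) (res I q) := by
  intro d
  by_cases hd : d ∈ I
  · obtain ⟨u, h1, h2, h3⟩ := h d
    rw [res_apply_of_mem hd, res_apply_of_mem hd]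
    exact ⟨u, h1, h2, fun i hi => (WW_congr D fun e he =>
      (res_apply_of_mem (hI he.le hd) p).symm).1 (h3 i hi)⟩
  · exact pres_triv D (res_apply_of_notMem hd q)

theorem leB_iff_res (c : L) (p q : Cond L K) :
    leB D c p q ↔ leP D (res (Set.Iio c) p) (res (Set.Iio c) q) := by
  constructor
  · intro h d
    by_cases hd : d < c
    · obtain ⟨u, h1, h2, h3⟩ := h d hd
      rw [res_apply_of_mem (show d ∈ Set.Iio c from hd), res_apply_of_mem (show d ∈ Set.Iio c from hd)]
      exact ⟨u, h1, h2, fun i hi => (WW_congr D fun e he =>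
        (res_apply_of_mem (show e ∈ Set.Iio c from he.trans hd) p).symm).1 (h3 i hi)⟩
    · exact pres_triv D (res_apply_of_notMem (show d ∉ Set.Iio c from hd) q)
  · intro h d hd
    obtain ⟨u, h1, h2, h3⟩ := h d
    rw [res_apply_of_mem (show d ∈ Set.Iio c from hd), res_apply_of_mem (show d ∈ Set.Iio c from hd)]
      at h1
    rw [res_apply_of_mem (show d ∈ Set.Iio c from hd), res_apply_of_mem (show d ∈ Set.Iio c from hd)]
      at h2
    rw [res_apply_of_mem (show d ∈ Set.Iio c from hd)] at h3
    exact ⟨u, h1, h2, fun i hi => (WW_congr D fun e he =>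
      (res_apply_of_mem (show e ∈ Set.Iio c from he.trans hd) p)).1 (h3 i hi)⟩

theorem amal_le_right {I : Set L} (hI : IsLowerSet I) {p q : Cond L K}
    (h : leP D q (res I p)) : leP D (amal I q p) p := by
  intro d
  by_cases hd : d ∈ I
  · obtain ⟨u, h1, h2, h3⟩ := h d
    rw [res_apply_of_mem hd] at h1 h2 h3
    rw [amal_apply_of_mem hd]
    exact ⟨u, h1, h2, fun i hi => (WW_congr D fun e he =>
      (amal_apply_of_mem (hI he.le hd) q p).symm).1 (h3 i hi)⟩
  · exact pres_same D (amal_apply_of_notMem hd q p)

theorem amal_le_left {I : Set L} (hI : IsLowerSet I) {p q : Cond L K} (hq : res I q = q) :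
    leP D (amal I q p) q := by
  intro d
  by_cases hd : d ∈ I
  · exact pres_same D (amal_apply_of_mem hd q p)
  · exact pres_triv D (by rw [← hq]; exact res_apply_of_notMem hd q)

theorem res_amal {I : Set L} {p q : Cond L K} (hq : res I q = q) : res I (amal I q p) = q := by
  refine Finsupp.ext fun d => ?_
  by_cases hd : d ∈ I
  · rw [res_apply_of_mem hd, amal_apply_of_mem hd]
  · rw [res_apply_of_notMem hd, ← hq, res_apply_of_notMem hd]

/-- changing the cell at `c` -/
theorem upd_le {p : Cond L K} {c : L} {x : Cell K} {u : List (List Bool)}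
    (hs : x.s = (p c).s ++ u) (hF : (p c).F ⊆ x.F) (hW : ∀ i ∈ (p c).F, WW D c i (p c).s u p) :
    leP D (upd p c x) p := by
  intro d
  by_cases hd : d = c
  · subst hd
    rw [upd_self]
    exact ⟨u, hs, hF, fun i hi => (WW_congr D fun e he =>
      (upd_of_ne p he.ne x).symm).1 (hW i hi)⟩
  · exact pres_same D (upd_of_ne p hd x)

/-- a condition is below the condition with a single cell at `c` -/
theorem le_single {p : Cond L K} {c : L} {x : Cell K} {u : List (List Bool)}
    (hs : (p c).s = x.s ++ u) (hF : x.F ⊆ (p c).F) (hW : ∀ i ∈ x.F, WW D c i x.s u p) :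
    leP D p (upd 0 c x) := by
  intro d
  by_cases hd : d = c
  · subst hd
    rw [upd_self]
    exact ⟨u, hs, hF, hW⟩
  · exact pres_triv D (upd_of_ne 0 hd x)

/-- a common extension of a condition `p` supported on `Iic c` is a common extension of its part
below `c` and its cell at `c` -/
theorem le_of_parts {p q : Cond L K} {c : L} (hp : res (Set.Iic c) p = p)
    (h1 : leP D q (res (Set.Iio c) p)) (h2 : leP D q (upd 0 c (p c))) : leP D q p := by
  intro d
  rcases lt_trichotomy d c with hd | hd | hd
  · have h := h1 d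
    rwa [res_apply_of_mem (show d ∈ Set.Iio c from hd)] at h
  · subst hd
    have h := h2 d
    rwa [upd_self] at h
  · refine pres_triv D ?_
    rw [← hp]
    exact res_apply_of_notMem (show d ∉ Set.Iic c from fun h => absurd h (not_le.2 hd)) p

end MAdd
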