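import Pool.Agent.H7.MAdd.PSG

/-!
# PSC: compactness of the conditions with a given stem and a given number of reals

Let `A = Sb (Iio c)`, `f = cfun (nval e c (D.fb c))`, `β F = bet e c f s k F`.
`top`: `β F = e (upd 0 c ⟨s, F₀⟩)` (`bet_eq`), `pr_e`, the restriction to `Iio c` is `0`, `e_zero`.
`sc`: let `R` be the right side, `R ∈ A`.  Suppose `a := pr A (β F ⊓ g) ⊓ Rᶜ ≠ ⊥`, `a ∈ A`.  Then
`a ⊓ β F ⊓ g ≠ ⊥` (its projection is `a`).  Take `p` with `e p ≤ a ⊓ β F ⊓ g` and
`p ≤ upd 0 c ⟨s, F₀⟩`; so `(p c).s = s ++ u`, `F₀ ⊆ (p c).F`, `WW D c i s u p` for `i ∈ F₀`, that is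
`e (res (Iio c) p) ≤ hits f (n ↦ F (pair j n)) s u` for `j < k`.  Let `l` be larger than `pair j n` for all
`j < k`, `n < len (s ++ u)`.  Claim: for every real `F'` of `A`:
`e (res (Iio c) p) ⊓ mat F F' 0 l ≤ pr A (β F' ⊓ g)`.  Then `e p ≤ e (res (Iio c) p) ≤ R`, a
contradiction to `e p ≤ a ≤ Rᶜ`.
Proof of the claim by contradiction: there is `q` with
`e q ≤ e (res (Iio c) p) ⊓ mat F F' 0 l ⊓ (pr A (β F' ⊓ g))ᶜ ∈ A`; we may assume `q ≤ res (Iio c) p`,
and then replace `q` by `res (Iio c) q` (definition of `Sb`).  Let `F₀'` be given by `bet_eq` for `F'`,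
`q' = upd (amal (Iio c) q p) c ⟨(p c).s, (p c).F ∪ F₀'⟩`.  Then `q' ≤ amal (Iio c) q p ≤ p` so
`e q' ≤ g`; `q' ≤ upd 0 c ⟨s, F₀'⟩` (`le_single`): `WW D c i s u q'` for `i ∈ F₀'` by `WW_iff`:
`e q ≤ hits f (F'_j) s u` by `hits_congr`.  So `e q' ≤ β F' ⊓ g ≤ pr A (β F' ⊓ g)` and `e q' ≤ e q`
(`amal_le_left`).
-/

set_option autoImplicit false

open BV

namespace MAdd

variable {L K : Type} [LinearOrder L] [WellFoundedLT L] {D : Dat L K}
  {B : Type} [CompleteBooleanAlgebra B] {e : Cond L K → B}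

theorem psc_res_upd_zero (c : L) (x : Cell K) : res (Set.Iio c) (upd 0 c x) = (0 : Cond L K) := by
  apply Finsupp.ext
  intro d
  by_cases h : d ∈ Set.Iio c
  · rw [res_apply_of_mem h, upd_of_ne _ (ne_of_lt h)]
  · rw [res_apply_of_notMem h]
    rfl

/-- a condition whose value is below the value of another one has a common extension with it -/
theorem psc_common (he : DE D e) {p q : Cond L K} (h : e p ≤ e q) :
    ∃ r, leP D r p ∧ leP D r q := by
  apply he.compat
  rw [inf_eq_left.2 h]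
  exact he.ne_bot p

theorem psc_mat_pair {F F' : ℕ → B} {j k m : ℕ} (hj : j < k) :
    mat F F' 0 (Nat.pair k m) ≤
      mat (fun n => F (Nat.pair j n)) (fun n => F' (Nat.pair j n)) 0 m := by
  refine le_iInf fun n => le_iInf fun hn => ?_
  refine (iInf_le _ (Nat.pair j n)).trans (iInf_le _ ⟨Nat.zero_le _, ?_⟩)
  exact (Nat.pair_lt_pair_left n hj).trans (Nat.pair_lt_pair_right k hn.2)

theorem shp_bet (hD : Ok D) (he : DE D e) (c : L) (s : List (List Bool)) (k : ℕ) :
    Shp (Sb he (Set.Iio c) (isLowerSet_Iio c)) (bet e c (cfun (nval e c (D.fb c))) s k) := by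
  classical
  constructor
  · intro F hF
    obtain ⟨F₀, h0, -, -⟩ := bet_eq hD he c s k hF
    rw [h0, pr_e, psc_res_upd_zero, he.e_zero]
  · intro F hF g
    obtain ⟨F₀, h0, h1, h2⟩ := bet_eq hD he c s k hF
    have hR : (⨆ l, ⨅ F' : {F' : ℕ → B // InR (Sb he (Set.Iio c) (isLowerSet_Iio c)) F'},
        mat F F'.1 0 l ⇨ pr (Sb he (Set.Iio c) (isLowerSet_Iio c))
          (bet e c (cfun (nval e c (D.fb c))) s k F'.1 ⊓ g)) ∈
        Sb he (Set.Iio c) (isLowerSet_Iio c) := by
      refine CS.iSup_mem _ fun l => CS.iInf_mem _ fun F' => CS.himp_mem _ ?_ (pr_mem _ _)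
      exact CS.mat_mem _ hF F'.2 0 l
    refine pr_le _ hR ?_
    refine he.le_of_dense fun p0 hp0 => ?_
    obtain ⟨p, hp1, hp2⟩ : ∃ p, leP D p p0 ∧ leP D p (upd 0 c ⟨s, F₀⟩) := by
      apply psc_common he
      rw [← h0]
      exact hp0.trans inf_le_left
    refine ⟨p, hp1, ?_⟩
    have hpg : e p ≤ g := (he.mono _ _ hp1).trans (hp0.trans inf_le_right)
    obtain ⟨u, hu1, hu2, hu3⟩ := hp2 c
    rw [upd_self] at hu1 hu2 hu3
    have hhits : ∀ j, j < k → e (res (Set.Iio c) p) ≤
        hits (cfun (nval e c (D.fb c))) (fun n => F (Nat.pair j n)) s u := by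
      intro j hj
      obtain ⟨i, hi, hi2⟩ := h2 j hj
      have := (WW_iff he c i s u p).1 (hu3 i hi)
      rwa [hi2] at this
    refine (he.mono _ _ (leP_res D (Set.Iio c) p)).trans ?_
    refine le_trans ?_ (le_iSup _ (Nat.pair k (len (s ++ u))))
    refine le_iInf fun F' => ?_
    rw [le_himp_iff]
    have hx : e (res (Set.Iio c) p) ⊓ mat F F'.1 0 (Nat.pair k (len (s ++ u))) ∈
        Sb he (Set.Iio c) (isLowerSet_Iio c) := by
      refine CS.inf_mem _ (e_mem he _ ?_) (CS.mat_mem _ hF F'.2 _ _)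
      rw [res_res, Set.inter_self]
    refine he.le_of_dense fun q hq => ?_
    obtain ⟨q1, hq1, hq2⟩ : ∃ q1, leP D q1 q ∧ leP D q1 (res (Set.Iio c) p) :=
      psc_common he (hq.trans inf_le_left)
    refine ⟨q1, hq1, ?_⟩
    have hr1 : e (res (Set.Iio c) q1) ≤
        e (res (Set.Iio c) p) ⊓ mat F F'.1 0 (Nat.pair k (len (s ++ u))) :=
      hx q1 ((he.mono _ _ hq1).trans hq)
    have hr2 : leP D (res (Set.Iio c) q1) (res (Set.Iio c) p) := by
      have := res_mono D (isLowerSet_Iio c) hq2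
      rwa [res_res, Set.inter_self] at this
    have hrr : res (Set.Iio c) (res (Set.Iio c) q1) = res (Set.Iio c) q1 := by
      rw [res_res, Set.inter_self]
    obtain ⟨F₁, g0, g1, g2⟩ := bet_eq hD he c s k F'.2
    set r := res (Set.Iio c) q1 with hrdef
    have hm : leP D (amal (Set.Iio c) r p) p := amal_le_right D (isLowerSet_Iio c) hr2
    have hmc : amal (Set.Iio c) r p c = p c :=
      amal_apply_of_notMem (by simp) r p
    set q' := upd (amal (Set.Iio c) r p) c ⟨(p c).s, (p c).F ∪ F₁⟩ with hq'def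
    have hq'1 : leP D q' (amal (Set.Iio c) r p) := by
      refine upd_le D (u := []) ?_ ?_ ?_
      · simp [hmc]
      · rw [hmc]
        exact Finset.subset_union_left
      · intro i _
        exact WW_nil D c i _ _
    have hq'r : res (Set.Iio c) q' = r := by
      apply Finsupp.ext
      intro d
      by_cases h : d ∈ Set.Iio c
      · rw [res_apply_of_mem h, hq'def, upd_of_ne _ (ne_of_lt h), amal_apply_of_mem h]
      · rw [res_apply_of_notMem h, hrdef, res_apply_of_notMem h]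
    have hq'c : q' c = ⟨(p c).s, (p c).F ∪ F₁⟩ := upd_self _ _ _
    have hq'2 : leP D q' (upd 0 c ⟨s, F₁⟩) := by
      refine le_single D (u := u) ?_ ?_ ?_
      · rw [hq'c]
        exact hu1
      · rw [hq'c]
        exact Finset.subset_union_right
      · intro i hi
        rw [WW_iff he, hq'r]
        obtain ⟨j, hj, hj2⟩ := g1 i hi
        rw [hj2]
        refine le_trans ?_ (hits_congr (cfun (nval e c (D.fb c))) (fun n => F (Nat.pair j n)) _ s u
          (len (s ++ u)) le_rfl)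
        refine le_inf ?_ ?_
        · exact (hr1.trans inf_le_right).trans (psc_mat_pair hj)
        · exact (hr1.trans inf_le_left).trans (hhits j hj)
    have hfin : e q' ≤ pr (Sb he (Set.Iio c) (isLowerSet_Iio c))
        (bet e c (cfun (nval e c (D.fb c))) s k F'.1 ⊓ g) := by
      refine le_trans (le_inf ?_ ?_) (le_pr _ _)
      · rw [g0]
        exact he.mono _ _ hq'2
      · exact (he.mono _ _ hq'1).trans ((he.mono _ _ hm).trans hpg)
    have hfin2 : e (res (Set.Iio c) q') ≤ pr (Sb he (Set.Iio c) (isLowerSet_Iio c))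
        (bet e c (cfun (nval e c (D.fb c))) s k F'.1 ⊓ g) :=
      (pr_mem (Sb he (Set.Iio c) (isLowerSet_Iio c)) _) q' hfin
    rw [hq'r] at hfin2
    exact (he.mono _ _ (leP_res D (Set.Iio c) q1)).trans hfin2

end MAdd
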