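import Pool.Agent.H7.MAdd.PFT

/-!
# PSG: conditions with one cell; splitting a condition at its last coordinate

Write `f = cfun (nval e c (D.fb c))`.
* `e_single`, `≤`: for `u`: `e (upd 0 c ⟨s, F⟩) ⊓ gn e c (s ++ u) ≤ hits f (nval e c (D.ν c i)) s u`: by
  `le_of_dense`; a condition `q` with `e q` below the left side may be taken below both conditions;
  `(q c).s = s ++ u'` and `(q c).s = s ++ u ++ u''`, so `u' = u ++ u''`; `WW D c i s u' q`, so
  `e (res (Iio c) q) ≤ hits .. s u' ≤ hits .. s u` (`hits_append`), and `e q ≤ e (res (Iio c) q)`.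
  `≥`: by `le_of_dense`; let `e q ≤` right side; may assume `q ≤ upd 0 c ⟨s, ∅⟩`, `(q c).s = s ++ u'`, so
  `e q ≤ gn e c (s ++ u')` (`le_single`), hence `e q ≤ hits f (nval ..) s u'` for `i ∈ F`; this element is in
  `Sb (Iio c)`, so `e (res (Iio c) q) ≤ hits ..`, `WW D c i s u' q`.  `q' = upd q c ⟨(q c).s, (q c).F ∪ F⟩` is
  below `q` (`upd_le` with `u = []`) and below `upd 0 c ⟨s, F⟩` (`le_single`; `q'` and `q` agree below `c`).
* `bet_eq`: choose indices of the reals `n ↦ F (pair j n)`, `j < k` by `exists_index`.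
* `bet_eq'`: enumerate `F₀` (`Finset.equivFin`), `F (pair j n) = nval e c (D.ν c (i j)) n` (and `⊥` for
  `j ≥ k`).
* `e_split`: `le_of_parts`.
* `gn_antitone`: `upd 0 c ⟨s ++ u, ∅⟩ ≤ upd 0 c ⟨s, ∅⟩`.
-/

set_option autoImplicit false

open BV

namespace MAdd

variable {L K : Type} [LinearOrder L] [WellFoundedLT L] {D : Dat L K}
  {B : Type} [CompleteBooleanAlgebra B] {e : Cond L K → B}

/-- what it means to be below a condition with one cell -/
theorem psg_of_le {c : L} {x : Cell K} {q : Cond L K} (h : leP D q (upd 0 c x)) :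
    ∃ u, (q c).s = x.s ++ u ∧ x.F ⊆ (q c).F ∧ ∀ i ∈ x.F, WW D c i x.s u q := by
  have h1 := h c
  rwa [upd_self] at h1

/-- below a condition with `e p ≤ e r` there is a common extension -/
theorem psg_compat (he : DE D e) {p r : Cond L K} (h : e p ≤ e r) :
    ∃ q, leP D q p ∧ leP D q r := by
  apply he.compat
  rw [inf_eq_left.2 h]
  exact he.ne_bot p

theorem gn_append_le (he : DE D e) (c : L) (s u : List (List Bool)) :
    gn e c (s ++ u) ≤ gn e c s := by
  refine he.mono _ _ (le_single D (u := u) ?_ ?_ ?_)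
  · rw [upd_self]
  · exact Finset.empty_subset _
  · intro i hi
    exact absurd hi (Finset.notMem_empty i)

theorem gn_nil (he : DE D e) (c : L) : gn e c [] = ⊤ := by
  have h : upd (0 : Cond L K) c ⟨[], ∅⟩ = 0 := by
    apply Finsupp.ext
    intro d
    by_cases hd : d = c
    · subst hd
      rw [upd_self]
      rfl
    · rw [upd_of_ne _ hd]
  unfold gn
  rw [h]
  exact he.e_zero

/-- stems of the same generic sequence are comparable -/
theorem gn_inf (he : DE D e) (c : L) (s s' : List (List Bool)) (h : gn e c s ⊓ gn e c s' ≠ ⊥) :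
    (∃ u, s' = s ++ u) ∨ ∃ u, s = s' ++ u := by
  obtain ⟨r, h1, h2⟩ := he.compat _ _ h
  obtain ⟨u, hu, _⟩ := psg_of_le h1
  obtain ⟨u', hu', _⟩ := psg_of_le h2
  have h3 : s ++ u = s' ++ u' := by
    rw [hu] at hu'
    exact hu'
  rcases List.append_eq_append_iff.1 h3 with ⟨a, ha, _⟩ | ⟨a, ha, _⟩
  · exact Or.inl ⟨a, ha⟩
  · exact Or.inr ⟨a, ha⟩

theorem e_single (he : DE D e) (c : L) (s : List (List Bool)) (F : Finset K) :
    e (upd 0 c ⟨s, F⟩) = gn e c s ⊓ ⨅ i, ⨅ (_ : i ∈ F),
      prm e c (cfun (nval e c (D.fb c))) s (nval e c (D.ν c i)) := by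
  classical
  apply le_antisymm
  · refine le_inf ?_ ?_
    · refine he.mono _ _ (le_single D (u := []) ?_ ?_ ?_)
      · rw [upd_self, List.append_nil]
      · exact Finset.empty_subset _
      · intro i hi
        exact absurd hi (Finset.notMem_empty i)
    · refine le_iInf fun i => le_iInf fun hi => le_iInf fun u => ?_
      rw [le_himp_iff]
      apply he.le_of_dense
      intro p hp
      obtain ⟨q1, hq1p, hq1⟩ := psg_compat he (hp.trans inf_le_left)
      obtain ⟨q, hq, hq2⟩ := psg_compat he ((he.mono _ _ hq1p).trans (hp.trans inf_le_right))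
      refine ⟨q, leP_trans D _ _ _ hq hq1p, ?_⟩
      obtain ⟨u', hu', _, hW⟩ := psg_of_le (leP_trans D _ _ _ hq hq1)
      obtain ⟨u'', hu'', _⟩ := psg_of_le hq2
      have h1 : u' = u ++ u'' := by
        have h2 : s ++ u' = s ++ (u ++ u'') := by
          rw [← List.append_assoc]
          rw [hu'] at hu''
          exact hu''
        exact List.append_cancel_left h2
      have h3 := (WW_iff he c i s u' q).1 (hW i hi)
      rw [h1] at h3
      exact ((he.mono _ _ (leP_res D (Set.Iio c) q)).trans h3).trans (hits_append _ _ _ _ _)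
  · apply he.le_of_dense
    intro p hp
    obtain ⟨q, hqp, hq⟩ := psg_compat he (hp.trans inf_le_left)
    obtain ⟨u', hu', _, _⟩ := psg_of_le hq
    have hu1 : (q c).s = s ++ u' := hu'
    have hgn : e q ≤ gn e c (s ++ u') := by
      refine he.mono _ _ (le_single D (u := []) ?_ ?_ ?_)
      · rw [hu1, List.append_nil]
      · exact Finset.empty_subset _
      · intro i hi
        exact absurd hi (Finset.notMem_empty i)
    have hW : ∀ i ∈ F, WW D c i s u' q := by
      intro i hi
      rw [WW_iff he]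
      have h1 : e q ≤ hits (cfun (nval e c (D.fb c))) (nval e c (D.ν c i)) s u' := by
        have h2 : e q ≤ gn e c (s ++ u') ⇨
            hits (cfun (nval e c (D.fb c))) (nval e c (D.ν c i)) s u' := by
          refine ((he.mono _ _ hqp).trans (hp.trans inf_le_right)).trans ?_
          exact (iInf_le_of_le i (iInf_le_of_le hi (iInf_le _ u')))
        calc e q ≤ (gn e c (s ++ u') ⇨
            hits (cfun (nval e c (D.fb c))) (nval e c (D.ν c i)) s u') ⊓ gn e c (s ++ u') :=
              le_inf h2 hgn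
          _ ≤ _ := himp_inf_le
      have h3 : hits (cfun (nval e c (D.fb c))) (nval e c (D.ν c i)) s u' ∈
          Sb he (Set.Iio c) (isLowerSet_Iio c) :=
        hits_mem (cfun_mem (nval_mem he c _)) (nval_mem he c _) s u'
      exact (mem_Sb he).1 h3 q h1
    refine ⟨upd q c ⟨(q c).s, (q c).F ∪ F⟩, ?_, ?_⟩
    · refine leP_trans D _ _ _ ?_ hqp
      refine upd_le D (u := []) ?_ ?_ ?_
      · rw [List.append_nil]
      · exact Finset.subset_union_left
      · intro i _
        exact WW_nil D c i _ _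
    · refine he.mono _ _ (le_single D (u := u') ?_ ?_ ?_)
      · rw [upd_self]
        exact hu1
      · rw [upd_self]
        exact Finset.subset_union_right
      · intro i hi
        refine (WW_congr D ?_).1 (hW i hi)
        intro d hd
        rw [upd_of_ne _ (ne_of_lt hd)]

theorem bet_eq (hD : Ok D) (he : DE D e) (c : L) (s : List (List Bool)) (k : ℕ) {F : ℕ → B}
    (hF : InR (Sb he (Set.Iio c) (isLowerSet_Iio c)) F) :
    ∃ F₀ : Finset K, bet e c (cfun (nval e c (D.fb c))) s k F = e (upd 0 c ⟨s, F₀⟩) ∧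
      (∀ i ∈ F₀, ∃ j, j < k ∧ nval e c (D.ν c i) = fun n => F (Nat.pair j n)) ∧
      ∀ j, j < k → ∃ i ∈ F₀, nval e c (D.ν c i) = fun n => F (Nat.pair j n) := by
  classical
  have h1 : ∀ j : ℕ, ∃ i, nval e c (D.ν c i) = fun n => F (Nat.pair j n) := fun j =>
    exists_index hD he c (fun n => hF (Nat.pair j n))
  choose ι hι using h1
  refine ⟨(Finset.range k).image ι, ?_, ?_, ?_⟩
  · rw [e_single he]
    unfold bet
    congr 1
    apply le_antisymm
    · refine le_iInf fun i => le_iInf fun hi => ?_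
      obtain ⟨j, hj, rfl⟩ := Finset.mem_image.1 hi
      rw [hι]
      exact iInf_le_of_le j (iInf_le_of_le (Finset.mem_range.1 hj) le_rfl)
    · refine le_iInf fun j => le_iInf fun hj => ?_
      rw [← hι]
      exact iInf_le_of_le (ι j) (iInf_le_of_le
        (Finset.mem_image_of_mem ι (Finset.mem_range.2 hj)) le_rfl)
  · intro i hi
    obtain ⟨j, hj, rfl⟩ := Finset.mem_image.1 hi
    exact ⟨j, Finset.mem_range.1 hj, hι j⟩
  · intro j hj
    exact ⟨ι j, Finset.mem_image_of_mem ι (Finset.mem_range.2 hj), hι j⟩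

theorem bet_eq' (he : DE D e) (c : L) (s : List (List Bool)) (F₀ : Finset K) :
    ∃ (k : ℕ) (F : ℕ → B), InR (Sb he (Set.Iio c) (isLowerSet_Iio c)) F ∧
      bet e c (cfun (nval e c (D.fb c))) s k F = e (upd 0 c ⟨s, F₀⟩) := by
  classical
  set F : ℕ → B := fun m =>
    if h : (Nat.unpair m).1 < F₀.card then
      nval e c (D.ν c (F₀.equivFin.symm ⟨(Nat.unpair m).1, h⟩ : F₀)) (Nat.unpair m).2
    else ⊥ with hFdef
  have hval : ∀ (j : ℕ) (h : j < F₀.card),
      (fun n => F (Nat.pair j n)) = nval e c (D.ν c (F₀.equivFin.symm ⟨j, h⟩ : F₀)) := by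
    intro j h
    funext n
    simp only [hFdef, Nat.unpair_pair]
    rw [dif_pos h]
  refine ⟨F₀.card, F, ?_, ?_⟩
  · intro m
    simp only [hFdef]
    split_ifs with h
    · exact nval_mem he c _ _
    · have h1 := (Sb he (Set.Iio c) (isLowerSet_Iio c)).sSup_mem' ∅ (Set.empty_subset _)
      rw [sSup_empty] at h1
      exact h1
  · rw [e_single he]
    unfold bet
    congr 1
    apply le_antisymm
    · refine le_iInf fun i => le_iInf fun hi => ?_
      have h2 := hval (F₀.equivFin ⟨i, hi⟩).1 (F₀.equivFin ⟨i, hi⟩).2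
      have h3 : (F₀.equivFin.symm ⟨(F₀.equivFin ⟨i, hi⟩).1, (F₀.equivFin ⟨i, hi⟩).2⟩ : F₀) =
          ⟨i, hi⟩ := by
        rw [Fin.eta, Equiv.symm_apply_apply]
      rw [h3] at h2
      refine iInf_le_of_le (F₀.equivFin ⟨i, hi⟩).1 (iInf_le_of_le (F₀.equivFin ⟨i, hi⟩).2 ?_)
      rw [h2]
    · refine le_iInf fun j => le_iInf fun hj => ?_
      rw [hval j hj]
      exact iInf_le_of_le _ (iInf_le_of_le (F₀.equivFin.symm ⟨j, hj⟩ : F₀).2 le_rfl)

theorem e_split (he : DE D e) (c : L) {p : Cond L K} (hp : res (Set.Iic c) p = p) :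
    e p = e (res (Set.Iio c) p) ⊓ e (upd 0 c (p c)) := by
  apply le_antisymm
  · refine le_inf (he.mono _ _ (leP_res D _ p)) (he.mono _ _ (le_single D (u := []) ?_ ?_ ?_))
    · rw [List.append_nil]
    · exact Finset.Subset.refl _
    · intro i _
      exact WW_nil D c i _ _
  · apply he.le_of_dense
    intro q hq
    obtain ⟨q1, hq1, hq1'⟩ := psg_compat he (hq.trans inf_le_left)
    obtain ⟨q2, hq2, hq2'⟩ := psg_compat he ((he.mono _ _ hq1).trans (hq.trans inf_le_right))
    refine ⟨q2, leP_trans D _ _ _ hq2 hq1, he.mono _ _ ?_⟩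
    exact le_of_parts D hp (leP_trans D _ _ _ hq2 hq1') hq2'

end MAdd
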