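import Pool.Agent.H7.MAdd.PCC2

/-!
# PVAL: values of names

`nval_surj`: `x n ∈ Sb (Iio c)`; `x n = sSup {e p | res (Iio c) p = p, e p ≤ x n}` (density and the
definition of `Sb`); by the countable chain condition countably many of them suffice; enumerate them
(`Set.Countable.exists_eq_range`, with `none` if there are none).
`cfun`: elementary.
-/

set_option autoImplicit false

open BV

namespace MAdd

variable {L K : Type} [LinearOrder L] [WellFoundedLT L] {D : Dat L K}
  {B : Type} [CompleteBooleanAlgebra B] {e : Cond L K → B}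

theorem nval_mem (he : DE D e) (c : L) (r : Nm L K) :
    InR (Sb he (Set.Iio c) (isLowerSet_Iio c)) (nval e c r) := by
  intro n
  refine CS.iSup_mem _ fun m => CS.iSup_mem _ fun a => CS.iSup_mem _ fun _ => ?_
  exact e_mem he _ (by rw [res_res, Set.inter_self])

theorem pval_sup (he : DE D e) (c : L) {b : B}
    (hb : b ∈ Sb he (Set.Iio c) (isLowerSet_Iio c)) :
    ∃ r : ℕ → Option (Cond L K), (∀ m a, r m = some a → res (Set.Iio c) a = a) ∧
      (⨆ m, ⨆ a, ⨆ (_ : r m = some a), e (res (Set.Iio c) a)) = b := by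
  obtain ⟨T, hT, hTc, hTs⟩ := ccc he (e '' {p | res (Set.Iio c) p = p ∧ e p ≤ b})
  have hb' : sSup T = b := by
    rw [hTs]
    apply le_antisymm
    · refine sSup_le ?_
      rintro x ⟨p, hp, rfl⟩
      exact hp.2
    · refine he.le_of_dense fun p hp => ⟨p, leP_refl D p, ?_⟩
      refine (he.mono _ _ (leP_res D (Set.Iio c) p)).trans (le_sSup ⟨res (Set.Iio c) p, ⟨?_, ?_⟩, rfl⟩)
      · rw [res_res, Set.inter_self]
      · exact (mem_Sb he).1 hb p hp
  rcases T.eq_empty_or_nonempty with h0 | h0
  · refine ⟨fun _ => none, fun m a h => absurd h (by simp), ?_⟩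
    rw [h0, sSup_empty] at hb'
    rw [← hb']
    simp
  · obtain ⟨f, hf⟩ := hTc.exists_eq_range h0
    have h1 : ∀ m, ∃ p, (res (Set.Iio c) p = p ∧ e p ≤ b) ∧ e p = f m := fun m =>
      hT (by rw [hf]; exact ⟨m, rfl⟩)
    choose a ha hae using h1
    refine ⟨fun m => some (a m), fun m p h => ?_, ?_⟩
    · obtain rfl := Option.some.inj h
      exact (ha m).1
    · rw [← hb', hf, sSup_range]
      refine iSup_congr fun m => ?_
      apply le_antisymm
      · refine iSup_le fun p => iSup_le fun hp => ?_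
        obtain rfl := Option.some.inj hp
        rw [(ha m).1, hae m]
      · refine le_iSup_of_le (a m) (le_iSup_of_le rfl ?_)
        rw [(ha m).1, hae m]

theorem nval_surj (he : DE D e) (c : L) {x : ℕ → B}
    (hx : InR (Sb he (Set.Iio c) (isLowerSet_Iio c)) x) :
    ∃ r : Nm L K, (∀ n m a, r n m = some a → res (Set.Iio c) a = a) ∧ nval e c r = x := by
  choose r h1 h2 using fun n => pval_sup he c (hx n)
  exact ⟨r, h1, funext fun n => h2 n⟩

theorem exists_index (hD : Ok D) (he : DE D e) (c : L) {x : ℕ → B}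
    (hx : InR (Sb he (Set.Iio c) (isLowerSet_Iio c)) x) :
    ∃ i, nval e c (D.ν c i) = x := by
  obtain ⟨r, h1, h2⟩ := nval_surj he c hx
  obtain ⟨i, hi⟩ := hD.νsurj c r h1
  exact ⟨i, by rw [hi, h2]⟩

theorem cfun_isFn (x : ℕ → B) : IsFn (cfun x) := by
  refine ⟨fun i v w hvw => ?_, fun i => ?_⟩
  · unfold cfun
    by_cases h : i < v
    · rw [if_pos h, if_pos (h.trans_le hvw)]
      refine sup_le_sup_right ?_ _
      exact iSup_le fun v' => iSup_le fun hv' =>
        le_iSup_of_le v' (le_iSup_of_le (hv'.trans hvw) le_rfl)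
    · rw [if_neg h]
      exact bot_le
  · rw [eq_top_iff, ← sup_compl_eq_top (x := ⨆ v', x (Nat.pair i v'))]
    refine sup_le (iSup_le fun v' => ?_) ?_
    · refine le_iSup_of_le (max v' (i + 1)) ?_
      unfold cfun
      rw [if_pos (lt_of_lt_of_le (Nat.lt_succ_self i) (le_max_right _ _))]
      refine le_sup_of_le_left ?_
      exact le_iSup_of_le v' (le_iSup_of_le (le_max_left _ _) le_rfl)
    · refine le_iSup_of_le (i + 1) ?_
      unfold cfun
      rw [if_pos (Nat.lt_succ_self i)]
      exact le_sup_right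

theorem cfun_adv (x : ℕ → B) : Adv (cfun x) := by
  intro i v hv
  unfold cfun
  rw [if_neg (not_lt.2 hv)]

theorem cfun_mem {A : CS B} {x : ℕ → B} (hx : InR A x) : InF A (cfun x) := by
  intro i v
  unfold cfun
  by_cases h : i < v
  · rw [if_pos h]
    exact A.sup_mem (A.iSup_mem fun v' => A.iSup_mem fun _ => hx _)
      (A.compl_mem (A.iSup_mem fun v' => hx _))
  · rw [if_neg h]
    exact A.bot_mem

theorem cfun_surj {f : ℕ → ℕ → B} (hf : IsFn f) (ha : Adv f) :
    cfun (fun k => f (Nat.unpair k).1 (Nat.unpair k).2) = f := by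
  funext w v
  unfold cfun
  by_cases h : w < v
  · rw [if_pos h]
    simp only [Nat.unpair_pair]
    rw [hf.tot w, compl_top, sup_bot_eq]
    apply le_antisymm
    · exact iSup_le fun v' => iSup_le fun hv' => hf.mono w v' v hv'
    · exact le_iSup_of_le v (le_iSup_of_le le_rfl le_rfl)
  · rw [if_neg h, ha w v (not_lt.1 h)]

/-- every function of stage `c` is used at some coordinate `d ≥ c`; note that a name read below `c`
with all conditions supported below `c` has the same value read below `d` -/
theorem exists_coord (hD : Ok D) (he : DE D e) (c : L) {f : ℕ → ℕ → B}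
    (hf : InF (Sb he (Set.Iio c) (isLowerSet_Iio c)) f) (hf' : IsFn f) (ha : Adv f) :
    ∃ d, c ≤ d ∧ cfun (nval e d (D.fb d)) = f := by
  obtain ⟨r, h1, h2⟩ := nval_surj he c
    (x := fun k => f (Nat.unpair k).1 (Nat.unpair k).2) (fun k => hf _ _)
  obtain ⟨d, hcd, hd⟩ := hD.fsurj c r h1
  refine ⟨d, hcd, ?_⟩
  rw [hd]
  have h3 : nval e d r = nval e c r := by
    funext n
    unfold nval
    refine iSup_congr fun m => iSup_congr fun a => iSup_congr fun h => ?_
    have h4 := h1 n m a h
    have h5 : res (Set.Iio d) a = a := by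
      have h6 : Set.Iio d ∩ Set.Iio c = Set.Iio c :=
        Set.inter_eq_right.2 (Set.Iio_subset_Iio hcd)
      calc res (Set.Iio d) a = res (Set.Iio d) (res (Set.Iio c) a) := by rw [h4]
        _ = res (Set.Iio c) a := by rw [res_res, h6]
        _ = a := h4
    rw [h4, h5]
  rw [h3, h2]
  exact cfun_surj hf' ha

end MAdd
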